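import Pool.Agent.NT9.GePA

set_option autoImplicit false

/-! # PB: the submodule of the elements of `Mo ^ e` which vanish at the point `O` -/

namespace Pool.Agent.NT9

variable {K : Type} [Field K]

/-- If the residue field is finite then some integer `N ≠ 0` is in the maximal ideal (pigeonhole principle for the elements
`0, 1, 2, ...` of `O` and the finite set `S`: two of them have the same representative). -/
theorem exists_int_mem {O : Subring K} [IsLocalRing O] (h : FinRes O) :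
    ∃ N : ℤ, N ≠ 0 ∧ (N : K) ∈ mx O := by
  obtain ⟨S, hS⟩ := h
  choose s hs hsO hsm using fun n : ℕ => hS (n : K) (natCast_mem O n)
  obtain ⟨n, m, hnm, heq⟩ := Finite.exists_ne_map_eq_of_infinite
    (fun n : ℕ => (⟨s n, hs n⟩ : {x // x ∈ S}))
  have heq' : s n = s m := congrArg Subtype.val heq
  refine ⟨(n : ℤ) - m, fun h => hnm (by omega), ?_⟩
  have h1 := mx_sub (hsm n) (hsm m)
  rw [heq'] at h1
  have h2 : (n : K) - s m - ((m : K) - s m) = (((n : ℤ) - m : ℤ) : K) := by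
    push_cast
    ring
  rw [h2] at h1
  exact h1

/-- The elements of `Mo ^ e` which vanish at `O`, for `e` large. `g` is a generating family of `Mo`.
Proof. `P = {u ∈ Mo ^ e | u / μ0 ^ e ∈ mx O}` with `μ0 = g i0` from `loc_gen`. For any `i` with `g i ≠ 0`, `IsFr (ch Mo (g i)) O` the quotient
`g i / μ0` is a unit of `O` (`g i / μ0 ∈ ch Mo μ0`, `μ0 / g i ∈ ch Mo (g i)`), so `u / μ0 ^ e ∈ mx O` iff `u / (g i) ^ e ∈ mx O`.
`e` = maximum of `1` and the bounds of `gen_mx` for the finitely many such `i` (`ι` is finite). Integers: `exists_int_mem`: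
`N u / μ0 ^ e = N (u / μ0 ^ e) ∈ mx O`, as `u / μ0 ^ e ∈ ch Mo μ0 ≤ O` (`div_pow_mem_ch`). Last claim: if `g i / μ0 ∈ O` were a unit then
`fr_change` gives `IsFr (ch Mo (g i)) O`; so `g i / μ0 ∈ mx O` and `(g i) ^ e / μ0 ^ e ∈ mx O` since `e ≥ 1`. -/
theorem exists_P {Mo : Submodule ℤ K} {ι : Type} [Fintype ι] {g : ι → K}
    (hg : Mo = Submodule.span ℤ (Set.range g)) {O : Subring K} (hO : O ∈ Loc Mo)
    (hfr : FinRes O) : ∃ (e : ℕ) (P : Submodule ℤ K), 0 < e ∧ P ≤ Mo ^ e ∧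
      (∃ N : ℤ, N ≠ 0 ∧ ∀ x ∈ Mo ^ e, (N : K) * x ∈ P) ∧
      (∀ i, g i ≠ 0 → IsFr (ch Mo (g i)) O →
        (∀ u ∈ P, u / g i ^ e ∈ mx O) ∧
        ∀ x ∈ ch Mo (g i), x ∈ mx O → ∃ (k : ℕ) (a u : Fin k → K), (∀ j, a j ∈ ch Mo (g i)) ∧
          (∀ j, u j ∈ P) ∧ x = ∑ j, a j * (u j / g i ^ e)) ∧
      (∀ i, g i ≠ 0 → ¬ IsFr (ch Mo (g i)) O → g i ^ e ∈ P) := by
  have hloc : IsLocalRing O := hO.1
  obtain ⟨i0, hi0, hfr0⟩ := loc_gen hg hO
  have hgm : ∀ i, g i ∈ Mo := fun i => by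
    rw [hg]
    exact Submodule.subset_span ⟨i, rfl⟩
  have hMfg : Mo.FG := by
    rw [hg]
    exact Submodule.fg_span (Set.finite_range g)
  have hex : ∀ i, ∃ e0 : ℕ, g i ≠ 0 → IsFr (ch Mo (g i)) O → ∀ e, e0 ≤ e → ∀ x ∈ ch Mo (g i),
      x ∈ mx O → ∃ (k : ℕ) (a u : Fin k → K), (∀ j, a j ∈ ch Mo (g i)) ∧ (∀ j, u j ∈ Mo ^ e) ∧
        (∀ j, u j / g i ^ e ∈ mx O) ∧ x = ∑ j, a j * (u j / g i ^ e) := by
    intro i
    by_cases hi : g i ≠ 0 ∧ IsFr (ch Mo (g i)) O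
    · obtain ⟨e0, h⟩ := gen_mx hMfg (hgm i) hi.1 hi.2.1
      exact ⟨e0, fun _ _ => h⟩
    · exact ⟨0, fun h1 h2 => absurd ⟨h1, h2⟩ hi⟩
  choose e0 he0 using hex
  set e : ℕ := Finset.univ.sup e0 + 1 with he
  have hle : ∀ i, e0 i ≤ e := fun i => (Finset.le_sup (Finset.mem_univ i)).trans (Nat.le_succ _)
  have hμe : g i0 ^ e ≠ 0 := pow_ne_zero _ hi0
  let P : Submodule ℤ K :=
    { carrier := {u | u ∈ Mo ^ e ∧ u / g i0 ^ e ∈ mx O}
      add_mem' := by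
        rintro a b ⟨h1, h2⟩ ⟨h3, h4⟩
        refine ⟨Submodule.add_mem _ h1 h3, ?_⟩
        rw [add_div]
        exact mx_add h2 h4
      zero_mem' := ⟨Submodule.zero_mem _, by rw [zero_div]; exact zero_mem_mx⟩
      smul_mem' := by
        rintro n a ⟨h1, h2⟩
        refine ⟨Submodule.smul_mem _ _ h1, ?_⟩
        rw [zsmul_eq_mul, mul_div_assoc]
        exact mx_mul (intCast_mem O n) h2 }
  have hP : ∀ u, u ∈ P ↔ u ∈ Mo ^ e ∧ u / g i0 ^ e ∈ mx O := fun u => Iff.rfl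
  refine ⟨e, P, Nat.succ_pos _, fun u hu => hu.1, ?_, fun i hi hfri => ⟨fun u hu => ?_, ?_⟩,
    fun i hi hni => ?_⟩
  · obtain ⟨N, hN, hNm⟩ := exists_int_mem hfr
    refine ⟨N, hN, fun x hx => (hP _).mpr ⟨?_, ?_⟩⟩
    · rw [← zsmul_eq_mul]
      exact Submodule.smul_mem _ _ hx
    · rw [mul_div_assoc]
      exact mx_mul_right hNm (hfr0.1 (div_pow_mem_ch hi0 hx))
  · have h1 : u / g i ^ e = u / g i0 ^ e * (g i0 / g i) ^ e := by
      rw [div_pow]
      field_simp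
    rw [h1]
    exact mx_mul_right hu.2 (O.pow_mem (hfri.1 (Subring.subset_closure ⟨g i0, hgm i0, rfl⟩)) _)
  · intro x hx hxm
    obtain ⟨k, a, u, h1, h2, h3, h4⟩ := he0 i hi hfri e (hle i) x hx hxm
    refine ⟨k, a, u, h1, fun j => (hP _).mpr ⟨h2 j, ?_⟩, h4⟩
    have h5 : u j / g i0 ^ e = u j / g i ^ e * (g i / g i0) ^ e := by
      rw [div_pow]
      field_simp
    rw [h5]
    exact mx_mul_right (h3 j)
      (O.pow_mem (hfr0.1 (Subring.subset_closure ⟨g i, hgm i, rfl⟩)) _)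
  · refine (hP _).mpr ⟨Submodule.pow_mem_pow _ (hgm i) _, ?_⟩
    have h1 : g i / g i0 ∈ O := hfr0.1 (Subring.subset_closure ⟨g i, hgm i, rfl⟩)
    have h2 : g i / g i0 ∈ mx O := by
      by_contra hcon
      rw [notMem_mx_iff h1] at hcon
      apply hni
      refine fr_change (hgm i) hi (hgm i0) hi0 h1 ?_ hfr0
      rw [← inv_div]
      exact hcon.2
    rw [← div_pow, he, pow_succ]
    exact mx_mul (O.pow_mem h1 _) h2

end Pool.Agent.NT9
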