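import Pool.Agent.NT9.GeDefs

set_option autoImplicit false

/-! # COM: commensurable submodules -/

namespace Pool.Agent.NT9

variable {K : Type} [Field K] {A B C D : Submodule ℤ K}

theorem Com.refl (A : Submodule ℤ K) : Com A A := by
  refine ⟨fun x hx => ⟨1, one_ne_zero, ?_⟩, fun x hx => ⟨1, one_ne_zero, ?_⟩⟩ <;>
    simpa using hx

theorem Com.symm (h : Com A B) : Com B A := by
  exact ⟨h.2, h.1⟩

theorem Com.trans (h : Com A B) (h' : Com B C) : Com A C := by
  have key : ∀ {A B C : Submodule ℤ K}, (∀ x ∈ A, ∃ N : ℤ, N ≠ 0 ∧ (N : K) * x ∈ B) →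
      (∀ x ∈ B, ∃ N : ℤ, N ≠ 0 ∧ (N : K) * x ∈ C) → ∀ x ∈ A, ∃ N : ℤ, N ≠ 0 ∧ (N : K) * x ∈ C := by
    intro A B C h1 h2 x hx
    obtain ⟨N, hN, h3⟩ := h1 x hx
    obtain ⟨N', hN', h4⟩ := h2 _ h3
    refine ⟨N' * N, mul_ne_zero hN' hN, ?_⟩
    rw [Int.cast_mul, mul_assoc]
    exact h4
  exact ⟨key h.1 h'.1, key h'.2 h.2⟩

/-- Induction on `A * B` (`Submodule.mul_induction_on`): for `a b` multiply the two integers; for sums take the product of the
integers. -/
theorem Com.mul (h : Com A B) (h' : Com C D) : Com (A * C) (B * D) := by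
  have key : ∀ {A B C D : Submodule ℤ K}, (∀ x ∈ A, ∃ N : ℤ, N ≠ 0 ∧ (N : K) * x ∈ B) →
      (∀ x ∈ C, ∃ N : ℤ, N ≠ 0 ∧ (N : K) * x ∈ D) →
      ∀ x ∈ A * C, ∃ N : ℤ, N ≠ 0 ∧ (N : K) * x ∈ B * D := by
    intro A B C D h1 h2 x hx
    have hsm : ∀ (N : ℤ) (z : K), z ∈ B * D → (N : K) * z ∈ B * D := by
      intro N z hz
      rw [← zsmul_eq_mul]
      exact zsmul_mem hz N
    induction hx using Submodule.mul_induction_on' with
    | mem_mul_mem a ha c hc =>
      obtain ⟨N, hN, h3⟩ := h1 a ha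
      obtain ⟨N', hN', h4⟩ := h2 c hc
      refine ⟨N * N', mul_ne_zero hN hN', ?_⟩
      have h5 : ((N * N' : ℤ) : K) * (a * c) = ((N : K) * a) * ((N' : K) * c) := by
        push_cast
        ring
      rw [h5]
      exact Submodule.mul_mem_mul h3 h4
    | add x _ y _ hx hy =>
      obtain ⟨N, hN, h3⟩ := hx
      obtain ⟨N', hN', h4⟩ := hy
      refine ⟨N * N', mul_ne_zero hN hN', ?_⟩
      have h5 : ((N * N' : ℤ) : K) * (x + y) = (N' : K) * ((N : K) * x) +
          (N : K) * ((N' : K) * y) := by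
        push_cast
        ring
      rw [h5]
      exact Submodule.add_mem _ (hsm _ _ h3) (hsm _ _ h4)
  exact ⟨key h.1 h'.1, key h.2 h'.2⟩

theorem Com.pow (h : Com A B) (k : ℕ) : Com (A ^ k) (B ^ k) := by
  induction k with
  | zero =>
    rw [pow_zero, pow_zero]
    exact Com.refl _
  | succ k ih =>
    rw [pow_succ, pow_succ]
    exact Com.mul ih h

/-- Composition of two steps. -/
theorem Com.step {M1 M2 M3 : Submodule ℤ K} {E E' : ℕ} (h : Com M2 (M1 ^ E))
    (h' : Com M3 (M2 ^ E')) : Com M3 (M1 ^ (E * E')) := by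
  rw [pow_mul]
  exact Com.trans h' (Com.pow h E')

/-- A submodule between `N • A` and `A`. -/
theorem Com.of_le (hle : B ≤ A) {N : ℤ} (hN : N ≠ 0) (h : ∀ x ∈ A, (N : K) * x ∈ B) :
    Com B A := by
  refine ⟨fun x hx => ⟨1, one_ne_zero, ?_⟩, fun x hx => ⟨N, hN, h x hx⟩⟩
  simpa using hle hx

/-- Powers and products of finitely generated submodules (Mathlib: `Submodule.FG.mul`, `Submodule.FG.pow`), and submodules of
finitely generated ones. -/
theorem fg_pow (h : A.FG) (k : ℕ) : (A ^ k).FG := by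
  exact Submodule.FG.pow h k

theorem fg_of_le (h : A.FG) (hle : B ≤ A) : B.FG := by
  have h1 : IsNoetherian ℤ A := isNoetherian_of_fg_of_noetherian A h
  exact isNoetherian_submodule.mp h1 B hle

theorem fg_mul (hA : A.FG) (hB : B.FG) : (A * B).FG := by
  exact Submodule.FG.mul hA hB

end Pool.Agent.NT9
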