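import Pool.Agent.NT9.GeSub

set_option autoImplicit false

/-! # FRA: changing the denominator; local rings of a product -/

namespace Pool.Agent.NT9

variable {K : Type} [Field K]

/-- For `x ∈ ℤ[Mo / μ]` and `N` large, `x (μ / μ') ^ N ∈ ℤ[Mo / μ']` (`μ ∈ Mo`, so `μ / μ' ∈ ch Mo μ'`).
Proof: induction on the closure: `y / μ * (μ / μ') = y / μ'`; sums and products: take the sum of
the exponents and multiply with powers of `μ / μ' ∈ ch Mo μ'`. -/
theorem ch_pow_mem {Mo : Submodule ℤ K} {μ μ' : K} (hμ : μ ∈ Mo) (h0 : μ ≠ 0) (h0' : μ' ≠ 0)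
    {x : K} (hx : x ∈ ch Mo μ) : ∃ N : ℕ, x * (μ / μ') ^ N ∈ ch Mo μ' := by
  have hr : μ / μ' ∈ ch Mo μ' := Subring.subset_closure ⟨μ, hμ, rfl⟩
  unfold ch at hx
  induction hx using Subring.closure_induction with
  | mem x hx =>
    obtain ⟨y, hy, rfl⟩ := hx
    refine ⟨1, ?_⟩
    have h1 : y / μ * (μ / μ') ^ 1 = y / μ' := by
      field_simp
    rw [h1]
    exact Subring.subset_closure ⟨y, hy, rfl⟩
  | zero => exact ⟨0, by simpa using (ch Mo μ').zero_mem⟩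
  | one => exact ⟨0, by simpa using (ch Mo μ').one_mem⟩
  | add x y _ _ hx hy =>
    obtain ⟨N, hN⟩ := hx
    obtain ⟨N', hN'⟩ := hy
    refine ⟨N + N', ?_⟩
    have h1 : (x + y) * (μ / μ') ^ (N + N') = x * (μ / μ') ^ N * (μ / μ') ^ N' +
        y * (μ / μ') ^ N' * (μ / μ') ^ N := by
      rw [pow_add]
      ring
    rw [h1]
    exact Subring.add_mem _ (Subring.mul_mem _ hN (Subring.pow_mem _ hr _))
      (Subring.mul_mem _ hN' (Subring.pow_mem _ hr _))
  | neg x _ hx =>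
    obtain ⟨N, hN⟩ := hx
    refine ⟨N, ?_⟩
    rw [neg_mul]
    exact Subring.neg_mem _ hN
  | mul x y _ _ hx hy =>
    obtain ⟨N, hN⟩ := hx
    obtain ⟨N', hN'⟩ := hy
    refine ⟨N + N', ?_⟩
    have h1 : x * y * (μ / μ') ^ (N + N') = x * (μ / μ') ^ N * (y * (μ / μ') ^ N') := by
      rw [pow_add]
      ring
    rw [h1]
    exact Subring.mul_mem _ hN hN'

/-- If `μ / μ'` is a unit of `O` then `μ'` may be replaced by `μ`.
Proof. `ch Mo μ ≤ O` : `y / μ = (y / μ') (μ / μ')⁻¹`. Fractions: for `x ∈ O` take `u, v ∈ ch Mo μ'` with `x v = u`; by `ch_pow_mem`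
(roles of `μ, μ'` exchanged) `u (μ' / μ) ^ N`, `v (μ' / μ) ^ N` are in `ch Mo μ` for a common `N` (multiply with further powers of
`μ' / μ ∈ ch Mo μ`); the inverse of `v (μ' / μ) ^ N` is `v⁻¹ (μ / μ') ^ N ∈ O`. -/
theorem fr_change {Mo : Submodule ℤ K} {μ μ' : K} (hμ : μ ∈ Mo) (h0 : μ ≠ 0) (hμ' : μ' ∈ Mo)
    (h0' : μ' ≠ 0) {O : Subring K} (h1 : μ / μ' ∈ O) (h2 : μ' / μ ∈ O) (h : IsFr (ch Mo μ') O) :
    IsFr (ch Mo μ) O := by
  have hs : μ' / μ ∈ ch Mo μ := Subring.subset_closure ⟨μ', hμ', rfl⟩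
  refine ⟨?_, fun x hx => ?_⟩
  · unfold ch
    rw [Subring.closure_le]
    rintro _ ⟨y, hy, rfl⟩
    have h3 : y / μ = y / μ' * (μ' / μ) := by
      field_simp
    rw [h3]
    exact O.mul_mem (h.1 (Subring.subset_closure ⟨y, hy, rfl⟩)) h2
  · obtain ⟨u, hu, v, hv, hv0, hvO, hxv⟩ := h.2 x hx
    obtain ⟨N, hN⟩ := ch_pow_mem hμ' h0' h0 hu
    obtain ⟨N', hN'⟩ := ch_pow_mem hμ' h0' h0 hv
    refine ⟨u * (μ' / μ) ^ (N + N'), ?_, v * (μ' / μ) ^ (N + N'), ?_, ?_, ?_, ?_⟩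
    · rw [pow_add, ← mul_assoc]
      exact Subring.mul_mem _ hN (Subring.pow_mem _ hs _)
    · rw [add_comm, pow_add, ← mul_assoc]
      exact Subring.mul_mem _ hN' (Subring.pow_mem _ hs _)
    · exact mul_ne_zero hv0 (pow_ne_zero _ (div_ne_zero h0' h0))
    · rw [mul_inv, ← inv_pow, inv_div]
      exact O.mul_mem hvO (O.pow_mem h1 _)
    · rw [← mul_assoc, hxv]

/-- A local ring of the model of `Mo` can be described with an element of any generating family.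
Proof. Let `μ' ∈ Mo` with `IsFr (ch Mo μ') O`. All `g i / μ' ∈ O` and `μ' = ∑ n_i g_i` (finite sum, integers), so
`1 = ∑ n_i (g_i / μ')` and some `g i / μ' ∉ mx O` (`exists_notMem_of_sum`); apply `fr_change`. -/
theorem loc_gen {Mo : Submodule ℤ K} {ι : Type} {g : ι → K}
    (hg : Mo = Submodule.span ℤ (Set.range g)) {O : Subring K} (hO : O ∈ Loc Mo) :
    ∃ i, g i ≠ 0 ∧ IsFr (ch Mo (g i)) O := by
  obtain ⟨hloc, μ', hμ', h0', hfr⟩ := hO
  have hgm : ∀ i, g i ∈ Mo := fun i => by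
    rw [hg]
    exact Submodule.subset_span ⟨i, rfl⟩
  have hgO : ∀ i, g i / μ' ∈ O := fun i => hfr.1 (Subring.subset_closure ⟨g i, hgm i, rfl⟩)
  have h1 := hμ'
  rw [hg, Finsupp.mem_span_range_iff_exists_finsupp] at h1
  obtain ⟨c, hc⟩ := h1
  have h2 : ∑ i ∈ c.support, (c i : K) * (g i / μ') = 1 := by
    have h3 : ∑ i ∈ c.support, (c i : K) * (g i / μ') = (∑ i ∈ c.support, c i • g i) / μ' := by
      rw [Finset.sum_div]
      refine Finset.sum_congr rfl fun i _ => ?_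
      rw [zsmul_eq_mul, mul_div_assoc]
    rw [h3]
    have h4 : ∑ i ∈ c.support, c i • g i = μ' := hc
    rw [h4, div_self h0']
  obtain ⟨i, _, hi⟩ := exists_notMem_of_sum (O := O) c.support (fun i => (c i : K))
    (fun i => g i / μ') (fun i _ => intCast_mem O (c i)) (by rw [h2]; exact one_notMem_mx)
  rw [notMem_mx_iff (hgO i)] at hi
  have hgi : g i ≠ 0 := fun h => hi.1 (by rw [h, zero_div])
  refine ⟨i, hgi, fr_change (hgm i) hgi hμ' h0' (hgO i) ?_ hfr⟩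
  rw [← inv_div]
  exact hi.2

/-- The case of a product. Proof. `A * B` is spanned by the products `a b`, so as in `loc_gen` there are `a ∈ A`, `b ∈ B` with
`a b ≠ 0` and `IsFr (ch (A * B) (a * b)) O`; and `x / a = (x b) / (a b)`. -/
theorem loc_mul {A B : Submodule ℤ K} {ι : Type} {g : ι → K}
    (hg : A = Submodule.span ℤ (Set.range g)) {O : Subring K} (hO : O ∈ Loc (A * B)) :
    ∃ (i : ι) (b : K), b ∈ B ∧ g i ≠ 0 ∧ b ≠ 0 ∧ (∀ x ∈ A, x / g i ∈ O) ∧ (∀ x ∈ B, x / b ∈ O) ∧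
      IsFr (ch (A * B) (g i * b)) O := by
  open scoped Pointwise in
  have hAB : A * B = Submodule.span ℤ (Set.range fun q : ι × B => g q.1 * (q.2 : K)) := by
    have h1 : (Set.range fun q : ι × B => g q.1 * (q.2 : K)) = Set.range g * (B : Set K) := by
      ext x
      rw [Set.mem_mul]
      constructor
      · rintro ⟨⟨i, b⟩, rfl⟩
        exact ⟨g i, ⟨i, rfl⟩, b, b.2, rfl⟩
      · rintro ⟨_, ⟨i, rfl⟩, b, hb, rfl⟩
        exact ⟨⟨i, ⟨b, hb⟩⟩, rfl⟩
    rw [h1, ← Submodule.span_mul_span, ← hg, Submodule.span_eq]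
  obtain ⟨⟨i, b⟩, hne, hfr⟩ := loc_gen hAB hO
  have hgi : g i ≠ 0 := left_ne_zero_of_mul hne
  have hb : (b : K) ≠ 0 := right_ne_zero_of_mul hne
  have hgA : g i ∈ A := by
    rw [hg]
    exact Submodule.subset_span ⟨i, rfl⟩
  refine ⟨i, b, b.2, hgi, hb, fun x hx => ?_, fun x hx => ?_, hfr⟩
  · have h1 : x / g i = x * b / (g i * b) := by
      field_simp
    rw [h1]
    exact hfr.1 (Subring.subset_closure ⟨x * b, Submodule.mul_mem_mul hx b.2, rfl⟩)
  · have h1 : x / (b : K) = g i * x / (g i * b) := by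
      field_simp
    rw [h1]
    exact hfr.1 (Subring.subset_closure ⟨g i * x, Submodule.mul_mem_mul hgA hx, rfl⟩)

end Pool.Agent.NT9
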