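import Pool.Agent.NT9.GeCom
import Pool.Agent.NT9.GeFrA

set_option autoImplicit false

/-! # PA: the chart rings -/

namespace Pool.Agent.NT9

variable {K : Type} [Field K]

/-- `x / μ ^ e ∈ ch Mo μ` for `x ∈ Mo ^ e`. Proof: induction on `e`, `Submodule.mul_induction_on`. -/
theorem div_pow_mem_ch {Mo : Submodule ℤ K} {μ : K} (hμ : μ ≠ 0) {e : ℕ} {x : K} (hx : x ∈ Mo ^ e) :
    x / μ ^ e ∈ ch Mo μ := by
  induction e generalizing x with
  | zero =>
    rw [pow_zero, Submodule.mem_one] at hx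
    obtain ⟨n, rfl⟩ := hx
    rw [pow_zero, div_one]
    simp
  | succ e ih =>
    rw [pow_succ] at hx
    induction hx using Submodule.mul_induction_on' with
    | mem_mul_mem a ha c hc =>
      have h1 : a * c / μ ^ (e + 1) = a / μ ^ e * (c / μ) := by
        rw [pow_succ]
        field_simp
      rw [h1]
      exact Subring.mul_mem _ (ih ha) (Subring.subset_closure ⟨c, hc, rfl⟩)
    | add x _ y _ hx hy =>
      rw [add_div]
      exact Subring.add_mem _ hx hy

/-- Every element of `ch Mo μ` is `u / μ ^ e` with `u ∈ Mo ^ e`, for all large `e` (`μ ∈ Mo`).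
Proof: induction on the closure. -/
theorem exists_pow_of_ch {Mo : Submodule ℤ K} {μ : K} (hμ : μ ∈ Mo) (h0 : μ ≠ 0) {x : K}
    (hx : x ∈ ch Mo μ) : ∃ e0 : ℕ, ∀ e, e0 ≤ e → x * μ ^ e ∈ Mo ^ e := by
  have hpow : ∀ k : ℕ, μ ^ k ∈ Mo ^ k := fun k => Submodule.pow_mem_pow _ hμ k
  have hup : ∀ (x : K) (e e' : ℕ), x * μ ^ e ∈ Mo ^ e → e ≤ e' → x * μ ^ e' ∈ Mo ^ e' := by
    intro x e e' h hle
    obtain ⟨k, rfl⟩ := Nat.exists_eq_add_of_le hle
    rw [pow_add, pow_add, ← mul_assoc]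
    exact Submodule.mul_mem_mul h (hpow k)
  suffices h : ∃ e : ℕ, x * μ ^ e ∈ Mo ^ e by
    obtain ⟨e, he⟩ := h
    exact ⟨e, fun e' h => hup x e e' he h⟩
  unfold ch at hx
  induction hx using Subring.closure_induction with
  | mem x hx =>
    obtain ⟨y, hy, rfl⟩ := hx
    refine ⟨1, ?_⟩
    rw [pow_one, pow_one, div_mul_cancel₀ _ h0]
    exact hy
  | zero => exact ⟨0, by rw [zero_mul]; exact Submodule.zero_mem _⟩
  | one => exact ⟨0, by rw [one_mul]; exact hpow 0⟩
  | add x y _ _ hx hy =>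
    obtain ⟨e, he⟩ := hx
    obtain ⟨e', he'⟩ := hy
    refine ⟨e + e', ?_⟩
    rw [add_mul]
    exact Submodule.add_mem _ (hup x e _ he (by omega)) (hup y e' _ he' (by omega))
  | neg x _ hx =>
    obtain ⟨e, he⟩ := hx
    refine ⟨e, ?_⟩
    rw [neg_mul]
    exact Submodule.neg_mem _ he
  | mul x y _ _ hx hy =>
    obtain ⟨e, he⟩ := hx
    obtain ⟨e', he'⟩ := hy
    refine ⟨e + e', ?_⟩
    have h1 : x * y * μ ^ (e + e') = x * μ ^ e * (y * μ ^ e') := by
      rw [pow_add]
      ring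
    rw [h1, pow_add]
    exact Submodule.mul_mem_mul he he'

/-- `ch Mo μ` is Noetherian: it is the closure of finitely many elements (the generators of `Mo` divided by `μ`).
(Compare `NH.LATD_noeth`: `isNoetherianRing_of_fg`; or `Algebra.FiniteType.isNoetherianRing ℤ`.) -/
theorem noeth_ch {Mo : Submodule ℤ K} (h : Mo.FG) (μ : K) : IsNoetherianRing (ch Mo μ) := by
  obtain ⟨S, hS⟩ := h
  have h1 : ch Mo μ = Subring.closure ((fun y => y / μ) '' (S : Set K)) := by
    apply le_antisymm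
    · unfold ch
      rw [Subring.closure_le]
      rintro _ ⟨y, hy, rfl⟩
      rw [← hS] at hy
      induction hy using Submodule.span_induction with
      | mem x hx => exact Subring.subset_closure ⟨x, hx, rfl⟩
      | zero =>
        rw [zero_div]
        exact Subring.zero_mem _
      | add x y _ _ hx hy =>
        rw [add_div]
        exact Subring.add_mem _ hx hy
      | smul n x _ hx =>
        rw [zsmul_eq_mul, mul_div_assoc]
        exact Subring.mul_mem _ (intCast_mem _ n) hx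
    · rw [Subring.closure_le]
      rintro _ ⟨y, hy, rfl⟩
      refine Subring.subset_closure ⟨y, ?_, rfl⟩
      rw [← hS]
      exact Submodule.subset_span hy
  have h2 : (Algebra.adjoin ℤ ((fun y => y / μ) '' (S : Set K))).toSubring = ch Mo μ := by
    rw [h1, Algebra.adjoin_int]
    rfl
  have h3 : IsNoetherianRing (Algebra.adjoin ℤ ((fun y => y / μ) '' (S : Set K))) := by
    have h4 : Algebra.FiniteType ℤ (Algebra.adjoin ℤ ((fun y => y / μ) '' (S : Set K))) :=
      .adjoin_of_finite (S.finite_toSet.image _)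
    exact Algebra.FiniteType.isNoetherianRing ℤ _
  rw [← h2]
  exact h3

/-- The ideal `ch Mo μ ∩ mx O` of `ch Mo μ` is generated by finitely many elements, which are of the form `u / μ ^ e` with
`u ∈ Mo ^ e`, all large `e`. Formulated without ideals of subrings: there is `e0` such that for all `e ≥ e0`, every
`x ∈ ch Mo μ ∩ mx O` is a finite sum of products `a (u / μ ^ e)` with `a ∈ ch Mo μ`, `u ∈ Mo ^ e`, `u / μ ^ e ∈ mx O`.
Proof: `noeth_ch` and `exists_pow_of_ch` for the generators of the ideal. -/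
theorem gen_mx {Mo : Submodule ℤ K} (hfg : Mo.FG) {μ : K} (hμ : μ ∈ Mo) (h0 : μ ≠ 0)
    {O : Subring K} [IsLocalRing O] (hA : ch Mo μ ≤ O) :
    ∃ e0 : ℕ, ∀ e, e0 ≤ e → ∀ x ∈ ch Mo μ, x ∈ mx O →
      ∃ (k : ℕ) (a u : Fin k → K), (∀ j, a j ∈ ch Mo μ) ∧ (∀ j, u j ∈ Mo ^ e) ∧
        (∀ j, u j / μ ^ e ∈ mx O) ∧ x = ∑ j, a j * (u j / μ ^ e) := by
  have hN := noeth_ch hfg μ
  let I : Ideal (ch Mo μ) := (IsLocalRing.maximalIdeal O).comap (Subring.inclusion hA)
  have hI : ∀ x : ch Mo μ, x ∈ I ↔ (x : K) ∈ mx O := by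
    intro x
    show Subring.inclusion hA x ∈ IsLocalRing.maximalIdeal O ↔ _
    rw [← mem_mx_iff]
    rfl
  obtain ⟨m, s, hs⟩ := Submodule.fg_iff_exists_fin_generating_family.mp (hN.noetherian I)
  choose e0 he0 using fun j : Fin m => exists_pow_of_ch hμ h0 (s j).2
  refine ⟨Finset.univ.sup e0, fun e he x hx hxm => ?_⟩
  have hxI : (⟨x, hx⟩ : ch Mo μ) ∈ I := (hI _).mpr hxm
  rw [← hs, Submodule.mem_span_range_iff_exists_fun] at hxI
  obtain ⟨c, hc⟩ := hxI
  have hμe : μ ^ e ≠ 0 := pow_ne_zero _ h0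
  refine ⟨m, fun j => c j, fun j => (s j : K) * μ ^ e, fun j => (c j).2, fun j => ?_, fun j => ?_,
    ?_⟩
  · exact he0 j e ((Finset.le_sup (Finset.mem_univ j)).trans he)
  · rw [mul_div_cancel_right₀ _ hμe]
    refine (hI _).mp ?_
    rw [← hs]
    exact Submodule.subset_span ⟨j, rfl⟩
  · have h1 := congrArg (fun z : ch Mo μ => (z : K)) hc
    simp only [smul_eq_mul, AddSubmonoidClass.coe_finsetSum, Subring.coe_mul] at h1
    rw [← h1]
    refine Finset.sum_congr rfl fun j _ => ?_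
    rw [mul_div_cancel_right₀ _ hμe]

end Pool.Agent.NT9
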