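import Pool.Agent.NT9.GeDefs

set_option autoImplicit false

/-! # PROJD: the original projective model -/

namespace Pool.Agent.NT9

open MvPolynomial

variable {n : ℕ} {K : Type} [Field K]

/-- The module of the model `F = 0` in projective space, `x` = homogeneous coordinates of the generic point. -/
noncomputable def Mo0 (x : Fin (n + 1) → K) : Submodule ℤ K :=
  Submodule.span ℤ (Set.range fun i => x i / x 0)

/-- The affine coordinates of the chart `m`, as a ring homomorphism. -/
noncomputable def thm (x : Fin (n + 1) → K) (m : Fin (n + 1)) :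
    MvPolynomial {i : Fin (n + 1) // i ≠ m} ℤ →+* K :=
  ((aeval (fun i : {i : Fin (n + 1) // i ≠ m} => x i.1 / x m) :
    MvPolynomial {i : Fin (n + 1) // i ≠ m} ℤ →ₐ[ℤ] K) :
    MvPolynomial {i : Fin (n + 1) // i ≠ m} ℤ →+* K)

end Pool.Agent.NT9
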