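import Pool.Agent.NT9.GeDefs
import Pool.Agent.NodHyp.Loc

set_option autoImplicit false

/-! # Local subrings of a field (all proved) -/

namespace Pool.Agent.NT9

variable {K : Type} [Field K] {O O' : Subring K}

theorem mx_le {x : K} (h : x ∈ mx O) : x ∈ O := h.1

theorem zero_mem_mx : (0 : K) ∈ mx O := ⟨O.zero_mem, Or.inl rfl⟩

theorem notMem_mx_iff {x : K} (hx : x ∈ O) : x ∉ mx O ↔ x ≠ 0 ∧ x⁻¹ ∈ O := by
  unfold mx
  rw [Set.mem_ofPred_eq]
  push Not
  exact ⟨fun h => h hx, fun h _ => h⟩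

theorem one_notMem_mx : (1 : K) ∉ mx O := by
  rw [notMem_mx_iff O.one_mem, inv_one]
  exact ⟨one_ne_zero, O.one_mem⟩

theorem mem_mx_iff [IsLocalRing O] (x : O) : (x : K) ∈ mx O ↔ x ∈ IsLocalRing.maximalIdeal O := by
  rw [IsLocalRing.mem_maximalIdeal, mem_nonunits_iff, NH.LOC_isUnit_iff, ← notMem_mx_iff x.2,
    not_not]

theorem mx_add [IsLocalRing O] {x y : K} (hx : x ∈ mx O) (hy : y ∈ mx O) : x + y ∈ mx O := by
  have h1 := (mem_mx_iff (⟨x, hx.1⟩ : O)).1 hx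
  have h2 := (mem_mx_iff (⟨y, hy.1⟩ : O)).1 hy
  exact (mem_mx_iff (⟨x, hx.1⟩ + ⟨y, hy.1⟩ : O)).2 (Ideal.add_mem _ h1 h2)

theorem mx_mul [IsLocalRing O] {x y : K} (hx : x ∈ O) (hy : y ∈ mx O) : x * y ∈ mx O := by
  have h2 := (mem_mx_iff (⟨y, hy.1⟩ : O)).1 hy
  exact (mem_mx_iff (⟨x, hx⟩ * ⟨y, hy.1⟩ : O)).2 (Ideal.mul_mem_left _ _ h2)

theorem mx_mul_right [IsLocalRing O] {x y : K} (hx : x ∈ mx O) (hy : y ∈ O) : x * y ∈ mx O := by
  rw [mul_comm]
  exact mx_mul hy hx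

theorem mx_neg {x : K} (hx : x ∈ mx O) : -x ∈ mx O := by
  refine ⟨O.neg_mem hx.1, ?_⟩
  rcases hx.2 with h | h
  · left
    rw [h, neg_zero]
  · right
    intro h1
    apply h
    rw [inv_neg] at h1
    simpa using O.neg_mem h1

theorem mx_sub [IsLocalRing O] {x y : K} (hx : x ∈ mx O) (hy : y ∈ mx O) : x - y ∈ mx O := by
  rw [sub_eq_add_neg]
  exact mx_add hx (mx_neg hy)

theorem mx_sum [IsLocalRing O] {ι : Type*} (s : Finset ι) (x : ι → K) (h : ∀ i ∈ s, x i ∈ mx O) :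
    ∑ i ∈ s, x i ∈ mx O := by
  classical
  induction s using Finset.induction_on with
  | empty => rw [Finset.sum_empty]; exact zero_mem_mx
  | insert a s ha ih =>
    rw [Finset.sum_insert ha]
    exact mx_add (h a (Finset.mem_insert_self _ _)) (ih fun i hi => h i (Finset.mem_insert_of_mem hi))

theorem mx_prime [IsLocalRing O] {x y : K} (hx : x ∈ O) (hy : y ∈ O) (h : x * y ∈ mx O) :
    x ∈ mx O ∨ y ∈ mx O := by
  by_contra hcon
  push Not at hcon
  rw [notMem_mx_iff hx, notMem_mx_iff hy] at hcon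
  obtain ⟨⟨h1, h2⟩, h3, h4⟩ := hcon
  rcases h.2 with h5 | h5
  · exact (mul_ne_zero h1 h3) h5
  · apply h5
    rw [mul_inv]
    exact O.mul_mem h2 h4

/-- in a local subring: if a linear combination is a unit then one of the elements is -/
theorem exists_notMem_of_sum [IsLocalRing O] {ι : Type*} (s : Finset ι) (c x : ι → K)
    (hc : ∀ i ∈ s, c i ∈ O) (h : ∑ i ∈ s, c i * x i ∉ mx O) : ∃ i ∈ s, x i ∉ mx O := by
  by_contra hcon
  push Not at hcon
  exact h (mx_sum s _ fun i hi => mx_mul (hc i hi) (hcon i hi))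

theorem dom_iff [IsLocalRing O'] (hle : O ≤ O') (hdom : ∀ x ∈ mx O, x ∈ mx O') {x : K} (hx : x ∈ O) :
    x ∈ mx O ↔ x ∈ mx O' := by
  refine ⟨hdom x, fun h => ?_⟩
  by_contra hcon
  rw [notMem_mx_iff hx] at hcon
  exact (notMem_mx_iff (hle hx)).2 ⟨hcon.1, hle hcon.2⟩ h

/-- the preimage of the maximal ideal -/
def pre {R : Type*} [CommRing R] (O : Subring K) [IsLocalRing O] (θ : R →+* K)
    (h : ∀ x, θ x ∈ O) : Ideal R :=
  (IsLocalRing.maximalIdeal O).comap (θ.codRestrict O h)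

theorem mem_pre {R : Type*} [CommRing R] [IsLocalRing O] (θ : R →+* K) (h : ∀ x, θ x ∈ O) (x : R) :
    x ∈ pre O θ h ↔ θ x ∈ mx O := by
  unfold pre
  rw [Ideal.mem_comap, ← mem_mx_iff]
  rfl

instance pre_isPrime {R : Type*} [CommRing R] [IsLocalRing O] (θ : R →+* K) (h : ∀ x, θ x ∈ O) :
    (pre O θ h).IsPrime :=
  Ideal.comap_isPrime _ _

/-- being a fraction with denominator invertible in `O` -/
theorem mem_O_of_fr {x u v : K} (hu : u ∈ O) (hv0 : v ≠ 0) (hv : v⁻¹ ∈ O) (h : x * v = u) :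
    x ∈ O := by
  have h1 : x = u * v⁻¹ := by
    rw [← h, mul_assoc, mul_inv_cancel₀ hv0, mul_one]
  rw [h1]
  exact O.mul_mem hu hv

/-- residue map: a ring homomorphism from `O` to a field which kills exactly `mx O` -/
noncomputable def res (O : Subring K) [IsLocalRing O] : O →+* IsLocalRing.ResidueField O :=
  IsLocalRing.residue O

theorem res_eq_zero [IsLocalRing O] (x : O) : res O x = 0 ↔ (x : K) ∈ mx O := by
  rw [mem_mx_iff]
  exact IsLocalRing.residue_eq_zero_iff x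

/-- The fractions form a subring. -/
def frSub {T : Type*} [CommRing T] (π : T →+* K) (O : Subring K) : Subring K where
  carrier := {x | ∃ u v : T, π v ≠ 0 ∧ (π v)⁻¹ ∈ O ∧ x * π v = π u}
  mul_mem' := by
    rintro x y ⟨a, b, h1, h2, h3⟩ ⟨a', b', h1', h2', h3'⟩
    refine ⟨a * a', b * b', ?_, ?_, ?_⟩
    · rw [map_mul]; exact mul_ne_zero h1 h1'
    · rw [map_mul, mul_inv]; exact O.mul_mem h2 h2'
    · rw [map_mul, map_mul, ← h3, ← h3']; ring
  one_mem' := ⟨1, 1, by rw [map_one]; exact one_ne_zero, by rw [map_one, inv_one]; exact O.one_mem,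
    by rw [one_mul]⟩
  add_mem' := by
    rintro x y ⟨a, b, h1, h2, h3⟩ ⟨a', b', h1', h2', h3'⟩
    refine ⟨a * b' + a' * b, b * b', ?_, ?_, ?_⟩
    · rw [map_mul]; exact mul_ne_zero h1 h1'
    · rw [map_mul, mul_inv]; exact O.mul_mem h2 h2'
    · rw [map_add, map_mul, map_mul, map_mul, ← h3, ← h3']; ring
  zero_mem' := ⟨0, 1, by rw [map_one]; exact one_ne_zero, by rw [map_one, inv_one]; exact O.one_mem,
    by rw [map_zero, zero_mul]⟩
  neg_mem' := by
    rintro x ⟨a, b, h1, h2, h3⟩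
    exact ⟨-a, b, h1, h2, by rw [map_neg, ← h3]; ring⟩

theorem mem_frSub {T : Type*} [CommRing T] (π : T →+* K) (O : Subring K) (x : K) :
    x ∈ frSub π O ↔ ∃ u v : T, π v ≠ 0 ∧ (π v)⁻¹ ∈ O ∧ x * π v = π u := Iff.rfl

theorem map_mem_frSub {T : Type*} [CommRing T] (π : T →+* K) (O : Subring K) (t : T) :
    π t ∈ frSub π O :=
  ⟨t, 1, by rw [map_one]; exact one_ne_zero, by rw [map_one, inv_one]; exact O.one_mem,
    by rw [map_one, mul_one]⟩

theorem frSub_inv {T : Type*} [CommRing T] (π : T →+* K) (O : Subring K) (x : K)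
    (hx : x ∈ frSub π O) (hxO : x⁻¹ ∈ O) : x⁻¹ ∈ frSub π O := by
  by_cases h0 : x = 0
  · rw [h0, inv_zero]
    exact (frSub π O).zero_mem
  · obtain ⟨a, b, h1, h2, h3⟩ := hx
    refine ⟨b, a, ?_, ?_, ?_⟩
    · rw [← h3]; exact mul_ne_zero h0 h1
    · rw [← h3, mul_inv]; exact O.mul_mem hxO h2
    · rw [← h3, ← mul_assoc, inv_mul_cancel₀ h0, one_mul]

/-- `IsFr` and subrings closed under the inverses which lie in `O`. -/
theorem le_of_fr {A O F : Subring K} (h : IsFr A O) (hA : A ≤ F)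
    (hinv : ∀ x ∈ F, x⁻¹ ∈ O → x⁻¹ ∈ F) : O ≤ F := by
  intro x hx
  obtain ⟨u, hu, v, hv, hv0, hvO, h1⟩ := h.2 x hx
  exact mem_O_of_fr (hA hu) hv0 (hinv v (hA hv) hvO) h1

end Pool.Agent.NT9
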