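import Pool.Agent.NT9.GeDefs
import Pool.Agent.NodHyp.Node
import Pool.Agent.NodHyp.Deh

set_option autoImplicit false

/-! # TlC: nodal points satisfy the conditions `Iso` and `TZ` -/

namespace Pool.Agent.NT9

open MvPolynomial Pool.Agent.NH

theorem TlC_aux {n d p : ℕ} (hp : p.Prime) {F : MvPolynomial (Fin (n + 1)) ℤ}
    (hF : F.IsHomogeneous d) (hnod : NodalAt F p) (m : Fin (n + 1))
    (Q : Ideal (MvPolynomial {i : Fin (n + 1) // i ≠ m} ℤ))
    (hpQ : C (p : ℤ) ∈ Q) (hf : deh m F ∈ Q) (hd : ∀ i, pderiv i (deh m F) ∈ Q)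
    (L : Type) [Field L] (φ : MvPolynomial {i : Fin (n + 1) // i ≠ m} ℤ →+* L)
    (hφ : ∀ h, φ h = 0 ↔ h ∈ Q) : (hess (deh m F)).det ∉ Q := by
  classical
  have hchar : CharP L p := by
    apply (CharP.charP_iff_prime_eq_zero hp).mpr
    have h1 := (hφ _).2 hpQ
    have h2 : (φ.comp C) = Int.castRingHom L := RingHom.ext_int _ _
    have h3 : φ (C (p : ℤ)) = ((p : ℤ) : L) := congrArg (fun ψ : ℤ →+* L => ψ p) h2
    rw [h3] at h1
    exact_mod_cast h1
  let x : Fin (n + 1) → L := fun i => if h : i ≠ m then φ (X ⟨i, h⟩) else 1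
  have hxm : x m = 1 := by
    simp only [x]
    rw [dif_neg (by simp)]
  have hx : ∀ G, aeval x G = φ (deh m G) := by
    intro G
    have h1 : (aeval (fun i : {i : Fin (n + 1) // i ≠ m} => x i.1) :
        MvPolynomial {i : Fin (n + 1) // i ≠ m} ℤ →ₐ[ℤ] L) = φ.toIntAlgHom := by
      apply MvPolynomial.algHom_ext
      intro i
      rw [aeval_X]
      simp only [x]
      rw [dif_pos i.2]
      rfl
    rw [← aeval_deh x hxm G, h1]
    rfl
  have hF0 : aeval x F = 0 := by rw [hx, hφ]; exact hf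
  have hd' : ∀ i, aeval x (pderiv i F) = 0 := by
    intro i
    rw [hx, hφ]
    by_cases hi : i ≠ m
    · have := hd ⟨i, hi⟩
      rwa [pderiv_deh] at this
    · rw [not_not] at hi
      rw [hi, euler_deh hF]
      exact Q.sub_mem (Q.mul_mem_left _ hf) (Q.sum_mem fun j _ => Q.mul_mem_left _ (hd j))
  have h1 := hnod L x m (by rw [hxm]; exact one_ne_zero) hF0 hd'
  intro hcon
  apply h1
  have h2 : (Matrix.of fun a b : {i : Fin (n + 1) // i ≠ m} =>
      aeval x (pderiv a.1 (pderiv b.1 F))) = φ.mapMatrix (hess (deh m F)) := by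
    ext a b
    rw [hess_deh]
    simp only [Matrix.of_apply, RingHom.mapMatrix_apply, Matrix.map_apply]
    exact hx _
  rw [h2, ← RingHom.map_det]
  exact (hφ _).2 hcon

/-- The Hessian is invertible at the singular points over `p`. -/
theorem TlC_det {n d p : ℕ} (hp : p.Prime) {F : MvPolynomial (Fin (n + 1)) ℤ}
    (hF : F.IsHomogeneous d) (hnod : NodalAt F p) (m : Fin (n + 1))
    (Q : Ideal (MvPolynomial {i : Fin (n + 1) // i ≠ m} ℤ)) [hQ : Q.IsPrime]
    (hpQ : C (p : ℤ) ∈ Q) (hf : deh m F ∈ Q) (hd : ∀ i, pderiv i (deh m F) ∈ Q) :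
    (hess (deh m F)).det ∉ Q := by
  refine TlC_aux hp hF hnod m Q hpQ hf hd
    (FractionRing (MvPolynomial {i : Fin (n + 1) // i ≠ m} ℤ ⧸ Q))
    ((algebraMap (MvPolynomial {i : Fin (n + 1) // i ≠ m} ℤ ⧸ Q) _).comp (Ideal.Quotient.mk Q)) ?_
  intro h
  rw [RingHom.comp_apply, FaithfulSMul.algebraMap_eq_zero_iff, Ideal.Quotient.eq_zero_iff_mem]

theorem nodal_iso {n d p : ℕ} (hp : p.Prime) {F : MvPolynomial (Fin (n + 1)) ℤ}
    (hF : F.IsHomogeneous d) (hnod : NodalAt F p) (m : Fin (n + 1))
    (Q : Ideal (MvPolynomial {i : Fin (n + 1) // i ≠ m} ℤ)) [hQ : Q.IsPrime]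
    (hpQ : C (p : ℤ) ∈ Q) (hf : deh m F ∈ Q) (hd : ∀ i, pderiv i (deh m F) ∈ Q) :
    Q.IsMaximal := by
  classical
  have hH := TlC_det hp hF hnod m Q hpQ hf hd
  obtain ⟨-, hdim⟩ := node_gen (deh m F) hp Q hpQ hd hH
  rw [IsLocalization.AtPrime.ringKrullDim_eq_height Q] at hdim
  have hh : Q.height = (Fintype.card {i : Fin (n + 1) // i ≠ m} : ℕ∞) + 1 := by exact_mod_cast hdim
  obtain ⟨M, hM, hQM⟩ := Q.exists_le_maximal hQ.ne_top
  rcases hQM.eq_or_lt with h | h
  · rw [h]
    exact hM
  · exfalso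
    have hMp : M.IsPrime := hM.isPrime
    have h1 : (M.height : WithBot ℕ∞) ≤ Fintype.card {i : Fin (n + 1) // i ≠ m} + 1 := by
      refine Ideal.height_le_ringKrullDim_of_isPrime.trans ?_
      rw [MvPolynomial.ringKrullDim_of_isNoetherianRing,
        IsPrincipalIdealRing.ringKrullDim_eq_one ℤ Int.not_isField, Nat.card_eq_fintype_card,
        add_comm]
    have h1' : M.height ≤ (Fintype.card {i : Fin (n + 1) // i ≠ m} : ℕ∞) + 1 := by
      exact_mod_cast h1
    have h2 : Q.height < M.height := Ideal.height_strict_mono_of_isPrime h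
    rw [hh] at h2
    exact absurd h1' (not_le.2 h2)

/-- At a nodal point which is not regular on the total space the hyperplane section `p = 0` of the
tangent cone is smooth. -/
theorem nodal_tz {n d p : ℕ} (hp : p.Prime) {F : MvPolynomial (Fin (n + 1)) ℤ}
    (hF : F.IsHomogeneous d) (hnod : NodalAt F p) (m : Fin (n + 1))
    (M : Ideal (MvPolynomial {i : Fin (n + 1) // i ≠ m} ℤ)) [hM : M.IsMaximal]
    (hpM : C (p : ℤ) ∈ M) (hf2 : deh m F ∈ M ^ 2) : TZ (deh m F) M := by
  classical
  have hMp : M.IsPrime := hM.isPrime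
  have hf : deh m F ∈ M := Ideal.pow_le_self two_ne_zero hf2
  have hd : ∀ i, pderiv i (deh m F) ∈ M := fun i =>
    Pool.Agent.QuadModel.derivation_mem (pderiv i) M hf2
  have hH := TlC_det hp hF hnod m M hpM hf hd
  set f := deh m F with hfdef
  set η : {i : Fin (n + 1) // i ≠ m} → MvPolynomial {i : Fin (n + 1) // i ≠ m} ℤ :=
    fun i => pderiv i f with hη
  -- parameters
  have hpar : Par M (C (p : ℤ)) η := by
    refine ⟨hpM, hd, fun x hx => ?_⟩
    obtain ⟨D, hD, hDx⟩ := node_memG f hp M hpM hd hH x hx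
    obtain ⟨e, he⟩ := Ideal.Quotient.exists_inv (I := M) (a := Ideal.Quotient.mk M D) (by
      rwa [Ne, Ideal.Quotient.eq_zero_iff_mem])
    obtain ⟨e, rfl⟩ := Ideal.Quotient.mk_surjective e
    have h1 : D * e - 1 ∈ M := by
      rw [← Ideal.Quotient.eq_zero_iff_mem, map_sub, map_mul, he, map_one, sub_self]
    have h2 : x = e * (D * x) - (D * e - 1) * x := by ring
    rw [h2]
    refine Ideal.sub_mem _ (Ideal.mem_sup_left (Ideal.mul_mem_left _ _ ?_)) (Ideal.mem_sup_right ?_)
    · rw [← Ideal.span_union] at hDx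
      exact hDx
    · rw [pow_two]
      exact Ideal.mul_mem_mul h1 hx
  set z : MvPolynomial {i : Fin (n + 1) // i ≠ m} ℤ := C (p : ℤ) with hz
  -- the quadratic form
  obtain ⟨a, ha⟩ : ∃ a : {i : Fin (n + 1) // i ≠ m} → {i : Fin (n + 1) // i ≠ m} →
      MvPolynomial {i : Fin (n + 1) // i ≠ m} ℤ,
      f - ∑ i, ∑ j, a i j * η i * η j ∈ Ideal.span {z} * M ⊔ M ^ 3 := by
    set S := Ideal.span (insert z (Set.range η)) with hS
    have hSM : S ≤ M := by
      rw [hS, Ideal.span_le]
      rintro _ (rfl | ⟨i, rfl⟩)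
      · exact hpM
      · exact hd i
    have h1 : M ^ 2 ≤ (Ideal.span {z} * M ⊔ M ^ 3) ⊔
        Ideal.span (Set.range η) * Ideal.span (Set.range η) := by
      have hM2 : M ≤ S ⊔ M ^ 2 := hpar.2.2
      have hSe : S = Ideal.span {z} ⊔ Ideal.span (Set.range η) := by
        rw [hS, Ideal.span_insert]
      have hηM : Ideal.span (Set.range η) ≤ M := by
        rw [Ideal.span_le]
        rintro _ ⟨i, rfl⟩
        exact hd i
      have h3 : M ^ 3 = M * M ^ 2 := by ring
      calc M ^ 2 = M * M := pow_two M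
        _ ≤ (S ⊔ M ^ 2) * M := Ideal.mul_mono_left hM2
        _ = S * M ⊔ M ^ 2 * M := Ideal.sup_mul _ _ _
        _ ≤ S * (S ⊔ M ^ 2) ⊔ M ^ 3 := by
          refine sup_le_sup (Ideal.mul_mono_right hM2) ?_
          rw [← pow_succ]
        _ = S * S ⊔ S * M ^ 2 ⊔ M ^ 3 := by rw [Ideal.mul_sup]
        _ ≤ _ := by
          refine sup_le (sup_le ?_ ?_) ?_
          · calc S * S ≤ (Ideal.span {z} ⊔ Ideal.span (Set.range η)) * S := by rw [← hSe]
              _ = Ideal.span {z} * S ⊔ Ideal.span (Set.range η) * S := Ideal.sup_mul _ _ _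
              _ ≤ _ := by
                refine sup_le ?_ ?_
                · exact (Ideal.mul_mono_right hSM).trans (le_sup_left.trans le_sup_left)
                · rw [hSe, Ideal.mul_sup]
                  refine sup_le ?_ le_sup_right
                  rw [Ideal.mul_comm]
                  exact (Ideal.mul_mono_right hηM).trans (le_sup_left.trans le_sup_left)
          · refine le_trans ?_ (le_sup_right.trans le_sup_left)
            rw [h3]
            exact Ideal.mul_mono_left hSM
          · exact le_sup_right.trans le_sup_left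
    obtain ⟨x, hx, y, hy, hxy⟩ := Submodule.mem_sup.1 (h1 hf2)
    rw [Ideal.span_mul_span'] at hy
    have hy' : y ∈ Ideal.span (Set.range fun q : {i : Fin (n + 1) // i ≠ m} ×
        {i : Fin (n + 1) // i ≠ m} => η q.1 * η q.2) := by
      refine Ideal.span_mono ?_ hy
      rintro _ ⟨_, ⟨i, rfl⟩, _, ⟨j, rfl⟩, rfl⟩
      exact ⟨(i, j), rfl⟩
    obtain ⟨c, hc⟩ := (Ideal.mem_span_range_iff_exists_fun).1 hy'
    refine ⟨fun i j => c (i, j), ?_⟩
    have h2 : ∑ i, ∑ j, c (i, j) * η i * η j = y := by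
      rw [← hc, Fintype.sum_prod_type]
      exact Finset.sum_congr rfl fun i _ => Finset.sum_congr rfl fun j _ => by ring
    rw [h2, ← hxy, add_sub_cancel_right]
    exact hx
  -- the Gram matrix is inverse to the Hessian
  have hinv : ∀ l i, (if l = i then 1 else 0) - ∑ j, hess f l j * (a i j + a j i) ∈ M := by
    intro l
    have h1 : pderiv l (f - ∑ i, ∑ j, a i j * η i * η j) ∈ Ideal.span {z} ⊔ M ^ 2 := by
      obtain ⟨x, hx, y, hy, hxy⟩ := Submodule.mem_sup.1 ha
      rw [← hxy, map_add]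
      refine Ideal.add_mem _ (Ideal.mem_sup_left ?_) (Ideal.mem_sup_right ?_)
      · obtain ⟨g, -, rfl⟩ := Ideal.mem_span_singleton_mul.1 hx
        rw [hz, pderiv_C_mul]
        exact Ideal.mul_mem_right _ _ (Ideal.mem_span_singleton_self _)
      · have h3 : M ^ 3 = M ^ 2 * M := by ring
        rw [h3] at hy
        refine Submodule.mul_induction_on hy ?_ ?_
        · intro u hu v hv
          rw [Derivation.leibniz, smul_eq_mul, smul_eq_mul]
          refine Ideal.add_mem _ (Ideal.mul_mem_right _ _ hu) ?_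
          rw [pow_two]
          exact Ideal.mul_mem_mul hv (Pool.Agent.QuadModel.derivation_mem (pderiv l) M hu)
        · intro u v hu hv
          rw [map_add]
          exact Ideal.add_mem _ hu hv
    have h2 : pderiv l (f - ∑ i, ∑ j, a i j * η i * η j) =
        ∑ i, ((if l = i then 1 else 0) - ∑ j, hess f l j * (a i j + a j i)) * η i -
          ∑ i, ∑ j, pderiv l (a i j) * η i * η j := by
      have e1 : ∀ i j, pderiv l (a i j * η i * η j) =
          pderiv l (a i j) * η i * η j + (hess f l i * a i j) * η j +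
            (hess f l j * a i j) * η i := by
        intro i j
        rw [Derivation.leibniz, Derivation.leibniz]
        simp only [smul_eq_mul, hess, Matrix.of_apply, hη]
        ring
      rw [map_sub, map_sum]
      simp only [map_sum, e1, Finset.sum_add_distrib]
      have e2 : pderiv l f = ∑ i, (if l = i then (1 : MvPolynomial _ ℤ) else 0) * η i := by
        simp [hη]
      have e3 : ∑ i, ∑ j, hess f l i * a i j * η j = ∑ i, ∑ j, hess f l j * a j i * η i :=
        Finset.sum_comm
      rw [e2, e3]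
      simp only [sub_mul, Finset.sum_mul, mul_add, add_mul, Finset.sum_add_distrib,
        Finset.sum_sub_distrib]
      ring
    have h3 : ∑ i, ∑ j, pderiv l (a i j) * η i * η j ∈ M ^ 2 := by
      refine Ideal.sum_mem _ fun i _ => Ideal.sum_mem _ fun j _ => ?_
      rw [mul_assoc]
      refine Ideal.mul_mem_left _ _ ?_
      rw [pow_two]
      exact Ideal.mul_mem_mul (hd i) (hd j)
    rw [h2] at h1
    have h4 : ∑ i, ((if l = i then 1 else 0) - ∑ j, hess f l j * (a i j + a j i)) * η i ∈
        Ideal.span {z} ⊔ M ^ 2 := by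
      have := Ideal.add_mem _ h1 (Ideal.mem_sup_right h3)
      rwa [sub_add_cancel] at this
    obtain ⟨x, hx, y, hy, hxy⟩ := Submodule.mem_sup.1 h4
    obtain ⟨g, rfl⟩ := Ideal.mem_span_singleton'.1 hx
    have h5 : -g * C (p : ℤ) +
        ∑ i, ((if l = i then 1 else 0) - ∑ j, hess f l j * (a i j + a j i)) * pderiv i f ∈
          M ^ 2 := by
      have : -g * C (p : ℤ) +
        ∑ i, ((if l = i then 1 else 0) - ∑ j, hess f l j * (a i j + a j i)) * pderiv i f = y := by
        have h6 : ∑ i, ((if l = i then 1 else 0) - ∑ j, hess f l j * (a i j + a j i)) *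
          pderiv i f = g * z + y := hxy.symm
        rw [h6, hz]
        ring
      rw [this]
      exact hy
    exact (node_indep f hp M hpM hd hH _ _ h5).2
  refine ⟨z, η, a, hpar, ha, ?_⟩
  intro L _ χ hχ v _ hv
  funext l
  have h1 : ∀ i, (if l = i then (1 : L) else 0) = ∑ j, χ (hess f l j) * χ (a i j + a j i) := by
    intro i
    have h2 := hχ _ (hinv l i)
    rw [map_sub, map_sum, sub_eq_zero] at h2
    simp only [map_mul] at h2
    rw [← h2]
    split_ifs
    · rw [map_one]
    · rw [map_zero]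
  calc v l = ∑ i, (if l = i then (1 : L) else 0) * v i := by simp
    _ = ∑ i, ∑ j, χ (hess f l j) * (χ (a j i + a i j) * v i) := by
        refine Finset.sum_congr rfl fun i _ => ?_
        rw [h1, Finset.sum_mul]
        refine Finset.sum_congr rfl fun j _ => ?_
        rw [add_comm (a i j)]
        ring
    _ = ∑ j, χ (hess f l j) * ∑ i, χ (a j i + a i j) * v i := by
        rw [Finset.sum_comm]
        exact Finset.sum_congr rfl fun j _ => by rw [Finset.mul_sum]
    _ = 0 := by
        refine Finset.sum_eq_zero fun j _ => ?_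
        rw [hv j, mul_zero]

end Pool.Agent.NT9
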