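import Pool.Agent.NT9.GeCotA
import Pool.Agent.NodHyp.Ind2

set_option autoImplicit false

/-! # COTB: the parameters are independent modulo the square of every prime ideal over `M` -/

namespace Pool.Agent.NT9

open MvPolynomial

variable {σ : Type} [Fintype σ]

private def cbr (z : MvPolynomial σ ℤ) (η : σ → MvPolynomial σ ℤ) :
    Option σ → MvPolynomial σ ℤ
  | none => z
  | some i => η i

private theorem cbr_mem {M : Ideal (MvPolynomial σ ℤ)} {z : MvPolynomial σ ℤ}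
    {η : σ → MvPolynomial σ ℤ} (hpar : Par M z η) (o : Option σ) : cbr z η o ∈ M := by
  cases o with
  | none => exact hpar.1
  | some i => exact hpar.2.1 i

private theorem cb_rep {M : Ideal (MvPolynomial σ ℤ)} {z : MvPolynomial σ ℤ}
    {η : σ → MvPolynomial σ ℤ} (hpar : Par M z η) {m : MvPolynomial σ ℤ} (hm : m ∈ M) :
    ∃ d : Option σ → MvPolynomial σ ℤ, m - ∑ o, d o * cbr z η o ∈ M ^ 2 := by
  have h1 := hpar.2.2 hm
  have h2 : insert z (Set.range η) = Set.range (cbr z η) := by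
    ext x
    constructor
    · rintro (rfl | ⟨i, rfl⟩)
      · exact ⟨none, rfl⟩
      · exact ⟨some i, rfl⟩
    · rintro ⟨o, rfl⟩
      cases o with
      | none => exact Or.inl rfl
      | some i => exact Or.inr ⟨i, rfl⟩
  rw [h2] at h1
  obtain ⟨s, hs, t, ht, hst⟩ := Submodule.mem_sup.1 h1
  obtain ⟨d, hd⟩ := Ideal.mem_span_range_iff_exists_fun.1 hs
  refine ⟨d, ?_⟩
  rw [hd, ← hst, add_sub_cancel_left]
  exact ht

/-- the derivative of a combination -/
private theorem cb_der {M : Ideal (MvPolynomial σ ℤ)} {z : MvPolynomial σ ℤ}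
    {η : σ → MvPolynomial σ ℤ} (hpar : Par M z η) {κ : Type} [Field κ]
    (ψ : MvPolynomial σ ℤ →+* κ) (hψ : ∀ x ∈ M, ψ x = 0) {m : MvPolynomial σ ℤ}
    {d : Option σ → MvPolynomial σ ℤ} (h : m - ∑ o, d o * cbr z η o ∈ M ^ 2) (c : σ) :
    ψ (pderiv c m) = ∑ o, ψ (pderiv c (cbr z η o)) * ψ (d o) := by
  have h1 := hψ _ (NH.Ind2Aux.der_sq (pderiv c) M h)
  rw [map_sub, map_sub, sub_eq_zero] at h1
  rw [h1, map_sum, map_sum]
  refine Finset.sum_congr rfl fun o _ => ?_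
  rw [Derivation.leibniz, smul_eq_mul, smul_eq_mul, map_add, map_mul, map_mul,
    hψ _ (cbr_mem hpar o)]
  ring

/-- the kernel is a line -/
private theorem cb_line [DecidableEq σ] {κ : Type} [Field κ] (A : σ → Option σ → κ)
    (hs : ∀ c' : σ, ∃ d : Option σ → κ, ∀ c, ∑ o, A c o * d o = if c = c' then -1 else 0)
    {v w : Option σ → κ} (hv : ∀ c, ∑ o, A c o * v o = 0) (hw : ∀ c, ∑ o, A c o * w o = 0)
    (hv0 : v ≠ 0) : ∃ l : κ, ∀ o, w o = l * v o := by
  let Φ : (Option σ → κ) →ₗ[κ] (σ → κ) := Matrix.mulVecLin (Matrix.of A)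
  have hΦ : ∀ u c, Φ u c = ∑ o, A c o * u o := fun u c => rfl
  have hsurj : LinearMap.range Φ = ⊤ := by
    rw [LinearMap.range_eq_top]
    intro y
    choose d hd using hs
    refine ⟨∑ c', (-(y c')) • d c', ?_⟩
    ext c
    rw [map_sum, Finset.sum_apply]
    have h1 : ∀ c', Φ ((-(y c')) • d c') c = if c = c' then y c' else 0 := by
      intro c'
      rw [map_smul, Pi.smul_apply, hΦ, hd, smul_eq_mul]
      by_cases hcc : c = c'
      · rw [if_pos hcc, if_pos hcc]; ring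
      · rw [if_neg hcc, if_neg hcc, mul_zero]
    rw [Finset.sum_congr rfl fun c' _ => h1 c']
    simp
  have h1 := LinearMap.finrank_range_add_finrank_ker Φ
  rw [hsurj, finrank_top, Module.finrank_pi, Module.finrank_pi, Fintype.card_option] at h1
  have h2 : Module.finrank κ (LinearMap.ker Φ) = 1 := by omega
  have hvk : v ∈ LinearMap.ker Φ := by
    rw [LinearMap.mem_ker]
    ext c
    exact hv c
  have hwk : w ∈ LinearMap.ker Φ := by
    rw [LinearMap.mem_ker]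
    ext c
    exact hw c
  have h3 : (⟨v, hvk⟩ : LinearMap.ker Φ) ≠ 0 := by
    intro h4
    apply hv0
    exact congrArg Subtype.val h4
  obtain ⟨l, hl⟩ := (finrank_eq_one_iff_of_nonzero' (⟨v, hvk⟩ : LinearMap.ker Φ) h3).1 h2
    ⟨w, hwk⟩
  refine ⟨l, fun o => ?_⟩
  have h4 := congrArg Subtype.val hl
  have h5 := congrFun h4 o
  exact h5.symm

/-- the derivatives of `x_c ^ q - x_c` -/
private theorem cb_frob [DecidableEq σ] {M : Ideal (MvPolynomial σ ℤ)} {κ : Type} [Field κ]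
    (ψ : MvPolynomial σ ℤ →+* κ) (hψ : ∀ x ∈ M, ψ x = 0) {q : ℕ}
    (hq : (C (q : ℤ) : MvPolynomial σ ℤ) ∈ M) (c c' : σ) :
    ψ (pderiv c ((X c' : MvPolynomial σ ℤ) ^ q - X c')) = if c = c' then -1 else 0 := by
  have hq0 : ψ (q : MvPolynomial σ ℤ) = 0 := by
    have h1 := hψ _ hq
    have h2 : (C (q : ℤ) : MvPolynomial σ ℤ) = (q : MvPolynomial σ ℤ) := by simp
    rw [← h2]
    exact h1
  rw [map_sub, pderiv_pow, map_sub, map_mul, map_mul, hq0, zero_mul, zero_mul, zero_sub, pderiv_X]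
  by_cases hc : c = c'
  · subst hc
    rw [if_pos rfl, Pi.single_eq_same, map_one]
  · rw [if_neg hc, Pi.single_eq_of_ne (fun h => hc h.symm), map_zero, neg_zero]

/-- Independence. `κ` = fraction field of `T / Q`, `φ : T → κ`. Applying `∂/∂x_c`, `c ∈ σ` (`NH.Ind2Aux.der_rel`; `pderiv_rename`) one gets
`φ α φ (∂_c z) + ∑ φ β_i φ (∂_c η_i) = 0`. The linear map `Φ : κ^(1 + σ) → κ^σ` with this matrix is surjective: `m_c = x_c ^ q - x_c ∈ M`
is a combination of `z, η` modulo `M ^ 2` and `∂_c' m_c ≡ - δ_cc'` modulo `M`, and derivations map `M ^ 2` to `M`. So the kernel is a line.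
The prime number `p ∈ M` is `d_0 z + ∑ d_i η_i` modulo `M ^ 2`, so `(d_0, d_i)` is in the kernel, and it is not zero modulo `M`, else
`p ∈ M ^ 2` (`QuadAll.mem_of_prime_mul_mem_sq` with `x = 1`). Hence `(φ α, φ β) = λ (φ d_0, φ d_i)`, `λ = φ λ_1 / φ λ_2`. Then
`λ_2 (α z + ∑ β η) - λ_1 (d_0 z + ∑ d η) ∈ Q ^ 2` (coefficients and `z, η` in `Q`), so `λ_1 p ∈ Q ^ 2`, `λ_1 ∈ Q`
(`QuadAll.mem_of_prime_mul_mem_sq`), `λ = 0`. -/
theorem cot_indep {M : Ideal (MvPolynomial σ ℤ)} [M.IsMaximal] {p : ℕ} (hp : p.Prime)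
    (hpM : (C (p : ℤ) : MvPolynomial σ ℤ) ∈ M) {z : MvPolynomial σ ℤ}
    {η : σ → MvPolynomial σ ℤ} (hpar : Par M z η) {ω : Type} {ι : σ → ω}
    (hι : Function.Injective ι) (Q : Ideal (MvPolynomial ω ℤ)) [Q.IsPrime]
    (hMQ : ∀ m ∈ M, rename ι m ∈ Q) {α : MvPolynomial ω ℤ} {β : σ → MvPolynomial ω ℤ}
    (h : α * rename ι z + ∑ i, β i * rename ι (η i) ∈ Q ^ 2) : α ∈ Q ∧ ∀ i, β i ∈ Q := by
  classical
  have hM' : M.IsMaximal := inferInstance
  let κ := FractionRing (MvPolynomial ω ℤ ⧸ Q)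
  let φ : MvPolynomial ω ℤ →+* κ :=
    (algebraMap (MvPolynomial ω ℤ ⧸ Q) κ).comp (Ideal.Quotient.mk Q)
  have hφ : ∀ x, φ x = 0 ↔ x ∈ Q := by
    intro x
    change algebraMap (MvPolynomial ω ℤ ⧸ Q) κ (Ideal.Quotient.mk Q x) = 0 ↔ _
    rw [FaithfulSMul.algebraMap_eq_zero_iff, Ideal.Quotient.eq_zero_iff_mem]
  let ψ : MvPolynomial σ ℤ →+* κ := φ.comp (rename ι : MvPolynomial σ ℤ →ₐ[ℤ] _).toRingHom
  have hψφ : ∀ x, ψ x = φ (rename ι x) := fun x => rfl
  have hψM : ∀ x ∈ M, ψ x = 0 := fun x hx => (hφ _).2 (hMQ x hx)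
  have hψ : ∀ x, ψ x = 0 → x ∈ M := by
    intro x hx
    have h1 : M ≤ RingHom.ker ψ := fun y hy => hψM y hy
    have h2 : M = RingHom.ker ψ := hM'.eq_of_le (RingHom.ker_ne_top ψ) h1
    rw [h2]
    exact hx
  -- the vector of the coefficients
  let a : Option σ → MvPolynomial ω ℤ := fun o => o.elim α β
  have hsum : ∑ o, a o * rename ι (cbr z η o) ∈ Q ^ 2 := by
    rw [Fintype.sum_option]
    exact h
  have hrQ : ∀ o, rename ι (cbr z η o) ∈ Q := fun o => hMQ _ (cbr_mem hpar o)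
  have hker : ∀ c, ∑ o, ψ (pderiv c (cbr z η o)) * φ (a o) = 0 := by
    intro c
    have h1 := NH.Ind2Aux.der_rel (pderiv (ι c)) Q φ (fun x hx => (hφ x).2 hx) _ a hrQ hsum
    rw [← h1]
    refine Finset.sum_congr rfl fun o _ => ?_
    rw [hψφ, pderiv_rename hι, mul_comm]
  -- the surjectivity
  obtain ⟨q, -, hqM, hqx⟩ := exists_q hp hpM
  have hs : ∀ c' : σ, ∃ d : Option σ → κ,
      ∀ c, ∑ o, ψ (pderiv c (cbr z η o)) * d o = if c = c' then -1 else 0 := by
    intro c'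
    obtain ⟨d, hd⟩ := cb_rep hpar (hqx (X c'))
    refine ⟨fun o => ψ (d o), fun c => ?_⟩
    rw [← cb_der hpar ψ hψM hd c]
    exact cb_frob ψ hψM hqM c c'
  -- the prime number
  obtain ⟨d, hd⟩ := cb_rep hpar hpM
  have hpk : ∀ c, ∑ o, ψ (pderiv c (cbr z η o)) * ψ (d o) = 0 := by
    intro c
    rw [← cb_der hpar ψ hψM hd c, pderiv_C, map_zero]
  have hd0 : (fun o => ψ (d o)) ≠ 0 := by
    intro h0
    have h1 : ∀ o, d o ∈ M := fun o => hψ _ (congrFun h0 o)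
    have h2 : (C (p : ℤ) : MvPolynomial σ ℤ) * 1 ∈ M ^ 2 := by
      rw [mul_one]
      have h3 : ∑ o, d o * cbr z η o ∈ M ^ 2 := by
        refine Ideal.sum_mem _ fun o _ => ?_
        rw [pow_two]
        exact Ideal.mul_mem_mul (h1 o) (cbr_mem hpar o)
      have h4 := Ideal.add_mem _ hd h3
      rwa [sub_add_cancel] at h4
    have h5 := QuadAll.mem_of_prime_mul_mem_sq p hp M hpM 1 h2
    exact hM'.ne_top ((Ideal.eq_top_iff_one M).2 h5)
  obtain ⟨l, hl⟩ := cb_line (fun c o => ψ (pderiv c (cbr z η o))) hs hpk hker hd0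
  obtain ⟨l1', l2', hl2', hl12⟩ := IsFractionRing.div_surjective (A := MvPolynomial ω ℤ ⧸ Q) l
  obtain ⟨l1, rfl⟩ := Ideal.Quotient.mk_surjective l1'
  obtain ⟨l2, rfl⟩ := Ideal.Quotient.mk_surjective l2'
  have hl20 : φ l2 ≠ 0 := by
    change algebraMap (MvPolynomial ω ℤ ⧸ Q) κ (Ideal.Quotient.mk Q l2) ≠ 0
    rw [Ne, FaithfulSMul.algebraMap_eq_zero_iff]
    exact nonZeroDivisors.ne_zero hl2'
  have hleq : l = φ l1 / φ l2 := hl12.symm
  have hmem : ∀ o, l2 * a o - l1 * rename ι (d o) ∈ Q := by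
    intro o
    rw [← hφ, map_sub, map_mul, map_mul, ← hψφ, hl o, hleq]
    have h1 : φ l2 * (φ l1 / φ l2 * ψ (d o)) = φ l1 * ψ (d o) := by
      rw [← mul_assoc, mul_div_cancel₀ _ hl20]
    rw [h1, sub_self]
  have h6 : l1 * C (p : ℤ) ∈ Q ^ 2 := by
    have h7 : ∑ o, (l2 * a o - l1 * rename ι (d o)) * rename ι (cbr z η o) ∈ Q ^ 2 := by
      refine Ideal.sum_mem _ fun o _ => ?_
      rw [pow_two]
      exact Ideal.mul_mem_mul (hmem o) (hrQ o)
    have h8 : rename ι (C (p : ℤ) - ∑ o, d o * cbr z η o) ∈ Q ^ 2 := by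
      have h9 : (M ^ 2).map (rename ι : MvPolynomial σ ℤ →ₐ[ℤ] _).toRingHom ≤ Q ^ 2 := by
        rw [Ideal.map_pow]
        exact Ideal.pow_right_mono (Ideal.map_le_iff_le_comap.2 hMQ) 2
      exact h9 (Ideal.mem_map_of_mem _ hd)
    have h10 : l1 * C (p : ℤ) = l1 * rename ι (C (p : ℤ) - ∑ o, d o * cbr z η o)
        + l2 * (∑ o, a o * rename ι (cbr z η o))
        - ∑ o, (l2 * a o - l1 * rename ι (d o)) * rename ι (cbr z η o) := by
      have h11 : ∑ o, (l2 * a o - l1 * rename ι (d o)) * rename ι (cbr z η o)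
          = l2 * (∑ o, a o * rename ι (cbr z η o))
            - l1 * (∑ o, rename ι (d o) * rename ι (cbr z η o)) := by
        rw [Finset.mul_sum, Finset.mul_sum, ← Finset.sum_sub_distrib]
        refine Finset.sum_congr rfl fun o _ => ?_
        ring
      rw [h11, map_sub, rename_C, map_sum]
      simp only [map_mul]
      ring
    rw [h10]
    exact Ideal.sub_mem _ (Ideal.add_mem _ (Ideal.mul_mem_left _ _ h8)
      (Ideal.mul_mem_left _ _ hsum)) h7
  have hpQ : (C (p : ℤ) : MvPolynomial ω ℤ) ∈ Q := by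
    have h1 := hMQ _ hpM
    rwa [rename_C] at h1
  have h7 : l1 ∈ Q := by
    apply QuadAll.mem_of_prime_mul_mem_sq p hp Q hpQ
    rw [mul_comm]
    exact h6
  have hl0 : l = 0 := by
    rw [hleq, (hφ l1).2 h7, zero_div]
  have hall : ∀ o, a o ∈ Q := by
    intro o
    rw [← hφ, hl o, hl0, zero_mul]
  exact ⟨hall none, fun i => hall (some i)⟩

/-- The case `ω = σ`, `Q = M`. -/
theorem cot_indep0 {M : Ideal (MvPolynomial σ ℤ)} [M.IsMaximal] {p : ℕ} (hp : p.Prime)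
    (hpM : (C (p : ℤ) : MvPolynomial σ ℤ) ∈ M) {z : MvPolynomial σ ℤ}
    {η : σ → MvPolynomial σ ℤ} (hpar : Par M z η) {α : MvPolynomial σ ℤ}
    {β : σ → MvPolynomial σ ℤ} (h : α * z + ∑ i, β i * η i ∈ M ^ 2) :
    α ∈ M ∧ ∀ i, β i ∈ M := by
  haveI : M.IsPrime := Ideal.IsMaximal.isPrime inferInstance
  refine cot_indep hp hpM hpar (ι := id) Function.injective_id M ?_ ?_
  · intro m hm
    rw [rename_id_apply]
    exact hm
  · simp only [rename_id_apply]
    exact h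

end Pool.Agent.NT9
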