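import Pool.Agent.NT9.GeDefs

set_option autoImplicit false

/-! # NAKA: Nakayama at a maximal ideal -/

namespace Pool.Agent.NT9

open MvPolynomial

/-- Nakayama (Mathlib: `Submodule.exists_sub_one_mem_and_smul_le_of_fg_of_le_sup` with `N = M` as a module). -/
theorem nak {R : Type*} [CommRing R] {M I : Ideal R} (hfg : M.FG) (h1 : M ≠ ⊤)
    (h : M ≤ I ⊔ M ^ 2) : ∃ s, s ∉ M ∧ ∀ m ∈ M, s * m ∈ I := by
  rw [sq] at h
  obtain ⟨r, hr1, hr2⟩ := Submodule.exists_sub_one_mem_and_smul_le_of_fg_of_le_sup (I := M)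
    (N := I) (N' := M) (P := M) hfg le_rfl h
  refine ⟨r, fun hr => ?_, fun m hm => ?_⟩
  · apply h1
    rw [Ideal.eq_top_iff_one]
    have : (1 : R) = r - (r - 1) := by ring
    rw [this]
    exact M.sub_mem hr hr1
  · exact hr2 (Submodule.smul_mem_pointwise_smul m r M hm)

variable {σ : Type} [Fintype σ]

/-- The consequence for parameters: `s * m` is a combination of `z` and the `η i`, with the same `s` for all `m ∈ M`. -/
theorem Par.gen {M : Ideal (MvPolynomial σ ℤ)} [M.IsMaximal] {z : MvPolynomial σ ℤ}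
    {η : σ → MvPolynomial σ ℤ} (h : Par M z η) : ∃ s, s ∉ M ∧ ∀ m ∈ M,
      ∃ (c0 : MvPolynomial σ ℤ) (c : σ → MvPolynomial σ ℤ), s * m = c0 * z + ∑ i, c i * η i := by
  obtain ⟨s, hs, hs2⟩ := nak (IsNoetherian.noetherian M) (Ideal.IsMaximal.ne_top inferInstance)
    h.2.2
  refine ⟨s, hs, fun m hm => ?_⟩
  obtain ⟨c0, y, hy, e⟩ := Ideal.mem_span_insert.1 (hs2 m hm)
  obtain ⟨c, hc⟩ := Ideal.mem_span_range_iff_exists_fun.1 hy
  exact ⟨c0, c, by rw [e, hc]⟩

/-- `η i - ε i z ^ k` (`1 ≤ k`) instead of `η i`. -/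
theorem Par.change {M : Ideal (MvPolynomial σ ℤ)} {z : MvPolynomial σ ℤ}
    {η : σ → MvPolynomial σ ℤ} (h : Par M z η) {k : ℕ} (hk : 1 ≤ k)
    (ε : σ → MvPolynomial σ ℤ) : Par M z (fun i => η i - ε i * z ^ k) := by
  obtain ⟨h1, h2, h3⟩ := h
  refine ⟨h1, fun i => ?_, ?_⟩
  · exact M.sub_mem (h2 i) (M.mul_mem_left _ (Ideal.pow_mem_of_mem M h1 k hk))
  · refine h3.trans (sup_le_sup_right ?_ _)
    rw [Ideal.span_le]
    intro x hx
    rcases Set.mem_insert_iff.1 hx with rfl | ⟨i, rfl⟩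
    · exact Ideal.subset_span (Set.mem_insert _ _)
    · have e : η i = (η i - ε i * z ^ k) + ε i * z ^ (k - 1) * z := by
        obtain ⟨j, rfl⟩ : ∃ j, k = j + 1 := ⟨k - 1, by omega⟩
        rw [Nat.add_sub_cancel]
        ring
      rw [e]
      apply Ideal.add_mem
      · exact Ideal.subset_span (Set.mem_insert_of_mem _ ⟨i, rfl⟩)
      · exact Ideal.mul_mem_left _ _ (Ideal.subset_span (Set.mem_insert _ _))

/-- The smoothness of the form only depends on the class modulo `M`, up to a factor outside `M`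
(`χ s ≠ 0`: otherwise `χ` kills `M` and `s`, so `1`). -/
theorem SmF.scale {M : Ideal (MvPolynomial σ ℤ)} [M.IsMaximal] {ι : Type} [Fintype ι]
    {a a' : ι → ι → MvPolynomial σ ℤ} (h : SmF a M) {s : MvPolynomial σ ℤ} (hs : s ∉ M)
    (h1 : ∀ i j, a' i j - s * a i j ∈ M) : SmF a' M := by
  intro L _ χ hχ v hv1 hv2
  have hχs : χ s ≠ 0 := by
    obtain ⟨y, m, hm, e⟩ := Ideal.IsMaximal.exists_inv (inferInstance : M.IsMaximal) hs
    intro h0
    have e2 := congrArg χ e
    rw [map_add, map_mul, h0, hχ m hm, mul_zero, zero_add, map_one] at e2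
    exact zero_ne_one e2
  have ha : ∀ i j, χ (a' i j) = χ s * χ (a i j) := by
    intro i j
    have := hχ _ (h1 i j)
    rw [map_sub, map_mul, sub_eq_zero] at this
    exact this
  apply h L χ hχ v
  · have e : ∑ i, ∑ j, χ (a' i j) * v i * v j = χ s * ∑ i, ∑ j, χ (a i j) * v i * v j := by
      rw [Finset.mul_sum]
      refine Finset.sum_congr rfl fun i _ => ?_
      rw [Finset.mul_sum]
      refine Finset.sum_congr rfl fun j _ => ?_
      rw [ha]
      ring
    rw [e] at hv1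
    exact (mul_eq_zero.1 hv1).resolve_left hχs
  · intro i
    have e : ∑ j, χ (a' i j + a' j i) * v j = χ s * ∑ j, χ (a i j + a j i) * v j := by
      rw [Finset.mul_sum]
      refine Finset.sum_congr rfl fun j _ => ?_
      rw [map_add, map_add, ha, ha]
      ring
    have := hv2 i
    rw [e] at this
    exact (mul_eq_zero.1 this).resolve_left hχs

end Pool.Agent.NT9
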