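import Pool.Agent.NT9.GeSub

set_option autoImplicit false

/-! # FRB: localisations in a local subring -/

namespace Pool.Agent.NT9

variable {K : Type} [Field K]

/-- The localisation of `A ≤ O'` at `A ∩ mx O'`: a local subring of `O'`, dominated by `O'`.
Proof: `frSub A.subtype O'`. A nonunit of it lies in `mx O'`: if `x v = u` and `x⁻¹ ∈ O'` then `x⁻¹ u = v`, `u ≠ 0` and
`u⁻¹ = x⁻¹ v⁻¹ ∈ O'`. Local: the nonunits are the elements of `mx O'`, closed under sums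
(`IsLocalRing.of_nonunits_add`). -/
theorem exists_locAt {A O' : Subring K} [IsLocalRing O'] (hA : A ≤ O') :
    ∃ O : Subring K, IsLocalRing O ∧ IsFr A O ∧ O ≤ O' ∧ (∀ x ∈ mx O, x ∈ mx O') ∧
      ∀ x, x ∈ O ↔ x ∈ locAt A O' := by
  have hmem : ∀ x, x ∈ frSub A.subtype O' ↔ x ∈ locAt A O' := by
    intro x
    rw [mem_frSub]
    constructor
    · rintro ⟨u, v, h1, h2, h3⟩
      exact ⟨u, u.2, v, v.2, h1, h2, h3⟩
    · rintro ⟨u, hu, v, hv, h1, h2, h3⟩
      exact ⟨⟨u, hu⟩, ⟨v, hv⟩, h1, h2, h3⟩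
  have hle : frSub A.subtype O' ≤ O' := by
    intro x hx
    obtain ⟨u, v, h1, h2, h3⟩ := hx
    exact mem_O_of_fr (hA u.2) h1 h2 h3
  have hdom : ∀ x ∈ mx (frSub A.subtype O'), x ∈ mx O' := by
    rintro x ⟨hx, h⟩
    refine ⟨hle hx, ?_⟩
    rcases h with h | h
    · exact Or.inl h
    · exact Or.inr fun h1 => h (frSub_inv A.subtype O' x hx h1)
  refine ⟨frSub A.subtype O', ?_, ⟨?_, fun x hx => ?_⟩, hle, hdom, hmem⟩
  · refine IsLocalRing.of_nonunits_add fun a b ha hb hab => ?_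
    have h1 : ∀ c : frSub A.subtype O', c ∈ nonunits (frSub A.subtype O') → (c : K) ∈ mx O' := by
      intro c hc
      refine hdom c ?_
      by_contra hcon
      rw [notMem_mx_iff c.2] at hcon
      exact hc ((NH.LOC_isUnit_iff _ c).mpr hcon)
    have h2 := mx_add (h1 a ha) (h1 b hb)
    have h3 := (NH.LOC_isUnit_iff _ (a + b)).mp hab
    exact (notMem_mx_iff h2.1).mpr ⟨h3.1, hle h3.2⟩ h2
  · intro x hx
    exact map_mem_frSub A.subtype O' ⟨x, hx⟩
  · obtain ⟨u, v, h1, h2, h3⟩ := hx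
    exact ⟨u, u.2, v, v.2, h1, frSub_inv A.subtype O' _ (map_mem_frSub A.subtype O' v) h2, h3⟩

/-- Two local rings which are localisations of `A` at the same prime are equal. -/
theorem eq_of_fr {A O1 O2 : Subring K} (h1 : IsFr A O1) (h2 : IsFr A O2)
    (h : ∀ x ∈ A, x ∈ mx O1 ↔ x ∈ mx O2) : O1 = O2 := by
  have key : ∀ {O1 O2 : Subring K}, IsFr A O1 → IsFr A O2 →
      (∀ x ∈ A, x ∈ mx O1 ↔ x ∈ mx O2) → O1 ≤ O2 := by
    intro O1 O2 h1 h2 h x hx
    obtain ⟨u, hu, v, hv, hv0, hvO, hxv⟩ := h1.2 x hx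
    have h3 : v ∉ mx O2 := by
      rw [← h v hv, notMem_mx_iff (h1.1 hv)]
      exact ⟨hv0, hvO⟩
    rw [notMem_mx_iff (h2.1 hv)] at h3
    exact mem_O_of_fr (h2.1 hu) hv0 h3.2 hxv
  exact le_antisymm (key h1 h2 h) (key h2 h1 fun x hx => (h x hx).symm)

end Pool.Agent.NT9
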