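import Pool.Agent.NT9.GeBlowA

set_option autoImplicit false

/-! # BLOWB: the blow up of a closed point with finite residue field -/

namespace Pool.Agent.NT9

variable {K : Type} [Field K]

/-- An element of `A` which is a unit of `O` has an inverse modulo the maximal ideal, in `A`. -/
theorem blowb_inv {A O : Subring K} [IsLocalRing O] (hfr : FinRes O) (hA : A ≤ O) {x : K}
    (hx : x ∈ A) (hxm : x ∉ mx O) : ∃ y ∈ A, x * y - 1 ∈ mx O := by
  obtain ⟨S, hS⟩ := hfr
  have h1 : ∀ n : ℕ, ∃ s : S, (s : K) ∈ O ∧ x ^ n - s ∈ mx O := by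
    intro n
    obtain ⟨s, hs, hsO, h⟩ := hS (x ^ n) (O.pow_mem (hA hx) n)
    exact ⟨⟨s, hs⟩, hsO, h⟩
  choose f hf using h1
  obtain ⟨m, n, hmn, hfmn⟩ := Finite.exists_ne_map_eq_of_infinite f
  have key : ∀ m n : ℕ, m < n → f m = f n → ∃ y ∈ A, x * y - 1 ∈ mx O := by
    intro m n hlt hfmn
    obtain ⟨k, rfl⟩ : ∃ k, n = m + (k + 1) := ⟨n - m - 1, by omega⟩
    refine ⟨x ^ k, A.pow_mem hx k, ?_⟩
    have h2 : x ^ m * (x * x ^ k - 1) ∈ mx O := by
      have h3 := mx_sub (hf (m + (k + 1))).2 (hf m).2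
      rw [hfmn] at h3
      have h4 : x ^ m * (x * x ^ k - 1) = x ^ (m + (k + 1)) - f (m + (k + 1)) -
          (x ^ m - f (m + (k + 1))) := by
        ring
      rw [h4]
      exact h3
    have hxO : x ∈ O := hA hx
    rcases mx_prime (O.pow_mem hxO m) (O.sub_mem (O.mul_mem hxO (O.pow_mem hxO k)) O.one_mem) h2
      with h3 | h3
    · exfalso
      have h4 : ∀ m : ℕ, x ^ m ∉ mx O := by
        intro m
        induction m with
        | zero =>
          rw [pow_zero]
          exact one_notMem_mx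
        | succ m ih =>
          intro h5
          rw [pow_succ] at h5
          rcases mx_prime (O.pow_mem hxO m) hxO h5 with h6 | h6
          · exact ih h6
          · exact hxm h6
      exact h4 m h3
    · exact h3
  rcases lt_or_gt_of_ne hmn with h | h
  · exact key m n h hfmn
  · exact key n m h hfmn.symm

/-- The blow up of a point. Proof. `g` a finite generating family of `Mo`; `e, P` from `exists_P`; `Mo2 = Mo * P`, `E = 1 + e`.
`Com Mo2 (Mo ^ (1 + e))`: `Com.mul`, `Com.of_le`. Let `O' ∈ Loc Mo2`, `i, b` from `loc_mul`, `μ = g i`, `O1 = locAt (ch Mo μ) O'` (`exists_locAt`);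
`O1 ∈ Loc Mo`.
* Case `O1 ≠ O` and not `IsFr (ch Mo μ) O`: `μ ^ e ∈ P` by `exists_P` and `μ ^ e / μ ^ e = 1 ∉ mx O'`: `eq_of_unit` gives `O' = O1`.
* Case `O1 ≠ O` and `IsFr (ch Mo μ) O`. Let `A = ch Mo μ`, `q = A ∩ mx O`, `q1 = A ∩ mx O1` prime ideals of `A` (`= A ∩ mx O'`). `q` is a
maximal ideal, because `A / q` is a finite domain (`FinRes O`, `A ≤ O`; finitely many classes; `Finite.isDomain_to_isField`). If `q ≤ q1` then
`q = q1` and `O1 = O` (`eq_of_fr`). So there is `x ∈ q`, `x ∉ q1`, `x = ∑ a_j (u_j / μ ^ e)` with `u_j ∈ P`, `a_j ∈ A`; some `u_j / μ ^ e ∉ mx O'`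
(`exists_notMem_of_sum`); `eq_of_unit` with `h = u_j`: `O' = O1`.
* Case `O1 = O`: `IsFr (ch Mo μ) O` by the construction of `O1`. Put `t = b / μ ^ e`, in `mx O` by `exists_P`, `t ≠ 0`. `O ≤ O'` and domination
from `exists_locAt`. For `x ∈ mx O`: `x v = u` with `u, v ∈ A`, `v⁻¹ ∈ O`; `u ∈ mx O`, `u = ∑ a_j (u_j / μ ^ e)`, `u / t = ∑ a_j (u_j / b) ∈ O'`, so
`x / t = v⁻¹ (u / t) ∈ O'`. Finally `ch (Mo * P) (μ b)` is contained in the closure of `O` and the `y / t`, `y ∈ mx O`: its generators are sums of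
`(m / μ) ((u / μ ^ e) / t)`, `m ∈ Mo`, `u ∈ P`, with `m / μ ∈ O`, `u / μ ^ e ∈ mx O`; this closure is contained in `O'`; fractions: from `IsFr (ch (Mo * P) (μ b)) O'`. -/
theorem exists_blow {Mo : Submodule ℤ K} (hfg : Mo.FG) {O : Subring K} (hO : O ∈ Loc Mo)
    (hfr : FinRes O) : ∃ (Mo2 : Submodule ℤ K) (E : ℕ), Mo2.FG ∧ 0 < E ∧ Com Mo2 (Mo ^ E) ∧
      ∀ O' ∈ Loc Mo2, (O' ∈ Loc Mo ∧ O' ≠ O) ∨ IsBl O O' := by
  classical
  have hOloc : IsLocalRing O := hO.1
  obtain ⟨r, g, hg⟩ := Submodule.fg_iff_exists_fin_generating_family.1 hfg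
  obtain ⟨e, P, he, hP, ⟨N, hN0, hN⟩, hgen, hnot⟩ := exists_P (g := g) hg.symm hO hfr
  have hfgP : P.FG := fg_of_le (fg_pow hfg e) hP
  refine ⟨Mo * P, 1 + e, fg_mul hfg hfgP, by omega, ?_, ?_⟩
  · rw [pow_add, pow_one]
    exact Com.mul (Com.refl _) (Com.of_le hP hN0 hN)
  · intro O' hO'
    have hloc' : IsLocalRing O' := hO'.1
    obtain ⟨i, b, hb, hgi, hb0, hA, hB, hfr'⟩ := loc_mul hg.symm hO'
    have hgie : g i ^ e ≠ 0 := pow_ne_zero _ hgi
    have hgiMo : g i ∈ Mo := by
      rw [← hg]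
      exact Submodule.subset_span ⟨i, rfl⟩
    have hchle : ch Mo (g i) ≤ O' := by
      unfold ch
      rw [Subring.closure_le]
      rintro x ⟨y, hy, rfl⟩
      exact hA y hy
    obtain ⟨O1, hl1, hfr1, hle1, hdom1, -⟩ := exists_locAt hchle
    have hO1 : O1 ∈ Loc Mo := ⟨hl1, g i, hgiMo, hgi, hfr1⟩
    by_cases hO1O : O1 = O
    · subst hO1O
      right
      obtain ⟨hgP, hgm⟩ := hgen i hgi hfr1
      have ht0 : b / g i ^ e ≠ 0 := div_ne_zero hb0 hgie
      have hdiv : ∀ x ∈ mx O1, x / (b / g i ^ e) ∈ O' := by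
        intro x hx
        obtain ⟨u, hu, v, hv, hv0, hvO, hxv⟩ := hfr1.2 x hx.1
        have hum : u ∈ mx O1 := by
          rw [← hxv]
          exact mx_mul_right hx (hfr1.1 hv)
        obtain ⟨k, a, w, ha, hw, hux⟩ := hgm u hu hum
        have h1 : x / (b / g i ^ e) = v⁻¹ * ∑ j, a j * (w j / b) := by
          have h2 : x = v⁻¹ * u := by
            rw [← hxv]
            field_simp
          rw [h2, hux, mul_div_assoc, Finset.sum_div]
          congr 1
          refine Finset.sum_congr rfl fun j _ => ?_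
          field_simp
        rw [h1]
        exact O'.mul_mem (hle1 hvO) (O'.sum_mem fun j _ =>
          O'.mul_mem (hle1 (hfr1.1 (ha j))) (hB _ (hw j)))
      refine ⟨b / g i ^ e, hgP b hb, ht0, hle1, hdom1, hdiv, ?_, ?_⟩
      · rw [Subring.closure_le]
        rintro x (hx | ⟨y, hy, rfl⟩)
        · exact hle1 hx
        · exact hdiv y hy
      · have hchC : ch (Mo * P) (g i * b) ≤
            Subring.closure ((O1 : Set K) ∪ {x | ∃ y ∈ mx O1, x = y / (b / g i ^ e)}) := by
          unfold ch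
          rw [Subring.closure_le]
          rintro x ⟨y, hy, rfl⟩
          change y / (g i * b) ∈ Subring.closure _
          induction hy using Submodule.mul_induction_on' with
          | mem_mul_mem m hm u hu =>
            have h3 : m * u / (g i * b) = (m / g i) * ((u / g i ^ e) / (b / g i ^ e)) := by
              field_simp
            rw [h3]
            exact Subring.mul_mem _ (Subring.subset_closure (Or.inl (hfr1.1
              (Subring.subset_closure ⟨m, hm, rfl⟩))))
              (Subring.subset_closure (Or.inr ⟨_, hgP u hu, rfl⟩))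
          | add x _ y _ hx hy =>
            rw [add_div]
            exact Subring.add_mem _ hx hy
        intro x hx
        obtain ⟨u, hu, v, hv, h⟩ := hfr'.2 x hx
        exact ⟨u, hchC hu, v, hchC hv, h⟩
    · left
      have key : ∃ h ∈ P, h / g i ^ e ∉ mx O' := by
        by_cases hfO : IsFr (ch Mo (g i)) O
        · obtain ⟨hgP, hgm⟩ := hgen i hgi hfO
          have hx : ∃ x ∈ ch Mo (g i), x ∈ mx O ∧ x ∉ mx O' := by
            by_contra hcon
            push Not at hcon
            apply hO1O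
            refine eq_of_fr hfr1 hfO ?_
            intro x hx
            rw [dom_iff hle1 hdom1 (hfr1.1 hx)]
            constructor
            · intro hx'
              by_contra hxO
              obtain ⟨y, hy, hxy⟩ := blowb_inv hfr hfO.1 hx hxO
              have h1 : x * y - 1 ∈ mx O' :=
                hcon _ (Subring.sub_mem _ (Subring.mul_mem _ hx hy) (Subring.one_mem _)) hxy
              have h2 : x * y ∈ mx O' := mx_mul_right hx' (hchle hy)
              have h3 := mx_sub h2 h1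
              rw [sub_sub_cancel] at h3
              exact one_notMem_mx h3
            · exact hcon x hx
          obtain ⟨x, hxch, hxO, hxO'⟩ := hx
          obtain ⟨k, a, w, ha, hw, hxs⟩ := hgm x hxch hxO
          rw [hxs] at hxO'
          obtain ⟨j, -, hj⟩ := exists_notMem_of_sum Finset.univ a (fun j => w j / g i ^ e)
            (fun j _ => hchle (ha j)) hxO'
          exact ⟨w j, hw j, hj⟩
        · refine ⟨g i ^ e, hnot i hgi hfO, ?_⟩
          rw [div_self hgie]
          exact one_notMem_mx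
      obtain ⟨h, hh, hu⟩ := key
      have heq := eq_of_unit hP hgiMo hgi hb hb0 hA hB hfr' hfr1 hle1 hdom1 hh hu
      rw [heq]
      exact ⟨hO1, hO1O⟩

end Pool.Agent.NT9
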