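import Pool.Agent.NT9.GeDefs

set_option autoImplicit false

/-! # COTA: finite residue fields -/

namespace Pool.Agent.NT9

open MvPolynomial

variable {σ : Type} [Fintype σ]

/-- The residue field of a maximal ideal which contains a prime number is finite (Zariski's lemma: a field of finite type
over `ZMod p`; Mathlib: `finite_of_finite_type_of_isJacobsonRing` or similar). -/
theorem finite_quot {M : Ideal (MvPolynomial σ ℤ)} [M.IsMaximal] {p : ℕ} (hp : p.Prime)
    (hpM : (C (p : ℤ) : MvPolynomial σ ℤ) ∈ M) : Finite (MvPolynomial σ ℤ ⧸ M) := by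
  have : Fact p.Prime := ⟨hp⟩
  let _ : Field (MvPolynomial σ ℤ ⧸ M) := Ideal.Quotient.field M
  have hzero : ((p : ℕ) : MvPolynomial σ ℤ ⧸ M) = 0 := by
    have h := Ideal.Quotient.eq_zero_iff_mem.2 hpM
    simpa using h
  have hchar : CharP (MvPolynomial σ ℤ ⧸ M) p := (CharP.charP_iff_prime_eq_zero hp).2 hzero
  let _ : Algebra (ZMod p) (MvPolynomial σ ℤ ⧸ M) := ZMod.algebra _ p
  have hft : Algebra.FiniteType ℤ (MvPolynomial σ ℤ ⧸ M) := inferInstance
  have htower : IsScalarTower ℤ (ZMod p) (MvPolynomial σ ℤ ⧸ M) :=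
    IsScalarTower.of_algebraMap_eq' (Subsingleton.elim _ _)
  have h2 : Algebra.FiniteType (ZMod p) (MvPolynomial σ ℤ ⧸ M) :=
    Algebra.FiniteType.of_restrictScalars_finiteType ℤ (ZMod p) _
  have h3 : Module.Finite (ZMod p) (MvPolynomial σ ℤ ⧸ M) :=
    finite_of_finite_type_of_isJacobsonRing (ZMod p) _
  exact Module.finite_of_finite (ZMod p)

/-- `x ^ q - x ∈ M` for all `x`, where `q` is the number of elements of the residue field, and `q ∈ M`. -/
theorem exists_q {M : Ideal (MvPolynomial σ ℤ)} [M.IsMaximal] {p : ℕ} (hp : p.Prime)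
    (hpM : (C (p : ℤ) : MvPolynomial σ ℤ) ∈ M) : ∃ q : ℕ, 2 ≤ q ∧
      (C (q : ℤ) : MvPolynomial σ ℤ) ∈ M ∧ ∀ x : MvPolynomial σ ℤ, x ^ q - x ∈ M := by
  have := finite_quot hp hpM
  let _ : Field (MvPolynomial σ ℤ ⧸ M) := Ideal.Quotient.field M
  let _ : Fintype (MvPolynomial σ ℤ ⧸ M) := Fintype.ofFinite _
  refine ⟨Fintype.card (MvPolynomial σ ℤ ⧸ M), Fintype.one_lt_card, ?_, fun x => ?_⟩
  · rw [← Ideal.Quotient.eq_zero_iff_mem]
    have := Nat.cast_card_eq_zero (MvPolynomial σ ℤ ⧸ M)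
    simpa using this
  · rw [← Ideal.Quotient.eq_zero_iff_mem, map_sub, map_pow, FiniteField.pow_card, sub_self]

end Pool.Agent.NT9
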