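import Pool.Agent.NT9.GeSub

set_option autoImplicit false

/-! # BLC: the charts of a blow up -/

namespace Pool.Agent.NT9

variable {K : Type} [Field K]

/-- One of the generators of the maximal ideal gives a chart. Proof. `t = ∑ c i * g i` with `c i ∈ O`, so `1 = ∑ c i (g i / t)` and some
`g b / t ∉ mx O'` (`exists_notMem_of_sum`); `g b ≠ 0`, `g i / g b = (g i / t) (g b / t)⁻¹ ∈ O'`. Let `F` be as in `Ch`. `t / g b = ∑ c i (g i / g b) ∈ F`, its inverse
is in `O'`, so `g b / t ∈ F`; for `y ∈ mx O`, `y = ∑ c' i g i`, `y / t = ∑ c' i (g i / g b) (g b / t) ∈ F`. So `F` contains the closure and `O' ≤ F` by `le_of_fr`. -/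
theorem bl_chart {O O' : Subring K} [IsLocalRing O] [IsLocalRing O'] (h : IsBl O O') {ι : Type}
    [Fintype ι] {g : ι → K} (hgm : ∀ i, g i ∈ mx O)
    (hg : ∀ x ∈ mx O, ∃ c : ι → K, (∀ i, c i ∈ O) ∧ x = ∑ i, c i * g i) :
    ∃ b, Ch O O' g b := by
  obtain ⟨t, htm, ht0, hle, hdom, hdiv, hfr⟩ := h
  obtain ⟨c, hc, htc⟩ := hg t htm
  have h1 : ∑ i, c i * (g i / t) ∉ mx O' := by
    have h2 : ∑ i, c i * (g i / t) = (∑ i, c i * g i) / t := by
      rw [Finset.sum_div]
      exact Finset.sum_congr rfl fun i _ => by rw [mul_div_assoc]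
    rw [h2, ← htc, div_self ht0]
    exact one_notMem_mx
  obtain ⟨b, -, hb⟩ := exists_notMem_of_sum Finset.univ c (fun i => g i / t)
    (fun i _ => hle (hc i)) h1
  rw [notMem_mx_iff (hdiv _ (hgm b))] at hb
  have hgb : g b ≠ 0 := by
    intro h0
    exact hb.1 (by rw [h0, zero_div])
  refine ⟨b, hgb, hle, hdom, ?_, ?_⟩
  · intro i
    have h2 : g i / g b = (g i / t) * (g b / t)⁻¹ := by
      field_simp
    rw [h2]
    exact O'.mul_mem (hdiv _ (hgm i)) hb.2
  · intro F hOF hgF hinv
    have h3 : t / g b ∈ F := by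
      have h2 : t / g b = ∑ i, c i * (g i / g b) := by
        conv_lhs => rw [htc]
        rw [Finset.sum_div]
        exact Finset.sum_congr rfl fun i _ => by rw [mul_div_assoc]
      rw [h2]
      exact F.sum_mem fun i _ => F.mul_mem (hOF (hc i)) (hgF i)
    have h4 : g b / t ∈ F := by
      have h5 := hinv _ h3 (by rw [inv_div]; exact hdiv _ (hgm b))
      rwa [inv_div] at h5
    refine le_of_fr hfr ?_ hinv
    rw [Subring.closure_le]
    rintro x (hx | ⟨y, hy, rfl⟩)
    · exact hOF hx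
    · obtain ⟨c', hc', hyc⟩ := hg y hy
      have h2 : y / t = (∑ i, c' i * (g i / g b)) * (g b / t) := by
        conv_lhs => rw [hyc]
        rw [Finset.sum_mul, Finset.sum_div]
        refine Finset.sum_congr rfl fun i _ => ?_
        field_simp
      rw [h2]
      exact F.mul_mem (F.sum_mem fun i _ => F.mul_mem (hOF (hc' i)) (hgF i)) h4

/-- Change of the chart: if `g b / g b' ∈ O'`. Proof: `g i / g b' = (g i / g b) (g b / g b')`. If `F` has the properties for `b'` then
`g b / g b' ∈ F` and `g b' / g b ∈ O'` is its inverse, so `g b' / g b ∈ F` and `g i / g b = (g i / g b') (g b' / g b) ∈ F`. -/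
theorem Ch.change {O O' : Subring K} {ι : Type} {g : ι → K} {b b' : ι} (h : Ch O O' g b)
    (h0 : g b' ≠ 0) (h1 : g b / g b' ∈ O') : Ch O O' g b' := by
  obtain ⟨hgb, hle, hdom, hq, hmin⟩ := h
  refine ⟨h0, hle, hdom, ?_, ?_⟩
  · intro i
    have h2 : g i / g b' = (g i / g b) * (g b / g b') := by
      field_simp
    rw [h2]
    exact O'.mul_mem (hq i) h1
  · intro F hOF hgF hinv
    have h3 : g b' / g b ∈ F := by
      have h5 := hinv _ (hgF b) (by rw [inv_div]; exact hq b')
      rwa [inv_div] at h5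
    refine hmin F hOF ?_ hinv
    intro i
    have h2 : g i / g b = (g i / g b') * (g b' / g b) := by
      field_simp
    rw [h2]
    exact F.mul_mem (hgF i) h3

end Pool.Agent.NT9
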