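import Pool.Agent.NT9.GeSub

set_option autoImplicit false

/-! # BASEA: the singular points of the original model -/

namespace Pool.Agent.NT9

open MvPolynomial

variable {σ : Type} [Fintype σ] {K : Type} [Field K]

omit [Fintype σ] in
private theorem GeBaseA_prime {Q : Ideal (MvPolynomial σ ℤ)} (hQ : Q.IsPrime) {N : ℤ} (h0 : N ≠ 0)
    (hN : (C N : MvPolynomial σ ℤ) ∈ Q) : ∃ p : ℕ, p.Prime ∧ (C (p : ℤ) : MvPolynomial σ ℤ) ∈ Q := by
  have hP : (Q.comap (C : ℤ →+* MvPolynomial σ ℤ)).IsPrime := Ideal.comap_isPrime _ _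
  have hbot : Q.comap (C : ℤ →+* MvPolynomial σ ℤ) ≠ ⊥ := by
    intro h
    have h1 : N ∈ Q.comap (C : ℤ →+* MvPolynomial σ ℤ) := hN
    rw [h, Ideal.mem_bot] at h1
    exact h0 h1
  have h2 := Submodule.IsPrincipal.prime_generator_of_isPrime _ hbot
  have h3 := Submodule.IsPrincipal.generator_mem (Q.comap (C : ℤ →+* MvPolynomial σ ℤ))
  set g := Submodule.IsPrincipal.generator (Q.comap (C : ℤ →+* MvPolynomial σ ℤ))
  refine ⟨g.natAbs, Int.prime_iff_natAbs_prime.1 h2, ?_⟩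
  have h4 : ((g.natAbs : ℕ) : ℤ) ∈ Q.comap (C : ℤ →+* MvPolynomial σ ℤ) := by
    rcases Int.natAbs_eq g with h | h
    · rw [← h]; exact h3
    · have : ((g.natAbs : ℕ) : ℤ) = -g := by omega
      rw [this]
      exact neg_mem h3
  exact h4

/-- A point of the affine chart which is not regular. Proof. `q = pre O θ`; prime; `f ∈ q` since `θ f = 0`. If for all `a`, `a f ∈ q ^ 2 → a ∈ q`, then `O` is regular:
`NH.regular_of_pres` with `T = MvPolynomial σ ℤ`, `π = θ`, the single relation `f`, `e = 1`. So `a f ∈ q ^ 2` for some `a ∉ q`; then `∂_i (a f) ∈ q`, so `∂_i f ∈ q`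
(`a ∂_i f + f ∂_i a`). By `hN` an integer `N ≠ 0` is in `q`, so a prime number, and `q` is maximal by `Iso`; `1 - a a' ∈ q` for some `a'`, so
`f = (1 - a a') f + a' (a f) ∈ q ^ 2`. -/
theorem nonreg_point {f : MvPolynomial σ ℤ} {θ : MvPolynomial σ ℤ →+* K}
    (hker : RingHom.ker θ = Ideal.span {f})
    (hN : ∃ N : ℤ, N ≠ 0 ∧ (C N : MvPolynomial σ ℤ) ∈
      Ideal.span {f} ⊔ Ideal.span (Set.range fun i => pderiv i f)) (hiso : Iso f)
    {O : Subring K} [IsLocalRing O] (hfr : IsFr θ.range O) (hnr : ¬ IsRegularLocalRing O) :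
    ∃ (q : Ideal (MvPolynomial σ ℤ)) (p : ℕ), q.IsMaximal ∧ (∀ h, h ∈ q ↔ θ h ∈ mx O) ∧
      p.Prime ∧ (C (p : ℤ) : MvPolynomial σ ℤ) ∈ q ∧ f ∈ q ^ 2 ∧ ∀ i, pderiv i f ∈ q := by
  classical
  have hθO : ∀ h, θ h ∈ O := fun h => hfr.1 ⟨h, rfl⟩
  set q := pre O θ hθO with hq
  have hqp : q.IsPrime := pre_isPrime θ hθO
  have hmem : ∀ h, h ∈ q ↔ θ h ∈ mx O := fun h => mem_pre θ hθO h
  have hθf : θ f = 0 := by
    rw [← RingHom.mem_ker, hker]
    exact Ideal.subset_span rfl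
  have hfq : f ∈ q := by
    rw [hmem, hθf]
    exact zero_mem_mx
  have hex : ∃ a, a * f ∈ q ^ 2 ∧ a ∉ q := by
    by_contra hcon
    push Not at hcon
    apply hnr
    refine NH.regular_of_pres O θ hθO ?_ (fun _ : Unit => f) (fun _ => hθf) 1 ?_ ?_ ?_
    · intro x hx
      obtain ⟨u, ⟨u', rfl⟩, v, ⟨v', rfl⟩, h1, h2, h3⟩ := hfr.2 x hx
      exact ⟨u', v', h1, h2, h3⟩
    · rw [map_one]
      exact one_ne_zero
    · intro t ht
      refine ⟨0, ?_⟩
      rw [pow_zero, one_mul, Set.range_const]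
      rw [← hker, RingHom.mem_ker]
      exact ht
    · intro P hP hPO a ha i
      have hPq : P = q := by
        ext t
        rw [hPO, hmem]
        unfold mx
        rw [Set.mem_ofPred_eq]
        exact ⟨fun h => ⟨hθO t, h⟩, fun h => h.2⟩
      rw [hPq] at ha ⊢
      have h1 : a () * f ∈ q ^ 2 := by simpa using ha
      cases i
      exact hcon _ h1
  obtain ⟨a, ha, haq⟩ := hex
  have hder : ∀ x ∈ q ^ 2, ∀ i, pderiv i x ∈ q := by
    intro x hx i
    rw [pow_two] at hx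
    refine Submodule.mul_induction_on hx ?_ ?_
    · intro m hm n hn
      rw [Derivation.leibniz]
      exact Ideal.add_mem _ (Ideal.mul_mem_right _ _ hm) (Ideal.mul_mem_right _ _ hn)
    · intro x y hx hy
      rw [map_add]
      exact Ideal.add_mem _ hx hy
  have hdq : ∀ i, pderiv i f ∈ q := by
    intro i
    have h1 := hder _ ha i
    rw [Derivation.leibniz, smul_eq_mul, smul_eq_mul] at h1
    have h2 : a * pderiv i f ∈ q := by
      have h3 := Ideal.sub_mem _ h1 (Ideal.mul_mem_right (pderiv i a) _ hfq)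
      rwa [add_sub_cancel_right] at h3
    exact (hqp.mem_or_mem h2).resolve_left haq
  have hIq : Ideal.span {f} ⊔ Ideal.span (Set.range fun i => pderiv i f) ≤ q := by
    refine sup_le ?_ ?_
    · rw [Ideal.span_le]
      rintro _ rfl
      exact hfq
    · rw [Ideal.span_le]
      rintro _ ⟨i, rfl⟩
      exact hdq i
  obtain ⟨N, hN0, hN1⟩ := hN
  obtain ⟨p, hp, hpq⟩ := GeBaseA_prime hqp hN0 (hIq hN1)
  have hqmax := hiso q hqp ⟨p, hp, hpq⟩ hfq hdq
  refine ⟨q, p, hqmax, hmem, hp, hpq, ?_, hdq⟩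
  obtain ⟨a', ha'⟩ : ∃ a', 1 - a * a' ∈ q := by
    obtain ⟨a', c, hc, h⟩ := hqmax.exists_inv haq
    refine ⟨a', ?_⟩
    have : 1 - a * a' = c := by rw [← h]; ring
    rw [this]
    exact hc
  have e : f = (1 - a * a') * f + a' * (a * f) := by ring
  rw [e, pow_two]
  rw [pow_two] at ha
  exact Ideal.add_mem _ (Ideal.mul_mem_mul ha' hfq) (Ideal.mul_mem_left _ _ ha)

end Pool.Agent.NT9
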