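import Pool.Agent.NT9.GeNakA

set_option autoImplicit false

/-! # NAKB: the forms at level 0 -/

namespace Pool.Agent.NT9

open MvPolynomial

variable {σ : Type} [Fintype σ]

/-- elements of the shape `∑ m i j η i η j + z ∑ b i η i + z ^ 2 c` with `m i j ∈ M` -/
private def NakB_P (M : Ideal (MvPolynomial σ ℤ)) (z : MvPolynomial σ ℤ)
    (η : σ → MvPolynomial σ ℤ) (x : MvPolynomial σ ℤ) : Prop :=
  ∃ (m : σ → σ → MvPolynomial σ ℤ) (b : σ → MvPolynomial σ ℤ) (c : MvPolynomial σ ℤ),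
    (∀ i j, m i j ∈ M) ∧ x = ∑ i, ∑ j, m i j * η i * η j + z * ∑ i, b i * η i + z ^ 2 * c

private theorem NakB_P.add {M : Ideal (MvPolynomial σ ℤ)} {z : MvPolynomial σ ℤ}
    {η : σ → MvPolynomial σ ℤ} {x y : MvPolynomial σ ℤ} (hx : NakB_P M z η x)
    (hy : NakB_P M z η y) : NakB_P M z η (x + y) := by
  obtain ⟨m, b, c, hm, rfl⟩ := hx
  obtain ⟨m', b', c', hm', rfl⟩ := hy
  refine ⟨fun i j => m i j + m' i j, fun i => b i + b' i, c + c',
    fun i j => M.add_mem (hm i j) (hm' i j), ?_⟩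
  simp only [add_mul, Finset.sum_add_distrib]
  ring

/-- a sum over `M ^ 3` -/
private theorem NakB_pow {R : Type*} [CommRing R] {M : Ideal R} {P : R → Prop}
    (hadd : ∀ x y, P x → P y → P (x + y)) {s : R}
    (h : ∀ m1 ∈ M, ∀ m2 ∈ M, ∀ m3 ∈ M, P ((s * m1) * ((s * m2) * (s * m3)))) :
    ∀ x ∈ M ^ 3, P (s ^ 3 * x) := by
  intro x hx
  rw [pow_three] at hx
  refine Submodule.mul_induction_on hx ?_ ?_
  · intro m1 hm1 n hn
    refine Submodule.mul_induction_on hn ?_ ?_
    · intro m2 hm2 m3 hm3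
      have := h m1 hm1 m2 hm2 m3 hm3
      have e : s ^ 3 * (m1 * (m2 * m3)) = (s * m1) * ((s * m2) * (s * m3)) := by ring
      rw [e]
      exact this
    · intro y1 y2 h1 h2
      have e : s ^ 3 * (m1 * (y1 + y2)) = s ^ 3 * (m1 * y1) + s ^ 3 * (m1 * y2) := by ring
      rw [e]
      exact hadd _ _ h1 h2
  · intro y1 y2 h1 h2
    rw [mul_add]
    exact hadd _ _ h1 h2

/-- From `TZ` to the form of level `0`. Proof. `s` from `Par.gen`. For `x ∈ span {z} * M`: `s x = z (c0 z + ∑ c i η i)`. For `x ∈ M ^ 3`, a sum of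
products `m1 m2 m3`: `s ^ 3 m1 m2 m3` is a product of three linear forms in `z, η`, so of the shape `∑ m i j η i η j + z ∑ b i η i + z ^ 2 c` with
`m i j ∈ M`; the set of elements of this shape is an ideal. So
`s ^ 3 (f - ∑ a i j η i η j)` is of this shape, and `SmF.scale` for `s ^ 3`. -/
theorem bform_zero {f : MvPolynomial σ ℤ} {M : Ideal (MvPolynomial σ ℤ)} [M.IsMaximal]
    {z : MvPolynomial σ ℤ} {η : σ → MvPolynomial σ ℤ} {a : σ → σ → MvPolynomial σ ℤ}
    (hpar : Par M z η)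
    (h : f - ∑ i, ∑ j, a i j * η i * η j ∈ Ideal.span {z} * M ⊔ M ^ 3) (ha : SmF a M) :
    BForm f M z η 0 := by
  have hMp : M.IsPrime := Ideal.IsMaximal.isPrime inferInstance
  obtain ⟨s, hs, hgen⟩ := hpar.gen
  obtain ⟨x1, hx1, x2, hx2, e⟩ := Submodule.mem_sup.1 h
  have h1 : NakB_P M z η (s ^ 3 * x1) := by
    obtain ⟨m, hm, rfl⟩ := Ideal.mem_span_singleton_mul.1 hx1
    obtain ⟨c0, c, hc⟩ := hgen m hm
    refine ⟨fun _ _ => 0, fun i => s ^ 2 * c i, s ^ 2 * c0, fun _ _ => M.zero_mem, ?_⟩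
    have e1 : ∑ i, s ^ 2 * c i * η i = s ^ 2 * ∑ i, c i * η i := by
      rw [Finset.mul_sum]
      exact Finset.sum_congr rfl fun i _ => by ring
    rw [e1]
    simp only [zero_mul, Finset.sum_const_zero, zero_add]
    calc s ^ 3 * (z * m) = s ^ 2 * z * (s * m) := by ring
      _ = _ := by rw [hc]; ring
  have h2 : NakB_P M z η (s ^ 3 * x2) := by
    refine NakB_pow (fun x y hx hy => hx.add hy) ?_ x2 hx2
    intro m1 hm1 m2 hm2 m3 hm3
    obtain ⟨c0, c, hc⟩ := hgen m2 hm2
    obtain ⟨d0, d, hd⟩ := hgen m3 hm3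
    obtain ⟨u, hu⟩ : ∃ u, u = s * m1 := ⟨_, rfl⟩
    have huM : u ∈ M := by
      rw [hu]
      exact M.mul_mem_left _ hm1
    rw [← hu, hc, hd]
    refine ⟨fun i j => u * c i * d j, fun i => u * (c0 * d i + d0 * c i), u * c0 * d0,
      fun i j => M.mul_mem_right _ (M.mul_mem_right _ huM), ?_⟩
    have e1 : ∑ i, ∑ j, u * c i * d j * η i * η j = u * ((∑ i, c i * η i) * ∑ j, d j * η j) := by
      rw [Finset.sum_mul_sum, Finset.mul_sum]
      refine Finset.sum_congr rfl fun i _ => ?_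
      rw [Finset.mul_sum]
      exact Finset.sum_congr rfl fun j _ => by ring
    have e2 : ∑ i, u * (c0 * d i + d0 * c i) * η i =
        u * (c0 * ∑ i, d i * η i + d0 * ∑ i, c i * η i) := by
      rw [Finset.mul_sum, Finset.mul_sum, ← Finset.sum_add_distrib, Finset.mul_sum]
      exact Finset.sum_congr rfl fun i _ => by ring
    rw [e1, e2]
    ring
  obtain ⟨m, b, c, hm, hx⟩ := h1.add h2
  refine ⟨s ^ 3, fun i j => s ^ 3 * a i j + m i j, b, c, fun h3 => hs (hMp.mem_of_pow_mem 3 h3),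
    ha.scale (fun h3 => hs (hMp.mem_of_pow_mem 3 h3)) (fun i j => by
      rw [add_sub_cancel_left]
      exact hm i j), ?_⟩
  have e3 : s ^ 3 * f = s ^ 3 * ∑ i, ∑ j, a i j * η i * η j + (s ^ 3 * x1 + s ^ 3 * x2) := by
    rw [← mul_add, e]
    ring
  rw [e3, hx]
  have e4 : ∑ i, ∑ j, (s ^ 3 * a i j + m i j) * η i * η j =
      s ^ 3 * ∑ i, ∑ j, a i j * η i * η j + ∑ i, ∑ j, m i j * η i * η j := by
    rw [Finset.mul_sum, ← Finset.sum_add_distrib]
    refine Finset.sum_congr rfl fun i _ => ?_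
    rw [Finset.mul_sum, ← Finset.sum_add_distrib]
    exact Finset.sum_congr rfl fun j _ => by ring
  rw [e4]
  ring

/-- From `TV` to `VForm`. Proof. `z = x none`, `η i = x (some i)`. `s` from `Par.gen`; `s ^ 3 m` for `m ∈ M ^ 3` is `∑ m_ij x i x j` with
`m_ij ∈ M`. So `s ^ 3 f = ∑ A' i j x i x j` with `A' = s ^ 3 A` modulo `M`, `SmF A' M` (`SmF.scale`), `a i j = A' (some i) (some j)`,
`b i = A' (some i) none + A' none (some i)`, `c = A' none none`; `SmV` from `SmF` with the vector `v i`, `v none = u` (`Fintype.sum_option`). -/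
theorem vform_of_tv {f : MvPolynomial σ ℤ} {M : Ideal (MvPolynomial σ ℤ)} [M.IsMaximal]
    (h : TV f M) : ∃ (z : MvPolynomial σ ℤ) (η : σ → MvPolynomial σ ℤ), Par M z η ∧
      VForm f M z η := by
  have hMp : M.IsPrime := Ideal.IsMaximal.isPrime inferInstance
  obtain ⟨x, A, hx, hgen, hf, hA⟩ := h
  obtain ⟨s, hs, hs2⟩ := nak (IsNoetherian.noetherian M) (Ideal.IsMaximal.ne_top inferInstance)
    hgen
  have hgen' : ∀ m ∈ M, ∃ c : Option σ → MvPolynomial σ ℤ, s * m = ∑ i, c i * x i := by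
    intro m hm
    obtain ⟨c, hc⟩ := Ideal.mem_span_range_iff_exists_fun.1 (hs2 m hm)
    exact ⟨c, hc.symm⟩
  have h3 : ∀ y ∈ M ^ 3, ∃ m : Option σ → Option σ → MvPolynomial σ ℤ, (∀ i j, m i j ∈ M) ∧
      s ^ 3 * y = ∑ i, ∑ j, m i j * x i * x j := by
    refine NakB_pow (P := fun y => ∃ m : Option σ → Option σ → MvPolynomial σ ℤ,
      (∀ i j, m i j ∈ M) ∧ y = ∑ i, ∑ j, m i j * x i * x j) ?_ ?_
    · rintro y1 y2 ⟨m1, hm1, rfl⟩ ⟨m2, hm2, rfl⟩
      refine ⟨fun i j => m1 i j + m2 i j, fun i j => M.add_mem (hm1 i j) (hm2 i j), ?_⟩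
      simp only [add_mul, Finset.sum_add_distrib]
    · intro m1 hm1 m2 hm2 m3 hm3
      obtain ⟨c, hc⟩ := hgen' m2 hm2
      obtain ⟨d, hd⟩ := hgen' m3 hm3
      refine ⟨fun i j => (s * m1) * c i * d j, fun i j =>
        M.mul_mem_right _ (M.mul_mem_right _ (M.mul_mem_left _ hm1)), ?_⟩
      rw [hc, hd, Finset.sum_mul_sum, Finset.mul_sum]
      refine Finset.sum_congr rfl fun i _ => ?_
      rw [Finset.mul_sum]
      exact Finset.sum_congr rfl fun j _ => by ring
  obtain ⟨m, hm, hmf⟩ := h3 _ hf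
  obtain ⟨A', hA'⟩ : ∃ A' : Option σ → Option σ → MvPolynomial σ ℤ,
      A' = fun i j => s ^ 3 * A i j + m i j := ⟨_, rfl⟩
  have hsm : SmF A' M := hA.scale (fun h3 => hs (hMp.mem_of_pow_mem 3 h3)) (fun i j => by
    rw [hA', add_sub_cancel_left]
    exact hm i j)
  have hfA : s ^ 3 * f = ∑ i, ∑ j, A' i j * x i * x j := by
    have e3 : s ^ 3 * f = s ^ 3 * ∑ i, ∑ j, A i j * x i * x j +
        s ^ 3 * (f - ∑ i, ∑ j, A i j * x i * x j) := by ring
    rw [e3, hmf, hA', Finset.mul_sum, ← Finset.sum_add_distrib]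
    refine Finset.sum_congr rfl fun i _ => ?_
    rw [Finset.mul_sum, ← Finset.sum_add_distrib]
    exact Finset.sum_congr rfl fun j _ => by ring
  refine ⟨x none, fun i => x (some i), ⟨hx none, fun i => hx (some i), ?_⟩, s ^ 3,
    fun i j => A' (some i) (some j), fun i => A' (some i) none + A' none (some i), A' none none,
    fun h3 => hs (hMp.mem_of_pow_mem 3 h3), ?_, ?_⟩
  · refine hgen.trans (sup_le_sup_right (Ideal.span_mono ?_) _)
    rintro _ ⟨i, rfl⟩
    cases i with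
    | none => exact Set.mem_insert _ _
    | some i => exact Set.mem_insert_of_mem _ ⟨i, rfl⟩
  · intro L _ χ hχ v u h1 h2 h4
    have h5 := hsm L χ hχ (fun i => i.elim u v) ?_ ?_
    · refine ⟨?_, ?_⟩
      · funext i
        exact congrFun h5 (some i)
      · exact congrFun h5 none
    · simp only [Fintype.sum_option, Option.elim_none, Option.elim_some]
      rw [← h1]
      simp only [map_add, add_mul, mul_add, Finset.mul_sum, Finset.sum_add_distrib]
      ring_nf
    · intro i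
      cases i with
      | none =>
        simp only [Fintype.sum_option, Option.elim_none, Option.elim_some]
        rw [← h4]
        simp only [map_add, add_mul, Finset.sum_add_distrib]
        ring
      | some i =>
        simp only [Fintype.sum_option, Option.elim_none, Option.elim_some]
        rw [← h2 i]
        simp only [map_add, add_mul, Finset.sum_add_distrib]
        ring
  · rw [hfA]
    simp only [Fintype.sum_option, add_mul, mul_add, Finset.mul_sum, Finset.sum_add_distrib]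
    ring_nf

end Pool.Agent.NT9
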