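import Pool.Agent.NT9.GeBaseA
import Pool.Agent.NT9.GeCotB
import Pool.Agent.NT9.GeFrB
import Pool.Agent.NT9.GeNakB

set_option autoImplicit false

/-! # BASEB: finiteness; the first stage -/

namespace Pool.Agent.NT9

open MvPolynomial

variable {σ : Type} [Fintype σ] {K : Type} [Field K]

omit [Fintype σ] in
private theorem GeBaseB_prime {Q : Ideal (MvPolynomial σ ℤ)} (hQ : Q.IsPrime) {N : ℤ} (h0 : N ≠ 0)
    (hN : (C N : MvPolynomial σ ℤ) ∈ Q) : ∃ p : ℕ, p.Prime ∧ (C (p : ℤ) : MvPolynomial σ ℤ) ∈ Q := by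
  have hP : (Q.comap (C : ℤ →+* MvPolynomial σ ℤ)).IsPrime := Ideal.comap_isPrime _ _
  have hbot : Q.comap (C : ℤ →+* MvPolynomial σ ℤ) ≠ ⊥ := by
    intro h
    have h1 : N ∈ Q.comap (C : ℤ →+* MvPolynomial σ ℤ) := hN
    rw [h, Ideal.mem_bot] at h1
    exact h0 h1
  have h2 := Submodule.IsPrincipal.prime_generator_of_isPrime _ hbot
  have h3 := Submodule.IsPrincipal.generator_mem (Q.comap (C : ℤ →+* MvPolynomial σ ℤ))
  set g := Submodule.IsPrincipal.generator (Q.comap (C : ℤ →+* MvPolynomial σ ℤ))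
  refine ⟨g.natAbs, Int.prime_iff_natAbs_prime.1 h2, ?_⟩
  have h4 : ((g.natAbs : ℕ) : ℤ) ∈ Q.comap (C : ℤ →+* MvPolynomial σ ℤ) := by
    rcases Int.natAbs_eq g with h | h
    · rw [← h]; exact h3
    · have : ((g.natAbs : ℕ) : ℤ) = -g := by omega
      rw [this]
      exact neg_mem h3
  exact h4

/-- There are finitely many such points. Proof. `O ↦ q` (`nonreg_point`) is injective (`eq_of_fr` with `A = θ.range`), and `q` is a minimal prime over `I = (f, ∂f)`: a prime `Q` with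
`I ≤ Q ≤ q` contains `N`, so a prime number, so is maximal by `Iso`, `Q = q`. `Ideal.finite_minimalPrimes_of_isNoetherianRing`. -/
theorem finite_nonreg {f : MvPolynomial σ ℤ} {θ : MvPolynomial σ ℤ →+* K}
    (hker : RingHom.ker θ = Ideal.span {f})
    (hN : ∃ N : ℤ, N ≠ 0 ∧ (C N : MvPolynomial σ ℤ) ∈
      Ideal.span {f} ⊔ Ideal.span (Set.range fun i => pderiv i f)) (hiso : Iso f) :
    {O : Subring K | IsLocalRing O ∧ IsFr θ.range O ∧ ¬ IsRegularLocalRing O}.Finite := by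
  classical
  set I := Ideal.span {f} ⊔ Ideal.span (Set.range fun i => pderiv i f) with hI
  have hfin : I.minimalPrimes.Finite := Ideal.finite_minimalPrimes_of_isNoetherianRing _ I
  have hspec : ∀ O ∈ {O : Subring K | IsLocalRing O ∧ IsFr θ.range O ∧ ¬ IsRegularLocalRing O},
      ∃ q ∈ I.minimalPrimes, ∀ h, h ∈ q ↔ θ h ∈ mx O := by
    rintro O ⟨hloc, hfr, hnr⟩
    obtain ⟨q, p, hqmax, hmem, hp, hpq, hf2, hdq⟩ := nonreg_point hker hN hiso hfr hnr
    have hfq : f ∈ q := Ideal.pow_le_self two_ne_zero hf2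
    refine ⟨q, ⟨⟨hqmax.isPrime, ?_⟩, ?_⟩, hmem⟩
    · refine sup_le ?_ ?_
      · rw [Ideal.span_le]
        rintro _ rfl
        exact hfq
      · rw [Ideal.span_le]
        rintro _ ⟨i, rfl⟩
        exact hdq i
    · rintro Q ⟨hQ, hIQ⟩ hQq
      have hfQ : f ∈ Q := hIQ (Ideal.mem_sup_left (Ideal.subset_span rfl))
      have hdQ : ∀ i, pderiv i f ∈ Q := fun i =>
        hIQ (Ideal.mem_sup_right (Ideal.subset_span ⟨i, rfl⟩))
      obtain ⟨N, hN0, hN1⟩ := hN
      have hQmax := hiso Q hQ (GeBaseB_prime hQ hN0 (hIQ hN1)) hfQ hdQ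
      exact (hQmax.eq_of_le hqmax.ne_top hQq).ge
  choose! Φ hΦ1 hΦ2 using hspec
  refine Set.Finite.of_injOn (f := Φ) (t := I.minimalPrimes) (fun O hO => hΦ1 O hO) ?_ hfin
  intro O1 hO1 O2 hO2 h12
  refine eq_of_fr hO1.2.1 hO2.2.1 ?_
  rintro _ ⟨x, rfl⟩
  rw [← hΦ2 O1 hO1, ← hΦ2 O2 hO2, h12]

/-- The first stage. Proof. `TZ` gives `z, η, a`; `bform_zero`. `TV`: `vform_of_tv`. `θ z ≠ 0`: otherwise `z ∈ span {f} ≤ M ^ 2`, and `cot_indep0` with `α = 1`, `β = 0` gives `1 ∈ M`.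
`Stage` at level `0`: `θ (η i) / θ z ^ 0 = θ (η i)`, and the closure is `θ.range`. -/
theorem init_stage {f : MvPolynomial σ ℤ} {θ : MvPolynomial σ ℤ →+* K}
    (hker : RingHom.ker θ = Ideal.span {f}) {M : Ideal (MvPolynomial σ ℤ)} [M.IsMaximal] {p : ℕ}
    (hp : p.Prime) (hpM : (C (p : ℤ) : MvPolynomial σ ℤ) ∈ M) (hf : f ∈ M ^ 2)
    (hT : Tan f M) {O : Subring K} [IsLocalRing O] (hM : ∀ h ∈ M, θ h ∈ mx O)
    (hfr : IsFr θ.range O) :
    ∃ (z : MvPolynomial σ ℤ) (η : σ → MvPolynomial σ ℤ), Stage θ M z η 0 O ∧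
      (BForm f M z η 0 ∨ VForm f M z η) := by
  classical
  have hθf : θ f = 0 := by
    rw [← RingHom.mem_ker, hker]
    exact Ideal.subset_span rfl
  have hθO : ∀ h, θ h ∈ O := fun h => hfr.1 ⟨h, rfl⟩
  have main : ∀ (z : MvPolynomial σ ℤ) (η : σ → MvPolynomial σ ℤ), Par M z η →
      Stage θ M z η 0 O := by
    intro z η hpar
    refine ⟨hpar, ?_, hθO, hM, ?_, ?_⟩
    · intro h0
      have h1 : z ∈ Ideal.span {f} := by
        rw [← hker, RingHom.mem_ker]
        exact h0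
      have h2 : z ∈ M ^ 2 := by
        have hle : Ideal.span {f} ≤ M ^ 2 := by
          rw [Ideal.span_le]
          rintro _ rfl
          exact hf
        exact hle h1
      have h3 := cot_indep0 hp hpM hpar (α := 1) (β := fun _ => 0) (by
        simpa using h2)
      exact (‹M.IsMaximal›.ne_top) ((Ideal.eq_top_iff_one _).2 h3.1)
    · intro i
      rw [pow_zero, div_one]
      exact hM _ (hpar.2.1 i)
    · have e : Subring.closure (Set.range θ ∪ Set.range fun i => θ (η i) / θ z ^ 0) = θ.range := by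
        apply le_antisymm
        · rw [Subring.closure_le]
          rintro x (⟨y, rfl⟩ | ⟨i, rfl⟩)
          · exact ⟨y, rfl⟩
          · exact ⟨η i, by simp⟩
        · rintro _ ⟨y, rfl⟩
          exact Subring.subset_closure (Or.inl ⟨y, rfl⟩)
      rw [e]
      exact hfr
  rcases hT with hT | hT
  · obtain ⟨z, η, a, hpar, h1, ha⟩ := hT
    exact ⟨z, η, main z η hpar, Or.inl (bform_zero hpar h1 ha)⟩
  · obtain ⟨z, η, hpar, h1⟩ := vform_of_tv hT
    exact ⟨z, η, main z η hpar, Or.inr h1⟩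

end Pool.Agent.NT9
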