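import Pool.Agent.NT9.GeFrA
import Pool.Agent.NT9.GeProjD

set_option autoImplicit false

/-! # PROJA: the first chart of a point -/

namespace Pool.Agent.NT9

open MvPolynomial

variable {n : ℕ} {K : Type} [Field K]

private theorem PROJA_mem (x : Fin (n + 1) → K) (i : Fin (n + 1)) : x i / x 0 ∈ Mo0 x :=
  Submodule.subset_span ⟨i, rfl⟩

private theorem PROJA_range (x : Fin (n + 1) → K) (hx : ∀ i, x i ≠ 0) (m : Fin (n + 1)) :
    ch (Mo0 x) (x m / x 0) = (thm x m).range := by
  have hdiv : ∀ i, x i / x 0 / (x m / x 0) = x i / x m := by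
    intro i
    have h0 := hx 0
    have hm := hx m
    field_simp
  have hX : ∀ i : {i : Fin (n + 1) // i ≠ m}, thm x m (X i) = x i.1 / x m := by
    intro i
    show aeval (fun i : {i : Fin (n + 1) // i ≠ m} => x i.1 / x m) (X i) = _
    rw [aeval_X]
  apply le_antisymm
  · unfold ch
    rw [Subring.closure_le]
    rintro _ ⟨y, hy, rfl⟩
    refine Submodule.span_induction (p := fun y _ => y / (x m / x 0) ∈ (thm x m).range)
      ?_ ?_ ?_ ?_ hy
    · rintro _ ⟨i, rfl⟩
      rw [hdiv]
      by_cases hi : i = m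
      · rw [hi, div_self (hx m)]
        exact Subring.one_mem _
      · exact ⟨X ⟨i, hi⟩, hX ⟨i, hi⟩⟩
    · rw [zero_div]
      exact Subring.zero_mem _
    · intro a b _ _ ha hb
      rw [add_div]
      exact Subring.add_mem _ ha hb
    · intro c a _ ha
      rw [zsmul_eq_mul, mul_div_assoc]
      exact Subring.mul_mem _ (intCast_mem _ c) ha
  · rintro _ ⟨h, rfl⟩
    induction h using MvPolynomial.induction_on with
    | C a =>
      have h1 : (thm x m).comp C = Int.castRingHom K := RingHom.ext_int _ _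
      have h2 : thm x m (C a) = (a : K) := congrArg (fun φ : ℤ →+* K => φ a) h1
      rw [h2]
      exact intCast_mem _ a
    | add p q hp hq =>
      rw [map_add]
      exact Subring.add_mem _ hp hq
    | mul_X p i hp =>
      rw [map_mul, hX]
      refine Subring.mul_mem _ hp (Subring.subset_closure ⟨x i.1 / x 0, PROJA_mem x i.1, ?_⟩)
      rw [hdiv]

/-- The first chart of a point. Proof: `loc_gen`: `IsFr (ch (Mo0 x) (x m / x 0)) O` for some `m`; take the smallest such `m`. `ch (Mo0 x) (x m / x 0) = (thm x m).range`: the generators are the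
sums of the `(x i / x 0) / (x m / x 0) = x i / x m`. If `i < m` and `x i / x m ∉ mx O` then `fr_change` gives `IsFr (ch (Mo0 x) (x i / x 0)) O`, contradiction. -/
theorem base_loc (x : Fin (n + 1) → K) (hx : ∀ i, x i ≠ 0) {O : Subring K}
    (hO : O ∈ Loc (Mo0 x)) : ∃ m, IsFr (thm x m).range O ∧ ∀ i, i < m → x i / x m ∈ mx O := by
  obtain ⟨i₀, -, hi₀⟩ := loc_gen (g := fun i => x i / x 0) rfl hO
  have hloc : IsLocalRing O := hO.1
  obtain ⟨m, hm, hmin⟩ := WellFounded.has_min
    (wellFounded_lt : WellFounded ((· < ·) : Fin (n + 1) → Fin (n + 1) → Prop))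
    {m | IsFr (ch (Mo0 x) (x m / x 0)) O} ⟨i₀, hi₀⟩
  have hm' : IsFr (ch (Mo0 x) (x m / x 0)) O := hm
  refine ⟨m, ?_, fun i hi => ?_⟩
  · rw [← PROJA_range x hx m]
    exact hm
  · by_contra hcon
    have h0 := hx 0
    have h1 := hx i
    have h2 := hx m
    have hdiv : ∀ i j, x i / x 0 / (x j / x 0) = x i / x j := by
      intro i j
      have hj := hx j
      field_simp
    have hmem : x i / x m ∈ O := by
      apply hm'.1
      exact Subring.subset_closure ⟨x i / x 0, PROJA_mem x i, (hdiv i m).symm⟩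
    rw [notMem_mx_iff hmem] at hcon
    refine hmin i ?_ hi
    refine fr_change (PROJA_mem x i) (div_ne_zero h1 h0) (PROJA_mem x m) (div_ne_zero h2 h0)
      ?_ ?_ hm'
    · rw [hdiv]
      exact hmem
    · rw [hdiv]
      have := hcon.2
      rwa [inv_div] at this

end Pool.Agent.NT9
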