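import Pool.Agent.NT9.GeCom
import Pool.Agent.NT9.GeSub

set_option autoImplicit false

/-! # RESB: resolution of all points -/

namespace Pool.Agent.NT9

open MvPolynomial

variable {σ : Type} [Fintype σ] {K : Type} [Field K]

/-- Resolution of all points. Proof: induction on the number of elements of the finite set of the non regular local rings (strong induction, generalising `Mo`): if it is empty take
`Mo`, `E = 1` (`Com.refl`, `pow_one`). Otherwise resolve one of them: the set for `Mo'` is contained in the set for `Mo` without `O`, so the hypothesis `hres` also holds for `Mo'`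
(it is about all `Mo1`); `Com.step`. -/
theorem resolve_all {Mo : Submodule ℤ K} (hfg : Mo.FG)
    (hfin : {O : Subring K | O ∈ Loc Mo ∧ ¬ IsRegularLocalRing O}.Finite)
    (hres : ∀ O ∈ Loc Mo, ¬ IsRegularLocalRing O → ∀ Mo1 : Submodule ℤ K, Mo1.FG →
      O ∈ Loc Mo1 → ∃ (Mo' : Submodule ℤ K) (E : ℕ), Mo'.FG ∧ 0 < E ∧ Com Mo' (Mo1 ^ E) ∧
        ∀ O' ∈ Loc Mo', IsRegularLocalRing O' ∨ (O' ∈ Loc Mo1 ∧ O' ≠ O)) :
    ∃ (Mo' : Submodule ℤ K) (E : ℕ), Mo'.FG ∧ 0 < E ∧ Com Mo' (Mo ^ E) ∧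
      ∀ O' ∈ Loc Mo', IsRegularLocalRing O' := by
  have key : ∀ (n : ℕ) (Mo : Submodule ℤ K), Mo.FG →
      {O : Subring K | O ∈ Loc Mo ∧ ¬ IsRegularLocalRing O}.Finite →
      {O : Subring K | O ∈ Loc Mo ∧ ¬ IsRegularLocalRing O}.ncard = n →
      (∀ O ∈ Loc Mo, ¬ IsRegularLocalRing O → ∀ Mo1 : Submodule ℤ K, Mo1.FG →
        O ∈ Loc Mo1 → ∃ (Mo' : Submodule ℤ K) (E : ℕ), Mo'.FG ∧ 0 < E ∧ Com Mo' (Mo1 ^ E) ∧
          ∀ O' ∈ Loc Mo', IsRegularLocalRing O' ∨ (O' ∈ Loc Mo1 ∧ O' ≠ O)) →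
      ∃ (Mo' : Submodule ℤ K) (E : ℕ), Mo'.FG ∧ 0 < E ∧ Com Mo' (Mo ^ E) ∧
        ∀ O' ∈ Loc Mo', IsRegularLocalRing O' := by
    intro n
    induction n using Nat.strong_induction_on with
    | _ n ih =>
      intro Mo hfg hfin hn hres
      by_cases hall : ∀ O' ∈ Loc Mo, IsRegularLocalRing O'
      · exact ⟨Mo, 1, hfg, one_pos, by rw [pow_one]; exact Com.refl Mo, hall⟩
      · push Not at hall
        obtain ⟨O, hO, hOr⟩ := hall
        obtain ⟨Mo', E, hfg', hE, hcom, h⟩ := hres O hO hOr Mo hfg hO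
        have hsub : {O : Subring K | O ∈ Loc Mo' ∧ ¬ IsRegularLocalRing O} ⊂
            {O : Subring K | O ∈ Loc Mo ∧ ¬ IsRegularLocalRing O} := by
          refine ⟨fun O' hO' => ?_, fun hcon => ?_⟩
          · rcases h O' hO'.1 with h1 | h1
            · exact absurd h1 hO'.2
            · exact ⟨h1.1, hO'.2⟩
          · have h2 := hcon (show O ∈ {O : Subring K | O ∈ Loc Mo ∧ ¬ IsRegularLocalRing O} from
              ⟨hO, hOr⟩)
            rcases h O h2.1 with h1 | h1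
            · exact h2.2 h1
            · exact h1.2 rfl
        have hlt := Set.ncard_lt_ncard hsub hfin
        rw [hn] at hlt
        obtain ⟨Mo'', E', hfg'', hE', hcom', h'⟩ := ih _ hlt Mo' hfg' (hfin.subset hsub.1) rfl
          (fun O'' hO'' hr'' => hres O'' (hsub.1 ⟨hO'', hr''⟩).1 hr'')
        exact ⟨Mo'', E * E', hfg'', Nat.mul_pos hE hE', Com.step hcom hcom', h'⟩
  exact key _ Mo hfg hfin rfl hres

end Pool.Agent.NT9
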