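import Pool.Agent.NT9.GeHtB

set_option autoImplicit false

/-! # HTC: the bound for the level -/

namespace Pool.Agent.NT9

open MvPolynomial

variable {σ : Type} [Fintype σ]

omit [Fintype σ] in
private theorem GeHtC_prime {Q : Ideal (MvPolynomial σ ℤ)} (hQ : Q.IsPrime) {N : ℤ} (h0 : N ≠ 0)
    (hN : (C N : MvPolynomial σ ℤ) ∈ Q) : ∃ p : ℕ, p.Prime ∧ (C (p : ℤ) : MvPolynomial σ ℤ) ∈ Q := by
  have hP : (Q.comap (C : ℤ →+* MvPolynomial σ ℤ)).IsPrime := Ideal.comap_isPrime _ _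
  have hbot : Q.comap (C : ℤ →+* MvPolynomial σ ℤ) ≠ ⊥ := by
    intro h
    have h1 : N ∈ Q.comap (C : ℤ →+* MvPolynomial σ ℤ) := hN
    rw [h, Ideal.mem_bot] at h1
    exact h0 h1
  have h2 := Submodule.IsPrincipal.prime_generator_of_isPrime _ hbot
  have h3 := Submodule.IsPrincipal.generator_mem (Q.comap (C : ℤ →+* MvPolynomial σ ℤ))
  set g := Submodule.IsPrincipal.generator (Q.comap (C : ℤ →+* MvPolynomial σ ℤ))
  refine ⟨g.natAbs, Int.prime_iff_natAbs_prime.1 h2, ?_⟩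
  have h4 : ((g.natAbs : ℕ) : ℤ) ∈ Q.comap (C : ℤ →+* MvPolynomial σ ℤ) := by
    rcases Int.natAbs_eq g with h | h
    · rw [← h]; exact h3
    · have : ((g.natAbs : ℕ) : ℤ) = -g := by omega
      rw [this]
      exact neg_mem h3
  exact h4

/-- A power of `z` is in the ideal `(f, ∂f)` locally at `M`. Proof. `I = (f, ∂f) ≤ M`. `M` is a minimal prime over `I`: if `I ≤ Q ≤ M`, `Q` prime, then
`N ∈ Q`, so a prime number is in `Q`, and `Q` is maximal by `Iso`. In `Localization.AtPrime M` the radical of the extension of `I` is the maximal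
ideal (`Ideal.IsLocalization...` or: if no `s z ^ L`, `s ∉ M`, is in `I` then there is a prime ideal `Q ⊇ I` disjoint from the multiplicative set
`{s z ^ L}` (`Ideal.exists_le_prime_disjoint`), and `Q ≤ M`, so `Q = M ∋ z`, contradiction). -/
theorem exists_L {f : MvPolynomial σ ℤ} (hN : ∃ N : ℤ, N ≠ 0 ∧ (C N : MvPolynomial σ ℤ) ∈
      Ideal.span {f} ⊔ Ideal.span (Set.range fun i => pderiv i f)) (hiso : Iso f)
    {M : Ideal (MvPolynomial σ ℤ)} [M.IsMaximal] (hf : f ∈ M) (hd : ∀ i, pderiv i f ∈ M)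
    {z : MvPolynomial σ ℤ} (hz : z ∈ M) : ∃ (L : ℕ) (s : MvPolynomial σ ℤ), s ∉ M ∧
      s * z ^ L ∈ Ideal.span {f} ⊔ Ideal.span (Set.range fun i => pderiv i f) := by
  classical
  by_contra hcon
  push Not at hcon
  set I := Ideal.span {f} ⊔ Ideal.span (Set.range fun i => pderiv i f) with hI
  let S : Submonoid (MvPolynomial σ ℤ) :=
    { carrier := {x | ∃ (s : MvPolynomial σ ℤ) (L : ℕ), s ∉ M ∧ x = s * z ^ L}
      one_mem' := ⟨1, 0, fun h => (‹M.IsMaximal›.ne_top) ((Ideal.eq_top_iff_one _).2 h), by simp⟩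
      mul_mem' := by
        rintro _ _ ⟨s, L, hs, rfl⟩ ⟨s', L', hs', rfl⟩
        refine ⟨s * s', L + L', ?_, by ring⟩
        intro h
        rcases ‹M.IsMaximal›.isPrime.mem_or_mem h with h | h
        · exact hs h
        · exact hs' h }
  have hdis : Disjoint (I : Set (MvPolynomial σ ℤ)) S := by
    rw [Set.disjoint_left]
    rintro _ hx ⟨s, L, hs, rfl⟩
    exact hcon L s hs hx
  obtain ⟨Q, hQ, hIQ, hQS⟩ := Ideal.exists_le_prime_disjoint I S hdis
  have hQM : Q ≤ M := by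
    intro x hx
    by_contra hxM
    exact Set.disjoint_left.1 hQS hx ⟨x, 0, hxM, by simp⟩
  have hfQ : f ∈ Q := hIQ (Ideal.mem_sup_left (Ideal.subset_span rfl))
  have hdQ : ∀ i, pderiv i f ∈ Q := fun i =>
    hIQ (Ideal.mem_sup_right (Ideal.subset_span ⟨i, rfl⟩))
  obtain ⟨N, hN0, hN1⟩ := hN
  have hQmax := hiso Q hQ (GeHtC_prime hQ hN0 (hIQ hN1)) hfQ hdQ
  have hQeq : Q = M := hQmax.eq_of_le ‹M.IsMaximal›.ne_top hQM
  have hzQ : z ∈ (Q : Set (MvPolynomial σ ℤ)) := by rw [hQeq]; exact hz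
  refine Set.disjoint_left.1 hQS hzQ ⟨1, 1, ?_, by simp⟩
  exact fun h => (‹M.IsMaximal›.ne_top) ((Ideal.eq_top_iff_one _).2 h)

/-- The bound for the level. Proof. Let `I = span (insert (z ^ (J + 1)) (range η))`. `s₀ f ∈ I ^ 2` for the `s₀` of `BForm`, so `s₀ ∂_i f + f ∂_i s₀ ∈ I` and
`s₀ ^ 2 ∂_i f ∈ I`, `s₀ ^ 2 f ∈ I`. So `s₀ ^ 2 s z ^ L ∈ I`, `= α z ^ (J + 1) + (element of span (range η))`. If `L ≤ J`:
`(s₀ ^ 2 s - α z ^ (J + 1 - L)) z ^ L ∈ span (range η)` and the factor is not in `M`: contradiction to `no_pow`. -/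
theorem bform_lt {f : MvPolynomial σ ℤ} {M : Ideal (MvPolynomial σ ℤ)} [M.IsMaximal]
    {z s : MvPolynomial σ ℤ} {L : ℕ} (hs : s ∉ M)
    (hL : s * z ^ L ∈ Ideal.span {f} ⊔ Ideal.span (Set.range fun i => pderiv i f))
    {η : σ → MvPolynomial σ ℤ} (hpar : Par M z η) {J : ℕ} (h : BForm f M z η J) : J < L := by
  classical
  by_contra hJL
  push Not at hJL
  obtain ⟨s₀, a, b, c, hs₀, -, hform⟩ := h
  set I := Ideal.span (insert (z ^ (J + 1)) (Set.range η)) with hI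
  have hzI : z ^ (J + 1) ∈ I := Ideal.subset_span (Set.mem_insert _ _)
  have hηI : ∀ i, η i ∈ I := fun i => Ideal.subset_span (Set.mem_insert_of_mem _ ⟨i, rfl⟩)
  have hsq : s₀ * f ∈ I ^ 2 := by
    rw [hform, pow_two I]
    refine Ideal.add_mem _ (Ideal.add_mem _ ?_ ?_) ?_
    · refine Ideal.sum_mem _ fun i _ => Ideal.sum_mem _ fun j _ => ?_
      rw [mul_assoc]
      exact Ideal.mul_mem_left _ _ (Ideal.mul_mem_mul (hηI i) (hηI j))
    · exact Ideal.mul_mem_mul hzI (Ideal.sum_mem _ fun i _ => Ideal.mul_mem_left _ _ (hηI i))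
    · have e : z ^ (2 * J + 2) * c = c * (z ^ (J + 1) * z ^ (J + 1)) := by ring
      rw [e]
      exact Ideal.mul_mem_left _ _ (Ideal.mul_mem_mul hzI hzI)
  have hsqI : ∀ x ∈ I ^ 2, x ∈ I := fun x hx => Ideal.pow_le_self two_ne_zero hx
  have hder : ∀ x ∈ I ^ 2, ∀ i, pderiv i x ∈ I := by
    intro x hx i
    rw [pow_two] at hx
    refine Submodule.mul_induction_on hx ?_ ?_
    · intro m hm n hn
      rw [Derivation.leibniz]
      exact Ideal.add_mem _ (Ideal.mul_mem_right _ _ hm) (Ideal.mul_mem_right _ _ hn)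
    · intro x y hx hy
      rw [map_add]
      exact Ideal.add_mem _ hx hy
  have hf2 : s₀ ^ 2 * f ∈ I := by
    rw [pow_two, mul_assoc]
    exact Ideal.mul_mem_left _ _ (hsqI _ hsq)
  have hd2 : ∀ i, s₀ ^ 2 * pderiv i f ∈ I := by
    intro i
    have h1 := hder _ hsq i
    rw [Derivation.leibniz, smul_eq_mul, smul_eq_mul] at h1
    have e : s₀ ^ 2 * pderiv i f = s₀ * (s₀ * pderiv i f + f * pderiv i s₀) -
        pderiv i s₀ * (s₀ * f) := by ring
    rw [e]
    exact Ideal.sub_mem _ (Ideal.mul_mem_left _ _ h1) (Ideal.mul_mem_left _ _ (hsqI _ hsq))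
  have hall : ∀ x ∈ Ideal.span {f} ⊔ Ideal.span (Set.range fun i => pderiv i f),
      s₀ ^ 2 * x ∈ I := by
    intro x hx
    have hle : Ideal.span {f} ⊔ Ideal.span (Set.range fun i => pderiv i f) ≤
        Submodule.comap (LinearMap.mulLeft (MvPolynomial σ ℤ) (s₀ ^ 2)) I := by
      refine sup_le ?_ ?_
      · rw [Ideal.span_le]
        rintro _ rfl
        exact hf2
      · rw [Ideal.span_le]
        rintro _ ⟨i, rfl⟩
        exact hd2 i
    exact hle hx
  have h1 := hall _ hL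
  rw [hI, Ideal.mem_span_insert] at h1
  obtain ⟨α, e, he, h2⟩ := h1
  have hpow : z ^ (J + 1) = z ^ (J + 1 - L) * z ^ L := by
    rw [← pow_add]
    congr 1
    omega
  have h3 : (s₀ ^ 2 * s - α * z ^ (J + 1 - L)) * z ^ L ∈ Ideal.span (Set.range η) := by
    have : (s₀ ^ 2 * s - α * z ^ (J + 1 - L)) * z ^ L = e := by
      rw [hpow] at h2
      linear_combination h2
    rw [this]
    exact he
  refine no_pow hpar ?_ L h3
  intro h4
  have h5 : α * z ^ (J + 1 - L) ∈ M := by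
    refine Ideal.mul_mem_left _ _ ?_
    refine Ideal.pow_mem_of_mem _ hpar.1 _ (by omega)
  have h6 : s₀ ^ 2 * s ∈ M := by
    have := Ideal.add_mem _ h4 h5
    rwa [sub_add_cancel] at this
  rcases ‹M.IsMaximal›.isPrime.mem_or_mem h6 with h7 | h7
  · exact hs₀ (‹M.IsMaximal›.isPrime.mem_of_pow_mem 2 h7)
  · exact hs h7

end Pool.Agent.NT9
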