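import Pool.Agent.NodHyp.Defs

set_option autoImplicit false

/-!
# Nine tenths, geometric half: definitions

Part A (global): a finitely generated `ℤ`-submodule `Mo` of a field `K` gives a projective model;
its local rings are the elements of `Loc Mo`. Part B (local): the local rings of the iterated blow
ups of a point.
-/

namespace Pool.Agent.NT9

open MvPolynomial

section partA

variable {K : Type} [Field K]

/-- The maximal ideal of the local subring `O` of a field, as a set. -/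
def mx (O : Subring K) : Set K := {x | x ∈ O ∧ (x = 0 ∨ x⁻¹ ∉ O)}

/-- `O` consists of fractions of elements of `A ≤ O` with denominators invertible in `O`. -/
def IsFr (A O : Subring K) : Prop :=
  A ≤ O ∧ ∀ x ∈ O, ∃ u ∈ A, ∃ v ∈ A, v ≠ 0 ∧ v⁻¹ ∈ O ∧ x * v = u

/-- The ring `ℤ[Mo / μ]`. -/
def ch (Mo : Submodule ℤ K) (μ : K) : Subring K := Subring.closure {x | ∃ y ∈ Mo, x = y / μ}

/-- The local rings of the model given by `Mo`. -/
def Loc (Mo : Submodule ℤ K) : Set (Subring K) :=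
  {O | IsLocalRing O ∧ ∃ μ ∈ Mo, μ ≠ 0 ∧ IsFr (ch Mo μ) O}

/-- `O'` is a local ring of the blow up of the maximal ideal of `O`, over the closed point. -/
def IsBl (O O' : Subring K) : Prop :=
  ∃ t ∈ mx O, t ≠ 0 ∧ O ≤ O' ∧ (∀ x ∈ mx O, x ∈ mx O') ∧ (∀ x ∈ mx O, x / t ∈ O') ∧
    IsFr (Subring.closure ((O : Set K) ∪ {x | ∃ y ∈ mx O, x = y / t})) O'

/-- Commensurable submodules. -/
def Com (A B : Submodule ℤ K) : Prop :=
  (∀ x ∈ A, ∃ N : ℤ, N ≠ 0 ∧ (N : K) * x ∈ B) ∧ (∀ x ∈ B, ∃ N : ℤ, N ≠ 0 ∧ (N : K) * x ∈ A)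

/-- The residue field of `O` is finite. -/
def FinRes (O : Subring K) : Prop :=
  ∃ S : Finset K, ∀ x ∈ O, ∃ s ∈ S, s ∈ O ∧ x - s ∈ mx O

/-- The localisation of `A` at the prime ideal `A ∩ mx O` (for `A ≤ O`, `O` local). -/
def locAt (A O : Subring K) : Set K :=
  {x | ∃ u ∈ A, ∃ v ∈ A, v ≠ 0 ∧ v⁻¹ ∈ O ∧ x * v = u}

/-- The property of `b` to give a chart of the blow up `O'` of `O`, where the `g i` generate the
maximal ideal of `O`. -/
def Ch {ι : Type} (O O' : Subring K) (g : ι → K) (b : ι) : Prop :=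
  g b ≠ 0 ∧ O ≤ O' ∧ (∀ x ∈ mx O, x ∈ mx O') ∧ (∀ i, g i / g b ∈ O') ∧
    ∀ F : Subring K, O ≤ F → (∀ i, g i / g b ∈ F) → (∀ x ∈ F, x⁻¹ ∈ O' → x⁻¹ ∈ F) → O' ≤ F

end partA

section partB

variable {σ : Type} [Fintype σ]

/-- The quadratic form `∑ a i j X_i X_j` over the residue field of `M` is smooth. -/
def SmF {ι : Type} [Fintype ι] (a : ι → ι → MvPolynomial σ ℤ) (M : Ideal (MvPolynomial σ ℤ)) :
    Prop :=
  ∀ (L : Type) [Field L] (χ : MvPolynomial σ ℤ →+* L), (∀ m ∈ M, χ m = 0) → ∀ v : ι → L,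
    ∑ i, ∑ j, χ (a i j) * v i * v j = 0 → (∀ i, ∑ j, χ (a i j + a j i) * v j = 0) → v = 0

/-- The quadratic form `∑ a i j X_i X_j + (∑ b i X_i) Z + c Z ^ 2` over the residue field of `M` is
smooth. -/
def SmV (a : σ → σ → MvPolynomial σ ℤ) (b : σ → MvPolynomial σ ℤ) (c : MvPolynomial σ ℤ)
    (M : Ideal (MvPolynomial σ ℤ)) : Prop :=
  ∀ (L : Type) [Field L] (χ : MvPolynomial σ ℤ →+* L), (∀ m ∈ M, χ m = 0) →
    ∀ (v : σ → L) (u : L),
      ∑ i, ∑ j, χ (a i j) * v i * v j + u * ∑ i, χ (b i) * v i + χ c * u ^ 2 = 0 →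
      (∀ i, ∑ j, χ (a i j + a j i) * v j + u * χ (b i) = 0) →
      ∑ i, χ (b i) * v i + 2 * χ c * u = 0 → v = 0 ∧ u = 0

/-- The elements `z` and `η i` of `M` generate `M` modulo `M ^ 2`. -/
def Par (M : Ideal (MvPolynomial σ ℤ)) (z : MvPolynomial σ ℤ) (η : σ → MvPolynomial σ ℤ) : Prop :=
  z ∈ M ∧ (∀ i, η i ∈ M) ∧ M ≤ Ideal.span (insert z (Set.range η)) ⊔ M ^ 2

/-- A hyperplane section of the tangent cone of `f` at `M` is smooth. -/
def TZ (f : MvPolynomial σ ℤ) (M : Ideal (MvPolynomial σ ℤ)) : Prop :=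
  ∃ (z : MvPolynomial σ ℤ) (η : σ → MvPolynomial σ ℤ) (a : σ → σ → MvPolynomial σ ℤ),
    Par M z η ∧ f - ∑ i, ∑ j, a i j * η i * η j ∈ Ideal.span {z} * M ⊔ M ^ 3 ∧ SmF a M

/-- The tangent cone of `f` at `M` is smooth; `x i`, `i : Option σ`, are parameters at `M`. -/
def TV (f : MvPolynomial σ ℤ) (M : Ideal (MvPolynomial σ ℤ)) : Prop :=
  ∃ (x : Option σ → MvPolynomial σ ℤ) (A : Option σ → Option σ → MvPolynomial σ ℤ),
    (∀ i, x i ∈ M) ∧ M ≤ Ideal.span (Set.range x) ⊔ M ^ 2 ∧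
      f - ∑ i, ∑ j, A i j * x i * x j ∈ M ^ 3 ∧ SmF A M

/-- The condition on the tangent cone: it is smooth or has a smooth hyperplane section. -/
def Tan (f : MvPolynomial σ ℤ) (M : Ideal (MvPolynomial σ ℤ)) : Prop := TZ f M ∨ TV f M

/-- All singular points of positive characteristic are isolated. -/
def Iso (f : MvPolynomial σ ℤ) : Prop :=
  ∀ Q : Ideal (MvPolynomial σ ℤ), Q.IsPrime → (∃ p : ℕ, p.Prime ∧ C (p : ℤ) ∈ Q) → f ∈ Q →
    (∀ i, pderiv i f ∈ Q) → Q.IsMaximal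

/-- `f` up to a factor outside `M`, before the blow up of level `J`. -/
def BForm (f : MvPolynomial σ ℤ) (M : Ideal (MvPolynomial σ ℤ)) (z : MvPolynomial σ ℤ)
    (η : σ → MvPolynomial σ ℤ) (J : ℕ) : Prop :=
  ∃ (s : MvPolynomial σ ℤ) (a : σ → σ → MvPolynomial σ ℤ) (b : σ → MvPolynomial σ ℤ)
    (c : MvPolynomial σ ℤ), s ∉ M ∧ SmF a M ∧
    s * f = ∑ i, ∑ j, a i j * η i * η j + z ^ (J + 1) * ∑ i, b i * η i + z ^ (2 * J + 2) * c

/-- `f` up to a factor outside `M`, if the tangent cone is smooth. -/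
def VForm (f : MvPolynomial σ ℤ) (M : Ideal (MvPolynomial σ ℤ)) (z : MvPolynomial σ ℤ)
    (η : σ → MvPolynomial σ ℤ) : Prop :=
  ∃ (s : MvPolynomial σ ℤ) (a : σ → σ → MvPolynomial σ ℤ) (b : σ → MvPolynomial σ ℤ)
    (c : MvPolynomial σ ℤ), s ∉ M ∧ SmV a b c M ∧
    s * f = ∑ i, ∑ j, a i j * η i * η j + z ^ (0 + 1) * ∑ i, b i * η i + z ^ (2 * 0 + 2) * c

/-- `f` up to a factor outside `M`, after the blow up, at the level `J`. -/
def SForm (f : MvPolynomial σ ℤ) (M : Ideal (MvPolynomial σ ℤ)) (z : MvPolynomial σ ℤ)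
    (η : σ → MvPolynomial σ ℤ) (J : ℕ) : Prop :=
  ∃ (s : MvPolynomial σ ℤ) (a : σ → σ → MvPolynomial σ ℤ) (b : σ → MvPolynomial σ ℤ)
    (c : MvPolynomial σ ℤ), s ∉ M ∧ SmF a M ∧ (∀ i, b i ∈ M) ∧ c ∈ M ∧
    s * f = ∑ i, ∑ j, a i j * η i * η j + z ^ J * ∑ i, b i * η i + z ^ (2 * J) * c

variable {K : Type} [Field K]

/-- `O` is the localisation of `ℤ[x][η / z ^ J]` at the point `(M, η / z ^ J)`, in the function
field of `f = 0` (`θ` has kernel `(f)`). -/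
structure Stage (θ : MvPolynomial σ ℤ →+* K) (M : Ideal (MvPolynomial σ ℤ))
    (z : MvPolynomial σ ℤ) (η : σ → MvPolynomial σ ℤ) (J : ℕ) (O : Subring K) : Prop where
  par : Par M z η
  zne : θ z ≠ 0
  poly : ∀ h, θ h ∈ O
  memM : ∀ h ∈ M, θ h ∈ mx O
  memY : ∀ i, θ (η i) / θ z ^ J ∈ mx O
  fr : IsFr (Subring.closure (Set.range θ ∪ Set.range fun i => θ (η i) / θ z ^ J)) O

/-- The polynomial `∑ a_ij W_i W_j + ∑ b_i W_i + c`; variables `inl i`: the coordinates,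
`inr i`: `W_i`. -/
noncomputable def GW (a : σ → σ → MvPolynomial σ ℤ) (b : σ → MvPolynomial σ ℤ)
    (c : MvPolynomial σ ℤ) : MvPolynomial (NH.V2 σ) ℤ :=
  ∑ i, ∑ j, rename Sum.inl (a i j) * X (Sum.inr i) * X (Sum.inr j) +
    ∑ i, rename Sum.inl (b i) * X (Sum.inr i) + rename Sum.inl c

/-- The relations of the chart with the coordinates `W_i = η_i / z ^ k`. -/
noncomputable def relW (z : MvPolynomial σ ℤ) (η : σ → MvPolynomial σ ℤ) (k : ℕ)
    (a : σ → σ → MvPolynomial σ ℤ) (b : σ → MvPolynomial σ ℤ) (c : MvPolynomial σ ℤ) :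
    Option σ → MvPolynomial (NH.V2 σ) ℤ
  | none => GW a b c
  | some i => rename Sum.inl (η i) - rename Sum.inl z ^ k * X (Sum.inr i)

/-- The polynomial `∑ a_ij V_i V_j + U ∑ b_i V_i + c U ^ 2`; `U = NH.ww σ`, `Y = NH.tt σ`,
`V_i = NH.vv i`. -/
noncomputable def GY [DecidableEq σ] (a : σ → σ → MvPolynomial σ ℤ) (b : σ → MvPolynomial σ ℤ)
    (c : MvPolynomial σ ℤ) : MvPolynomial (NH.V1 σ) ℤ :=
  ∑ i, ∑ j, NH.il (a i j) * NH.vv i * NH.vv j + NH.ww σ * ∑ i, NH.il (b i) * NH.vv i +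
    NH.il c * NH.ww σ ^ 2

/-- The relations of the chart in which `Y = y_e` generates the exceptional ideal, `U = z / y_e`,
`V_i = y_i / y_e`, where `y_i = η_i / z ^ J`. -/
noncomputable def relY [DecidableEq σ] (z : MvPolynomial σ ℤ) (η : σ → MvPolynomial σ ℤ) (J : ℕ)
    (a : σ → σ → MvPolynomial σ ℤ) (b : σ → MvPolynomial σ ℤ) (c : MvPolynomial σ ℤ) (e : σ) :
    Fin 3 ⊕ σ → MvPolynomial (NH.V1 σ) ℤ :=
  Sum.elim ![NH.vv e - 1, NH.il z - NH.ww σ * NH.tt σ, GY a b c]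
    (fun i => NH.il (η i) - (NH.ww σ * NH.tt σ) ^ J * NH.tt σ * NH.vv i)

end partB

end Pool.Agent.NT9
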