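import Pool.Agent.NT9.GePA
import Pool.Agent.NodHyp.Loc
import Pool.Agent.HermVar.LGModel

set_option autoImplicit false

/-! # GOOD: from a submodule all of whose local rings are regular to a good lattice -/

namespace Pool.Agent.NT9

open Pool.MP_602153_ag

namespace GeGood

theorem reg_local {K : Type} [Field K] [inst : Algebra ℤ K] (A : Subalgebra ℤ K) (Q : Ideal A)
    [Q.IsPrime]
    (h : ∀ (O : Subring K) [IsLocalRing O], (∀ z ∈ A, z ∈ O) →
      (∀ x ∈ O, ∃ u ∈ A, ∃ v ∈ A, v ≠ 0 ∧ v⁻¹ ∈ O ∧ x * v = u) → IsRegularLocalRing O) :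
    IsRegularLocalRing (Localization.AtPrime Q) := by
  obtain rfl : inst = Ring.toIntAlgebra K := Subsingleton.elim _ _
  exact NH.regular_of_localSub A Q fun O hO h1 h2 _ => h O h1 h2

/-- The lattice of a submodule. -/
theorem comap_fg {B K : Type} [AddCommGroup B] [AddCommGroup K] (φ : B →+ K)
    (hφ : Function.Injective φ) {Mo : Submodule ℤ K} (hfg : Mo.FG)
    (hr : ∀ x ∈ Mo, ∃ b, φ b = x) :
    (Mo.comap φ.toIntLinearMap).FG := by
  refine Submodule.fg_of_fg_map_injective φ.toIntLinearMap hφ ?_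
  have h1 : (Mo.comap φ.toIntLinearMap).map φ.toIntLinearMap = Mo := by
    apply le_antisymm
    · exact Submodule.map_comap_le _ _
    · intro x hx
      obtain ⟨b, rfl⟩ := hr x hx
      exact ⟨b, hx, rfl⟩
  rw [h1]
  exact hfg

theorem ch_adjoin {K : Type} [Field K] [inst : Algebra ℤ K] (Mo : Submodule ℤ K) (μ : K) (S : Set K)
    (hS : ∀ z, z ∈ S ↔ ∃ y ∈ Mo, z = y / μ) (z : K) :
    z ∈ Algebra.adjoin ℤ S ↔ z ∈ ch Mo μ := by
  obtain rfl : inst = Ring.toIntAlgebra K := Subsingleton.elim _ _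
  constructor
  · intro hz
    induction hz using Algebra.adjoin_induction with
    | mem x hx => exact Subring.subset_closure ((hS x).1 hx)
    | algebraMap r =>
      rw [eq_intCast]
      exact intCast_mem _ r
    | add x y _ _ hx hy => exact (ch Mo μ).add_mem hx hy
    | mul x y _ _ hx hy => exact (ch Mo μ).mul_mem hx hy
  · intro hz
    unfold ch at hz
    induction hz using Subring.closure_induction with
    | mem x hx => exact Algebra.subset_adjoin ((hS x).2 hx)
    | zero => exact Subalgebra.zero_mem _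
    | one => exact Subalgebra.one_mem _
    | add x y _ _ hx hy => exact Subalgebra.add_mem _ hx hy
    | neg x _ hx => exact Subalgebra.neg_mem _ hx
    | mul x y _ _ hx hy => exact Subalgebra.mul_mem _ hx hy

theorem reg_ring {K : Type} [Field K] [inst : Algebra ℤ K] (Mo : Submodule ℤ K) (hfg : Mo.FG)
    {μ : K} (hμ : μ ∈ Mo) (h0 : μ ≠ 0) (A : Subalgebra ℤ K)
    (hA : ∀ z, z ∈ A ↔ z ∈ ch Mo μ) (hreg : ∀ O ∈ Loc Mo, IsRegularLocalRing O) :
    IsRegularRing A := by
  have h1 : IsNoetherianRing A := by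
    have h2 := noeth_ch hfg μ
    have h3 : A.toSubring = ch Mo μ := by
      ext z
      exact hA z
    rw [← h3] at h2
    exact h2
  rw [isRegularRing_iff]
  intro Q hQ
  refine reg_local A Q ?_
  intro O hO h2 h3
  apply hreg
  refine ⟨hO, μ, hμ, h0, ?_, ?_⟩
  · intro z hz
    exact h2 z ((hA z).2 hz)
  · intro x hx
    obtain ⟨u, hu, v, hv, hv0, hvO, hxv⟩ := h3 x hx
    exact ⟨u, (hA u).1 hu, v, (hA v).1 hv, hv0, hvO, hxv⟩

end GeGood

/-- Proof. Let `φ : B → K` be the injective additive map `b ↦ b / x0 ^ E` (`K = FractionRing B`). `Λ = Mo.comap φ`. By `h1` and since `B` is a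
`ℚ`-algebra, `Mo` is contained in the image of `ℬ E` (divide `b` by `N`), so `Λ ≤ ℬ E`, `Λ` is isomorphic to `Mo`, so finitely generated; its `ℚ`-span
is `ℬ E` by `h2`. `Good Λ 1`: `κ = {f : B // f ∈ Λ ∧ f ≠ 0}`; every `y ∈ Λ` is `0` or in the family (`k = 1`). The chart rings: as sets
`LG.chartSub Λ f = ch Mo (φ f)` (`y / f = φ y / φ f`). It is Noetherian (`noeth_ch`), and for a prime `Q` the localisation is regular by
`NH.regular_of_localSub` (see `NH.LATD_local` for the instance): the local ring `O` is in `Loc Mo` (`μ = φ f`).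
Take care: two instances `Algebra ℤ (FractionRing B)` can occur; compare `NH.LATD_*`. -/
theorem good_of_loc {B : Type} [CommRing B] [IsDomain B] [Algebra ℚ B] (ℬ : ℕ → Submodule ℚ B)
    {x0 : B} (hx0 : x0 ≠ 0) {E : ℕ} {Mo : Submodule ℤ (FractionRing B)} (hfg : Mo.FG)
    (h1 : ∀ x ∈ Mo, ∃ N : ℤ, N ≠ 0 ∧ ∃ b ∈ ℬ E, (N : FractionRing B) * x =
      algebraMap B (FractionRing B) b / algebraMap B (FractionRing B) x0 ^ E)
    (h2 : ∀ b ∈ ℬ E, ∃ N : ℤ, N ≠ 0 ∧ (N : FractionRing B) *
      (algebraMap B (FractionRing B) b / algebraMap B (FractionRing B) x0 ^ E) ∈ Mo)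
    (hreg : ∀ O ∈ Loc Mo, IsRegularLocalRing O) :
    ∃ Λ : Submodule ℤ B, LG.IsLat (ℬ E) Λ ∧ LG.Good Λ 1 := by
  classical
  have hinj : Function.Injective (algebraMap B (FractionRing B)) :=
    IsFractionRing.injective B (FractionRing B)
  have hx0K : algebraMap B (FractionRing B) x0 ≠ 0 := by
    intro h
    exact hx0 (hinj (by rw [h, map_zero]))
  have ht : algebraMap B (FractionRing B) x0 ^ E ≠ 0 := pow_ne_zero _ hx0K
  have hchB : CharZero B := algebraRat.charZero B
  have hchar : CharZero (FractionRing B) := charZero_of_injective_algebraMap hinj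
  generalize hs : algebraMap B (FractionRing B) x0 ^ E = s at h1 h2 ht
  let φ : B →+ FractionRing B :=
    { toFun := fun b => algebraMap B (FractionRing B) b / s
      map_zero' := by rw [map_zero, zero_div]
      map_add' := fun a b => by rw [map_add, add_div] }
  have hφ : ∀ b, φ b = algebraMap B (FractionRing B) b / s := fun b => rfl
  have hφinj : Function.Injective φ := by
    intro a b hab
    rw [hφ, hφ, div_left_inj' ht] at hab
    exact hinj hab
  -- the elements of `Mo`
  have hdiv : ∀ (N : ℤ) (b : B), N ≠ 0 → (N : B) * (((N : ℚ)⁻¹) • b) = b := by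
    intro N b hN
    have h3 : (N : B) = algebraMap ℚ B (N : ℚ) := by
      rw [map_intCast]
    rw [h3, Algebra.smul_def, ← mul_assoc, ← map_mul, mul_inv_cancel₀ (by exact_mod_cast hN),
      map_one, one_mul]
  have hMo : ∀ x ∈ Mo, ∃ b ∈ ℬ E, φ b = x := by
    intro x hx
    obtain ⟨N, hN, b, hb, hNx⟩ := h1 x hx
    refine ⟨((N : ℚ)⁻¹) • b, Submodule.smul_mem _ _ hb, ?_⟩
    have hNK : (N : FractionRing B) ≠ 0 := by exact_mod_cast hN
    apply mul_left_cancel₀ hNK
    rw [hNx, hφ, ← mul_div_assoc, ← map_intCast (algebraMap B (FractionRing B)) N, ← map_mul,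
      hdiv N b hN]
  have hΛ : ∀ b, b ∈ Mo.comap φ.toIntLinearMap → b ∈ ℬ E := by
    intro b hb
    obtain ⟨b', hb', h3⟩ := hMo (φ b) hb
    rwa [← hφinj h3]
  have hone : ∀ z : B, ((1 : ℤ) : B) * z = z := fun z => by rw [Int.cast_one, one_mul]
  refine ⟨Mo.comap φ.toIntLinearMap, ⟨?_, ?_⟩, {f : B // f ∈ Mo.comap φ.toIntLinearMap ∧ f ≠ 0},
    fun f => f.1, ?_, ?_⟩
  · exact GeGood.comap_fg φ hφinj hfg fun x hx => by
      obtain ⟨b, -, hb⟩ := hMo x hx
      exact ⟨b, hb⟩
  · apply le_antisymm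
    · rw [Submodule.span_le]
      intro b hb
      exact hΛ b hb
    · intro b hb
      obtain ⟨N, hN, hNb⟩ := h2 b hb
      have h4 : (N : B) * b ∈ Mo.comap φ.toIntLinearMap := by
        change φ ((N : B) * b) ∈ Mo
        rw [hφ, map_mul, map_intCast, mul_div_assoc]
        exact hNb
      have h5 : b = ((N : ℚ)⁻¹) • ((N : B) * b) := by
        have h6 := hdiv N b hN
        rw [Algebra.smul_def] at h6 ⊢
        rw [mul_left_comm, h6]
      rw [h5]
      exact Submodule.smul_mem _ _ (Submodule.subset_span h4)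
  · rintro ⟨f, hf, hf0⟩
    refine ⟨hf, hf0, ?_⟩
    have hfK : algebraMap B (FractionRing B) f ≠ 0 := by
      intro h
      exact hf0 (hinj (by rw [h, map_zero]))
    have hφf : φ f ≠ 0 := by
      rw [hφ]
      exact div_ne_zero hfK ht
    have hdd : ∀ y : B, algebraMap B (FractionRing B) y / algebraMap B (FractionRing B) f =
        φ y / φ f := by
      intro y
      rw [hφ, hφ, div_div_div_cancel_right₀ ht]
    refine GeGood.reg_ring Mo hfg hf hφf _ ?_ hreg
    intro z
    refine GeGood.ch_adjoin Mo _ _ ?_ z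
    intro w
    constructor
    · rintro ⟨y, hy, rfl⟩
      exact ⟨φ y, hy, hdd y⟩
    · rintro ⟨x, hx, rfl⟩
      obtain ⟨y, -, rfl⟩ := hMo x hx
      exact ⟨y, hx, (hdd y).symm⟩
  · intro y hy
    refine ⟨1, ?_⟩
    rw [pow_one, hone]
    by_cases hy0 : y = 0
    · rw [hy0]
      exact Submodule.zero_mem _
    · exact Submodule.subset_span ⟨⟨y, hy, hy0⟩, rfl⟩

end Pool.Agent.NT9
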