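import Pool.Agent.NT9.GeProjD
import Pool.Agent.NodHyp.Ver

set_option autoImplicit false

/-! # PROJB: the powers of `Mo0` -/

namespace Pool.Agent.NT9

open MvPolynomial

variable {n : ℕ} {K : Type} [Field K]

section projb

variable {B : Type} [CommRing B] [Algebra ℚ B] (ℬ : ℕ → Submodule ℚ B) [GradedAlgebra ℬ]
  (y : Fin (n + 1) → B)

private theorem prod_pow_mem (hy : ∀ i, y i ∈ ℬ 1) (s : Fin (n + 1) →₀ ℕ) :
    ∏ i, y i ^ s i ∈ ℬ (∑ i, s i) := by
  refine SetLike.prod_mem_graded (A := ℬ) (fun i => s i) (fun i => y i ^ s i) (fun i _ => ?_)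
  have h1 := SetLike.pow_mem_graded (s i) (hy i)
  rwa [smul_eq_mul, mul_one] at h1

private theorem aeval_mem (hy : ∀ i, y i ∈ ℬ 1) {E : ℕ} {q : MvPolynomial (Fin (n + 1)) ℚ}
    (hq : q.IsHomogeneous E) : aeval y q ∈ ℬ E := by
  rw [aeval_def, eval₂_eq']
  refine sum_mem fun s hs => ?_
  have h1 : ∑ i, s i = E := by
    have h2 := hq (mem_support_iff.1 hs)
    rw [Finsupp.weight_apply, Finsupp.sum_fintype _ _ (by intro i; exact zero_smul _ _)] at h2
    simpa using h2
  rw [← Algebra.smul_def]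
  refine Submodule.smul_mem _ _ ?_
  rw [← h1]
  exact prod_pow_mem ℬ y hy s

private theorem one_le_span (hy : ∀ i, y i ∈ ℬ 1)
    (hsurj : Function.Surjective (aeval y : MvPolynomial (Fin (n + 1)) ℚ →ₐ[ℚ] B)) :
    ℬ 1 ≤ Submodule.span ℚ (Set.range y) := by
  classical
  intro b hb
  obtain ⟨q, hq⟩ := hsurj b
  have h1 : (DirectSum.decompose ℬ b 1 : B) = b := DirectSum.decompose_of_mem_same ℬ hb
  have h2 : (DirectSum.decompose ℬ (aeval y q) 1 : B) = aeval y (homogeneousComponent 1 q) := by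
    conv_lhs => rw [← sum_homogeneousComponent q]
    rw [map_sum, DirectSum.decompose_sum, DFinsupp.finsetSum_apply, Submodule.coe_sum]
    have h3 : ∀ i, ((DirectSum.decompose ℬ (aeval y (homogeneousComponent i q)) 1 : ℬ 1) : B) =
        if i = 1 then aeval y (homogeneousComponent 1 q) else 0 := by
      intro i
      have h4 := aeval_mem ℬ y hy (homogeneousComponent_isHomogeneous i q)
      split_ifs with h
      · subst h
        exact DirectSum.decompose_of_mem_same ℬ h4
      · exact DirectSum.decompose_of_mem_ne ℬ h4 h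
    rw [Finset.sum_congr rfl fun i _ => h3 i, Finset.sum_ite_eq']
    split_ifs with h
    · rfl
    · rw [homogeneousComponent_eq_zero 1 q (by rw [Finset.mem_range] at h; omega), map_zero]
  rw [← h1, ← hq, h2, aeval_def, eval₂_eq']
  refine sum_mem fun s hs => ?_
  have h5 : ∑ i, s i = 1 := by
    have h2 := homogeneousComponent_isHomogeneous 1 q (mem_support_iff.1 hs)
    rw [Finsupp.weight_apply, Finsupp.sum_fintype _ _ (by intro i; exact zero_smul _ _)] at h2
    simpa using h2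
  rw [← Algebra.smul_def]
  refine Submodule.smul_mem _ _ ?_
  obtain ⟨i, hi⟩ : ∃ i, s i ≠ 0 := by
    by_contra hcon
    push Not at hcon
    rw [Finset.sum_eq_zero fun i _ => hcon i] at h5
    exact absurd h5 (by decide)
  have h6 : s i = 1 := by
    have := Finset.single_le_sum (f := fun i => s i) (fun _ _ => Nat.zero_le _) (Finset.mem_univ i)
    rw [h5] at this
    omega
  have h7 : ∀ j, j ≠ i → s j = 0 := by
    intro j hj
    have := Finset.add_le_sum (f := fun i => s i) (fun _ _ => Nat.zero_le _) (Finset.mem_univ i)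
      (Finset.mem_univ j) (Ne.symm hj)
    rw [h5] at this
    omega
  rw [Finset.prod_eq_single i (fun j _ hj => by rw [h7 j hj, pow_zero])
    (fun h => absurd (Finset.mem_univ i) h), h6, pow_one]
  exact Submodule.subset_span ⟨i, rfl⟩

private theorem gen_one (hy : ∀ i, y i ∈ ℬ 1)
    (hsurj : Function.Surjective (aeval y : MvPolynomial (Fin (n + 1)) ℚ →ₐ[ℚ] B)) :
    Algebra.adjoin ℚ (ℬ 1 : Set B) = ⊤ := by
  rw [eq_top_iff]
  intro b _
  obtain ⟨q, hq⟩ := hsurj b
  have h1 : b ∈ (aeval y : MvPolynomial (Fin (n + 1)) ℚ →ₐ[ℚ] B).range := ⟨q, hq⟩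
  rw [← Algebra.adjoin_range_eq_range_aeval] at h1
  refine Algebra.adjoin_mono ?_ h1
  rintro _ ⟨i, rfl⟩
  exact hy i

private theorem pow_le_of {K : Type} [Field K] (M : Submodule ℤ K) (S : ℕ → Submodule ℤ K)
    (h1 : M ≤ S 1) (h0 : (1 : K) ∈ S 0) (hS : ∀ k, ∀ x ∈ S k, ∀ y ∈ S 1, x * y ∈ S (k + 1))
    (k : ℕ) : M ^ k ≤ S k := by
  induction k with
  | zero =>
    rw [pow_zero, Submodule.one_le]
    exact h0
  | succ k ih =>
    rw [pow_succ]
    refine (mul_le_mul' ih h1).trans ?_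
    rw [Submodule.mul_le]
    exact hS k

private theorem mem_pow_of {K ι : Type} [Field K] [DecidableEq ι] (M : Submodule ℤ K)
    (v : ι → K) (hv : ∀ i, v i ∈ M) (s : ι → ℕ) (t : Finset ι) :
    ∏ i ∈ t, v i ^ s i ∈ M ^ (∑ i ∈ t, s i) := by
  induction t using Finset.induction_on with
  | empty =>
    rw [Finset.prod_empty, Finset.sum_empty, pow_zero]
    exact Submodule.one_le.1 le_rfl
  | insert i t hi ih =>
    rw [Finset.prod_insert hi, Finset.sum_insert hi, pow_add]
    exact Submodule.mul_mem_mul (Submodule.pow_mem_pow _ (hv i) _) ih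

end projb

/-- Elements of `Mo0 ^ E`: `b / x0 ^ E` with `b` in the part of degree `E`, and conversely up to integers. Proof: `Mo0 ^ E` is spanned by the products of `E` of the `x i / x 0`
(`Submodule.span_pow`, or induction on `E`); conversely `ℬ E = (ℬ 1) ^ E` (`NH.VerAux.le_pow`), `ℬ 1` is spanned over `ℚ` by the `y i`, clear denominators (`NH.VerAux.Mk`,
`NH.VerAux.mem_Mk_of_mem` with `E = 1`; or induction on `E`). -/
theorem com_base {B : Type} [CommRing B] [IsDomain B] [Algebra ℚ B] (ℬ : ℕ → Submodule ℚ B)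
    [GradedAlgebra ℬ] (y : Fin (n + 1) → B) (hy : ∀ i, y i ∈ ℬ 1) (hy0 : ∀ i, y i ≠ 0)
    (hsurj : Function.Surjective (aeval y : MvPolynomial (Fin (n + 1)) ℚ →ₐ[ℚ] B)) (E : ℕ) :
    (∀ x ∈ Mo0 (fun i => algebraMap B (FractionRing B) (y i)) ^ E, ∃ b ∈ ℬ E,
      x = algebraMap B (FractionRing B) b / algebraMap B (FractionRing B) (y 0) ^ E) ∧
    ∀ b ∈ ℬ E, ∃ N : ℤ, N ≠ 0 ∧ (N : FractionRing B) *
      (algebraMap B (FractionRing B) b / algebraMap B (FractionRing B) (y 0) ^ E) ∈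
        Mo0 (fun i => algebraMap B (FractionRing B) (y i)) ^ E := by
  have hφ0 : algebraMap B (FractionRing B) (y 0) ≠ 0 := by
    rw [Ne, FaithfulSMul.algebraMap_eq_zero_iff]
    exact hy0 0
  set φ := algebraMap B (FractionRing B) with hφ
  let S : ℕ → Submodule ℤ (FractionRing B) := fun k =>
    { carrier := {x | ∃ b ∈ ℬ k, x = φ b / φ (y 0) ^ k}
      add_mem' := by
        rintro _ _ ⟨b, hb, rfl⟩ ⟨b', hb', rfl⟩
        exact ⟨b + b', add_mem hb hb', by rw [map_add, add_div]⟩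
      zero_mem' := ⟨0, zero_mem _, by rw [map_zero, zero_div]⟩
      smul_mem' := by
        rintro c _ ⟨b, hb, rfl⟩
        refine ⟨c • b, ?_, by rw [map_zsmul, smul_div_assoc]⟩
        exact zsmul_mem hb c }
  have hS1 : Mo0 (fun i => φ (y i)) ≤ S 1 := by
    unfold Mo0
    rw [Submodule.span_le]
    rintro _ ⟨i, rfl⟩
    exact ⟨y i, hy i, by rw [pow_one]⟩
  have hSp : ∀ k, Mo0 (fun i => φ (y i)) ^ k ≤ S k := by
    intro k
    refine pow_le_of (Mo0 (fun i => φ (y i))) S hS1 ?_ ?_ k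
    · exact ⟨1, SetLike.GradedOne.one_mem, by rw [map_one, pow_zero, div_one]⟩
    · rintro k _ ⟨b, hb, rfl⟩ _ ⟨b', hb', rfl⟩
      refine ⟨b * b', SetLike.mul_mem_graded hb hb', ?_⟩
      rw [map_mul, pow_one, pow_succ, div_mul_div_comm]
  refine ⟨fun x hx => hSp E hx, fun b hb => ?_⟩
  have hgen := gen_one ℬ y hy hsurj
  have h1 := NH.VerAux.mem_Mk_of_mem (v := y) (k := E) (z := b) hgen
    (one_le_span ℬ y hy hsurj) (by rwa [one_mul])
  obtain ⟨N, q, hN, hq, h2⟩ := h1
  refine ⟨N, hN, ?_⟩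
  have h3 : (N : FractionRing B) * (φ b / φ (y 0) ^ E) = φ (aeval y q) / φ (y 0) ^ E := by
    rw [h2, map_mul, map_intCast, mul_div_assoc]
  rw [h3, aeval_def, eval₂_eq', map_sum, Finset.sum_div]
  refine sum_mem fun s hs => ?_
  have h5 : ∑ i, s i = E := by
    have h2 := hq (mem_support_iff.1 hs)
    rw [Finsupp.weight_apply, Finsupp.sum_fintype _ _ (by intro i; exact zero_smul _ _)] at h2
    simpa using h2
  have h6 : φ ((algebraMap ℤ B) (coeff s q) * ∏ i, y i ^ s i) / φ (y 0) ^ E =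
      (coeff s q) • ∏ i, (φ (y i) / φ (y 0)) ^ s i := by
    rw [map_mul, eq_intCast, map_intCast, map_prod, zsmul_eq_mul, mul_div_assoc]
    congr 1
    rw [← h5, ← Finset.prod_pow_eq_pow_sum, ← Finset.prod_div_distrib]
    refine Finset.prod_congr rfl fun i _ => ?_
    rw [map_pow, div_pow]
  rw [h6]
  refine Submodule.smul_mem _ _ ?_
  rw [← h5]
  exact mem_pow_of (Mo0 (fun i => φ (y i))) (fun i => φ (y i) / φ (y 0))
    (fun i => Submodule.subset_span ⟨i, rfl⟩) (fun i => s i) Finset.univ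

end Pool.Agent.NT9
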