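import Pool.Agent.NT9.GeDefs
import Pool.Agent.NodHyp.Deh

set_option autoImplicit false

/-! # PROJC: `F` is primitive -/

namespace Pool.Agent.NT9

open MvPolynomial

variable {n : ℕ} {K : Type} [Field K]

/-- `F` is primitive. Proof. If `F = C p G` then for every prime ideal `Q ∋ p` of `ℤ[x_i, i ≠ m]`, `f = deh m F` and its derivatives are in `Q`, so `Q` is maximal by `Iso`; but the ideal generated by
`p` is prime and not maximal (`{i // i ≠ m}` is not empty as `1 ≤ n`: it is strictly contained in the ideal generated by `p` and the variables, `≠ ⊤`). -/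
theorem primitive_of_iso (hn : 1 ≤ n) {F : MvPolynomial (Fin (n + 1)) ℤ} {m : Fin (n + 1)}
    (hiso : Iso (NH.deh m F)) {p : ℕ} (hp : p.Prime) : ¬ C (p : ℤ) ∣ F := by
  rintro ⟨G, hG⟩
  have hpz : Prime (p : ℤ) := Nat.prime_iff_prime_int.1 hp
  set P := MvPolynomial {i : Fin (n + 1) // i ≠ m} ℤ with hP
  have hpP : Prime (C (p : ℤ) : P) := (MvPolynomial.prime_C_iff _).2 hpz
  have hf : NH.deh m F = C (p : ℤ) * NH.deh m G := by
    rw [hG, map_mul]
    congr 1
    rw [← algebraMap_eq, AlgHom.commutes, algebraMap_eq]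
  have hQ : (Ideal.span {(C (p : ℤ) : P)}).IsPrime :=
    (Ideal.span_singleton_prime hpP.ne_zero).2 hpP
  have hmax := hiso (Ideal.span {(C (p : ℤ) : P)}) hQ
    ⟨p, hp, Ideal.mem_span_singleton_self _⟩
    (by rw [hf]; exact Ideal.mul_mem_right _ _ (Ideal.mem_span_singleton_self _))
    (fun i => by
      rw [hf, pderiv_C_mul]
      exact Ideal.mul_mem_right _ _ (Ideal.mem_span_singleton_self _))
  obtain ⟨i0, hi0⟩ : ∃ i0 : Fin (n + 1), i0 ≠ m := by
    have : Nontrivial (Fin (n + 1)) := Fin.nontrivial_iff_two_le.2 (by omega)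
    exact exists_ne m
  have hX : (X ⟨i0, hi0⟩ : P) ∉ Ideal.span {(C (p : ℤ) : P)} := by
    intro h
    have h1 := map_dvd (eval (fun _ => (1 : ℤ))) (Ideal.mem_span_singleton.1 h)
    rw [eval_C, eval_X] at h1
    exact hpz.not_isUnit (isUnit_of_dvd_one h1)
  obtain ⟨y, i, hi, hyi⟩ := hmax.exists_inv hX
  have h1 := map_dvd (eval (fun _ => (0 : ℤ))) (Ideal.mem_span_singleton.1 hi)
  have h2 := congrArg (eval (fun _ => (0 : ℤ))) hyi
  rw [map_add, map_mul, eval_X, mul_zero, zero_add, map_one] at h2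
  rw [h2, eval_C] at h1
  exact hpz.not_isUnit (isUnit_of_dvd_one h1)

end Pool.Agent.NT9
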