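import Pool.Agent.NT9.GeDefs
import Pool.Agent.NodHyp.Deh

set_option autoImplicit false

/-! # MAIND: the hypotheses on the form -/

namespace Pool.Agent.NT9

open MvPolynomial

/-- The hypotheses on `F`: the singular points of the reductions are isolated, and the condition on the tangent cone holds at the singular points of the total space (each
point is considered in its first chart only). -/
def GoodF {n : ℕ} (F : MvPolynomial (Fin (n + 1)) ℤ) : Prop :=
  ∀ m : Fin (n + 1), Iso (NH.deh m F) ∧
    ∀ M : Ideal (MvPolynomial {i : Fin (n + 1) // i ≠ m} ℤ), M.IsMaximal →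
      (∀ i : {i : Fin (n + 1) // i ≠ m}, i.1 < m → X i ∈ M) →
      NH.deh m F ∈ M ^ 2 → Tan (NH.deh m F) M

end Pool.Agent.NT9
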