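import Pool.Agent.NT9.GeNakA

set_option autoImplicit false

/-! # NAKC: the forms at the higher levels -/

namespace Pool.Agent.NT9

open MvPolynomial

variable {σ : Type} [Fintype σ]

/-- Change of the origin, an identity: with `z' = z ^ (J + 1)`, `η i = η' i + ε i z'`,
`s f = ∑ a η' η' + z' ∑ b' η' + z' ^ 2 c'`, `b' i = ∑ j, (a i j + a j i) ε j + b i`, `c' = ∑ a ε ε + ∑ b ε + c`. -/
theorem sform_next {f : MvPolynomial σ ℤ} {M : Ideal (MvPolynomial σ ℤ)}
    {z : MvPolynomial σ ℤ} {η : σ → MvPolynomial σ ℤ} {J : ℕ} {s : MvPolynomial σ ℤ}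
    {a : σ → σ → MvPolynomial σ ℤ} {b : σ → MvPolynomial σ ℤ} {c : MvPolynomial σ ℤ}
    (hs : s ∉ M) (ha : SmF a M) (hsf : s * f = ∑ i, ∑ j, a i j * η i * η j +
      z ^ (J + 1) * ∑ i, b i * η i + z ^ (2 * J + 2) * c)
    (ε : σ → MvPolynomial σ ℤ) (hb : ∀ i, ∑ j, (a i j + a j i) * ε j + b i ∈ M)
    (hc : ∑ i, ∑ j, a i j * ε i * ε j + ∑ i, b i * ε i + c ∈ M) :
    SForm f M z (fun i => η i - ε i * z ^ (J + 1)) (J + 1) := by
  refine ⟨s, a, _, _, hs, ha, hb, hc, ?_⟩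
  rw [hsf]
  obtain ⟨w, hw⟩ : ∃ w, w = z ^ (J + 1) := ⟨_, rfl⟩
  have hw2 : z ^ (2 * J + 2) = w ^ 2 := by
    rw [hw, ← pow_mul]
    congr 1
    ring
  have hw3 : z ^ (2 * (J + 1)) = w ^ 2 := by
    rw [hw, ← pow_mul]
    congr 1
    ring
  rw [hw2, hw3, ← hw]
  have e1 : ∑ i, (∑ j, (a i j + a j i) * ε j + b i) * (η i - ε i * w) =
      ∑ i, ∑ j, a i j * ε j * (η i - ε i * w) + ∑ i, ∑ j, a i j * ε i * (η j - ε j * w) +
        ∑ i, b i * (η i - ε i * w) := by
    have e2 : ∑ i, ∑ j, a i j * ε i * (η j - ε j * w) =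
        ∑ i, ∑ j, a j i * ε j * (η i - ε i * w) := Finset.sum_comm
    rw [e2, ← Finset.sum_add_distrib, ← Finset.sum_add_distrib]
    refine Finset.sum_congr rfl fun i _ => ?_
    rw [← Finset.sum_add_distrib, add_mul, Finset.sum_mul]
    congr 1
    exact Finset.sum_congr rfl fun j _ => by ring
  rw [e1]
  have e3 : ∑ i, ∑ j, a i j * η i * η j = ∑ i, ∑ j, a i j * (η i - ε i * w) * (η j - ε j * w) +
      w * (∑ i, ∑ j, a i j * ε j * (η i - ε i * w) + ∑ i, ∑ j, a i j * ε i * (η j - ε j * w)) +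
      w ^ 2 * ∑ i, ∑ j, a i j * ε i * ε j := by
    rw [mul_add, Finset.mul_sum, Finset.mul_sum, Finset.mul_sum, ← Finset.sum_add_distrib,
      ← Finset.sum_add_distrib, ← Finset.sum_add_distrib]
    refine Finset.sum_congr rfl fun i _ => ?_
    rw [Finset.mul_sum, Finset.mul_sum, Finset.mul_sum, ← Finset.sum_add_distrib,
      ← Finset.sum_add_distrib, ← Finset.sum_add_distrib]
    exact Finset.sum_congr rfl fun j _ => by ring
  have e4 : ∑ i, b i * η i = ∑ i, b i * (η i - ε i * w) + w * ∑ i, b i * ε i := by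
    rw [Finset.mul_sum, ← Finset.sum_add_distrib]
    exact Finset.sum_congr rfl fun i _ => by ring
  rw [e3, e4]
  ring

/-- The alternative at a point of level `J ≥ 1`. Proof. `t` from `Par.gen` for the parameters: `t b_i = β_i0 z + ∑ β_ij η_j`,
`t c = γ_0 z + ∑ γ_j η_j`, so
`t s f = ∑ (t a_ij + z^J β_ij) η_i η_j + z^(J+1) ∑ (β_i0 + z^(J-1) γ_i) η_i + z^(2J+1) γ_0`. If `γ_0 ∉ M`: right alternative (with
`c0 = γ_0`, `b_i := z (β_i0 + z^(J-1) γ_i)`). If `γ_0 ∈ M`: `t γ_0 = γ_00 z + ∑ γ_0j η_j`; multiply the equation by `t` once more: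
`z^(2J+1) t γ_0 = z^(2J+2) γ_00 + z^(J+1) z^J ∑ γ_0j η_j`: `BForm`. (`SmF.scale` with `t` or `t ^ 2`: `z ^ J β_ij ∈ M` as `J ≥ 1`.) -/
theorem sform_cases {f : MvPolynomial σ ℤ} {M : Ideal (MvPolynomial σ ℤ)} [M.IsMaximal]
    {z : MvPolynomial σ ℤ} {η : σ → MvPolynomial σ ℤ} (hpar : Par M z η) {J : ℕ} (hJ : 1 ≤ J)
    (h : SForm f M z η J) : BForm f M z η J ∨
      ∃ (s : MvPolynomial σ ℤ) (a : σ → σ → MvPolynomial σ ℤ) (b : σ → MvPolynomial σ ℤ)
        (c0 : MvPolynomial σ ℤ), s ∉ M ∧ c0 ∉ M ∧ (∀ i, b i ∈ M) ∧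
        s * f = ∑ i, ∑ j, a i j * η i * η j + z ^ J * ∑ i, b i * η i +
          z ^ (2 * J) * (c0 * z) := by
  have hMp : M.IsPrime := Ideal.IsMaximal.isPrime inferInstance
  obtain ⟨K, rfl⟩ : ∃ K, J = K + 1 := ⟨J - 1, by omega⟩
  obtain ⟨s, a, b, c, hs, ha, hb, hc, hsf⟩ := h
  obtain ⟨t, ht, hgen⟩ := hpar.gen
  choose β0 β hβ using fun i => hgen (b i) (hb i)
  obtain ⟨γ0, γ, hγ⟩ := hgen c hc
  have key : t * (s * f) = ∑ i, ∑ j, (t * a i j + z ^ (K + 1) * β i j) * η i * η j +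
      z ^ (K + 1) * ∑ i, (z * (β0 i + z ^ K * γ i)) * η i + z ^ (2 * (K + 1)) * (γ0 * z) := by
    have e0 : t * ∑ i, b i * η i = z * ∑ i, β0 i * η i + ∑ i, ∑ j, β i j * η i * η j := by
      rw [Finset.mul_sum, Finset.mul_sum, ← Finset.sum_add_distrib]
      refine Finset.sum_congr rfl fun i _ => ?_
      calc t * (b i * η i) = (t * b i) * η i := by ring
        _ = z * (β0 i * η i) + (∑ j, β i j * η j) * η i := by rw [hβ i]; ring
        _ = _ := by
          rw [Finset.sum_mul]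
          congr 1
          exact Finset.sum_congr rfl fun j _ => by ring
    have e1 : ∑ i, ∑ j, (t * a i j + z ^ (K + 1) * β i j) * η i * η j =
        t * ∑ i, ∑ j, a i j * η i * η j + z ^ (K + 1) * ∑ i, ∑ j, β i j * η i * η j := by
      rw [Finset.mul_sum, Finset.mul_sum, ← Finset.sum_add_distrib]
      refine Finset.sum_congr rfl fun i _ => ?_
      rw [Finset.mul_sum, Finset.mul_sum, ← Finset.sum_add_distrib]
      exact Finset.sum_congr rfl fun j _ => by ring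
    have e2 : ∑ i, (z * (β0 i + z ^ K * γ i)) * η i =
        z * ∑ i, β0 i * η i + z ^ (K + 1) * ∑ i, γ i * η i := by
      rw [Finset.mul_sum, Finset.mul_sum, ← Finset.sum_add_distrib]
      exact Finset.sum_congr rfl fun i _ => by ring
    rw [hsf, e1, e2]
    calc t * (∑ i, ∑ j, a i j * η i * η j + z ^ (K + 1) * ∑ i, b i * η i +
          z ^ (2 * (K + 1)) * c)
        = t * ∑ i, ∑ j, a i j * η i * η j + z ^ (K + 1) * (t * ∑ i, b i * η i) +
          z ^ (2 * (K + 1)) * (t * c) := by ring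
      _ = _ := by
        rw [e0, hγ]
        ring
  have hts : t * s ∉ M := fun h => (hMp.mem_or_mem h).elim ht hs
  by_cases hγM : γ0 ∈ M
  · left
    obtain ⟨δ0, δ, hδ⟩ := hgen γ0 hγM
    refine ⟨t * (t * s), fun i j => t * (t * a i j + z ^ (K + 1) * β i j),
      fun i => t * (β0 i + z ^ K * γ i) + z ^ (K + 1) * δ i, δ0,
      fun h => (hMp.mem_or_mem h).elim ht hts, ?_, ?_⟩
    · have htt : t * t ∉ M := fun h => (hMp.mem_or_mem h).elim ht ht
      refine ha.scale htt (fun i j => ?_)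
      have e : t * (t * a i j + z ^ (K + 1) * β i j) - t * t * a i j =
          (t * (z ^ K * β i j)) * z := by ring
      rw [e]
      exact M.mul_mem_left _ hpar.1
    · have e1 : ∑ i, ∑ j, t * (t * a i j + z ^ (K + 1) * β i j) * η i * η j =
          t * ∑ i, ∑ j, (t * a i j + z ^ (K + 1) * β i j) * η i * η j := by
        rw [Finset.mul_sum]
        refine Finset.sum_congr rfl fun i _ => ?_
        rw [Finset.mul_sum]
        exact Finset.sum_congr rfl fun j _ => by ring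
      have e2 : z * ∑ i, (t * (β0 i + z ^ K * γ i) + z ^ (K + 1) * δ i) * η i =
          t * ∑ i, (z * (β0 i + z ^ K * γ i)) * η i + z ^ (K + 2) * ∑ i, δ i * η i := by
        rw [Finset.mul_sum, Finset.mul_sum, Finset.mul_sum, ← Finset.sum_add_distrib]
        exact Finset.sum_congr rfl fun i _ => by ring
      calc t * (t * s) * f = t * (t * (s * f)) := by ring
        _ = t * ∑ i, ∑ j, (t * a i j + z ^ (K + 1) * β i j) * η i * η j +
          z ^ (K + 1) * (t * ∑ i, (z * (β0 i + z ^ K * γ i)) * η i) +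
          z ^ (2 * (K + 1) + 1) * (t * γ0) := by rw [key]; ring
        _ = t * ∑ i, ∑ j, (t * a i j + z ^ (K + 1) * β i j) * η i * η j +
          z ^ (K + 1) * (z * ∑ i, (t * (β0 i + z ^ K * γ i) + z ^ (K + 1) * δ i) * η i) +
          z ^ (2 * (K + 1) + 2) * δ0 := by rw [e2, hδ]; ring
        _ = _ := by rw [e1]; ring
  · right
    refine ⟨t * s, fun i j => t * a i j + z ^ (K + 1) * β i j,
      fun i => z * (β0 i + z ^ K * γ i), γ0, hts, hγM, fun i => M.mul_mem_right _ hpar.1, ?_⟩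
    rw [mul_assoc, key]

end Pool.Agent.NT9
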