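import Pool.Agent.NT9.GeWA

set_option autoImplicit false

/-! # WB: two applications of `regular_w` -/

namespace Pool.Agent.NT9

open MvPolynomial

variable {σ : Type} [Fintype σ] {K : Type} [Field K]

/-- The chart `z`, at a point where a partial derivative of `GW` does not vanish. Proof: `hγ` of `regular_w`: apply `∂/∂W_i0` to the relation
(`NH.Ind2Aux.der_sq`): `γ ∂_i0 GW + (multiples of GW, of the relations and of il z ^ k) ∈ Q`; these are in `Q` since `π` maps them to `mx O`; so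
`γ ∂_i0 GW ∈ Q` and `∂_i0 GW = ∑ j, il (a i0 j + a j i0) W_j + il (b i0) ∉ Q`. -/
theorem regular_z {f : MvPolynomial σ ℤ} {θ : MvPolynomial σ ℤ →+* K}
    (hker : RingHom.ker θ = Ideal.span {f}) {M : Ideal (MvPolynomial σ ℤ)} [M.IsMaximal] {p : ℕ}
    (hp : p.Prime) (hpM : (C (p : ℤ) : MvPolynomial σ ℤ) ∈ M) {z : MvPolynomial σ ℤ}
    {η : σ → MvPolynomial σ ℤ} (hpar : Par M z η) (hz0 : θ z ≠ 0) {k : ℕ} (hk : 1 ≤ k)
    {s : MvPolynomial σ ℤ} {a : σ → σ → MvPolynomial σ ℤ} {b : σ → MvPolynomial σ ℤ}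
    {c : MvPolynomial σ ℤ} (hs : s ∉ M)
    (hsf : s * f = ∑ i, ∑ j, a i j * η i * η j + z ^ k * ∑ i, b i * η i + z ^ (2 * k) * c)
    {O : Subring K} [IsLocalRing O] (hpoly : ∀ h, θ h ∈ O) (hM : ∀ h ∈ M, θ h ∈ mx O)
    {w : σ → K} (hw : ∀ i, w i ∈ O) (hwz : ∀ i, θ (η i) = θ z ^ k * w i)
    (hfr : ∀ x ∈ O, ∃ u v : MvPolynomial (NH.V2 σ) ℤ, NH.CHART2_pi θ w v ≠ 0 ∧
      (NH.CHART2_pi θ w v)⁻¹ ∈ O ∧ x * NH.CHART2_pi θ w v = NH.CHART2_pi θ w u)
    (i0 : σ) (hi0 : ∑ j, θ (a i0 j + a j i0) * w j + θ (b i0) ∉ mx O) :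
    IsRegularLocalRing O := by
  classical
  refine regular_w hker hp hpM hpar hz0 hk hs hsf hpoly hM hw hwz hfr ?_
  intro Q _ hQ γ δ h
  have hrel := GeWA_rel hker hz0 hsf hwz
  have hil : ∀ h, NH.CHART2_pi θ w (rename Sum.inl h) = θ h := NH.CHART2_pi_il θ w
  have hir : ∀ i, NH.CHART2_pi θ w (X (Sum.inr i)) = w i := NH.CHART2_pi_ir θ w
  have hGQ : GW a b c ∈ Q := by
    rw [hQ]
    have h1 := hrel none
    simp only [relW] at h1
    rw [h1]
    exact zero_mem_mx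
  have hRQ : ∀ i, rename Sum.inl (η i) - rename Sum.inl z ^ k * X (Sum.inr i) ∈ Q := by
    intro i
    rw [hQ]
    have h1 := hrel (some i)
    simp only [relW] at h1
    rw [h1]
    exact zero_mem_mx
  have hzQ : (rename Sum.inl z : MvPolynomial (NH.V2 σ) ℤ) ∈ Q := by
    rw [hQ, hil]
    exact hM z hpar.1
  have hzkQ : (rename Sum.inl z : MvPolynomial (NH.V2 σ) ℤ) ^ k ∈ Q :=
    Q.pow_mem_of_mem hzQ k (by omega)
  have hD := NH.Ind2Aux.der_sq (pderiv (Sum.inr i0 : NH.V2 σ)) Q h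
  rw [map_add, map_sum, Derivation.leibniz, smul_eq_mul, smul_eq_mul] at hD
  have h1 : ∑ i, pderiv (Sum.inr i0 : NH.V2 σ) (δ i * (rename Sum.inl (η i) -
      rename Sum.inl z ^ k * X (Sum.inr i))) ∈ Q := by
    refine Ideal.sum_mem _ fun i _ => ?_
    rw [Derivation.leibniz, smul_eq_mul, smul_eq_mul]
    refine Q.add_mem (Q.mul_mem_left _ ?_) (Q.mul_mem_right _ (hRQ i))
    rw [map_sub, NH.Ind2Aux.pderiv_inr_rename, zero_sub, ← map_pow, Derivation.leibniz,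
      NH.Ind2Aux.pderiv_inr_rename, smul_zero, add_zero, smul_eq_mul, map_pow]
    exact Q.neg_mem (Q.mul_mem_right _ hzkQ)
  have h2 : γ * pderiv (Sum.inr i0 : NH.V2 σ) (GW a b c) ∈ Q := by
    have h3 := Q.sub_mem hD h1
    rw [add_sub_cancel_right] at h3
    have h4 := Q.sub_mem h3 (Q.mul_mem_right (pderiv (Sum.inr i0 : NH.V2 σ) γ) hGQ)
    rwa [add_sub_cancel_right] at h4
  refine ((inferInstance : Q.IsPrime).mem_or_mem h2).resolve_right fun h3 => hi0 ?_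
  rw [hQ] at h3
  have h4 : NH.CHART2_pi θ w (pderiv (Sum.inr i0 : NH.V2 σ) (GW a b c)) =
      ∑ j, θ (a i0 j + a j i0) * w j + θ (b i0) := by
    have hX : ∀ i : σ, pderiv (Sum.inr i0 : NH.V2 σ) (X (Sum.inr i) : MvPolynomial (NH.V2 σ) ℤ) =
        if i = i0 then 1 else 0 := by
      intro i
      rw [pderiv_X]
      by_cases hi : i = i0
      · subst hi
        rw [if_pos rfl, Pi.single_eq_same]
      · rw [if_neg hi, Pi.single_eq_of_ne]
        intro hcon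
        exact hi (Sum.inr_injective hcon)
    have e1 : ∀ i j : σ, NH.CHART2_pi θ w (pderiv (Sum.inr i0 : NH.V2 σ)
        (rename Sum.inl (a i j) * X (Sum.inr i) * X (Sum.inr j))) =
        (if j = i0 then θ (a i j) * w i else 0) + (if i = i0 then θ (a i j) * w j else 0) := by
      intro i j
      rw [Derivation.leibniz, Derivation.leibniz, NH.Ind2Aux.pderiv_inr_rename, hX, hX]
      simp only [smul_eq_mul, mul_zero, add_zero, map_add, map_mul, hil, hir]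
      split_ifs <;> simp [mul_comm]
    have e2 : ∀ i : σ, NH.CHART2_pi θ w (pderiv (Sum.inr i0 : NH.V2 σ)
        (rename Sum.inl (b i) * X (Sum.inr i))) = if i = i0 then θ (b i) else 0 := by
      intro i
      rw [Derivation.leibniz, NH.Ind2Aux.pderiv_inr_rename, hX]
      simp only [smul_eq_mul, mul_zero, add_zero, map_mul, hil]
      split_ifs <;> simp
    unfold GW
    simp only [map_add, map_sum]
    rw [NH.Ind2Aux.pderiv_inr_rename, map_zero, add_zero]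
    simp only [e1, e2, Finset.sum_add_distrib, Finset.sum_ite_eq', Finset.mem_univ, if_true]
    congr 1
    rw [Finset.sum_comm]
    simp only [Finset.sum_ite_eq', Finset.mem_univ, if_true, add_mul, Finset.sum_add_distrib]
    rw [add_comm]
  rw [← h4]
  exact h3

/-- A point of level `k ≥ 1` with `c = c0 z`, `c0 ∉ M`. Proof: `hγ` of `regular_w`: `W_i ∈ Q`, `il (b i) ∈ Q`, `il z ∈ Q`, so
`GW ≡ il c0 il z` and `il z ^ k W_i ≡ 0` modulo `Q ^ 2`: `(γ il c0) il z + ∑ δ_i il (η i) ∈ Q ^ 2`; `cot_indep` gives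
`γ il c0 ∈ Q`, and `il c0 ∉ Q` because `θ c0` is a unit of `O` (`c0 ∉ M`, `M` maximal). -/
theorem regular_s {f : MvPolynomial σ ℤ} {θ : MvPolynomial σ ℤ →+* K}
    (hker : RingHom.ker θ = Ideal.span {f}) {M : Ideal (MvPolynomial σ ℤ)} [M.IsMaximal] {p : ℕ}
    (hp : p.Prime) (hpM : (C (p : ℤ) : MvPolynomial σ ℤ) ∈ M) {z : MvPolynomial σ ℤ}
    {η : σ → MvPolynomial σ ℤ} (hpar : Par M z η) (hz0 : θ z ≠ 0) {k : ℕ} (hk : 1 ≤ k)
    {s : MvPolynomial σ ℤ} {a : σ → σ → MvPolynomial σ ℤ} {b : σ → MvPolynomial σ ℤ}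
    {c0 : MvPolynomial σ ℤ} (hs : s ∉ M) (hc0 : c0 ∉ M) (hb : ∀ i, b i ∈ M)
    (hsf : s * f = ∑ i, ∑ j, a i j * η i * η j + z ^ k * ∑ i, b i * η i +
      z ^ (2 * k) * (c0 * z))
    {O : Subring K} [IsLocalRing O] (hpoly : ∀ h, θ h ∈ O) (hM : ∀ h ∈ M, θ h ∈ mx O)
    {w : σ → K} (hw : ∀ i, w i ∈ mx O) (hwz : ∀ i, θ (η i) = θ z ^ k * w i)
    (hfr : ∀ x ∈ O, ∃ u v : MvPolynomial (NH.V2 σ) ℤ, NH.CHART2_pi θ w v ≠ 0 ∧
      (NH.CHART2_pi θ w v)⁻¹ ∈ O ∧ x * NH.CHART2_pi θ w v = NH.CHART2_pi θ w u) :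
    IsRegularLocalRing O := by
  refine regular_w hker hp hpM hpar hz0 hk hs hsf hpoly hM (fun i => (hw i).1) hwz hfr ?_
  intro Q _ hQ γ δ h
  have hil : ∀ h, NH.CHART2_pi θ w (rename Sum.inl h) = θ h := NH.CHART2_pi_il θ w
  have hir : ∀ i, NH.CHART2_pi θ w (X (Sum.inr i)) = w i := NH.CHART2_pi_ir θ w
  have hMQ : ∀ m ∈ M, (rename Sum.inl m : MvPolynomial (NH.V2 σ) ℤ) ∈ Q := by
    intro m hm
    rw [hQ, hil]
    exact hM m hm
  have hzQ := hMQ z hpar.1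
  have hzkQ : (rename Sum.inl z : MvPolynomial (NH.V2 σ) ℤ) ^ k ∈ Q :=
    Q.pow_mem_of_mem hzQ k (by omega)
  have hWQ : ∀ i, (X (Sum.inr i) : MvPolynomial (NH.V2 σ) ℤ) ∈ Q := by
    intro i
    rw [hQ, hir]
    exact hw i
  have hsq : ∀ {x y : MvPolynomial (NH.V2 σ) ℤ}, x ∈ Q → y ∈ Q → x * y ∈ Q ^ 2 := by
    intro x y hx hy
    rw [pow_two]
    exact Ideal.mul_mem_mul hx hy
  have h1 : ∑ i, ∑ j, rename Sum.inl (a i j) * X (Sum.inr i) * X (Sum.inr j) +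
      ∑ i, rename Sum.inl (b i) * X (Sum.inr i) ∈ Q ^ 2 := by
    refine Ideal.add_mem _ (Ideal.sum_mem _ fun i _ => Ideal.sum_mem _ fun j _ => ?_)
      (Ideal.sum_mem _ fun i _ => hsq (hMQ _ (hb i)) (hWQ i))
    rw [mul_assoc]
    exact Ideal.mul_mem_left _ _ (hsq (hWQ i) (hWQ j))
  have h2 : ∑ i, δ i * (rename Sum.inl z ^ k * X (Sum.inr i)) ∈ Q ^ 2 :=
    Ideal.sum_mem _ fun i _ => Ideal.mul_mem_left _ _ (hsq hzkQ (hWQ i))
  have h3 : γ * rename Sum.inl c0 * rename Sum.inl z + ∑ i, δ i * rename Sum.inl (η i) ∈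
      Q ^ 2 := by
    have e1 : γ * rename Sum.inl c0 * rename Sum.inl z + ∑ i, δ i * rename Sum.inl (η i) =
        (γ * GW a b (c0 * z) + ∑ i, δ i * (rename Sum.inl (η i) -
          rename Sum.inl z ^ k * X (Sum.inr i))) -
        γ * (∑ i, ∑ j, rename Sum.inl (a i j) * X (Sum.inr i) * X (Sum.inr j) +
          ∑ i, rename Sum.inl (b i) * X (Sum.inr i)) +
        ∑ i, δ i * (rename Sum.inl z ^ k * X (Sum.inr i)) := by
      unfold GW
      simp only [map_mul, mul_sub, Finset.sum_sub_distrib]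
      ring
    rw [e1]
    exact Ideal.add_mem _ (Ideal.sub_mem _ h (Ideal.mul_mem_left _ _ h1)) h2
  have h4 := (cot_indep hp hpM hpar (ι := (Sum.inl : σ → NH.V2 σ)) Sum.inl_injective Q hMQ h3).1
  refine ((inferInstance : Q.IsPrime).mem_or_mem h4).resolve_right fun h5 => ?_
  rw [hQ, hil] at h5
  obtain ⟨y, i, hi, hyi⟩ := (inferInstance : M.IsMaximal).exists_inv hc0
  have h6 := congrArg θ hyi
  rw [map_add, map_mul, map_one] at h6
  have h7 := mx_add (mx_mul (hpoly y) h5) (hM i hi)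
  rw [h6] at h7
  exact one_notMem_mx h7

end Pool.Agent.NT9
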