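import Pool.Agent.NT9.GeStA
import Pool.Agent.NT9.GeWB
import Pool.Agent.NT9.GeNakC

set_option autoImplicit false

/-! # FORM: the alternative at a point of level `J ≥ 1` -/

namespace Pool.Agent.NT9

open MvPolynomial

variable {σ : Type} [Fintype σ] {K : Type} [Field K]

/-- Fractions with numerator and denominator in the image of the polynomial ring `ℤ[x, W]`.
Proof: every element of the closure is `CHART2_pi θ w t` for some `t` (induction; `CHART2_pi_il`, `CHART2_pi_ir`). -/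
theorem fr_w {θ : MvPolynomial σ ℤ →+* K} {w : σ → K} {O : Subring K}
    (h : IsFr (Subring.closure (Set.range θ ∪ Set.range w)) O) :
    ∀ x ∈ O, ∃ u v : MvPolynomial (NH.V2 σ) ℤ, NH.CHART2_pi θ w v ≠ 0 ∧
      (NH.CHART2_pi θ w v)⁻¹ ∈ O ∧ x * NH.CHART2_pi θ w v = NH.CHART2_pi θ w u := by
  have hle : Subring.closure (Set.range θ ∪ Set.range w) ≤ (NH.CHART2_pi θ w).range := by
    rw [Subring.closure_le]
    rintro x (⟨h, rfl⟩ | ⟨i, rfl⟩)
    · exact ⟨rename Sum.inl h, NH.CHART2_pi_il θ w h⟩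
    · exact ⟨X (Sum.inr i), NH.CHART2_pi_ir θ w i⟩
  intro x hx
  obtain ⟨u, hu, v, hv, hv0, hvO, hxv⟩ := h.2 x hx
  obtain ⟨u', hu'⟩ := hle hu
  obtain ⟨v', hv'⟩ := hle hv
  refine ⟨u', v', ?_, ?_, ?_⟩
  · rw [hv']; exact hv0
  · rw [hv']; exact hvO
  · rw [hv', hu']; exact hxv

/-- A point of level `J ≥ 1` is regular or can be blown up further. Proof: `sform_cases`; in the second case `regular_s` with `k = J`, `w i = θ (η i) / θ z ^ J`,
`fr_w`. -/
theorem bform_of_sform {f : MvPolynomial σ ℤ} {θ : MvPolynomial σ ℤ →+* K}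
    (hker : RingHom.ker θ = Ideal.span {f}) {M : Ideal (MvPolynomial σ ℤ)} [M.IsMaximal] {p : ℕ}
    (hp : p.Prime) (hpM : (C (p : ℤ) : MvPolynomial σ ℤ) ∈ M) {z : MvPolynomial σ ℤ}
    {η : σ → MvPolynomial σ ℤ} {J : ℕ} (hJ : 1 ≤ J) {O : Subring K} [IsLocalRing O]
    (hS : Stage θ M z η J O) (h : SForm f M z η J) (hnr : ¬ IsRegularLocalRing O) :
    BForm f M z η J := by
  rcases sform_cases hS.par hJ h with h1 | ⟨s, a, b, c0, hs, hc0, hb, hsf⟩
  · exact h1
  · exfalso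
    apply hnr
    have hz : θ z ^ J ≠ 0 := pow_ne_zero _ hS.zne
    exact regular_s hker hp hpM hS.par hS.zne hJ hs hc0 hb hsf hS.poly hS.memM
      (w := fun i => θ (η i) / θ z ^ J) hS.memY
      (fun i => by rw [mul_div_cancel₀ _ hz]) (fr_w hS.fr)

end Pool.Agent.NT9
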