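import Pool.Agent.NT9.GeCotA
import Pool.Agent.NT9.GeNakA
import Pool.Agent.NT9.GeSub

set_option autoImplicit false

/-! # STA: the local rings of the tower: generators, residue field -/

namespace Pool.Agent.NT9

open MvPolynomial

variable {σ : Type} [Fintype σ] {K : Type} [Field K]

/-- The generators of the maximal ideal: `z` and the `y_i = η_i / z ^ J`. -/
noncomputable def gens (θ : MvPolynomial σ ℤ →+* K) (z : MvPolynomial σ ℤ)
    (η : σ → MvPolynomial σ ℤ) (J : ℕ) : Option σ → K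
  | none => θ z
  | some i => θ (η i) / θ z ^ J

/-- Elements outside `M` give units. -/
theorem unit_of_notMem {θ : MvPolynomial σ ℤ →+* K} {M : Ideal (MvPolynomial σ ℤ)}
    [M.IsMaximal] {O : Subring K} [IsLocalRing O] (hpoly : ∀ h, θ h ∈ O)
    (hM : ∀ h ∈ M, θ h ∈ mx O) (h : MvPolynomial σ ℤ) : θ h ∈ mx O ↔ h ∈ M := by
  have hM' : M.IsMaximal := inferInstance
  have h1 : M ≤ pre O θ hpoly := fun x hx => (mem_pre θ hpoly x).2 (hM x hx)
  have h2 : M = pre O θ hpoly := hM'.eq_of_le (pre_isPrime θ hpoly).ne_top h1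
  rw [← mem_pre θ hpoly h, ← h2]

/-- An element of `ℤ[x][y]` is `θ h + ∑ c i y i` with `c i` in the same ring. Proof: induction on the closure. -/
theorem closure_split (θ : MvPolynomial σ ℤ →+* K) (y : σ → K) {x : K}
    (hx : x ∈ Subring.closure (Set.range θ ∪ Set.range y)) :
    ∃ (h : MvPolynomial σ ℤ) (c : σ → K),
      (∀ i, c i ∈ Subring.closure (Set.range θ ∪ Set.range y)) ∧ x = θ h + ∑ i, c i * y i := by
  classical
  have hθ : ∀ h, θ h ∈ Subring.closure (Set.range θ ∪ Set.range y) := fun h =>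
    Subring.subset_closure (Or.inl ⟨h, rfl⟩)
  refine Subring.closure_induction
    (p := fun x _ => ∃ (h : MvPolynomial σ ℤ) (c : σ → K),
      (∀ i, c i ∈ Subring.closure (Set.range θ ∪ Set.range y)) ∧ x = θ h + ∑ i, c i * y i)
    ?_ ?_ ?_ ?_ ?_ ?_ hx
  · rintro x (⟨h, rfl⟩ | ⟨j, rfl⟩)
    · refine ⟨h, fun _ => 0, fun _ => Subring.zero_mem _, ?_⟩
      simp
    · refine ⟨0, fun i => if i = j then 1 else 0, fun i => ?_, ?_⟩
      · by_cases hi : i = j
        · simp only [hi, if_true]; exact Subring.one_mem _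
        · simp only [hi, if_false]; exact Subring.zero_mem _
      · simp
  · exact ⟨0, fun _ => 0, fun _ => Subring.zero_mem _, by simp⟩
  · exact ⟨1, fun _ => 0, fun _ => Subring.zero_mem _, by simp⟩
  · rintro a b - - ⟨h, c, hc, rfl⟩ ⟨h', c', hc', rfl⟩
    refine ⟨h + h', fun i => c i + c' i, fun i => Subring.add_mem _ (hc i) (hc' i), ?_⟩
    rw [map_add]
    simp only [add_mul, Finset.sum_add_distrib]
    ring
  · rintro a - ⟨h, c, hc, rfl⟩
    refine ⟨-h, fun i => -c i, fun i => Subring.neg_mem _ (hc i), ?_⟩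
    rw [map_neg]
    simp only [neg_mul, Finset.sum_neg_distrib]
    ring
  · rintro a b - hb ⟨h, c, hc, rfl⟩ ⟨h', c', hc', hb'⟩
    refine ⟨h * h', fun i => θ h * c' i + c i * b, fun i => Subring.add_mem _
      (Subring.mul_mem _ (hθ h) (hc' i)) (Subring.mul_mem _ (hc i) hb), ?_⟩
    have h1 : ∑ i, (θ h * c' i + c i * b) * y i
        = θ h * (∑ i, c' i * y i) + (∑ i, c i * y i) * b := by
      rw [Finset.mul_sum, Finset.sum_mul, ← Finset.sum_add_distrib]
      refine Finset.sum_congr rfl fun i _ => ?_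
      ring
    rw [h1, map_mul]
    nth_rewrite 1 [hb']
    rw [hb']
    ring

private theorem Stage.clo {θ : MvPolynomial σ ℤ →+* K} {M : Ideal (MvPolynomial σ ℤ)}
    {z : MvPolynomial σ ℤ} {η : σ → MvPolynomial σ ℤ} {J : ℕ} {O : Subring K} [IsLocalRing O]
    (h : Stage θ M z η J O) {x : K}
    (hx : x ∈ Subring.closure (Set.range θ ∪ Set.range fun i => θ (η i) / θ z ^ J)) :
    ∃ (g : MvPolynomial σ ℤ) (c : σ → K), (∀ i, c i ∈ O) ∧
      x = θ g + ∑ i, c i * (θ (η i) / θ z ^ J) ∧ ∑ i, c i * (θ (η i) / θ z ^ J) ∈ mx O := by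
  obtain ⟨g, c, hc, h1⟩ := closure_split θ _ hx
  have hcO : ∀ i, c i ∈ O := fun i => h.fr.1 (hc i)
  exact ⟨g, c, hcO, h1, mx_sum _ _ fun i _ => mx_mul (hcO i) (h.memY i)⟩

private theorem st_alg (v u g t c0 z S1 S2 : K) (x : K) (hv : v ≠ 0) (ht : t ≠ 0)
    (h1 : x * v = u) (h2 : u = g + S2) (h3 : t * g = c0 * z + S1) :
    x = v⁻¹ * t⁻¹ * c0 * z + (v⁻¹ * t⁻¹ * S1 + v⁻¹ * S2) := by
  have h4 : g = t⁻¹ * (c0 * z + S1) := by
    rw [← h3, ← mul_assoc, inv_mul_cancel₀ ht, one_mul]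
  have h5 : x = v⁻¹ * u := by
    rw [← h1, mul_comm x v, ← mul_assoc, inv_mul_cancel₀ hv, one_mul]
  rw [h5, h2, h4]
  ring

/-- The maximal ideal is generated by `gens`. Proof. `x v = u`, `u, v` in the closure, `v⁻¹ ∈ O`; `u ∈ mx O`, `u = θ h + ∑ c i y i` (`closure_split`), so
`θ h ∈ mx O`, `h ∈ M` (`unit_of_notMem`); `t h = c0 z + ∑ c' i η i`, `t ∉ M` (`Par.gen`), `θ t` is a unit, `θ (η i) = θ z ^ J y i`. -/
theorem Stage.gen {θ : MvPolynomial σ ℤ →+* K} {M : Ideal (MvPolynomial σ ℤ)} [M.IsMaximal]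
    {z : MvPolynomial σ ℤ} {η : σ → MvPolynomial σ ℤ} {J : ℕ} {O : Subring K} [IsLocalRing O]
    (h : Stage θ M z η J O) : ∀ x ∈ mx O, ∃ c : Option σ → K, (∀ i, c i ∈ O) ∧
      x = ∑ i, c i * gens θ z η J i := by
  intro x hx
  obtain ⟨u, hu, v, hv, hv0, hvO, hxv⟩ := h.fr.2 x hx.1
  have huM : u ∈ mx O := by
    rw [← hxv]
    exact mx_mul_right hx (h.fr.1 hv)
  obtain ⟨g, c, hc, hug, hsum⟩ := h.clo hu
  have hg : θ g ∈ mx O := by
    have h1 : θ g = u - ∑ i, c i * (θ (η i) / θ z ^ J) := by rw [hug]; ring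
    rw [h1]
    exact mx_sub huM hsum
  have hgM : g ∈ M := (unit_of_notMem h.poly h.memM g).1 hg
  obtain ⟨t, ht, hgen⟩ := h.par.gen
  obtain ⟨c0, c', hc'⟩ := hgen g hgM
  have htn : θ t ∉ mx O := fun hh => ht ((unit_of_notMem h.poly h.memM t).1 hh)
  obtain ⟨ht0, htO⟩ := (notMem_mx_iff (h.poly t)).1 htn
  have hzJ : θ z ^ J ≠ 0 := pow_ne_zero _ h.zne
  have h3 : θ t * θ g = θ c0 * θ z + ∑ i, θ (c' i) * θ (η i) := by
    rw [← map_mul, hc', map_add, map_mul, map_sum]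
    simp only [map_mul]
  have key := st_alg v u (θ g) (θ t) (θ c0) (θ z) _ _ x hv0 ht0 hxv hug h3
  refine ⟨fun o => match o with
    | none => v⁻¹ * (θ t)⁻¹ * θ c0
    | some i => v⁻¹ * (θ t)⁻¹ * (θ (c' i) * θ z ^ J) + v⁻¹ * c i, ?_, ?_⟩
  · intro o
    cases o with
    | none => exact O.mul_mem (O.mul_mem hvO htO) (h.poly c0)
    | some i =>
      exact O.add_mem (O.mul_mem (O.mul_mem hvO htO) (O.mul_mem (h.poly _)
        (O.pow_mem (h.poly z) J))) (O.mul_mem hvO (hc i))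
  · rw [Fintype.sum_option]
    change x = v⁻¹ * (θ t)⁻¹ * θ c0 * θ z + ∑ i, (v⁻¹ * (θ t)⁻¹ * (θ (c' i) * θ z ^ J) + v⁻¹ * c i)
      * (θ (η i) / θ z ^ J)
    rw [key, Finset.mul_sum, Finset.mul_sum, ← Finset.sum_add_distrib]
    congr 1
    refine Finset.sum_congr rfl fun i _ => ?_
    have h5 : θ (η i) = θ z ^ J * (θ (η i) / θ z ^ J) := by
      rw [mul_div_cancel₀ _ hzJ]
    rw [add_mul]
    congr 1
    · nth_rewrite 1 [h5]
      ring
    · ring

/-- The residue field is finite. Proof: `P / M` is finite (`finite_quot`); every `x ∈ O` is congruent to some `θ h`: `x v = u`, `u ≡ θ h1`, `v ≡ θ h2`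
(`closure_split`), `h2 ∉ M`, `h2 h3 ≡ 1` modulo `M`, `x ≡ θ (h1 h3)`. -/
theorem Stage.finRes {θ : MvPolynomial σ ℤ →+* K} {M : Ideal (MvPolynomial σ ℤ)} [M.IsMaximal]
    {p : ℕ} (hp : p.Prime) (hpM : (C (p : ℤ) : MvPolynomial σ ℤ) ∈ M)
    {z : MvPolynomial σ ℤ} {η : σ → MvPolynomial σ ℤ} {J : ℕ} {O : Subring K} [IsLocalRing O]
    (h : Stage θ M z η J O) : FinRes O := by
  classical
  have hM' : M.IsMaximal := inferInstance
  haveI : Finite (MvPolynomial σ ℤ ⧸ M) := finite_quot hp hpM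
  haveI : Fintype (MvPolynomial σ ℤ ⧸ M) := Fintype.ofFinite _
  refine ⟨(Finset.univ : Finset (MvPolynomial σ ℤ ⧸ M)).image fun q => θ (Quotient.out q), ?_⟩
  intro x hx
  obtain ⟨u, hu, v, hv, hv0, hvO, hxv⟩ := h.fr.2 x hx
  obtain ⟨g1, c1, hc1, hug, hs1⟩ := h.clo hu
  obtain ⟨g2, c2, hc2, hvg, hs2⟩ := h.clo hv
  have hvO' : v ∈ O := h.fr.1 hv
  have hvn : v ∉ mx O := (notMem_mx_iff hvO').2 ⟨hv0, hvO⟩
  have hg2 : g2 ∉ M := by
    intro hh
    apply hvn
    rw [hvg]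
    exact mx_add (h.memM _ hh) hs2
  obtain ⟨g3, m, hm, hg3⟩ := hM'.exists_inv hg2
  set S1 := ∑ i, c1 i * (θ (η i) / θ z ^ J) with hS1
  set S2 := ∑ i, c2 i * (θ (η i) / θ z ^ J) with hS2
  have hk : x - θ (g1 * g3) ∈ mx O := by
    have h1 : (x - θ (g1 * g3)) * v ∈ mx O := by
      have h2 : (x - θ (g1 * g3)) * v = θ (g1 * m) + (S1 - θ (g1 * g3) * S2) := by
        have h3 : θ g3 * θ g2 + θ m = 1 := by rw [← map_mul, ← map_add, hg3, map_one]
        rw [sub_mul, hxv, hug]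
        nth_rewrite 1 [hvg]
        rw [map_mul, map_mul]
        linear_combination (-θ g1) * h3
      rw [h2]
      refine mx_add (h.memM _ (M.mul_mem_left _ hm)) (mx_sub hs1 (mx_mul (h.poly _) hs2))
    rcases mx_prime (O.sub_mem hx (h.poly _)) hvO' h1 with h2 | h2
    · exact h2
    · exact absurd h2 hvn
  refine ⟨θ (Quotient.out (Ideal.Quotient.mk M (g1 * g3))), ?_, h.poly _, ?_⟩
  · exact Finset.mem_image.2 ⟨_, Finset.mem_univ _, rfl⟩
  · have h1 : g1 * g3 - Quotient.out (Ideal.Quotient.mk M (g1 * g3)) ∈ M := by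
      rw [← Ideal.Quotient.eq]
      exact (Ideal.Quotient.mk_out (Ideal.Quotient.mk M (g1 * g3))).symm
    have h2 := mx_add hk (h.memM _ h1)
    rw [map_sub] at h2
    have h3 : x - θ (Quotient.out (Ideal.Quotient.mk M (g1 * g3))) =
      x - θ (g1 * g3) + (θ (g1 * g3) - θ (Quotient.out (Ideal.Quotient.mk M (g1 * g3)))) := by ring
    rw [h3]
    exact h2

end Pool.Agent.NT9
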