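import Pool.Agent.NT9.GeFrB
import Pool.Agent.NT9.GeStA

set_option autoImplicit false

/-! # STB: the next stage, uniqueness -/

namespace Pool.Agent.NT9

open MvPolynomial

variable {σ : Type} [Fintype σ] {K : Type} [Field K]

/-- The next stage in the chart `z`: `w i = η i / z ^ (J + 1)`, `w i ≡ ε i`. Proof. `Par.change`. `y' i = w i - θ (ε i)`. The closure `A'` of `θ P` and the `y' i` is
contained in `O'`. Let `F = frSub A'.subtype O'` (closed under the inverses in `O'`: `frSub_inv`). `O ≤ F` by `le_of_fr` and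
`y i = θ z w i = θ z (y' i + θ (ε i)) ∈ A'`; `gens i / gens none ∈ F`; so `O' ≤ F` by `Ch`. -/
theorem stage_next {θ : MvPolynomial σ ℤ →+* K} {M : Ideal (MvPolynomial σ ℤ)} [M.IsMaximal]
    {z : MvPolynomial σ ℤ} {η : σ → MvPolynomial σ ℤ} {J : ℕ} {O O' : Subring K} [IsLocalRing O]
    [IsLocalRing O'] (h : Stage θ M z η J O) (hch : Ch O O' (gens θ z η J) none)
    (ε : σ → MvPolynomial σ ℤ) (hε : ∀ i, θ (η i) / θ z ^ (J + 1) - θ (ε i) ∈ mx O') :
    Stage θ M z (fun i => η i - ε i * z ^ (J + 1)) (J + 1) O' := by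
  obtain ⟨hgn, hle, hdom, hq, hmin⟩ := hch
  have hz := h.zne
  have hzJ : θ z ^ J ≠ 0 := pow_ne_zero _ hz
  have hzJ1 : θ z ^ (J + 1) ≠ 0 := pow_ne_zero _ hz
  have hy : ∀ i, θ (η i - ε i * z ^ (J + 1)) / θ z ^ (J + 1) =
      θ (η i) / θ z ^ (J + 1) - θ (ε i) := by
    intro i
    rw [map_sub, map_mul, map_pow, sub_div, mul_div_assoc, div_self hzJ1, mul_one]
  have hpoly : ∀ x, θ x ∈ O' := fun x => hle (h.poly x)
  have hmemY : ∀ i, θ (η i - ε i * z ^ (J + 1)) / θ z ^ (J + 1) ∈ mx O' := by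
    intro i
    rw [hy i]
    exact hε i
  refine ⟨h.par.change (Nat.le_add_left 1 J) ε, hz, hpoly, fun m hm => hdom _ (h.memM m hm),
    hmemY, ?_, ?_⟩
  · rw [Subring.closure_le]
    rintro x (⟨t, rfl⟩ | ⟨i, rfl⟩)
    · exact hpoly t
    · exact (hmemY i).1
  · set A' : Subring K := Subring.closure (Set.range θ ∪
      Set.range fun i => θ (η i - ε i * z ^ (J + 1)) / θ z ^ (J + 1)) with hA'
    have hθA : ∀ t, θ t ∈ A' := fun t => Subring.subset_closure (Or.inl ⟨t, rfl⟩)
    have hyA : ∀ i, θ (η i) / θ z ^ (J + 1) ∈ A' := by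
      intro i
      have h1 : θ (η i - ε i * z ^ (J + 1)) / θ z ^ (J + 1) ∈ A' :=
        Subring.subset_closure (Or.inr ⟨i, rfl⟩)
      rw [hy i] at h1
      have h2 := A'.add_mem h1 (hθA (ε i))
      rwa [sub_add_cancel] at h2
    have hAF : ∀ x ∈ A', x ∈ frSub A'.subtype O' := fun x hx =>
      map_mem_frSub A'.subtype O' ⟨x, hx⟩
    have hinv : ∀ x ∈ frSub A'.subtype O', x⁻¹ ∈ O' → x⁻¹ ∈ frSub A'.subtype O' :=
      fun x hx hxO => frSub_inv _ _ x hx hxO
    have hOF : O ≤ frSub A'.subtype O' := by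
      refine le_of_fr h.fr ?_ (fun x hx hxO => hinv x hx (hle hxO))
      rw [Subring.closure_le]
      rintro x (⟨t, rfl⟩ | ⟨i, rfl⟩)
      · exact hAF _ (hθA t)
      · have h1 : θ (η i) / θ z ^ J = θ z * (θ (η i) / θ z ^ (J + 1)) := by
          rw [pow_succ]
          field_simp
        change θ (η i) / θ z ^ J ∈ frSub A'.subtype O'
        rw [h1]
        exact hAF _ (A'.mul_mem (hθA z) (hyA i))
    have hO'F : O' ≤ frSub A'.subtype O' := by
      refine hmin _ hOF ?_ hinv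
      rintro (_ | i)
      · change θ z / θ z ∈ _
        rw [div_self hz]
        exact (frSub A'.subtype O').one_mem
      · change θ (η i) / θ z ^ J / θ z ∈ _
        rw [div_div, ← pow_succ]
        exact hAF _ (hyA i)
    intro x hx
    obtain ⟨u, v, h1, h2, h3⟩ := hO'F hx
    exact ⟨u, u.2, v, v.2, h1, h2, h3⟩

/-- Uniqueness of the local ring of a stage. Proof: `eq_of_fr` with `A` = the closure of `θ P` and the `y i`, the same for both (`y i - y' i = θ (m i)`); for
`x = θ h + ∑ c i y i ∈ A` (`closure_split`) `x ∈ mx O` iff `h ∈ M`, for both rings. -/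
theorem stage_unique {θ : MvPolynomial σ ℤ →+* K} {M : Ideal (MvPolynomial σ ℤ)} [M.IsMaximal]
    {z : MvPolynomial σ ℤ} {η η' : σ → MvPolynomial σ ℤ} {J : ℕ} {O O' : Subring K}
    [IsLocalRing O] [IsLocalRing O'] (h : Stage θ M z η J O) (h' : Stage θ M z η' J O')
    (hm : ∀ i, ∃ m ∈ M, η i - η' i = m * z ^ J) : O = O' := by
  have hz := h.zne
  have hzJ : θ z ^ J ≠ 0 := pow_ne_zero _ hz
  choose m hmM hm using hm
  have hy : ∀ i, θ (η i) / θ z ^ J = θ (η' i) / θ z ^ J + θ (m i) := by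
    intro i
    have h1 : η i = η' i + m i * z ^ J := by
      rw [← hm i]
      ring
    rw [h1, map_add, map_mul, map_pow, add_div, mul_div_assoc, div_self hzJ, mul_one]
  have hAA : Subring.closure (Set.range θ ∪ Set.range fun i => θ (η i) / θ z ^ J) =
      Subring.closure (Set.range θ ∪ Set.range fun i => θ (η' i) / θ z ^ J) := by
    apply le_antisymm
    · rw [Subring.closure_le]
      rintro x (⟨t, rfl⟩ | ⟨i, rfl⟩)
      · exact Subring.subset_closure (Or.inl ⟨t, rfl⟩)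
      · change θ (η i) / θ z ^ J ∈ _
        rw [hy i]
        exact Subring.add_mem _ (Subring.subset_closure (Or.inr ⟨i, rfl⟩))
          (Subring.subset_closure (Or.inl ⟨m i, rfl⟩))
    · rw [Subring.closure_le]
      rintro x (⟨t, rfl⟩ | ⟨i, rfl⟩)
      · exact Subring.subset_closure (Or.inl ⟨t, rfl⟩)
      · have h1 : θ (η' i) / θ z ^ J = θ (η i) / θ z ^ J - θ (m i) := by
          rw [hy i]
          ring
        change θ (η' i) / θ z ^ J ∈ _
        rw [h1]
        exact Subring.sub_mem _ (Subring.subset_closure (Or.inr ⟨i, rfl⟩))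
          (Subring.subset_closure (Or.inl ⟨m i, rfl⟩))
  have hfr' := h'.fr
  rw [← hAA] at hfr'
  refine eq_of_fr h.fr hfr' ?_
  intro x hx
  obtain ⟨t, c, hc, rfl⟩ := closure_split θ (fun i => θ (η i) / θ z ^ J) hx
  have hs1 : ∑ i, c i * (θ (η i) / θ z ^ J) ∈ mx O :=
    mx_sum _ _ fun i _ => mx_mul (h.fr.1 (hc i)) (h.memY i)
  have hs2 : ∑ i, c i * (θ (η i) / θ z ^ J) ∈ mx O' := by
    refine mx_sum _ _ fun i _ => mx_mul (hfr'.1 (hc i)) ?_
    rw [hy i]
    exact mx_add (h'.memY i) (h'.memM _ (hmM i))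
  have e1 : θ t + ∑ i, c i * (θ (η i) / θ z ^ J) ∈ mx O ↔ t ∈ M := by
    rw [← unit_of_notMem h.poly h.memM]
    constructor
    · intro h1
      have h2 := mx_sub h1 hs1
      rwa [add_sub_cancel_right] at h2
    · intro h1
      exact mx_add h1 hs1
  have e2 : θ t + ∑ i, c i * (θ (η i) / θ z ^ J) ∈ mx O' ↔ t ∈ M := by
    rw [← unit_of_notMem h'.poly h'.memM]
    constructor
    · intro h1
      have h2 := mx_sub h1 hs2
      rwa [add_sub_cancel_right] at h2
    · intro h1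
      exact mx_add h1 hs2
  rw [e1, e2]

end Pool.Agent.NT9
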