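import Pool.Agent.NT9.GeSub
import Pool.Agent.NodHyp.Chart1

set_option autoImplicit false
set_option linter.unusedSectionVars false

/-! # YBA: the chart `y_e`: evaluation and reduction modulo the relations -/

namespace Pool.Agent.NT9

open MvPolynomial

variable {σ : Type} [Fintype σ] [DecidableEq σ] {K : Type} [Field K]

/-- The evaluation of the chart. -/
noncomputable def piY (θ : MvPolynomial σ ℤ →+* K) (Y U : K) (V : σ → K) :
    MvPolynomial (NH.V1 σ) ℤ →+* K :=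
  ((aeval (Sum.elim (fun i => θ (X i)) (Sum.elim ![Y, U] V)) :
    MvPolynomial (NH.V1 σ) ℤ →ₐ[ℤ] K) : MvPolynomial (NH.V1 σ) ℤ →+* K)

theorem piY_il (θ : MvPolynomial σ ℤ →+* K) (Y U : K) (V : σ → K) (h : MvPolynomial σ ℤ) :
    piY θ Y U V (NH.il h) = θ h := by
  have h1 : (piY θ Y U V).comp
      (rename (Sum.inl : σ → NH.V1 σ) :
        MvPolynomial σ ℤ →ₐ[ℤ] MvPolynomial (NH.V1 σ) ℤ).toRingHom = θ := by
    apply MvPolynomial.ringHom_ext
    · intro a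
      simp [piY]
    · intro i
      simp [piY]
  exact RingHom.congr_fun h1 h

theorem piY_Y (θ : MvPolynomial σ ℤ →+* K) (Y U : K) (V : σ → K) :
    piY θ Y U V (NH.tt σ) = Y := by
  simp [piY]

theorem piY_U (θ : MvPolynomial σ ℤ →+* K) (Y U : K) (V : σ → K) :
    piY θ Y U V (NH.ww σ) = U := by
  simp [piY]

theorem piY_V (θ : MvPolynomial σ ℤ →+* K) (Y U : K) (V : σ → K) (i : σ) :
    piY θ Y U V (NH.vv i) = V i := by
  simp [piY]

theorem piY_mem (θ : MvPolynomial σ ℤ →+* K) {Y U : K} {V : σ → K} {O : Subring K}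
    (h1 : ∀ h, θ h ∈ O) (hY : Y ∈ O) (hU : U ∈ O) (hV : ∀ i, V i ∈ O)
    (t : MvPolynomial (NH.V1 σ) ℤ) : piY θ Y U V t ∈ O := by
  induction t using MvPolynomial.induction_on with
  | C a =>
    have h2 : piY θ Y U V (C a) = (a : K) := by simp [piY]
    rw [h2]
    exact intCast_mem O a
  | add p q hp hq => rw [map_add]; exact O.add_mem hp hq
  | mul_X p x hp =>
    rw [map_mul]
    refine O.mul_mem hp ?_
    rcases x with i | e | i
    · have h2 : piY θ Y U V (X (Sum.inl i)) = θ (X i) := by simp [piY]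
      rw [h2]; exact h1 _
    · fin_cases e
      · show piY θ Y U V (NH.tt σ) ∈ O
        rw [piY_Y]; exact hY
      · show piY θ Y U V (NH.ww σ) ∈ O
        rw [piY_U]; exact hU
    · rw [piY_V]; exact hV i

/-- the relations in a quotient -/
private theorem YbA_rel {z : MvPolynomial σ ℤ} {η : σ → MvPolynomial σ ℤ} {J : ℕ}
    {a : σ → σ → MvPolynomial σ ℤ} {b : σ → MvPolynomial σ ℤ} {c : MvPolynomial σ ℤ} {e : σ}
    {A : Type} [CommRing A] (φ : MvPolynomial (NH.V1 σ) ℤ →+* A)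
    (hφ : ∀ i, φ (relY z η J a b c e i) = 0) :
    φ (NH.vv e) = 1 ∧ φ (NH.il z) = φ (NH.ww σ) * φ (NH.tt σ) ∧ φ (GY a b c) = 0 ∧
      ∀ i, φ (NH.il (η i)) = (φ (NH.ww σ) * φ (NH.tt σ)) ^ J * φ (NH.tt σ) * φ (NH.vv i) := by
  refine ⟨?_, ?_, ?_, ?_⟩
  · have : φ (NH.vv e - 1) = 0 := hφ (Sum.inl 0)
    rwa [map_sub, map_one, sub_eq_zero] at this
  · have : φ (NH.il z - NH.ww σ * NH.tt σ) = 0 := hφ (Sum.inl 1)
    rwa [map_sub, map_mul, sub_eq_zero] at this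
  · exact hφ (Sum.inl 2)
  · intro i
    have : φ (NH.il (η i) - (NH.ww σ * NH.tt σ) ^ J * NH.tt σ * NH.vv i) = 0 := hφ (Sum.inr i)
    rwa [map_sub, map_mul, map_mul, map_pow, map_mul, sub_eq_zero] at this

private theorem YbA_ilmul (a c : MvPolynomial σ ℤ) : NH.il (a * c) = NH.il a * NH.il c :=
  map_mul _ a c

private theorem YbA_iladd (a c : MvPolynomial σ ℤ) : NH.il (a + c) = NH.il a + NH.il c :=
  map_add _ a c

private theorem YbA_ilpow (a : MvPolynomial σ ℤ) (m : ℕ) : NH.il (a ^ m) = NH.il a ^ m :=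
  map_pow _ a m

private theorem YbA_ilsum {κ : Type} (S : Finset κ) (F : κ → MvPolynomial σ ℤ) :
    NH.il (∑ i ∈ S, F i) = ∑ i ∈ S, NH.il (F i) := map_sum _ F S

private theorem YbA_red {z : MvPolynomial σ ℤ} {η : σ → MvPolynomial σ ℤ} {J : ℕ}
    {a : σ → σ → MvPolynomial σ ℤ} {b : σ → MvPolynomial σ ℤ} {c : MvPolynomial σ ℤ} {e : σ}
    {A : Type} [CommRing A] (φ : MvPolynomial (NH.V1 σ) ℤ →+* A)
    (hφ : ∀ i, φ (relY z η J a b c e i) = 0) (t : MvPolynomial (NH.V1 σ) ℤ) :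
    ∃ (N : ℕ) (h : MvPolynomial σ ℤ), φ (NH.il (z * η e)) ^ N * φ t = φ (NH.il h) := by
  obtain ⟨h0, h1, -, h3⟩ := YbA_rel φ hφ
  have hz : φ (NH.il (z * η e)) =
      (φ (NH.ww σ) * φ (NH.tt σ)) ^ (J + 1) * φ (NH.tt σ) := by
    rw [YbA_ilmul, map_mul, h1, h3, h0, mul_one]
    ring
  induction t using MvPolynomial.induction_on with
  | C a => exact ⟨0, C a, by rw [pow_zero, one_mul, NH.il, rename_C]⟩
  | add x y hx hy =>
    obtain ⟨n, h, hn⟩ := hx
    obtain ⟨m, h', hm⟩ := hy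
    refine ⟨n + m, (z * η e) ^ m * h + (z * η e) ^ n * h', ?_⟩
    rw [YbA_iladd, YbA_ilmul (_ ^ m), YbA_ilmul (_ ^ n), YbA_ilpow _ m, YbA_ilpow _ n,
      map_add φ, map_add φ, map_mul φ (_ ^ m), map_mul φ (_ ^ n), map_pow φ, map_pow φ, ← hn,
      ← hm]
    ring
  | mul_X q x hq =>
    obtain ⟨n, h, hn⟩ := hq
    have key : ∃ (m : ℕ) (h' : MvPolynomial σ ℤ),
        φ (NH.il (z * η e)) ^ m * φ (X x) = φ (NH.il h') := by
      rcases x with i | d | i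
      · exact ⟨0, X i, by rw [pow_zero, one_mul, NH.il, rename_X]⟩
      · fin_cases d
        · refine ⟨J, η e ^ (J + 1), ?_⟩
          show φ (NH.il (z * η e)) ^ J * φ (NH.tt σ) = _
          rw [hz, YbA_ilpow, map_pow, h3, h0, mul_one]
          ring
        · refine ⟨1, z ^ (J + 2), ?_⟩
          show φ (NH.il (z * η e)) ^ 1 * φ (NH.ww σ) = _
          rw [hz, YbA_ilpow, map_pow, h1]
          ring
      · refine ⟨1, z * η i, ?_⟩
        show φ (NH.il (z * η e)) ^ 1 * φ (NH.vv i) = _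
        rw [hz, YbA_ilmul, map_mul, h1, h3]
        ring
    obtain ⟨m, h', hm⟩ := key
    refine ⟨n + m, h * h', ?_⟩
    rw [YbA_ilmul h h', map_mul φ q, map_mul φ (NH.il h), ← hn, ← hm]
    ring

/-- Reduction modulo the relations with the powers of `il (z ^ J * η e) * ...`. With `D = il (z * η e)`: modulo the relations `il z ^ J Y ≡ il (η e)`
(`(U Y)^J Y V_e ≡ il z ^ J Y`, `V_e ≡ 1`), `il (η e) U ≡ il z ^ J Y U ≡ il z ^ (J + 1)`, `il (η e) V_i ≡ il z ^ J Y V_i ≡ il (η i)`. So some power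
`D ^ N t` is congruent to `il h`; induction on `t` (each variable needs at most a factor `D ^ (J + 1)`). -/
theorem y_red {z : MvPolynomial σ ℤ} {η : σ → MvPolynomial σ ℤ} {J : ℕ}
    {a : σ → σ → MvPolynomial σ ℤ} {b : σ → MvPolynomial σ ℤ} {c : MvPolynomial σ ℤ} {e : σ}
    (t : MvPolynomial (NH.V1 σ) ℤ) :
    ∃ (N : ℕ) (h : MvPolynomial σ ℤ), NH.il (z * η e) ^ N * t - NH.il h ∈
      Ideal.span (Set.range (relY z η J a b c e)) := by
  have hφ : ∀ i, Ideal.Quotient.mk (Ideal.span (Set.range (relY z η J a b c e)))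
      (relY z η J a b c e i) = 0 := fun i =>
    Ideal.Quotient.eq_zero_iff_mem.mpr (Ideal.subset_span ⟨i, rfl⟩)
  obtain ⟨N, h, hN⟩ := YbA_red _ hφ t
  refine ⟨N, h, ?_⟩
  rw [← Ideal.Quotient.eq_zero_iff_mem, map_sub, map_mul, map_pow, hN, sub_self]

/-- `il (s f)` is in the ideal of the relations: modulo the relations it is `((U Y)^J Y) ^ 2 * GY` (`il z ≡ U Y`, `il (η i) ≡ (U Y)^J Y V_i`). -/
theorem y_sf {f z s : MvPolynomial σ ℤ} {η : σ → MvPolynomial σ ℤ} {J : ℕ}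
    {a : σ → σ → MvPolynomial σ ℤ} {b : σ → MvPolynomial σ ℤ} {c : MvPolynomial σ ℤ} {e : σ}
    (hsf : s * f = ∑ i, ∑ j, a i j * η i * η j + z ^ (J + 1) * ∑ i, b i * η i +
      z ^ (2 * J + 2) * c) :
    NH.il (s * f) ∈ Ideal.span (Set.range (relY z η J a b c e)) := by
  have hφ : ∀ i, Ideal.Quotient.mk (Ideal.span (Set.range (relY z η J a b c e)))
      (relY z η J a b c e i) = 0 := fun i =>
    Ideal.Quotient.eq_zero_iff_mem.mpr (Ideal.subset_span ⟨i, rfl⟩)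
  rw [← Ideal.Quotient.eq_zero_iff_mem]
  obtain ⟨h0, h1, h2, h3⟩ := YbA_rel _ hφ
  generalize Ideal.Quotient.mk (Ideal.span (Set.range (relY z η J a b c e))) = φ at h0 h1 h2 h3 ⊢
  have h4 : φ (GY a b c) = ∑ i, ∑ j, φ (NH.il (a i j)) * φ (NH.vv i) * φ (NH.vv j) +
      φ (NH.ww σ) * ∑ i, φ (NH.il (b i)) * φ (NH.vv i) + φ (NH.il c) * φ (NH.ww σ) ^ 2 := by
    simp only [GY, map_add, map_sum, map_mul, map_pow]
  rw [h2] at h4
  have h5 : φ (NH.il (s * f)) =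
      ((φ (NH.ww σ) * φ (NH.tt σ)) ^ J * φ (NH.tt σ)) ^ 2 *
        ∑ i, ∑ j, φ (NH.il (a i j)) * φ (NH.vv i) * φ (NH.vv j) +
      (φ (NH.ww σ) * φ (NH.tt σ)) ^ (J + 1) * ((φ (NH.ww σ) * φ (NH.tt σ)) ^ J *
        φ (NH.tt σ) * ∑ i, φ (NH.il (b i)) * φ (NH.vv i)) +
      (φ (NH.ww σ) * φ (NH.tt σ)) ^ (2 * J + 2) * φ (NH.il c) := by
    have hA : φ (NH.il (∑ i, ∑ j, a i j * η i * η j)) =
        ((φ (NH.ww σ) * φ (NH.tt σ)) ^ J * φ (NH.tt σ)) ^ 2 *
          ∑ i, ∑ j, φ (NH.il (a i j)) * φ (NH.vv i) * φ (NH.vv j) := by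
      rw [YbA_ilsum, map_sum, Finset.mul_sum]
      refine Finset.sum_congr rfl fun i _ => ?_
      rw [YbA_ilsum, map_sum, Finset.mul_sum]
      refine Finset.sum_congr rfl fun j _ => ?_
      rw [YbA_ilmul, YbA_ilmul, map_mul, map_mul, h3, h3]
      ring
    have hB : φ (NH.il (∑ i, b i * η i)) = (φ (NH.ww σ) * φ (NH.tt σ)) ^ J * φ (NH.tt σ) *
        ∑ i, φ (NH.il (b i)) * φ (NH.vv i) := by
      rw [YbA_ilsum, map_sum, Finset.mul_sum]
      refine Finset.sum_congr rfl fun i _ => ?_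
      rw [YbA_ilmul, map_mul, h3]
      ring
    rw [hsf, YbA_iladd, YbA_iladd, YbA_ilmul (z ^ (J + 1)), YbA_ilmul (z ^ (2 * J + 2)), YbA_ilpow,
      YbA_ilpow, map_add, map_add, map_mul, map_mul, map_pow, map_pow, h1, hA, hB]
  rw [h5]
  linear_combination (-((φ (NH.ww σ) * φ (NH.tt σ)) ^ J * φ (NH.tt σ)) ^ 2) * h4

end Pool.Agent.NT9
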