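import Pool.Agent.NT9.GeStA
import Pool.Agent.NT9.GeYbA
import Pool.Agent.NodHyp.Chart2

set_option autoImplicit false

/-! # STEPA: fractions in the charts -/

namespace Pool.Agent.NT9

open MvPolynomial

variable {σ : Type} [Fintype σ] {K : Type} [Field K]

/-- Fractions in the chart `z`. Proof: `F = frSub (CHART2_pi θ w) O'` with `w i = θ (η i) / θ z ^ (J + 1)`; `O ≤ F` by `le_of_fr` (`y i = θ z w i`), the
quotients `gens i / gens none` are `1` or `w i`, and `F` is closed under the inverses in `O'`; `Ch`. -/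
theorem fr_of_ch_z {θ : MvPolynomial σ ℤ →+* K} {M : Ideal (MvPolynomial σ ℤ)}
    {z : MvPolynomial σ ℤ} {η : σ → MvPolynomial σ ℤ} {J : ℕ} {O O' : Subring K}
    [IsLocalRing O] [IsLocalRing O'] (hS : Stage θ M z η J O)
    (hch : Ch O O' (gens θ z η J) none) :
    ∀ x ∈ O', ∃ u v : MvPolynomial (NH.V2 σ) ℤ,
      NH.CHART2_pi θ (fun i => θ (η i) / θ z ^ (J + 1)) v ≠ 0 ∧
      (NH.CHART2_pi θ (fun i => θ (η i) / θ z ^ (J + 1)) v)⁻¹ ∈ O' ∧
      x * NH.CHART2_pi θ (fun i => θ (η i) / θ z ^ (J + 1)) v =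
        NH.CHART2_pi θ (fun i => θ (η i) / θ z ^ (J + 1)) u := by
  have hz : θ z ≠ 0 := hS.zne
  obtain ⟨-, hOO', -, -, hmin⟩ := hch
  have hinv : ∀ x ∈ frSub (NH.CHART2_pi θ (fun i => θ (η i) / θ z ^ (J + 1))) O', x⁻¹ ∈ O' →
      x⁻¹ ∈ frSub (NH.CHART2_pi θ (fun i => θ (η i) / θ z ^ (J + 1))) O' :=
    fun x hx hxO => frSub_inv _ _ x hx hxO
  refine hmin (frSub (NH.CHART2_pi θ (fun i => θ (η i) / θ z ^ (J + 1))) O') ?_ ?_ hinv
  · refine le_of_fr hS.fr ?_ fun x hx hxO => hinv x hx (hOO' hxO)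
    rw [Subring.closure_le]
    rintro x (⟨h, rfl⟩ | ⟨i, rfl⟩)
    · have h1 := map_mem_frSub (NH.CHART2_pi θ (fun i => θ (η i) / θ z ^ (J + 1))) O'
        (rename Sum.inl h)
      rwa [NH.CHART2_pi_il] at h1
    · have h1 := map_mem_frSub (NH.CHART2_pi θ (fun i => θ (η i) / θ z ^ (J + 1))) O'
        (rename Sum.inl z * X (Sum.inr i))
      rw [map_mul, NH.CHART2_pi_il, NH.CHART2_pi_ir] at h1
      have h2 : θ z * (θ (η i) / θ z ^ (J + 1)) = θ (η i) / θ z ^ J := by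
        field_simp
        ring
      rwa [h2] at h1
  · rintro (_ | i)
    · show θ z / θ z ∈ _
      rw [div_self hz]
      exact Subring.one_mem _
    · show θ (η i) / θ z ^ J / θ z ∈ _
      have h1 := map_mem_frSub (NH.CHART2_pi θ (fun i => θ (η i) / θ z ^ (J + 1))) O'
        (X (Sum.inr i))
      rw [NH.CHART2_pi_ir] at h1
      have h2 : θ (η i) / θ z ^ J / θ z = θ (η i) / θ z ^ (J + 1) := by
        rw [div_div, pow_succ]
      rwa [h2]

/-- Fractions in the chart `y_e`: `Y = θ (η e) / θ z ^ J`, `U = θ z / Y`, `V i = y i / Y`. The same proof with `piY`. -/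
theorem fr_of_ch_y [DecidableEq σ] {θ : MvPolynomial σ ℤ →+* K}
    {M : Ideal (MvPolynomial σ ℤ)}
    {z : MvPolynomial σ ℤ} {η : σ → MvPolynomial σ ℤ} {J : ℕ} {O O' : Subring K}
    [IsLocalRing O] [IsLocalRing O'] (hS : Stage θ M z η J O) {e : σ}
    (hch : Ch O O' (gens θ z η J) (some e)) {Y U : K} {V : σ → K}
    (hY : Y = θ (η e) / θ z ^ J) (hU : U = θ z / Y) (hV : ∀ i, V i = θ (η i) / θ z ^ J / Y) :
    ∀ x ∈ O', ∃ u v : MvPolynomial (NH.V1 σ) ℤ, piY θ Y U V v ≠ 0 ∧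
      (piY θ Y U V v)⁻¹ ∈ O' ∧ x * piY θ Y U V v = piY θ Y U V u := by
  obtain ⟨hne, hOO', -, -, hmin⟩ := hch
  have hne' : Y ≠ 0 := by
    rw [hY]
    exact hne
  have hg : gens θ z η J (some e) = Y := hY.symm
  have hinv : ∀ x ∈ frSub (piY θ Y U V) O', x⁻¹ ∈ O' → x⁻¹ ∈ frSub (piY θ Y U V) O' :=
    fun x hx hxO => frSub_inv _ _ x hx hxO
  refine hmin (frSub (piY θ Y U V) O') ?_ ?_ hinv
  · refine le_of_fr hS.fr ?_ fun x hx hxO => hinv x hx (hOO' hxO)
    rw [Subring.closure_le]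
    rintro x (⟨h, rfl⟩ | ⟨i, rfl⟩)
    · have h1 := map_mem_frSub (piY θ Y U V) O' (NH.il h)
      rwa [piY_il] at h1
    · have h1 := map_mem_frSub (piY θ Y U V) O' (NH.tt σ * NH.vv i)
      rw [map_mul, piY_Y, piY_V, hV i] at h1
      have h2 : Y * (θ (η i) / θ z ^ J / Y) = θ (η i) / θ z ^ J := mul_div_cancel₀ _ hne'
      rwa [h2] at h1
  · intro i
    rw [hg]
    rcases i with _ | i
    · show θ z / Y ∈ _
      have h1 := map_mem_frSub (piY θ Y U V) O' (NH.ww σ)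
      rw [piY_U] at h1
      rwa [← hU]
    · show θ (η i) / θ z ^ J / Y ∈ _
      have h1 := map_mem_frSub (piY θ Y U V) O' (NH.vv i)
      rwa [piY_V, hV i] at h1

end Pool.Agent.NT9
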