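import Pool.Agent.NT9.GeSing
import Pool.Agent.NT9.GeStepA
import Pool.Agent.NT9.GeWB

set_option autoImplicit false

/-! # STEPB: points of the chart `z` -/

namespace Pool.Agent.NT9

open MvPolynomial

variable {σ : Type} [Fintype σ] {K : Type} [Field K]

/-- A point in the chart `z` is regular or is the point `ε` of the tower. Proof. If some `∑ j, θ (a i j + a j i) w j + θ (b i) ∉ mx O'`: `regular_z` with `k = J + 1`.
Otherwise let `L` be the residue field of `O'` (`res`), `χ = res ∘ θ`, `w̄ i` the class of `w i`: `SingP a b c χ w̄` (the first equation: `π GW = 0` in `K`, multiply by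
`θ z ^ (2 J + 2)`), so `w̄ i = χ (ε i)` by `sing_rat`, `w i - θ (ε i) ∈ mx O'`, and `sing_mem`. -/
theorem point_z {f : MvPolynomial σ ℤ} {θ : MvPolynomial σ ℤ →+* K}
    (hker : RingHom.ker θ = Ideal.span {f}) {M : Ideal (MvPolynomial σ ℤ)} [M.IsMaximal] {p : ℕ}
    (hp : p.Prime) (hpM : (C (p : ℤ) : MvPolynomial σ ℤ) ∈ M) {z : MvPolynomial σ ℤ}
    {η : σ → MvPolynomial σ ℤ} {J : ℕ} {O O' : Subring K} [IsLocalRing O] [IsLocalRing O']
    (hS : Stage θ M z η J O) {s : MvPolynomial σ ℤ} {a : σ → σ → MvPolynomial σ ℤ}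
    {b : σ → MvPolynomial σ ℤ} {c : MvPolynomial σ ℤ} (hs : s ∉ M) (ha : SmF a M)
    (hsf : s * f = ∑ i, ∑ j, a i j * η i * η j + z ^ (J + 1) * ∑ i, b i * η i +
      z ^ (2 * J + 2) * c)
    (hch : Ch O O' (gens θ z η J) none) : IsRegularLocalRing O' ∨
      ∃ ε : σ → MvPolynomial σ ℤ, (∀ i, θ (η i) / θ z ^ (J + 1) - θ (ε i) ∈ mx O') ∧
        (∀ i, ∑ j, (a i j + a j i) * ε j + b i ∈ M) ∧
        ∑ i, ∑ j, a i j * ε i * ε j + ∑ i, b i * ε i + c ∈ M := by
  have hz : θ z ≠ 0 := hS.zne
  have hOO' : O ≤ O' := hch.2.1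
  have hpoly : ∀ h, θ h ∈ O' := fun h => hOO' (hS.poly h)
  have hM : ∀ h ∈ M, θ h ∈ mx O' := fun h hh => hch.2.2.1 _ (hS.memM h hh)
  have hw : ∀ i, θ (η i) / θ z ^ (J + 1) ∈ O' := by
    intro i
    have h1 : θ (η i) / θ z ^ J / θ z ∈ O' := hch.2.2.2.1 (some i)
    rwa [div_div, ← pow_succ] at h1
  have hwz : ∀ i, θ (η i) = θ z ^ (J + 1) * (θ (η i) / θ z ^ (J + 1)) := fun i =>
    (mul_div_cancel₀ _ (pow_ne_zero _ hz)).symm
  have hfr := fr_of_ch_z hS hch
  have hsf' : s * f = ∑ i, ∑ j, a i j * η i * η j + z ^ (J + 1) * ∑ i, b i * η i +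
      z ^ (2 * (J + 1)) * c := by
    rw [hsf, show 2 * (J + 1) = 2 * J + 2 by ring]
  by_cases hcase : ∃ i0, ∑ j, θ (a i0 j + a j i0) * (θ (η j) / θ z ^ (J + 1)) + θ (b i0) ∉ mx O'
  · obtain ⟨i0, hi0⟩ := hcase
    exact Or.inl (regular_z hker hp hpM hS.par hz (Nat.le_add_left 1 J) hs hsf' hpoly hM hw hwz hfr
      i0 hi0)
  · push Not at hcase
    right
    let θ' : MvPolynomial σ ℤ →+* O' := θ.codRestrict O' hpoly
    let χ : MvPolynomial σ ℤ →+* IsLocalRing.ResidueField O' := (res O').comp θ'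
    let w' : σ → O' := fun i => ⟨θ (η i) / θ z ^ (J + 1), hw i⟩
    have hχ : ∀ m ∈ M, χ m = 0 := fun m hm => (res_eq_zero (θ' m)).2 (hM m hm)
    have hf0 : θ f = 0 := by
      have : f ∈ RingHom.ker θ := by
        rw [hker]
        exact Ideal.mem_span_singleton_self f
      exact this
    have hG : ∑ i, ∑ j, θ (a i j) * (θ (η i) / θ z ^ (J + 1)) * (θ (η j) / θ z ^ (J + 1)) +
        ∑ i, θ (b i) * (θ (η i) / θ z ^ (J + 1)) + θ c = 0 := by
      have h1 : θ (s * f) = 0 := by rw [map_mul, hf0, mul_zero]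
      rw [hsf] at h1
      simp only [map_add, map_mul, map_sum, map_pow] at h1
      have h2 : θ z ^ (2 * J + 2) * (∑ i, ∑ j, θ (a i j) * (θ (η i) / θ z ^ (J + 1)) *
          (θ (η j) / θ z ^ (J + 1)) +
          ∑ i, θ (b i) * (θ (η i) / θ z ^ (J + 1)) + θ c) = 0 := by
        rw [← h1, mul_add, mul_add]
        congr 2
        · rw [Finset.mul_sum]
          refine Finset.sum_congr rfl fun i _ => ?_
          rw [Finset.mul_sum]
          refine Finset.sum_congr rfl fun j _ => ?_
          field_simp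
          ring
        · rw [Finset.mul_sum, Finset.mul_sum]
          refine Finset.sum_congr rfl fun i _ => ?_
          field_simp
          ring
      exact (mul_eq_zero.1 h2).resolve_left (pow_ne_zero _ hz)
    have hsing : SingP a b c χ fun i => res O' (w' i) := by
      constructor
      · have h3 : ∑ i, ∑ j, θ' (a i j) * w' i * w' j + ∑ i, θ' (b i) * w' i + θ' c = 0 := by
          apply Subtype.ext
          push_cast
          exact hG
        have h4 := congrArg (res O') h3
        simp only [map_add, map_mul, map_sum, map_zero] at h4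
        exact h4
      · intro i
        have h5 : (∑ j, θ' (a i j + a j i) * w' j + θ' (b i) : O') ∈
            RingHom.ker (res O') := by
          rw [RingHom.mem_ker, res_eq_zero]
          push_cast
          exact hcase i
        rw [RingHom.mem_ker] at h5
        simp only [map_add, map_mul, map_sum] at h5
        simp only [map_add]
        exact h5
    obtain ⟨ε, hε⟩ := sing_rat hp hpM ha hχ hsing
    have hε' : (fun i => res O' (w' i)) = fun i => χ (ε i) := funext hε
    rw [hε'] at hsing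
    obtain ⟨h6, h7⟩ := sing_mem hχ hsing
    refine ⟨ε, fun i => ?_, h6, h7⟩
    have h8 : res O' (w' i - θ' (ε i)) = 0 := by
      rw [map_sub, sub_eq_zero]
      exact hε i
    exact (res_eq_zero _).1 h8

end Pool.Agent.NT9
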