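import Pool.Agent.NT9.GeSub

set_option autoImplicit false

/-! # SM: smoothness of the exceptional divisor

In all proofs: `L` = residue field of `O`, `χ = res O ∘ θ` (it kills `M`), values of the `V i`, `U` in `L`; `2 G = ∑ X_i ∂_i G + U ∂_U G` (Euler). -/

namespace Pool.Agent.NT9

open MvPolynomial

variable {σ : Type} [Fintype σ] {K : Type} [Field K]

private theorem smEuler {L : Type} [Field L] (A : σ → σ → L) (B : σ → L) (C u : L) (v : σ → L) :
    ∑ i, v i * (∑ j, (A i j + A j i) * v j + u * B i) + u * (∑ i, B i * v i + 2 * C * u) =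
      2 * (∑ i, ∑ j, A i j * v i * v j + u * ∑ i, B i * v i + C * u ^ 2) := by
  have h1 : ∑ i, v i * (∑ j, (A i j + A j i) * v j + u * B i) =
      ∑ i, ∑ j, A i j * v i * v j + ∑ i, ∑ j, A j i * v j * v i + u * ∑ i, B i * v i := by
    rw [Finset.mul_sum, ← Finset.sum_add_distrib, ← Finset.sum_add_distrib]
    refine Finset.sum_congr rfl fun i _ => ?_
    rw [mul_add, Finset.mul_sum, ← Finset.sum_add_distrib]
    congr 1
    · refine Finset.sum_congr rfl fun j _ => ?_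
      ring
    · ring
  have h2 : ∑ i, ∑ j, A j i * v j * v i = ∑ i, ∑ j, A i j * v i * v j := Finset.sum_comm
  rw [h1, h2]
  ring

/-- The residue map on the polynomial ring. -/
private noncomputable def smChi (θ : MvPolynomial σ ℤ →+* K) (O : Subring K) [IsLocalRing O]
    (hpoly : ∀ h, θ h ∈ O) : MvPolynomial σ ℤ →+* IsLocalRing.ResidueField O :=
  (res O).comp (θ.codRestrict O hpoly)

omit [Fintype σ] in
private theorem smChi_zero {θ : MvPolynomial σ ℤ →+* K} {O : Subring K} [IsLocalRing O]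
    (hpoly : ∀ h, θ h ∈ O) {m : MvPolynomial σ ℤ} (hm : θ m ∈ mx O) :
    smChi θ O hpoly m = 0 := by
  have := (res_eq_zero (O := O) (θ.codRestrict O hpoly m)).2 hm
  exact this

private theorem smG {θ : MvPolynomial σ ℤ →+* K} {O : Subring K} [IsLocalRing O]
    (hpoly : ∀ h, θ h ∈ O) (a : σ → σ → MvPolynomial σ ℤ) (b : σ → MvPolynomial σ ℤ)
    (c : MvPolynomial σ ℤ) (U : O) (V : σ → O)
    (hG : ∑ i, ∑ j, θ (a i j) * (V i : K) * V j + (U : K) * ∑ i, θ (b i) * (V i : K) +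
      θ c * (U : K) ^ 2 = 0) :
    ∑ i, ∑ j, smChi θ O hpoly (a i j) * res O (V i) * res O (V j) +
      res O U * ∑ i, smChi θ O hpoly (b i) * res O (V i) + smChi θ O hpoly c * res O U ^ 2 = 0 := by
  have h : (∑ i, ∑ j, θ.codRestrict O hpoly (a i j) * V i * V j +
      U * ∑ i, θ.codRestrict O hpoly (b i) * V i + θ.codRestrict O hpoly c * U ^ 2 : O) = 0 := by
    apply Subtype.ext
    rw [ZeroMemClass.coe_zero, ← hG]
    push_cast
    rfl
  have h2 := congrArg (res O) h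
  rw [map_zero] at h2
  rw [← h2]
  simp only [map_add, map_sum, map_mul, map_pow]
  rfl

private theorem smD {θ : MvPolynomial σ ℤ →+* K} {O : Subring K} [IsLocalRing O]
    (hpoly : ∀ h, θ h ∈ O) (a : σ → σ → MvPolynomial σ ℤ) (b : σ → MvPolynomial σ ℤ)
    (U : O) (V : σ → O) (i : σ)
    (h : ∑ j, θ (a i j + a j i) * (V j : K) + (U : K) * θ (b i) ∈ mx O) :
    ∑ j, (smChi θ O hpoly (a i j) + smChi θ O hpoly (a j i)) * res O (V j) +
      res O U * smChi θ O hpoly (b i) = 0 := by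
  have h1 : ((∑ j, θ.codRestrict O hpoly (a i j + a j i) * V j +
      U * θ.codRestrict O hpoly (b i) : O) : K) ∈ mx O := by
    have h3 : ((∑ j, θ.codRestrict O hpoly (a i j + a j i) * V j +
      U * θ.codRestrict O hpoly (b i) : O) : K) =
        ∑ j, θ (a i j + a j i) * (V j : K) + (U : K) * θ (b i) := by
      push_cast
      rfl
    rw [h3]
    exact h
  have h2 := (res_eq_zero _).2 h1
  rw [← h2]
  simp only [map_add, map_sum, map_mul]
  rfl

private theorem smDU {θ : MvPolynomial σ ℤ →+* K} {O : Subring K} [IsLocalRing O]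
    (hpoly : ∀ h, θ h ∈ O) (b : σ → MvPolynomial σ ℤ) (c : MvPolynomial σ ℤ)
    (U : O) (V : σ → O)
    (h : ∑ i, θ (b i) * (V i : K) + 2 * θ c * (U : K) ∈ mx O) :
    ∑ i, smChi θ O hpoly (b i) * res O (V i) + 2 * smChi θ O hpoly c * res O U = 0 := by
  have h1 : ((∑ i, θ.codRestrict O hpoly (b i) * V i +
      2 * θ.codRestrict O hpoly c * U : O) : K) ∈ mx O := by
    have h3 : ((∑ i, θ.codRestrict O hpoly (b i) * V i +
      2 * θ.codRestrict O hpoly c * U : O) : K) =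
        ∑ i, θ (b i) * (V i : K) + 2 * θ c * (U : K) := by
      push_cast
      rfl
    rw [h3]
    exact h
  have h2 := (res_eq_zero _).2 h1
  rw [← h2]
  simp only [map_add, map_sum, map_mul, map_ofNat]
  rfl

/-- Chart `y_e`, `U` in the maximal ideal. If all `∂_i G`, `i ≠ e`, vanish at the point, then by Euler (`U = 0`) `V e ∂_e G = 0`, `V e = 1`, so all vanish; `SmF` gives `V = 0`. -/
theorem sm_y {θ : MvPolynomial σ ℤ →+* K} {M : Ideal (MvPolynomial σ ℤ)}
    {a : σ → σ → MvPolynomial σ ℤ} (ha : SmF a M) (b : σ → MvPolynomial σ ℤ)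
    (c : MvPolynomial σ ℤ) {O : Subring K} [IsLocalRing O]
    (hpoly : ∀ h, θ h ∈ O) (hM : ∀ h ∈ M, θ h ∈ mx O) {e : σ} {U : K} {V : σ → K}
    (hU : U ∈ mx O) (hV : ∀ i, V i ∈ O) (hVe : V e = 1)
    (hG : ∑ i, ∑ j, θ (a i j) * V i * V j + U * ∑ i, θ (b i) * V i + θ c * U ^ 2 = 0) :
    ∃ i, i ≠ e ∧ ∑ j, θ (a i j + a j i) * V j + U * θ (b i) ∉ mx O := by
  classical
  by_contra hcon
  push Not at hcon
  have g1 := smG hpoly a b c ⟨U, hU.1⟩ (fun i => ⟨V i, hV i⟩) hG
  have hu : res O ⟨U, hU.1⟩ = 0 := (res_eq_zero _).2 hU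
  have g2 := fun i (hi : i ≠ e) => smD hpoly a b ⟨U, hU.1⟩ (fun i => ⟨V i, hV i⟩) i (hcon i hi)
  have hE := smEuler (fun i j => smChi θ O hpoly (a i j)) (fun i => smChi θ O hpoly (b i))
    (smChi θ O hpoly c) (res O ⟨U, hU.1⟩) (fun i => res O ⟨V i, hV i⟩)
  rw [g1, mul_zero, Finset.sum_eq_single e (fun i _ hi => by rw [g2 i hi, mul_zero])
    (fun h => absurd (Finset.mem_univ e) h)] at hE
  have hve : res O ⟨V e, hV e⟩ = 1 := by
    have : (⟨V e, hV e⟩ : O) = 1 := Subtype.ext hVe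
    rw [this, map_one]
  rw [hve, one_mul, hu, zero_mul, add_zero, zero_mul, add_zero] at hE
  have g3 : ∀ i, ∑ j, smChi θ O hpoly (a i j + a j i) * res O ⟨V j, hV j⟩ = 0 := by
    intro i
    by_cases hi : i = e
    · rw [hi]
      simp only [map_add]
      exact hE
    · have := g2 i hi
      rw [hu, zero_mul, add_zero] at this
      simp only [map_add]
      exact this
  rw [hu, zero_mul, add_zero, zero_pow two_ne_zero, mul_zero, add_zero] at g1
  have := ha (IsLocalRing.ResidueField O) (smChi θ O hpoly)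
    (fun m hm => smChi_zero hpoly (hM m hm)) (fun i => res O ⟨V i, hV i⟩) g1 g3
  have h0 := congrFun this e
  simp only [Pi.zero_apply] at h0
  rw [hve] at h0
  exact one_ne_zero h0

/-- Chart `y_e`, smooth tangent cone. -/
theorem sm_v {θ : MvPolynomial σ ℤ →+* K} {M : Ideal (MvPolynomial σ ℤ)}
    {a : σ → σ → MvPolynomial σ ℤ} {b : σ → MvPolynomial σ ℤ} {c : MvPolynomial σ ℤ}
    (ha : SmV a b c M) {O : Subring K} [IsLocalRing O]
    (hpoly : ∀ h, θ h ∈ O) (hM : ∀ h ∈ M, θ h ∈ mx O) {e : σ} {U : K} {V : σ → K}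
    (hU : U ∈ O) (hV : ∀ i, V i ∈ O) (hVe : V e = 1)
    (hG : ∑ i, ∑ j, θ (a i j) * V i * V j + U * ∑ i, θ (b i) * V i + θ c * U ^ 2 = 0) :
    (∃ i, i ≠ e ∧ ∑ j, θ (a i j + a j i) * V j + U * θ (b i) ∉ mx O) ∨
      ∑ i, θ (b i) * V i + 2 * θ c * U ∉ mx O := by
  classical
  by_contra hcon
  push Not at hcon
  obtain ⟨hcon, hcU⟩ := hcon
  have g1 := smG hpoly a b c ⟨U, hU⟩ (fun i => ⟨V i, hV i⟩) hG
  have g2 := fun i (hi : i ≠ e) => smD hpoly a b ⟨U, hU⟩ (fun i => ⟨V i, hV i⟩) i (hcon i hi)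
  have gU := smDU hpoly b c ⟨U, hU⟩ (fun i => ⟨V i, hV i⟩) hcU
  have hE := smEuler (fun i j => smChi θ O hpoly (a i j)) (fun i => smChi θ O hpoly (b i))
    (smChi θ O hpoly c) (res O ⟨U, hU⟩) (fun i => res O ⟨V i, hV i⟩)
  rw [g1, mul_zero, Finset.sum_eq_single e (fun i _ hi => by rw [g2 i hi, mul_zero])
    (fun h => absurd (Finset.mem_univ e) h)] at hE
  have hve : res O ⟨V e, hV e⟩ = 1 := by
    have : (⟨V e, hV e⟩ : O) = 1 := Subtype.ext hVe
    rw [this, map_one]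
  rw [hve, one_mul, gU, mul_zero, add_zero] at hE
  have g3 : ∀ i, ∑ j, smChi θ O hpoly (a i j + a j i) * res O ⟨V j, hV j⟩ +
      res O ⟨U, hU⟩ * smChi θ O hpoly (b i) = 0 := by
    intro i
    by_cases hi : i = e
    · rw [hi]
      simp only [map_add]
      exact hE
    · simp only [map_add]
      exact g2 i hi
  have := (ha (IsLocalRing.ResidueField O) (smChi θ O hpoly)
    (fun m hm => smChi_zero hpoly (hM m hm)) (fun i => res O ⟨V i, hV i⟩) (res O ⟨U, hU⟩)
    g1 g3 gU).1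
  have h0 := congrFun this e
  simp only [Pi.zero_apply] at h0
  rw [hve] at h0
  exact one_ne_zero h0

/-- Chart `z`, smooth tangent cone (`U = 1`). If all `∂_i G` vanish then `∂_U G` too by Euler, and `SmV` gives `1 = 0`. -/
theorem sm_z {θ : MvPolynomial σ ℤ →+* K} {M : Ideal (MvPolynomial σ ℤ)}
    {a : σ → σ → MvPolynomial σ ℤ} {b : σ → MvPolynomial σ ℤ} {c : MvPolynomial σ ℤ}
    (ha : SmV a b c M) {O : Subring K} [IsLocalRing O]
    (hpoly : ∀ h, θ h ∈ O) (hM : ∀ h ∈ M, θ h ∈ mx O) {w : σ → K} (hw : ∀ i, w i ∈ O)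
    (hG : ∑ i, ∑ j, θ (a i j) * w i * w j + ∑ i, θ (b i) * w i + θ c = 0) :
    ∃ i, ∑ j, θ (a i j + a j i) * w j + θ (b i) ∉ mx O := by
  classical
  by_contra hcon
  push Not at hcon
  have g1 := smG hpoly a b c 1 (fun i => ⟨w i, hw i⟩) (by
    rw [OneMemClass.coe_one, one_mul, one_pow, mul_one]
    exact hG)
  have g2 := fun i => smD hpoly a b 1 (fun i => ⟨w i, hw i⟩) i (by
    rw [OneMemClass.coe_one, one_mul]
    exact hcon i)
  have hE := smEuler (fun i j => smChi θ O hpoly (a i j)) (fun i => smChi θ O hpoly (b i))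
    (smChi θ O hpoly c) (res O 1) (fun i => res O ⟨w i, hw i⟩)
  rw [g1, mul_zero, Finset.sum_eq_zero (fun i _ => by rw [g2 i, mul_zero]), zero_add, map_one,
    one_mul] at hE
  have := (ha (IsLocalRing.ResidueField O) (smChi θ O hpoly)
    (fun m hm => smChi_zero hpoly (hM m hm)) (fun i => res O ⟨w i, hw i⟩) (res O 1)
    g1 (fun i => by simp only [map_add]; exact g2 i) (by rw [map_one]; exact hE)).2
  rw [map_one] at this
  exact one_ne_zero this

end Pool.Agent.NT9
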