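import Pool.Agent.NT9.GeYa
import Pool.Agent.NT9.GeYbA

set_option autoImplicit false

/-! # YBB: regularity in the chart `y_e` -/

namespace Pool.Agent.NT9

open MvPolynomial

variable {σ : Type} [Fintype σ] [DecidableEq σ] {K : Type} [Field K]

/-- Regularity in the chart `y_e`. Proof: `NH.regular_of_pres` with `relY`, the element `il (s * (z * η e))` (`θ (η e) = θ z ^ J Y ≠ 0`, `θ s ≠ 0` as
`s ∉ M`), `y_red`, `y_sf`, `ind_y`. `π (relY ..) = 0`: for `GY` multiply by `(θ z ^ J Y) ^ 2` and use `θ (s f) = 0`. -/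
theorem regular_y {f : MvPolynomial σ ℤ} {θ : MvPolynomial σ ℤ →+* K}
    (hker : RingHom.ker θ = Ideal.span {f}) {M : Ideal (MvPolynomial σ ℤ)} [M.IsMaximal] {p : ℕ}
    (hp : p.Prime) (hpM : (C (p : ℤ) : MvPolynomial σ ℤ) ∈ M) {z : MvPolynomial σ ℤ}
    {η : σ → MvPolynomial σ ℤ} (hpar : Par M z η) (hz0 : θ z ≠ 0) {J : ℕ}
    {s : MvPolynomial σ ℤ} {a : σ → σ → MvPolynomial σ ℤ} {b : σ → MvPolynomial σ ℤ}
    {c : MvPolynomial σ ℤ} (hs : s ∉ M)
    (hsf : s * f = ∑ i, ∑ j, a i j * η i * η j + z ^ (J + 1) * ∑ i, b i * η i +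
      z ^ (2 * J + 2) * c)
    {O : Subring K} [IsLocalRing O] (hpoly : ∀ h, θ h ∈ O) (hM : ∀ h ∈ M, θ h ∈ mx O)
    {e : σ} {Y U : K} {V : σ → K} (hY : Y ∈ mx O) (hY0 : Y ≠ 0) (hU : U ∈ mx O)
    (hV : ∀ i, V i ∈ O) (hVe : V e = 1) (hz : θ z = U * Y)
    (hη : ∀ i, θ (η i) = θ z ^ J * Y * V i)
    (hsm : (∃ i, i ≠ e ∧ ∑ j, θ (a i j + a j i) * V j + U * θ (b i) ∉ mx O) ∨
      (J = 0 ∧ ∑ i, θ (b i) * V i + 2 * θ c * U ∉ mx O))
    (hfr : ∀ x ∈ O, ∃ u v : MvPolynomial (NH.V1 σ) ℤ, piY θ Y U V v ≠ 0 ∧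
      (piY θ Y U V v)⁻¹ ∈ O ∧ x * piY θ Y U V v = piY θ Y U V u) :
    IsRegularLocalRing O := by
  have hπ : ∀ t, piY θ Y U V t ∈ O := piY_mem θ hpoly hY.1 hU.1 hV
  have hθf : θ f = 0 := by
    have h1 : f ∈ RingHom.ker θ := by
      rw [hker]
      exact Ideal.mem_span_singleton_self f
    exact h1
  have hθs : θ s ≠ 0 := by
    intro h0
    have hfM : f ∈ M := by
      have h1 : s * f ∈ M := by
        rw [hsf]
        refine M.add_mem (M.add_mem (M.sum_mem fun i _ => M.sum_mem fun j _ => ?_) ?_) ?_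
        · exact M.mul_mem_left _ (hpar.2.1 j)
        · exact M.mul_mem_left _ (M.sum_mem fun i _ => M.mul_mem_left _ (hpar.2.1 i))
        · exact M.mul_mem_right _ (Ideal.pow_mem_of_mem M hpar.1 _ (by omega))
      exact ((inferInstance : M.IsPrime).mem_or_mem h1).resolve_left hs
    have h2 : s ∈ Ideal.span {f} := by
      rw [← hker]
      exact h0
    obtain ⟨q, rfl⟩ := Ideal.mem_span_singleton'.mp h2
    exact hs (M.mul_mem_left _ hfM)
  have hne : θ z ^ J * Y ≠ 0 := mul_ne_zero (pow_ne_zero _ hz0) hY0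
  have hg : ∀ i, piY θ Y U V (relY z η J a b c e i) = 0 := by
    intro i
    rcases i with i | i
    · fin_cases i
      · show piY θ Y U V (NH.vv e - 1) = 0
        rw [map_sub, map_one, piY_V, hVe, sub_self]
      · show piY θ Y U V (NH.il z - NH.ww σ * NH.tt σ) = 0
        rw [map_sub, map_mul, piY_il, piY_U, piY_Y, hz, sub_self]
      · show piY θ Y U V (GY a b c) = 0
        have e1 : piY θ Y U V (GY a b c) = ∑ i, ∑ j, θ (a i j) * V i * V j +
            U * ∑ i, θ (b i) * V i + θ c * U ^ 2 := by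
          simp only [GY, map_add, map_sum, map_mul, map_pow, piY_il, piY_V, piY_U]
        have e2 : θ (s * f) = (θ z ^ J * Y) ^ 2 * (∑ i, ∑ j, θ (a i j) * V i * V j) +
            θ z ^ (J + 1) * (θ z ^ J * Y * ∑ i, θ (b i) * V i) + θ z ^ (2 * J + 2) * θ c := by
          rw [hsf]
          simp only [map_add, map_sum, map_mul, map_pow, hη]
          congr 3
          · rw [Finset.mul_sum]
            refine Finset.sum_congr rfl fun i _ => ?_
            rw [Finset.mul_sum]
            refine Finset.sum_congr rfl fun j _ => ?_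
            ring
          · rw [Finset.mul_sum]
            refine Finset.sum_congr rfl fun i _ => ?_
            ring
        rw [map_mul, hθf, mul_zero] at e2
        have e3 : (θ z ^ J * Y) ^ 2 * piY θ Y U V (GY a b c) = 0 := by
          rw [e1]
          have e4 : θ z ^ (J + 1) = θ z ^ J * (U * Y) := by rw [pow_succ, hz]
          have e5 : θ z ^ (2 * J + 2) = (θ z ^ J) ^ 2 * (U * Y) ^ 2 := by
            rw [← pow_mul, mul_comm J 2, pow_add, hz]
          rw [e4, e5] at e2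
          linear_combination -e2
        exact (mul_eq_zero.mp e3).resolve_left (pow_ne_zero 2 hne)
    · show piY θ Y U V (NH.il (η i) - (NH.ww σ * NH.tt σ) ^ J * NH.tt σ * NH.vv i) = 0
      rw [map_sub, map_mul, map_mul, map_pow, map_mul, piY_il, piY_U, piY_Y, piY_V, hη, hz,
        sub_self]
  have hmulil : ∀ x y : MvPolynomial σ ℤ,
      (NH.il (x * y) : MvPolynomial (NH.V1 σ) ℤ) = NH.il x * NH.il y := fun x y => map_mul _ x y
  refine NH.regular_of_pres O (piY θ Y U V) hπ hfr (relY z η J a b c e) hg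
    (NH.il (s * (z * η e))) ?_ ?_ ?_
  · rw [piY_il, map_mul, map_mul, hη, hVe, mul_one]
    exact mul_ne_zero hθs (mul_ne_zero hz0 hne)
  · intro t ht
    obtain ⟨N, h, hN⟩ := y_red (z := z) (η := η) (J := J) (a := a) (b := b) (c := c) (e := e) t
    have hle : Ideal.span (Set.range (relY z η J a b c e)) ≤ RingHom.ker (piY θ Y U V) :=
      Ideal.span_le.mpr (by
        rintro _ ⟨i, rfl⟩
        exact hg i)
    have h1 : piY θ Y U V (NH.il (z * η e) ^ N * t - NH.il h) = 0 := hle hN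
    rw [map_sub, map_mul, ht, mul_zero, zero_sub, neg_eq_zero, piY_il] at h1
    have h2 : h ∈ Ideal.span {f} := by
      rw [← hker]
      exact h1
    obtain ⟨q, rfl⟩ := Ideal.mem_span_singleton'.mp h2
    have h3 := y_sf (J := J) (e := e) hsf
    refine ⟨N + 1, ?_⟩
    have h4 : (NH.il (s * (z * η e)) : MvPolynomial (NH.V1 σ) ℤ) ^ (N + 1) * t =
        (NH.il s ^ (N + 1) * NH.il (z * η e)) *
          (NH.il (z * η e) ^ N * t - NH.il (q * f)) +
        (NH.il s ^ N * NH.il (z * η e) * NH.il q) * NH.il (s * f) := by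
      rw [hmulil s (z * η e), hmulil q f, hmulil s f]
      ring
    rw [h4]
    exact Ideal.add_mem _ (Ideal.mul_mem_left _ _ hN) (Ideal.mul_mem_left _ _ h3)
  · intro P hP hmem r hr
    have hm : ∀ t, t ∈ P ↔ piY θ Y U V t ∈ mx O := by
      intro t
      rw [hmem]
      exact ⟨fun h => ⟨hπ t, h⟩, fun h => h.2⟩
    refine ind_y hp hpM hpar P ?_ ?_ ?_ ?_ ?_ r hr
    · intro m hmM
      rw [hm, piY_il]
      exact hM m hmM
    · rw [hm, piY_Y]
      exact hY
    · rw [hm, piY_U]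
      exact hU
    · intro i
      rw [hm, hg]
      exact zero_mem_mx
    · rcases hsm with ⟨i, hi, h1⟩ | ⟨hJ, h1⟩
      · left
        refine ⟨i, hi, ?_⟩
        rw [hm]
        simp only [map_add, map_sum, map_mul, piY_il, piY_V, piY_U]
        simpa only [map_add] using h1
      · right
        refine ⟨hJ, ?_⟩
        rw [hm]
        simp only [map_add, map_sum, map_mul, piY_il, piY_V, piY_U, map_ofNat]
        exact h1

end Pool.Agent.NT9
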