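import Pool.Agent.NT9.GeBlc
import Pool.Agent.NT9.GeSm
import Pool.Agent.NT9.GeStepA
import Pool.Agent.NT9.GeWB
import Pool.Agent.NT9.GeYbB

set_option autoImplicit false

/-! # STEPC: points of the charts `y_e`; smooth tangent cones -/

namespace Pool.Agent.NT9

open MvPolynomial

variable {σ : Type} [Fintype σ] {K : Type} [Field K]

/-- The equation in the chart `z`. -/
theorem stepc_gz {f : MvPolynomial σ ℤ} {θ : MvPolynomial σ ℤ →+* K}
    (hker : RingHom.ker θ = Ideal.span {f}) {z : MvPolynomial σ ℤ} {η : σ → MvPolynomial σ ℤ}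
    {J : ℕ} {s : MvPolynomial σ ℤ} {a : σ → σ → MvPolynomial σ ℤ}
    {b : σ → MvPolynomial σ ℤ} {c : MvPolynomial σ ℤ}
    (hsf : s * f = ∑ i, ∑ j, a i j * η i * η j + z ^ (J + 1) * ∑ i, b i * η i +
      z ^ (2 * J + 2) * c) (hz : θ z ≠ 0) {w : σ → K}
    (hw : ∀ i, θ (η i) = θ z ^ (J + 1) * w i) :
    ∑ i, ∑ j, θ (a i j) * w i * w j + ∑ i, θ (b i) * w i + θ c = 0 := by
  have hf0 : θ f = 0 := by
    have h1 : f ∈ RingHom.ker θ := by
      rw [hker]
      exact Ideal.mem_span_singleton_self f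
    exact h1
  have h1 := congrArg θ hsf
  rw [map_mul, hf0, mul_zero] at h1
  simp only [map_add, map_mul, map_sum, map_pow] at h1
  have e1 : ∑ i, ∑ j, θ (a i j) * θ (η i) * θ (η j) =
      (θ z ^ (J + 1)) ^ 2 * ∑ i, ∑ j, θ (a i j) * w i * w j := by
    rw [Finset.mul_sum]
    refine Finset.sum_congr rfl fun i _ => ?_
    rw [Finset.mul_sum]
    refine Finset.sum_congr rfl fun j _ => ?_
    rw [hw i, hw j]
    ring
  have e2 : ∑ i, θ (b i) * θ (η i) = θ z ^ (J + 1) * ∑ i, θ (b i) * w i := by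
    rw [Finset.mul_sum]
    refine Finset.sum_congr rfl fun i _ => ?_
    rw [hw i]
    ring
  have e3 : θ z ^ (2 * J + 2) = (θ z ^ (J + 1)) ^ 2 := by
    rw [← pow_mul]
    congr 1
    ring
  rw [e1, e2, e3] at h1
  have h2 : (θ z ^ (J + 1)) ^ 2 *
      (∑ i, ∑ j, θ (a i j) * w i * w j + ∑ i, θ (b i) * w i + θ c) = 0 := by
    rw [h1]
    ring
  exact (mul_eq_zero.1 h2).resolve_left (pow_ne_zero _ (pow_ne_zero _ hz))

/-- The equation in the chart `y_e`. -/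
theorem stepc_gy {f : MvPolynomial σ ℤ} {θ : MvPolynomial σ ℤ →+* K}
    (hker : RingHom.ker θ = Ideal.span {f}) {z : MvPolynomial σ ℤ} {η : σ → MvPolynomial σ ℤ}
    {J : ℕ} {s : MvPolynomial σ ℤ} {a : σ → σ → MvPolynomial σ ℤ}
    {b : σ → MvPolynomial σ ℤ} {c : MvPolynomial σ ℤ}
    (hsf : s * f = ∑ i, ∑ j, a i j * η i * η j + z ^ (J + 1) * ∑ i, b i * η i +
      z ^ (2 * J + 2) * c) (hz : θ z ≠ 0) {Y U : K} {V : σ → K} (hY0 : Y ≠ 0)
    (hzU : θ z = U * Y) (hη : ∀ i, θ (η i) = θ z ^ J * Y * V i) :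
    ∑ i, ∑ j, θ (a i j) * V i * V j + U * ∑ i, θ (b i) * V i + θ c * U ^ 2 = 0 := by
  have hf0 : θ f = 0 := by
    have h1 : f ∈ RingHom.ker θ := by
      rw [hker]
      exact Ideal.mem_span_singleton_self f
    exact h1
  have h1 := congrArg θ hsf
  rw [map_mul, hf0, mul_zero] at h1
  simp only [map_add, map_mul, map_sum, map_pow] at h1
  have e1 : ∑ i, ∑ j, θ (a i j) * θ (η i) * θ (η j) =
      (θ z ^ J * Y) ^ 2 * ∑ i, ∑ j, θ (a i j) * V i * V j := by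
    rw [Finset.mul_sum]
    refine Finset.sum_congr rfl fun i _ => ?_
    rw [Finset.mul_sum]
    refine Finset.sum_congr rfl fun j _ => ?_
    rw [hη i, hη j]
    ring
  have e2 : ∑ i, θ (b i) * θ (η i) = θ z ^ J * Y * ∑ i, θ (b i) * V i := by
    rw [Finset.mul_sum]
    refine Finset.sum_congr rfl fun i _ => ?_
    rw [hη i]
    ring
  have e3 : θ z ^ (2 * J + 2) = (θ z ^ J) ^ 2 * (U * Y) ^ 2 := by
    rw [← hzU, ← pow_mul, ← pow_add]
    congr 1
    ring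
  have e4 : θ z ^ (J + 1) = θ z ^ J * (U * Y) := by
    rw [← hzU, pow_succ]
  rw [e1, e2, e3, e4] at h1
  have h2 : (θ z ^ J * Y) ^ 2 *
      (∑ i, ∑ j, θ (a i j) * V i * V j + U * ∑ i, θ (b i) * V i + θ c * U ^ 2) = 0 := by
    rw [h1]
    ring
  exact (mul_eq_zero.1 h2).resolve_left
    (pow_ne_zero _ (mul_ne_zero (pow_ne_zero _ hz) hY0))

/-- A point in a chart `y_e` which is not in the chart `z` is regular. Proof: `Y = θ (η e) / θ z ^ J`, `U = θ z / Y ∈ mx O'` (otherwise `Ch.change` would give the chart `z`, but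
here we assume it), `V i = y i / Y ∈ O'`: `regular_y`, `fr_of_ch_y`, `sm_y`. -/
theorem point_y [DecidableEq σ] {f : MvPolynomial σ ℤ} {θ : MvPolynomial σ ℤ →+* K}
    (hker : RingHom.ker θ = Ideal.span {f}) {M : Ideal (MvPolynomial σ ℤ)} [M.IsMaximal] {p : ℕ}
    (hp : p.Prime) (hpM : (C (p : ℤ) : MvPolynomial σ ℤ) ∈ M) {z : MvPolynomial σ ℤ}
    {η : σ → MvPolynomial σ ℤ} {J : ℕ} {O O' : Subring K} [IsLocalRing O] [IsLocalRing O']
    (hS : Stage θ M z η J O) {s : MvPolynomial σ ℤ} {a : σ → σ → MvPolynomial σ ℤ}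
    {b : σ → MvPolynomial σ ℤ} {c : MvPolynomial σ ℤ} (hs : s ∉ M) (ha : SmF a M)
    (hsf : s * f = ∑ i, ∑ j, a i j * η i * η j + z ^ (J + 1) * ∑ i, b i * η i +
      z ^ (2 * J + 2) * c) {e : σ}
    (hch : Ch O O' (gens θ z η J) (some e)) (hU : θ z / (θ (η e) / θ z ^ J) ∈ mx O') :
    IsRegularLocalRing O' := by
  have hY0 : θ (η e) / θ z ^ J ≠ 0 := hch.1
  have hzJ : θ z ^ J ≠ 0 := pow_ne_zero _ hS.zne
  have hpoly : ∀ h, θ h ∈ O' := fun h => hch.2.1 (hS.poly h)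
  have hM : ∀ h ∈ M, θ h ∈ mx O' := fun h hh => hch.2.2.1 _ (hS.memM h hh)
  have hV : ∀ i, θ (η i) / θ z ^ J / (θ (η e) / θ z ^ J) ∈ O' := fun i => hch.2.2.2.1 (some i)
  have hVe : θ (η e) / θ z ^ J / (θ (η e) / θ z ^ J) = 1 := div_self hY0
  have hzU : θ z = θ z / (θ (η e) / θ z ^ J) * (θ (η e) / θ z ^ J) := (div_mul_cancel₀ _ hY0).symm
  have hη : ∀ i, θ (η i) = θ z ^ J * (θ (η e) / θ z ^ J) *
      (θ (η i) / θ z ^ J / (θ (η e) / θ z ^ J)) := by
    intro i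
    rw [mul_assoc, mul_div_cancel₀ _ hY0, mul_div_cancel₀ _ hzJ]
  have hG := stepc_gy hker hsf hS.zne (V := fun i => θ (η i) / θ z ^ J / (θ (η e) / θ z ^ J))
    hY0 hzU hη
  exact regular_y hker hp hpM hS.par hS.zne hs hsf hpoly hM
    (hch.2.2.1 _ (hS.memY e)) hY0 hU hV hVe hzU hη
    (Or.inl (sm_y ha b c hpoly hM hU hV hVe hG))
    (fr_of_ch_y hS hch rfl rfl fun i => rfl)

/-- The case of a smooth tangent cone (level `0`): all points over `O` are regular. Proof. `bl_chart`; chart `none`: `sm_z` and `regular_z` with `k = 1`; chart `some e`: if `U = θ z / y_e ∉ mx O'`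
change to the chart `none`, otherwise `sm_v` and `regular_y` with `J = 0`. -/
theorem point_v {f : MvPolynomial σ ℤ} {θ : MvPolynomial σ ℤ →+* K}
    (hker : RingHom.ker θ = Ideal.span {f}) {M : Ideal (MvPolynomial σ ℤ)} [M.IsMaximal] {p : ℕ}
    (hp : p.Prime) (hpM : (C (p : ℤ) : MvPolynomial σ ℤ) ∈ M) {z : MvPolynomial σ ℤ}
    {η : σ → MvPolynomial σ ℤ} {O O' : Subring K} [IsLocalRing O] [IsLocalRing O']
    (hS : Stage θ M z η 0 O) (h : VForm f M z η) (hbl : IsBl O O') :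
    IsRegularLocalRing O' := by
  classical
  obtain ⟨s, a, b, c, hs, ha, hsf⟩ := h
  obtain ⟨ι, hch⟩ := bl_chart hbl (g := gens θ z η 0)
    (by
      rintro (_ | i)
      · exact hS.memM z hS.par.1
      · exact hS.memY i) hS.gen
  have hz := hS.zne
  have hle : O ≤ O' := hch.2.1
  have hdom : ∀ x ∈ mx O, x ∈ mx O' := hch.2.2.1
  have hpoly : ∀ h, θ h ∈ O' := fun h => hle (hS.poly h)
  have hM : ∀ h ∈ M, θ h ∈ mx O' := fun h hh => hdom _ (hS.memM h hh)
  have hz0 : θ z ^ 0 ≠ 0 := pow_ne_zero _ hz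
  -- the chart `z`
  have hnone : Ch O O' (gens θ z η 0) none → IsRegularLocalRing O' := by
    intro hch
    have hw : ∀ i, θ (η i) / θ z ^ (0 + 1) ∈ O' := by
      intro i
      have h1 : θ (η i) / θ z ^ 0 / θ z ∈ O' := hch.2.2.2.1 (some i)
      rwa [div_div, ← pow_succ] at h1
    have hwz : ∀ i, θ (η i) = θ z ^ (0 + 1) * (θ (η i) / θ z ^ (0 + 1)) := by
      intro i
      rw [mul_div_cancel₀ _ (pow_ne_zero _ hz)]
    obtain ⟨i0, hi0⟩ := sm_z ha hpoly hM hw (stepc_gz hker hsf hz hwz)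
    exact regular_z hker hp hpM hS.par hz (k := 0 + 1) le_rfl hs hsf hpoly hM hw hwz
      (fr_of_ch_z hS hch) i0 hi0
  rcases ι with _ | e
  · exact hnone hch
  · have hY0 : θ (η e) / θ z ^ 0 ≠ 0 := hch.1
    have hUO : θ z / (θ (η e) / θ z ^ 0) ∈ O' := hch.2.2.2.1 none
    by_cases hU : θ z / (θ (η e) / θ z ^ 0) ∈ mx O'
    · have hV : ∀ i, θ (η i) / θ z ^ 0 / (θ (η e) / θ z ^ 0) ∈ O' :=
        fun i => hch.2.2.2.1 (some i)
      have hVe : θ (η e) / θ z ^ 0 / (θ (η e) / θ z ^ 0) = 1 := div_self hY0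
      have hzU : θ z = θ z / (θ (η e) / θ z ^ 0) * (θ (η e) / θ z ^ 0) :=
        (div_mul_cancel₀ _ hY0).symm
      have hη : ∀ i, θ (η i) = θ z ^ 0 * (θ (η e) / θ z ^ 0) *
          (θ (η i) / θ z ^ 0 / (θ (η e) / θ z ^ 0)) := by
        intro i
        rw [mul_assoc, mul_div_cancel₀ _ hY0, mul_div_cancel₀ _ hz0]
      have hG := stepc_gy hker hsf hz
        (V := fun i => θ (η i) / θ z ^ 0 / (θ (η e) / θ z ^ 0)) hY0 hzU hη
      refine regular_y hker hp hpM hS.par hz hs hsf hpoly hM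
        (hdom _ (hS.memY e)) hY0 hU hV hVe hzU hη ?_
        (fr_of_ch_y hS hch rfl rfl fun i => rfl)
      rcases sm_v ha hpoly hM hUO hV hVe hG with h1 | h1
      · exact Or.inl h1
      · exact Or.inr ⟨rfl, h1⟩
    · rw [notMem_mx_iff hUO] at hU
      refine hnone (hch.change hz ?_)
      have h1 : gens θ z η 0 (some e) / gens θ z η 0 none =
          (θ z / (θ (η e) / θ z ^ 0))⁻¹ := by
        rw [inv_div]
        rfl
      rw [h1]
      exact hU.2

end Pool.Agent.NT9
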