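import Pool.Agent.NT9.GeNakC
import Pool.Agent.NT9.GeStB
import Pool.Agent.NT9.GeStepB
import Pool.Agent.NT9.GeStepC

set_option autoImplicit false

/-! # STEPD: the blow up of a point of the tower -/

namespace Pool.Agent.NT9

open MvPolynomial

variable {σ : Type} [Fintype σ] {K : Type} [Field K]

/-- The blow up of a point of the tower: at most one point is not regular, and it is a point of the next level.
Proof. Suppose some `O1` with `IsBl O O1` is not regular. `bl_chart` with `gens` (`Stage.gen`, `Stage.memM`, `Stage.memY`); if the chart is `some e`: if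
`θ z / y_e ∉ mx O1` change to `none` (`Ch.change`: `gens (some e) / gens none = (θ z / y_e)⁻¹ ∈ O1`), otherwise `point_y`, contradiction. So the chart is `none`,
`point_z` gives `ε1`, `stage_next`, `sform_next`. Another non regular `O'` is in the chart `none` too, with `ε'`; `eps_unique`: `ε1 i - ε' i ∈ M`; `stage_unique`
(level `J + 1`): `O' = O1`. -/
theorem blow_step {f : MvPolynomial σ ℤ} {θ : MvPolynomial σ ℤ →+* K}
    (hker : RingHom.ker θ = Ideal.span {f}) {M : Ideal (MvPolynomial σ ℤ)} [M.IsMaximal] {p : ℕ}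
    (hp : p.Prime) (hpM : (C (p : ℤ) : MvPolynomial σ ℤ) ∈ M) {z : MvPolynomial σ ℤ}
    {η : σ → MvPolynomial σ ℤ} {J : ℕ} {O : Subring K} [IsLocalRing O]
    (hS : Stage θ M z η J O) (h : BForm f M z η J) :
    (∀ O' : Subring K, IsLocalRing O' → IsBl O O' → IsRegularLocalRing O') ∨
      ∃ (O1 : Subring K) (η' : σ → MvPolynomial σ ℤ), IsLocalRing O1 ∧
        Stage θ M z η' (J + 1) O1 ∧ SForm f M z η' (J + 1) ∧
        ∀ O' : Subring K, IsLocalRing O' → IsBl O O' → IsRegularLocalRing O' ∨ O' = O1 := by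
  classical
  obtain ⟨s, a, b, c, hs, ha, hsf⟩ := h
  by_cases hall : ∀ O' : Subring K, IsLocalRing O' → IsBl O O' → IsRegularLocalRing O'
  · exact Or.inl hall
  right
  have key : ∀ O' : Subring K, IsLocalRing O' → IsBl O O' → ¬ IsRegularLocalRing O' →
      ∃ ε : σ → MvPolynomial σ ℤ,
        Stage θ M z (fun i => η i - ε i * z ^ (J + 1)) (J + 1) O' ∧
        (∀ i, ∑ j, (a i j + a j i) * ε j + b i ∈ M) ∧
        ∑ i, ∑ j, a i j * ε i * ε j + ∑ i, b i * ε i + c ∈ M := by
    intro O' hloc hbl hnr
    obtain ⟨ι, hch⟩ := bl_chart hbl (g := gens θ z η J)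
      (by
        rintro (_ | i)
        · exact hS.memM z hS.par.1
        · exact hS.memY i) hS.gen
    have hch' : Ch O O' (gens θ z η J) none := by
      rcases ι with _ | e
      · exact hch
      · by_cases hU : θ z / (θ (η e) / θ z ^ J) ∈ mx O'
        · exact absurd (point_y hker hp hpM hS hs ha hsf hch hU) hnr
        · have hmem : θ z / (θ (η e) / θ z ^ J) ∈ O' := hch.2.2.2.1 none
          rw [notMem_mx_iff hmem] at hU
          refine hch.change hS.zne ?_
          have h1 : gens θ z η J (some e) / gens θ z η J none =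
              (θ z / (θ (η e) / θ z ^ J))⁻¹ := by
            rw [inv_div]
            rfl
          rw [h1]
          exact hU.2
    rcases point_z hker hp hpM hS hs ha hsf hch' with h1 | ⟨ε, h1, h2, h3⟩
    · exact absurd h1 hnr
    · exact ⟨ε, stage_next hS hch' ε h1, h2, h3⟩
  push Not at hall
  obtain ⟨O1, hl1, hb1, hn1⟩ := hall
  obtain ⟨ε, hSt, h2, h3⟩ := key O1 hl1 hb1 hn1
  refine ⟨O1, _, hl1, hSt, sform_next hs ha hsf ε h2 h3, ?_⟩
  intro O' hl' hb'
  by_cases hr : IsRegularLocalRing O'
  · exact Or.inl hr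
  · right
    obtain ⟨ε', hSt', h2', h3'⟩ := key O' hl' hb' hr
    refine stage_unique hSt' hSt ?_
    intro i
    refine ⟨ε i - ε' i, eps_unique ha h2 h3 h2' h3' i, ?_⟩
    ring

end Pool.Agent.NT9
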