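import Pool.Agent.NT9.GeBlowB
import Pool.Agent.NT9.GeForm
import Pool.Agent.NT9.GeHtC
import Pool.Agent.NT9.GeStepD

set_option autoImplicit false

/-! # RESA: resolution of one point -/

namespace Pool.Agent.NT9

open MvPolynomial

variable {σ : Type} [Fintype σ] {K : Type} [Field K]

/-- Resolution of a point of the tower. Proof. Induction on `k` with `L ≤ J + k`; for `k = 0` `bform_lt` gives `J < L ≤ J`. Step: `exists_blow` for `Mo, O` (`Stage.finRes`): `Mo2`, `E`.
`blow_step`: if all points over `O` are regular then `Mo2` is a solution. Otherwise `O1, η'`. If `O1 ∉ Loc Mo2` or `O1` is regular: `Mo2` is a solution. Otherwise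
`bform_of_sform` and the induction hypothesis for `Mo2`, `O1`, `J + 1` give `Mo3`, `E'`: `Com.step`; for `O' ∈ Loc Mo3` not regular: `O' ∈ Loc Mo2`, `O' ≠ O1`, so by
`exists_blow` `O' ∈ Loc Mo`, `O' ≠ O` (the case `IsBl O O'` is excluded: `O'` would be regular or `O1`). -/
theorem resolve {f : MvPolynomial σ ℤ} {θ : MvPolynomial σ ℤ →+* K}
    (hker : RingHom.ker θ = Ideal.span {f}) {M : Ideal (MvPolynomial σ ℤ)} [M.IsMaximal] {p : ℕ}
    (hp : p.Prime) (hpM : (C (p : ℤ) : MvPolynomial σ ℤ) ∈ M) {z s : MvPolynomial σ ℤ} {L : ℕ}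
    (hs : s ∉ M)
    (hL : s * z ^ L ∈ Ideal.span {f} ⊔ Ideal.span (Set.range fun i => pderiv i f)) (k : ℕ) :
    ∀ (J : ℕ) (η : σ → MvPolynomial σ ℤ) (O : Subring K) (Mo : Submodule ℤ K), L ≤ J + k →
      Mo.FG → O ∈ Loc Mo → Stage θ M z η J O → BForm f M z η J →
      ∃ (Mo' : Submodule ℤ K) (E : ℕ), Mo'.FG ∧ 0 < E ∧ Com Mo' (Mo ^ E) ∧
        ∀ O' ∈ Loc Mo', IsRegularLocalRing O' ∨ (O' ∈ Loc Mo ∧ O' ≠ O) := by
  induction k with
  | zero =>
    intro J η O Mo hJ _ _ hS hB
    have h1 := bform_lt hs hL hS.par hB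
    omega
  | succ k ih =>
    intro J η O Mo hJ hfg hO hS hB
    have hloc : IsLocalRing O := hO.1
    obtain ⟨Mo2, E, hfg2, hE, hcom, hpts⟩ := exists_blow hfg hO (hS.finRes hp hpM)
    rcases blow_step hker hp hpM hS hB with h1 | ⟨O1, η', hl1, hS1, hF1, h1⟩
    · refine ⟨Mo2, E, hfg2, hE, hcom, fun O' hO' => ?_⟩
      rcases hpts O' hO' with h2 | h2
      · exact Or.inr h2
      · exact Or.inl (h1 O' hO'.1 h2)
    · by_cases hO1 : O1 ∈ Loc Mo2 ∧ ¬ IsRegularLocalRing O1
      · obtain ⟨hO1, hnr1⟩ := hO1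
        have hB1 := bform_of_sform hker hp hpM (Nat.succ_le_succ (Nat.zero_le J)) hS1 hF1 hnr1
        obtain ⟨Mo3, E', hfg3, hE', hcom3, hpts3⟩ := ih (J + 1) η' O1 Mo2 (by omega) hfg2 hO1
          hS1 hB1
        refine ⟨Mo3, E * E', hfg3, Nat.mul_pos hE hE', hcom.step hcom3, fun O' hO' => ?_⟩
        rcases hpts3 O' hO' with h2 | ⟨h2, h3⟩
        · exact Or.inl h2
        · rcases hpts O' h2 with h4 | h4
          · exact Or.inr h4
          · rcases h1 O' h2.1 h4 with h5 | h5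
            · exact Or.inl h5
            · exact absurd h5 h3
      · refine ⟨Mo2, E, hfg2, hE, hcom, fun O' hO' => ?_⟩
        rcases hpts O' hO' with h2 | h2
        · exact Or.inr h2
        · rcases h1 O' hO'.1 h2 with h3 | h3
          · exact Or.inl h3
          · left
            by_contra hcon
            apply hO1
            rw [← h3]
            exact ⟨hO', hcon⟩

end Pool.Agent.NT9
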