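import Pool.Agent.NT9.GeBaseB
import Pool.Agent.NT9.GeMainD
import Pool.Agent.NT9.GeProjA
import Pool.Agent.NT9.GeResA
import Pool.Agent.NT9.GeResB

set_option autoImplicit false

/-! # MAINA: resolution of the model -/


namespace Pool.Agent.NT9

open MvPolynomial

/-- The resolution of the model of `F`. Proof. `resolve_all` for `Mo0 x`. Finiteness: by `base_loc` the set is contained in the union over `m` of the sets of `finite_nonreg` for
`θ = thm x m`, `f = deh m F` (`NH.ker_deh`). Resolution of `O`: `base_loc`, `nonreg_point`, `Tan` from `GoodF` (`X i ∈ q` iff `x i / x m ∈ mx O`), `init_stage`; case `BForm`: `exists_L` for `z`, `resolve` with `J = 0`, `k = L`;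
case `VForm`: `exists_blow` (`Stage.finRes`) and `point_v`. -/
theorem resolution {n d : ℕ} {K : Type} [Field K] {F : MvPolynomial (Fin (n + 1)) ℤ}
    (hF : F.IsHomogeneous d) (hN : ∃ N : ℤ, N ≠ 0 ∧ ∀ m : Fin (n + 1),
      (C N : MvPolynomial {i // i ≠ m} ℤ) ∈ Ideal.span {NH.deh m F} ⊔
        Ideal.span (Set.range fun i => pderiv i (NH.deh m F)))
    (hgood : GoodF F) (x : Fin (n + 1) → K) (hx : ∀ i, x i ≠ 0)
    (hker : ∀ h : MvPolynomial (Fin (n + 1)) ℤ, aeval x h = 0 ↔ F ∣ h) :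
    ∃ (Mo' : Submodule ℤ K) (E : ℕ), Mo'.FG ∧ 0 < E ∧ Com Mo' (Mo0 x ^ E) ∧
      ∀ O' ∈ Loc Mo', IsRegularLocalRing O' := by
  classical
  obtain ⟨N, hN0, hN⟩ := hN
  have hkerm : ∀ m, RingHom.ker (thm x m) = Ideal.span {NH.deh m F} := by
    intro m
    have h1 := NH.ker_deh (m := m) x (hx m) hF hker
    rw [← h1]
    rfl
  have hfg : (Mo0 x).FG := Submodule.fg_span (Set.finite_range _)
  refine resolve_all hfg ?_ ?_
  · refine Set.Finite.subset (Set.finite_iUnion fun m : Fin (n + 1) =>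
      finite_nonreg (hkerm m) ⟨N, hN0, hN m⟩ (hgood m).1) ?_
    rintro O ⟨hO, hnr⟩
    obtain ⟨m, hm, -⟩ := base_loc x hx hO
    exact Set.mem_iUnion.2 ⟨m, hO.1, hm, hnr⟩
  · intro O hO hnr Mo1 hfg1 hO1
    have hloc : IsLocalRing O := hO.1
    obtain ⟨m, hm, hlt⟩ := base_loc x hx hO
    obtain ⟨q, p, hq, hqO, hp, hpq, hf2, hd⟩ :=
      nonreg_point (hkerm m) ⟨N, hN0, hN m⟩ (hgood m).1 hm hnr
    have hT : Tan (NH.deh m F) q := by
      refine (hgood m).2 q hq ?_ hf2
      intro i hi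
      rw [hqO]
      have h1 : thm x m (X i) = x i.1 / x m := by
        change aeval _ (X i) = _
        rw [aeval_X]
      rw [h1]
      exact hlt i.1 hi
    obtain ⟨z, η, hS, hB⟩ := init_stage (hkerm m) hp hpq hf2 hT (fun h hh => (hqO h).1 hh) hm
    rcases hB with hB | hV
    · obtain ⟨L, s, hs, hL⟩ := exists_L ⟨N, hN0, hN m⟩ (hgood m).1
        (Ideal.pow_le_self (by norm_num) hf2) hd hS.par.1
      exact resolve (hkerm m) hp hpq hs hL L 0 η O Mo1 (by omega) hfg1 hO1 hS hB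
    · obtain ⟨Mo2, E, hfg2, hE, hcom, hpts⟩ := exists_blow hfg1 hO1 (hS.finRes hp hpq)
      refine ⟨Mo2, E, hfg2, hE, hcom, fun O' hO' => ?_⟩
      have hloc' : IsLocalRing O' := hO'.1
      rcases hpts O' hO' with h2 | h2
      · exact Or.inr h2
      · exact Or.inl (point_v (hkerm m) hp hpq hS hV h2)

end Pool.Agent.NT9
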