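import Pool.Agent.NT9.GeGood
import Pool.Agent.NT9.GeMainA
import Pool.Agent.NT9.GeProjB
import Pool.Agent.NT9.GeProjC
import Pool.Agent.NodHyp.Crit

set_option autoImplicit false

/-! # MAINB: the geometric half -/

open AlgebraicGeometry CategoryTheory

namespace Pool.Agent.NT9

open MvPolynomial Pool.MP_602153_ag

/-- Smooth hypersurfaces with `GoodF` have regular models. Proof: as `NH.nodal_hasModel`: `prime_of_smooth`, `isDomain_of_prime`, `primitive_of_iso`, `ker_int`, `exists_N`; `y i ≠ 0` (`F ∤ X i`, degrees);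
`resolution` for `x i = algebraMap B (FractionRing B) (y i)`; `com_base` and `Com` give the hypotheses `h1`, `h2` of `good_of_loc` (divide by integers in the `ℚ`-spaces `ℬ E`);
`hasModel_of_good_ver` (`ℬ E ≠ ⊥`: `y 0 ^ E ≠ 0`). -/
theorem good_hasModel {n d : ℕ} (hn : 2 ≤ n) (hd : 2 ≤ d)
    {F : MvPolynomial (Fin (n + 1)) ℤ} (hF : F.IsHomogeneous d) (hsm : NH.SmoothQ F)
    (hgood : GoodF F)
    (B : Type) [CommRing B] [Algebra ℚ B] (ℬ : ℕ → Submodule ℚ B) [GradedAlgebra ℬ]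
    (y : Fin (n + 1) → B) (hy : ∀ i, y i ∈ ℬ 1)
    (hsurj : Function.Surjective (aeval y : MvPolynomial (Fin (n + 1)) ℚ →ₐ[ℚ] B))
    (hker : RingHom.ker (aeval y : MvPolynomial (Fin (n + 1)) ℚ →ₐ[ℚ] B) =
      Ideal.span {map (algebraMap ℤ ℚ) F})
    (Z : Scheme) (e : Nonempty (Z ≅ Proj ℬ)) : HasModel Z := by
  classical
  have hprime := NH.prime_of_smooth hn (by omega : 1 ≤ d) hF hsm
  have hdom : IsDomain B := NH.isDomain_of_prime hprime y hsurj hker
  have hprim : ∀ p : ℕ, p.Prime → ¬ C (p : ℤ) ∣ F := fun p hp =>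
    primitive_of_iso (by omega) (hgood 0).1 hp
  have hkz := NH.ker_int hprime hprim y hker
  have hF0 : F ≠ 0 := by
    rintro rfl
    exact hprime.ne_zero (map_zero _)
  obtain ⟨N, hN0, hN⟩ := NH.exists_N hF hsm
  have hy0 : ∀ i, y i ≠ 0 := by
    intro i hi
    have h2 : F ∣ (X i : MvPolynomial (Fin (n + 1)) ℤ) := by
      rw [← hkz, aeval_X, hi]
    obtain ⟨G, hG⟩ := h2
    have hG0 : G ≠ 0 := by
      rintro rfl
      rw [mul_zero] at hG
      exact X_ne_zero _ hG
    have h3 := congrArg totalDegree hG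
    rw [totalDegree_mul_of_isDomain hF0 hG0, totalDegree_X, hF.totalDegree hF0] at h3
    omega
  have hchar : CharZero B := algebraRat.charZero B
  have hcharK : CharZero (FractionRing B) :=
    charZero_of_injective_algebraMap (IsFractionRing.injective B (FractionRing B))
  have hinj : Function.Injective (algebraMap B (FractionRing B)) :=
    IsFractionRing.injective B (FractionRing B)
  have hx0 : ∀ i, algebraMap B (FractionRing B) (y i) ≠ 0 := by
    intro i hi
    exact hy0 i (hinj (by rw [hi, map_zero]))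
  obtain ⟨Mo', E, hfg, hE, hcom, hreg⟩ := resolution (K := FractionRing B) hF
    ⟨N, hN0, hN⟩ hgood (fun i => algebraMap B (FractionRing B) (y i)) hx0
    (fun h => by
      rw [NH.LATD_map _, IsFractionRing.to_map_eq_zero_iff]
      exact hkz h)
  obtain ⟨hb1, hb2⟩ := com_base ℬ y hy hy0 hsurj E
  -- the lattice
  obtain ⟨Λ, hΛ, hGood⟩ := good_of_loc ℬ (hy0 0) (E := E) hfg
    (by
      intro x hx
      obtain ⟨N1, hN1, h1⟩ := hcom.1 x hx
      obtain ⟨b, hb, h2⟩ := hb1 _ h1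
      exact ⟨N1, hN1, b, hb, h2⟩)
    (by
      intro b hb
      obtain ⟨N1, hN1, h1⟩ := hb2 b hb
      obtain ⟨N2, hN2, h2⟩ := hcom.2 _ h1
      refine ⟨N2 * N1, mul_ne_zero hN2 hN1, ?_⟩
      rw [Int.cast_mul, mul_assoc]
      exact h2)
    hreg
  have hgen : Algebra.adjoin ℚ (ℬ 1 : Set B) = ⊤ := by
    rw [eq_top_iff, ← (AlgHom.range_eq_top _).2 hsurj, ← Algebra.adjoin_range_eq_range_aeval]
    refine Algebra.adjoin_mono ?_
    rintro _ ⟨i, rfl⟩
    exact hy i
  have hne : ℬ E ≠ ⊥ := by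
    intro h
    have h1 : y 0 ^ E ∈ ℬ E := by
      have h2 := SetLike.pow_mem_graded E (hy 0)
      rwa [smul_eq_mul, mul_one] at h2
    rw [h, Submodule.mem_bot] at h1
    exact hy0 0 (eq_zero_of_pow_eq_zero h1)
  exact NH.hasModel_of_good_ver ℬ hgen hE hne hΛ hGood Z e

theorem geo {n d : ℕ} (hn : 2 ≤ n) (hd : 2 ≤ d) {F : MvPolynomial (Fin (n + 1)) ℤ}
    (hF : F.IsHomogeneous d) (hsm : NH.SmoothQ F) (hgood : GoodF F) : NH.HasRegularModel F := by
  intro B _ _ ℬ _ y hy hsurj hker X hX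
  exact good_hasModel hn hd hF hsm hgood B ℬ y hy hsurj hker X hX

end Pool.Agent.NT9
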