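import Pool.Agent.NT9.GeDefs
import Pool.Agent.NT9.GeCotB

set_option autoImplicit false

/-! # SING: the singular point of the exceptional divisor -/

namespace Pool.Agent.NT9

open MvPolynomial

variable {σ : Type} [Fintype σ]

/-- `w` is a singular point of `∑ a_ij w_i w_j + ∑ b_i w_i + c = 0`. -/
def SingP (a : σ → σ → MvPolynomial σ ℤ) (b : σ → MvPolynomial σ ℤ) (c : MvPolynomial σ ℤ)
    {L : Type} [Field L] (χ : MvPolynomial σ ℤ →+* L) (w : σ → L) : Prop :=
  ∑ i, ∑ j, χ (a i j) * w i * w j + ∑ i, χ (b i) * w i + χ c = 0 ∧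
    ∀ i, ∑ j, χ (a i j + a j i) * w j + χ (b i) = 0

private theorem sgExpand {L : Type} [Field L] (A : σ → σ → L) (w v : σ → L) :
    ∑ i, ∑ j, A i j * (w i + v i) * (w j + v j) =
      ∑ i, ∑ j, A i j * w i * w j + ∑ i, (∑ j, (A i j + A j i) * w j) * v i +
        ∑ i, ∑ j, A i j * v i * v j := by
  have h1 : ∑ i, (∑ j, (A i j + A j i) * w j) * v i =
      ∑ i, ∑ j, A i j * v i * w j + ∑ i, ∑ j, A j i * w j * v i := by
    rw [← Finset.sum_add_distrib]
    refine Finset.sum_congr rfl fun i _ => ?_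
    rw [Finset.sum_mul, ← Finset.sum_add_distrib]
    refine Finset.sum_congr rfl fun j _ => ?_
    ring
  have h2 : ∑ i, ∑ j, A j i * w j * v i = ∑ i, ∑ j, A i j * w i * v j := Finset.sum_comm
  rw [h1, h2, ← Finset.sum_add_distrib, ← Finset.sum_add_distrib, ← Finset.sum_add_distrib]
  refine Finset.sum_congr rfl fun i _ => ?_
  rw [← Finset.sum_add_distrib, ← Finset.sum_add_distrib, ← Finset.sum_add_distrib]
  refine Finset.sum_congr rfl fun j _ => ?_
  ring

/-- Uniqueness. Proof. `v = w - w'`: `∑ j, χ (a i j + a j i) v j = 0`, and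
`0 = G(w) = G(w' + v) = G(w') + ∑ (∂_i G)(w') v i + ∑ χ (a i j) v i v j = ∑ χ (a i j) v i v j`. -/
theorem sing_unique {a : σ → σ → MvPolynomial σ ℤ} {M : Ideal (MvPolynomial σ ℤ)}
    (ha : SmF a M) {b : σ → MvPolynomial σ ℤ} {c : MvPolynomial σ ℤ} {L : Type} [Field L]
    {χ : MvPolynomial σ ℤ →+* L} (hχ : ∀ m ∈ M, χ m = 0) {w w' : σ → L}
    (hw : SingP a b c χ w) (hw' : SingP a b c χ w') : w = w' := by
  have hd : ∀ i, ∑ j, χ (a i j + a j i) * (w j - w' j) = 0 := by
    intro i
    have h1 := hw.2 i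
    have h2 := hw'.2 i
    simp only [mul_sub, Finset.sum_sub_distrib]
    linear_combination h1 - h2
  have hq : ∑ i, ∑ j, χ (a i j) * (w i - w' i) * (w j - w' j) = 0 := by
    have h1 := hw.1
    have h2 := hw'.1
    have h3 := sgExpand (fun i j => χ (a i j)) w' (fun i => w i - w' i)
    have h4 : ∑ i, ∑ j, χ (a i j) * (w' i + (w i - w' i)) * (w' j + (w j - w' j)) =
        ∑ i, ∑ j, χ (a i j) * w i * w j := by
      refine Finset.sum_congr rfl fun i _ => Finset.sum_congr rfl fun j _ => ?_
      ring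
    have h5 : ∑ i, (∑ j, (χ (a i j) + χ (a j i)) * w' j) * (w i - w' i) =
        - (∑ i, χ (b i) * w i) + ∑ i, χ (b i) * w' i := by
      rw [← Finset.sum_neg_distrib, ← Finset.sum_add_distrib]
      refine Finset.sum_congr rfl fun i _ => ?_
      have h6 := hw'.2 i
      simp only [map_add] at h6
      linear_combination (w i - w' i) * h6
    rw [h4, h5] at h3
    linear_combination h1 - h2 - h3
  have := ha L χ hχ (fun i => w i - w' i) hq hd
  funext i
  have h0 := congrFun this i
  simp only [Pi.zero_apply] at h0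
  exact sub_eq_zero.1 h0

/-- Rationality. Proof. `q = p ^ r` = number of elements of `P / M` (`finite_quot`). `χ x ^ q = χ x` for all `x ∈ P`; `L` has characteristic `p`,
so `w i ^ q` is again a singular point (apply the `r`-fold Frobenius of `L` to the equations), so `w i ^ q = w i` by uniqueness; the roots of
`X ^ q - X` in `L` are the `q` elements `χ x` (`χ` factors through the field `P / M`). -/
theorem sing_rat {a : σ → σ → MvPolynomial σ ℤ} {M : Ideal (MvPolynomial σ ℤ)} [M.IsMaximal]
    {p : ℕ} (hp : p.Prime) (hpM : (C (p : ℤ) : MvPolynomial σ ℤ) ∈ M) (ha : SmF a M)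
    {b : σ → MvPolynomial σ ℤ} {c : MvPolynomial σ ℤ} {L : Type} [Field L]
    {χ : MvPolynomial σ ℤ →+* L} (hχ : ∀ m ∈ M, χ m = 0) {w : σ → L}
    (hw : SingP a b c χ w) : ∃ ε : σ → MvPolynomial σ ℤ, ∀ i, w i = χ (ε i) := by
  classical
  have := finite_quot hp hpM
  let _ : Field (MvPolynomial σ ℤ ⧸ M) := Ideal.Quotient.field M
  have : Fintype (MvPolynomial σ ℤ ⧸ M) := Fintype.ofFinite _
  have : Fact p.Prime := ⟨hp⟩
  have hpL : (p : L) = 0 := by
    have := hχ _ hpM
    rw [← this]
    simp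
  have hpQ : (p : MvPolynomial σ ℤ ⧸ M) = 0 := by
    have := (Ideal.Quotient.eq_zero_iff_mem (I := M)).2 hpM
    rw [← this]
    simp
  have : CharP L p := (CharP.charP_iff_prime_eq_zero hp).2 hpL
  have : CharP (MvPolynomial σ ℤ ⧸ M) p := (CharP.charP_iff_prime_eq_zero hp).2 hpQ
  obtain ⟨r, -, hr⟩ := FiniteField.card (MvPolynomial σ ℤ ⧸ M) p
  set χ' : (MvPolynomial σ ℤ ⧸ M) →+* L := Ideal.Quotient.lift M χ hχ with hχ'
  have hχx : ∀ x : MvPolynomial σ ℤ, χ' (Ideal.Quotient.mk M x) = χ x := fun x => rfl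
  have hfrob : ∀ x : MvPolynomial σ ℤ, iterateFrobenius L p r (χ x) = χ x := by
    intro x
    rw [iterateFrobenius_def, ← hr, ← hχx, ← map_pow, FiniteField.pow_card]
  have hw2 : SingP a b c χ (fun i => iterateFrobenius L p r (w i)) := by
    constructor
    · have h := congrArg (iterateFrobenius L p r) hw.1
      simp only [map_add, map_sum, map_mul, map_zero, hfrob] at h
      exact h
    · intro i
      have h := congrArg (iterateFrobenius L p r) (hw.2 i)
      simp only [map_add, map_sum, map_mul, map_zero, hfrob] at h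
      simp only [map_add]
      exact h
  have heq := sing_unique ha hχ hw2 hw
  have hroot : ∀ i, w i ^ Fintype.card (MvPolynomial σ ℤ ⧸ M) = w i := by
    intro i
    have := congrFun heq i
    simp only [iterateFrobenius_def] at this
    rw [hr]
    exact this
  have h1q : 1 < Fintype.card (MvPolynomial σ ℤ ⧸ M) := Fintype.one_lt_card
  have key : ∀ i, ∃ y : MvPolynomial σ ℤ ⧸ M, χ' y = w i := by
    intro i
    by_contra hcon
    push Not at hcon
    have hni : w i ∉ Finset.univ.image χ' := by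
      intro h
      obtain ⟨y, -, hy⟩ := Finset.mem_image.1 h
      exact hcon y hy
    have hsub : (insert (w i) (Finset.univ.image χ')).val ⊆
        (Polynomial.X ^ Fintype.card (MvPolynomial σ ℤ ⧸ M) - Polynomial.X :
          Polynomial L).roots := by
      intro y hy
      rw [Finset.mem_val, Finset.mem_insert] at hy
      rw [Polynomial.mem_roots (FiniteField.X_pow_card_sub_X_ne_zero L h1q)]
      rw [Polynomial.IsRoot.def, Polynomial.eval_sub, Polynomial.eval_pow, Polynomial.eval_X,
        sub_eq_zero]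
      rcases hy with hy | hy
      · rw [hy]; exact hroot i
      · obtain ⟨u, -, hu⟩ := Finset.mem_image.1 hy
        rw [← hu, ← map_pow, FiniteField.pow_card]
    have hc := Polynomial.card_le_degree_of_subset_roots hsub
    rw [FiniteField.X_pow_card_sub_X_natDegree_eq L h1q, Finset.card_insert_of_notMem hni,
      Finset.card_image_of_injective _ χ'.injective, Finset.card_univ] at hc
    omega
  choose y hy using key
  choose ε hε using fun i => Ideal.Quotient.mk_surjective (y i)
  refine ⟨ε, fun i => ?_⟩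
  rw [← hy i, ← hε i]
  rfl

/-- Over the polynomial ring: if `w i = χ (ε i)` then the values at `ε` are in `M` (`χ` kills exactly `M`). -/
theorem sing_mem {a : σ → σ → MvPolynomial σ ℤ} {M : Ideal (MvPolynomial σ ℤ)} [M.IsMaximal]
    {b : σ → MvPolynomial σ ℤ} {c : MvPolynomial σ ℤ} {L : Type} [Field L]
    {χ : MvPolynomial σ ℤ →+* L} (hχ : ∀ m ∈ M, χ m = 0) {ε : σ → MvPolynomial σ ℤ}
    (hw : SingP a b c χ fun i => χ (ε i)) :
    (∀ i, ∑ j, (a i j + a j i) * ε j + b i ∈ M) ∧
      ∑ i, ∑ j, a i j * ε i * ε j + ∑ i, b i * ε i + c ∈ M := by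
  have hk : ∀ x, χ x = 0 → x ∈ M := by
    intro x hx
    have h1 : RingHom.ker χ ≠ ⊤ := RingHom.ker_ne_top χ
    have h2 : M ≤ RingHom.ker χ := fun m hm => hχ m hm
    have h3 := (inferInstance : M.IsMaximal).eq_of_le h1 h2
    rw [h3]
    exact hx
  constructor
  · intro i
    apply hk
    rw [map_add, map_sum]
    simp only [map_mul]
    exact hw.2 i
  · apply hk
    simp only [map_add, map_sum, map_mul]
    exact hw.1

/-- Uniqueness of `ε` modulo `M` (`sing_unique` with `L = P / M`). -/
theorem eps_unique {a : σ → σ → MvPolynomial σ ℤ} {M : Ideal (MvPolynomial σ ℤ)}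
    [M.IsMaximal] (ha : SmF a M) {b : σ → MvPolynomial σ ℤ} {c : MvPolynomial σ ℤ}
    {ε ε' : σ → MvPolynomial σ ℤ} (h1 : ∀ i, ∑ j, (a i j + a j i) * ε j + b i ∈ M)
    (h2 : ∑ i, ∑ j, a i j * ε i * ε j + ∑ i, b i * ε i + c ∈ M)
    (h1' : ∀ i, ∑ j, (a i j + a j i) * ε' j + b i ∈ M)
    (h2' : ∑ i, ∑ j, a i j * ε' i * ε' j + ∑ i, b i * ε' i + c ∈ M) (i : σ) :
    ε i - ε' i ∈ M := by
  let _ : Field (MvPolynomial σ ℤ ⧸ M) := Ideal.Quotient.field M
  have hχ : ∀ m ∈ M, Ideal.Quotient.mk M m = 0 := fun m hm => Ideal.Quotient.eq_zero_iff_mem.2 hm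
  have e1 : SingP a b c (Ideal.Quotient.mk M) (fun i => Ideal.Quotient.mk M (ε i)) := by
    constructor
    · have := hχ _ h2
      simp only [map_add, map_sum, map_mul] at this
      exact this
    · intro i
      have := hχ _ (h1 i)
      rw [map_add, map_sum] at this
      simp only [map_mul] at this
      exact this
  have e2 : SingP a b c (Ideal.Quotient.mk M) (fun i => Ideal.Quotient.mk M (ε' i)) := by
    constructor
    · have := hχ _ h2'
      simp only [map_add, map_sum, map_mul] at this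
      exact this
    · intro i
      have := hχ _ (h1' i)
      rw [map_add, map_sum] at this
      simp only [map_mul] at this
      exact this
  exact Ideal.Quotient.eq.1 (congrFun (sing_unique ha hχ e1 e2) i)

end Pool.Agent.NT9
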