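import Mathlib

set_option autoImplicit false

/-! # CF: definitions for the critical locus of a random polynomial

`CFat n E B d`: for every finite field `k` with `q` elements and every fixed `f₀` of degree at most
`B * d` the proportion of the `u` of degree at most `d` in `n` variables, for which the critical
scheme `∂ (f₀ + u) = 0` is not finite, is at most `q ^ (-E)`.
-/

namespace Pool.Agent.NT9

open MvPolynomial

/-- The polynomials of degree at most `d` in `n` variables. -/
noncomputable abbrev UU (n : ℕ) (k : Type) [Field k] (d : ℕ) : Submodule k (MvPolynomial (Fin n) k) :=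
  restrictTotalDegree (Fin n) k d

/-- The critical locus of `f` is finite. -/
def Crit {n : ℕ} {k : Type} [Field k] (f : MvPolynomial (Fin n) k) : Prop :=
  Finite (MvPolynomial (Fin n) k ⧸ Ideal.span (Set.range fun i => pderiv i f))

def CFat (n E B d : ℕ) : Prop :=
  ∀ (k : Type) [Field k] [Finite k] (f₀ : MvPolynomial (Fin n) k), f₀.totalDegree ≤ B * d →
    Nat.card {u : UU n k d // ¬ Crit (f₀ + (u : MvPolynomial (Fin n) k))} * Nat.card k ^ E ≤
      Nat.card (UU n k d)

/-- `1, y_l, ..., y_l ^ s` are linearly independent modulo the ideal. -/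
def Big {n : ℕ} {k : Type} [Field k] (Q : Ideal (MvPolynomial (Fin n) k)) (l : Fin n) (s : ℕ) :
    Prop :=
  ∀ h : Polynomial k, h.natDegree ≤ s →
    Polynomial.aeval (X l : MvPolynomial (Fin n) k) h ∈ Q → h = 0

/-- The coefficient field `k (y_J)`. -/
abbrev KJ {n : ℕ} (k : Type) [Field k] (J : Finset (Fin n)) : Type :=
  FractionRing (MvPolynomial {x : Fin n // x ∈ J} k)

/-- `k [y] → k (y_J) [y_l, l ∉ J]`. -/
noncomputable def Th {n : ℕ} (k : Type) [Field k] (J : Finset (Fin n)) :
    MvPolynomial (Fin n) k →+* MvPolynomial {x : Fin n // x ∉ J} (KJ k J) :=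
  eval₂Hom (C.comp ((algebraMap (MvPolynomial {x : Fin n // x ∈ J} k) (KJ k J)).comp C))
    (fun l => if h : l ∈ J then
      C (algebraMap (MvPolynomial {x : Fin n // x ∈ J} k) (KJ k J) (X ⟨l, h⟩)) else X ⟨l, h⟩)

end Pool.Agent.NT9
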