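import Pool.Agent.NodHyp.FormsB
import Pool.Agent.NodHyp.Deh
import Pool.Agent.NT9.GeDefs
import Pool.Agent.NT9.CfDefs

set_option autoImplicit false

/-!
# Sieve half of NINE TENTHS: definitions

`pr A` is the proportion of the elements of a finite type with the property `A`.
`vert a` is the vertex of the quadric with equation `sum a_ij v_i v_j = 0`.
-/

namespace Pool.Agent.NT9

open MvPolynomial Pool.Agent.NH

/-- The proportion of the elements with property `A`. -/
noncomputable def pr {Ω : Type} (A : Ω → Prop) : ℝ :=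
  (Nat.card {x : Ω // A x} : ℝ) / (Nat.card Ω : ℝ)

/-- The quadratic form `sum a_ij v_i v_j`. -/
def qf {k : Type} [CommRing k] {N : ℕ} (a : Matrix (Fin N) (Fin N) k) (v : Fin N → k) : k :=
  ∑ i, ∑ j, a i j * v i * v j

/-- The polar form with the basis vector `i`. -/
def qb {k : Type} [CommRing k] {N : ℕ} (a : Matrix (Fin N) (Fin N) k) (v : Fin N → k)
    (i : Fin N) : k :=
  ∑ j, (a i j + a j i) * v j

theorem qb_add {k : Type} [CommRing k] {N : ℕ} (a : Matrix (Fin N) (Fin N) k)
    (v w : Fin N → k) (i : Fin N) : qb a (v + w) i = qb a v i + qb a w i := by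
  unfold qb
  rw [← Finset.sum_add_distrib]
  refine Finset.sum_congr rfl fun j _ => ?_
  rw [Pi.add_apply]
  ring

theorem qb_smul {k : Type} [CommRing k] {N : ℕ} (a : Matrix (Fin N) (Fin N) k) (c : k)
    (v : Fin N → k) (i : Fin N) : qb a (c • v) i = c * qb a v i := by
  unfold qb
  rw [Finset.mul_sum]
  refine Finset.sum_congr rfl fun j _ => ?_
  rw [Pi.smul_apply, smul_eq_mul]
  ring

theorem qf_smul {k : Type} [CommRing k] {N : ℕ} (a : Matrix (Fin N) (Fin N) k) (c : k)
    (v : Fin N → k) : qf a (c • v) = c ^ 2 * qf a v := by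
  unfold qf
  rw [Finset.mul_sum]
  refine Finset.sum_congr rfl fun i _ => ?_
  rw [Finset.mul_sum]
  refine Finset.sum_congr rfl fun j _ => ?_
  rw [Pi.smul_apply, Pi.smul_apply, smul_eq_mul, smul_eq_mul]
  ring

theorem qf_add {k : Type} [CommRing k] {N : ℕ} (a : Matrix (Fin N) (Fin N) k)
    (v w : Fin N → k) : qf a (v + w) = qf a v + qf a w + ∑ i, w i * qb a v i := by
  have h : ∑ i, w i * qb a v i = ∑ i, ∑ j, (a i j * v i * w j + a i j * w i * v j) := by
    have h1 : ∑ i, w i * qb a v i =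
        (∑ i, ∑ j, a i j * w i * v j) + ∑ i, ∑ j, a j i * v j * w i := by
      rw [← Finset.sum_add_distrib]
      refine Finset.sum_congr rfl fun i _ => ?_
      unfold qb
      rw [Finset.mul_sum, ← Finset.sum_add_distrib]
      refine Finset.sum_congr rfl fun j _ => ?_
      ring
    rw [h1, Finset.sum_comm (f := fun i j => a j i * v j * w i), ← Finset.sum_add_distrib]
    refine Finset.sum_congr rfl fun i _ => ?_
    rw [← Finset.sum_add_distrib]
    refine Finset.sum_congr rfl fun j _ => ?_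
    ring
  rw [h]
  unfold qf
  rw [← Finset.sum_add_distrib, ← Finset.sum_add_distrib]
  refine Finset.sum_congr rfl fun i _ => ?_
  rw [← Finset.sum_add_distrib, ← Finset.sum_add_distrib]
  refine Finset.sum_congr rfl fun j _ => ?_
  rw [Pi.add_apply, Pi.add_apply]
  ring

/-- The vertex of the quadric `sum a_ij v_i v_j = 0`. -/
def vert {k : Type} [CommRing k] {N : ℕ} (a : Matrix (Fin N) (Fin N) k) :
    Submodule k (Fin N → k) where
  carrier := {v | qf a v = 0 ∧ ∀ i, qb a v i = 0}
  add_mem' := by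
    rintro v w ⟨h1, h2⟩ ⟨h3, h4⟩
    refine ⟨?_, fun i => ?_⟩
    · rw [qf_add, h1, h3, Finset.sum_eq_zero fun i _ => by rw [h2 i, mul_zero]]
      ring
    · rw [qb_add, h2 i, h4 i, add_zero]
  zero_mem' := by
    refine ⟨?_, fun i => ?_⟩
    · simp [qf]
    · simp [qb]
  smul_mem' := by
    rintro c v ⟨h1, h2⟩
    refine ⟨?_, fun i => ?_⟩
    · rw [qf_smul, h1, mul_zero]
    · rw [qb_smul, h2 i, mul_zero]

/-- The tangent quadric of `f` at the point `M` (`f ∈ M ^ 2`, `M` generated by `N` elements modulo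
`M ^ 2`) has at most one singular point. -/
def QG {σ : Type} (N : ℕ) (f : MvPolynomial σ ℤ) (M : Ideal (MvPolynomial σ ℤ)) : Prop :=
  ∃ (t : Fin N → MvPolynomial σ ℤ) (a : Matrix (Fin N) (Fin N) (MvPolynomial σ ℤ)),
    (∀ i, t i ∈ M) ∧ M ≤ Ideal.span (Set.range t) ⊔ M ^ 2 ∧
    f - ∑ i, ∑ j, a i j * t i * t j ∈ M ^ 3 ∧
    Module.finrank (MvPolynomial σ ℤ ⧸ M) (vert (a.map (Ideal.Quotient.mk M))) ≤ 1

/-- The hypersurface `F = 0` is good at `p`: isolated singularities of the fibre, and at the closed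
points of characteristic `p` where the total space is not regular a hyperplane section of the
tangent cone is smooth. (Only the points of the chart `x_m = 1` with `x_i = 0` for `i < m`.) -/
def LocOK {n : ℕ} (F : MvPolynomial (Fin (n + 1)) ℤ) (p : ℕ) : Prop :=
  ∀ m : Fin (n + 1),
    (∀ Q : Ideal (MvPolynomial {i : Fin (n + 1) // i ≠ m} ℤ), Q.IsPrime → C (p : ℤ) ∈ Q →
      deh m F ∈ Q → (∀ i, pderiv i (deh m F) ∈ Q) → Q.IsMaximal) ∧
    (∀ M : Ideal (MvPolynomial {i : Fin (n + 1) // i ≠ m} ℤ), M.IsMaximal → C (p : ℤ) ∈ M →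
      (∀ i : {i : Fin (n + 1) // i ≠ m}, i.1 < m → X i ∈ M) →
      deh m F ∈ M ^ 2 → TZ (deh m F) M)

/-- The integral form with the least nonnegative residues as coefficients. -/
noncomputable def Fz {n d : ℕ} (P : ℕ) (c : Mon n d → ZMod P) : MvPolynomial (Fin (n + 1)) ℤ :=
  toF fun α => (((c α).val : ℕ) : ℤ)

/-- The critical scheme of `f` is finite (`Crit` of `CfDefs` for a commutative ring). -/
def CritR {n : ℕ} {R : Type} [CommRing R] (f : MvPolynomial (Fin n) R) : Prop :=
  Finite (MvPolynomial (Fin n) R ⧸ Ideal.span (Set.range fun i => pderiv i f))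

/-- The reduction modulo `p` of the dehomogenisation, as a polynomial in `y_0, ..., y_(n-1)`. -/
noncomputable def fp {n : ℕ} (p : ℕ) (m : Fin (n + 1)) (F : MvPolynomial (Fin (n + 1)) ℤ) :
    MvPolynomial (Fin n) (ZMod p) :=
  rename (finSuccAboveEquiv m).symm (map (Int.castRingHom (ZMod p)) (deh m F))

end Pool.Agent.NT9
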