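import Pool.Agent.NT9.GeMainB
import Pool.Agent.NT9.SvDef

set_option autoImplicit false

/-! # FIN: good at every prime implies the hypothesis of the geometric half -/

namespace Pool.Agent.NT9

open MvPolynomial Pool.Agent.NH

theorem isJacobsonRing_int : IsJacobsonRing ℤ := by
  rw [isJacobsonRing_iff_prime_eq]
  intro P hP
  by_cases h0 : P = ⊥
  · subst h0
    refine le_antisymm (fun x hx => ?_) Ideal.le_jacobson
    rw [Ideal.mem_bot]
    by_contra hx0
    obtain ⟨p, hp1, hp2⟩ := Nat.exists_infinite_primes (x.natAbs + 1)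
    have hpr : Prime (p : ℤ) := Nat.prime_iff_prime_int.1 hp2
    have hne : (p : ℤ) ≠ 0 := hpr.ne_zero
    have hmax : (Ideal.span {(p : ℤ)}).IsMaximal :=
      ((Ideal.span_singleton_prime hne).2 hpr).isMaximal (by rwa [Ne, Ideal.span_singleton_eq_bot])
    have h1 : x ∈ Ideal.span {(p : ℤ)} :=
      (Ideal.mem_sInf.1 hx) ⟨bot_le, hmax⟩
    rw [Ideal.mem_span_singleton] at h1
    have h2 := Int.natAbs_dvd_natAbs.2 h1
    have h3 := Nat.le_of_dvd (Int.natAbs_pos.2 hx0) h2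
    rw [Int.natAbs_natCast] at h3
    omega
  · have := hP.isMaximal h0
    exact Ideal.jacobson_eq_self_of_isMaximal

/-- A maximal ideal of `ℤ[σ]` contains a prime number. -/
theorem exists_prime_mem {σ : Type} [Finite σ] (M : Ideal (MvPolynomial σ ℤ)) (hM : M.IsMaximal) :
    ∃ p : ℕ, p.Prime ∧ (C (p : ℤ) : MvPolynomial σ ℤ) ∈ M := by
  have h1 : (M.comap (C : ℤ →+* MvPolynomial σ ℤ)).IsMaximal := by
    let _ := Ideal.Quotient.field M
    have _ := isJacobsonRing_int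
    have hi : ((Ideal.Quotient.mk M).comp (C : ℤ →+* MvPolynomial σ ℤ)).IsIntegral :=
      MvPolynomial.comp_C_integral_of_surjective_of_isJacobsonRing
        (Ideal.Quotient.mk M) Ideal.Quotient.mk_surjective
    have h2 : (⊥ : Ideal (MvPolynomial σ ℤ ⧸ M)).IsMaximal := Ideal.bot_isMaximal
    have h3 := Ideal.isMaximal_comap_of_isIntegral_of_isMaximal' _ hi
      (⊥ : Ideal (MvPolynomial σ ℤ ⧸ M))
    rw [← Ideal.comap_comap] at h3
    have h4 : (⊥ : Ideal (MvPolynomial σ ℤ ⧸ M)).comap (Ideal.Quotient.mk M) = M := by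
      rw [← RingHom.ker_eq_comap_bot, Ideal.mk_ker]
    rwa [h4] at h3
  obtain ⟨x, hx⟩ := (IsPrincipalIdealRing.principal (M.comap (C : ℤ →+* MvPolynomial σ ℤ)))
  rw [Ideal.submodule_span_eq] at hx
  have hx0 : x ≠ 0 := by
    rintro rfl
    rw [Ideal.span_singleton_eq_bot.2 rfl] at hx
    rw [hx] at h1
    have hlt : (⊥ : Ideal ℤ) < Ideal.span {2} := by
      rw [bot_lt_iff_ne_bot, Ne, Ideal.span_singleton_eq_bot]
      norm_num
    have h5 := h1.1.2 _ hlt
    rw [Ideal.span_singleton_eq_top] at h5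
    exact absurd h5 (by decide)
  have hpr : Prime x := by
    rw [← Ideal.span_singleton_prime hx0, ← hx]
    exact h1.isPrime
  refine ⟨x.natAbs, Int.prime_iff_natAbs_prime.1 hpr, ?_⟩
  have h2 : ((x.natAbs : ℕ) : ℤ) ∈ M.comap (C : ℤ →+* MvPolynomial σ ℤ) := by
    rw [hx, Ideal.mem_span_singleton]
    exact Int.dvd_natAbs.2 dvd_rfl
  exact h2

theorem goodF_of_locOK {n : ℕ} {F : MvPolynomial (Fin (n + 1)) ℤ}
    (h : ∀ p : ℕ, p.Prime → LocOK F p) : GoodF F := by
  intro m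
  refine ⟨fun Q hQ hp hF hd => ?_, fun M hM hX hF2 => ?_⟩
  · obtain ⟨p, hp, hpQ⟩ := hp
    exact (h p hp m).1 Q hQ hpQ hF hd
  · obtain ⟨p, hp, hpM⟩ := exists_prime_mem M hM
    exact Or.inl ((h p hp m).2 M hM hpM hX hF2)

end Pool.Agent.NT9
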