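import Pool.Agent.NodHyp.Dens

set_option autoImplicit false

/-! # TlA: almost all forms are smooth over `ℚ` and nodal at all large primes -/

namespace Pool.Agent.NT9

open MvPolynomial Pool.Agent.NH

/-- For every `ε > 0` there is `M` such that for all large `H` all but a proportion `ε` of the forms in
the box are smooth over `ℚ` and nodal at all primes `p > M`. -/
theorem tail_all (n d : ℕ) (hd : 3 ≤ d) (ε : ℝ) (hε : 0 < ε) : ∃ M H₀ : ℕ, ∀ H : ℕ, H₀ ≤ H →
    ({F ∈ Box n d H | ¬ (SmoothQ F ∧ ∀ p : ℕ, p.Prime → M < p → NodalAt F p)}.ncard : ℝ) ≤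
      ε * ((Box n d H).ncard : ℝ) := by
  classical
  obtain ⟨K, M₁, htail⟩ := tail n d hd
  set N := Fintype.card (Mon n d) with hN
  have hN1 : 1 ≤ N := Fintype.card_pos_iff.2 ⟨⟨Finsupp.single 0 d, single_mem n d 0⟩⟩
  obtain ⟨Q, hQ⟩ := exists_nat_ge (2 * K / ε)
  set M := max (max M₁ 1) Q with hM
  have hM₁ : M₁ ≤ M := le_trans (le_max_left _ _) (le_max_left _ _)
  have hM1 : 1 ≤ M := le_trans (le_max_right _ _) (le_max_left _ _)
  have hMQ : Q ≤ M := le_max_right _ _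
  obtain ⟨L₀, hL₀⟩ := htail M 1 hM₁ hM1 le_rfl
    (fun p hp _ h => hp.one_lt.ne' (Nat.dvd_one.1 h))
  refine ⟨M, max L₀ Q, fun H hH => ?_⟩
  set L := 2 * H + 1 with hL
  have hLL₀ : L₀ ≤ L := by
    have := (le_max_left L₀ Q).trans hH
    omega
  have hLQ : Q ≤ L := by
    have := (le_max_right L₀ Q).trans hH
    omega
  have hfin := box_finite n d H
  set T : Set (MvPolynomial (Fin (n + 1)) ℤ) :=
    {F ∈ Box n d H | ¬ (SmoothQ F ∧ ∀ p : ℕ, p.Prime → M < p → NodalAt F p)} with hT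
  have h1 := hL₀ L hLL₀ (fun _ => -(H : ℤ)) (by
    intro α
    rw [abs_neg, abs_of_nonneg (by positivity), hL]
    push_cast
    linarith [show (0 : ℤ) ≤ H from by positivity])
  set W := {x : Mon n d → Fin L //
          ¬ (SmoothQ (toF fun α => (fun _ => -(H : ℤ)) α + ((1 : ℕ) : ℤ) * ((x α : ℕ) : ℤ)) ∧
            ∀ p : ℕ, p.Prime → M < p →
              NodalAt (toF fun α => (fun _ => -(H : ℤ)) α + ((1 : ℕ) : ℤ) * ((x α : ℕ) : ℤ)) p)}
    with hW
  have h2 : T.ncard ≤ Nat.card W := by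
    let _ : Fintype W := Fintype.ofFinite W
    have hsub : T ⊆ ((Finset.univ : Finset W).image (fun x : W =>
        toF fun α => -(H : ℤ) + ((1 : ℕ) : ℤ) * ((x.1 α : ℕ) : ℤ)) :
          Set (MvPolynomial (Fin (n + 1)) ℤ)) := by
      rintro G ⟨hG, hbad⟩
      obtain ⟨c, rfl⟩ := exists_toF hG.1
      have hc := (DensA_toF_mem_box c).1 hG
      have h3 : ∀ α, ∃ y : Fin L, c α = -(H : ℤ) + ((1 : ℕ) : ℤ) * ((y : ℕ) : ℤ) := by
        intro α
        have h4 := abs_le.1 (hc α)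
        refine ⟨⟨(c α + H).toNat, by omega⟩, ?_⟩
        simp only
        rw [Int.toNat_of_nonneg (by omega)]
        push_cast
        ring
      choose y hy using h3
      have hcy : c = fun α => -(H : ℤ) + ((1 : ℕ) : ℤ) * ((y α : ℕ) : ℤ) := funext hy
      rw [Finset.coe_image, Set.mem_image]
      refine ⟨⟨y, ?_⟩, Finset.mem_coe.2 (Finset.mem_univ _), ?_⟩
      · rw [← hcy]
        exact hbad
      · show toF (fun α => -(H : ℤ) + ((1 : ℕ) : ℤ) * ((y α : ℕ) : ℤ)) = toF c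
        rw [← hcy]
    calc T.ncard ≤ _ := Set.ncard_le_ncard hsub (Finset.finite_toSet _)
      _ = ((Finset.univ : Finset W).image (fun x : W =>
        (toF fun α => -(H : ℤ) + ((1 : ℕ) : ℤ) * ((x.1 α : ℕ) : ℤ) :
          MvPolynomial (Fin (n + 1)) ℤ))).card := Set.ncard_coe_finset _
      _ ≤ (Finset.univ : Finset W).card := Finset.card_image_le
      _ = Nat.card W := by rw [Finset.card_univ, Nat.card_eq_fintype_card]
  have hM0 : (0 : ℝ) < M := by exact_mod_cast hM1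
  have hL0 : (0 : ℝ) < L := by exact_mod_cast (by omega : 0 < L)
  have h3 : (M : ℝ) * T.ncard ≤ K * (L ^ N + M * L ^ (N - 1)) := by
    have h4 : M * T.ncard ≤ K * (L ^ N + M * L ^ (N - 1)) := le_trans (Nat.mul_le_mul_left _ h2) h1
    exact_mod_cast h4
  have hLN : (L : ℝ) ^ N = L * L ^ (N - 1) := by
    obtain ⟨k, hk⟩ : ∃ k, N = k + 1 := ⟨N - 1, by omega⟩
    rw [hk, Nat.add_sub_cancel, pow_succ]
    ring
  have hbox : ((Box n d H).ncard : ℝ) = (L : ℝ) ^ N := by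
    rw [card_box, ← hN, ← hL, Nat.cast_pow]
  rw [hbox]
  have hM2 : 2 * K ≤ (M : ℝ) * ε := by
    rw [← div_le_iff₀ hε]
    exact hQ.trans (by exact_mod_cast hMQ)
  have hL2 : 2 * K ≤ (L : ℝ) * ε := by
    rw [← div_le_iff₀ hε]
    exact hQ.trans (by exact_mod_cast hLQ)
  have hp : (0 : ℝ) ≤ (L : ℝ) ^ (N - 1) := by positivity
  have hp' : (0 : ℝ) ≤ (L : ℝ) ^ N := by positivity
  have h5 : (K : ℝ) * L ^ N ≤ M * (ε / 2 * L ^ N) := by nlinarith
  have h6 : (K : ℝ) * (M * L ^ (N - 1)) ≤ M * (ε / 2 * L ^ N) := by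
    rw [hLN]
    have : (K : ℝ) * L ^ (N - 1) ≤ ε / 2 * (L * L ^ (N - 1)) := by nlinarith
    nlinarith
  have h7 : (M : ℝ) * T.ncard ≤ M * (ε * L ^ N) := by
    calc (M : ℝ) * T.ncard ≤ K * (L ^ N + M * L ^ (N - 1)) := h3
      _ = K * L ^ N + K * (M * L ^ (N - 1)) := by ring
      _ ≤ M * (ε / 2 * L ^ N) + M * (ε / 2 * L ^ N) := by gcongr
      _ = M * (ε * L ^ N) := by ring
  exact le_of_mul_le_mul_left h7 hM0

end Pool.Agent.NT9
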