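import Pool.Agent.NT9.SvDef
import Pool.Agent.QuadAll.PNotSq

set_option autoImplicit false

/-!
# Maximal ideals of `ℤ[σ]` which contain a prime number

`A = ℤ[σ]`, `n = card σ`, `M` maximal with `p ∈ M`.
* `A / M` is a field, finitely generated as a ring over `ℤ/p`, so it is finite (Jacobson rings).
* `height M = n + 1` (`Polynomial.height_eq_height_add_one`, `MvPolynomial.optionEquivLeft`, induction on
  `σ`; for `σ` empty it is the height of `(p)` in `ℤ`; the contraction of a maximal ideal containing `p`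
  is maximal, its quotient being a subring of a finite field).
* The localisation at `M` is regular (`MvPolynomial.isRegularRing_of_isRegularRing`, `ℤ` is a Dedekind
  domain), so its cotangent space, that is, `M / M ^ 2`, has dimension `n + 1` over `A / M`.
* `p * g ∈ M ^ 2` implies `g ∈ M`: otherwise `p ∈ M ^ 2`; in `B = (ℤ/p)[σ]` the image `N` of `M` is
  maximal of height `n`, `B` is regular, so `dim N / N ^ 2 = n`, but `N / N ^ 2 = M / (M ^ 2 + p A)
  = M / M ^ 2` has dimension `n + 1`. (Or use the element `p` of the proof in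
  `Pool/Agent/MP_602153_ag/CubicReg.lean`, `mem_of_mul_mem_sq`, if it is general enough:
  Frobenius lift `φ (X_i) = X_i ^ p`, `φ (f) = f ^ p + p δ (f)`.)
-/

namespace Pool.Agent.NT9

open MvPolynomial

theorem quot_finite {σ : Type} [Finite σ] {p : ℕ} (hp : p.Prime)
    (M : Ideal (MvPolynomial σ ℤ)) (hM : M.IsMaximal) (hpM : C (p : ℤ) ∈ M) :
    Finite (MvPolynomial σ ℤ ⧸ M) ∧ ∃ e : ℕ, 1 ≤ e ∧ Nat.card (MvPolynomial σ ℤ ⧸ M) = p ^ e := by
  let _ : Field (MvPolynomial σ ℤ ⧸ M) := Ideal.Quotient.field M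
  have hft : Algebra.FiniteType ℤ (MvPolynomial σ ℤ ⧸ M) :=
    Algebra.FiniteType.of_surjective (Ideal.Quotient.mkₐ ℤ M) Ideal.Quotient.mk_surjective
  have hp0 : ((p : ℕ) : MvPolynomial σ ℤ ⧸ M) = 0 := by
    have h1 := Ideal.Quotient.eq_zero_iff_mem.2 hpM
    have h2 : (C (p : ℤ) : MvPolynomial σ ℤ) = ((p : ℕ) : MvPolynomial σ ℤ) := by
      simp
    rw [h2] at h1
    simpa using h1
  have : Fact p.Prime := ⟨hp⟩
  have hch : CharP (MvPolynomial σ ℤ ⧸ M) p := (CharP.charP_iff_prime_eq_zero hp).2 hp0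
  let _ : Algebra (ZMod p) (MvPolynomial σ ℤ ⧸ M) := ZMod.algebra _ p
  have hst : IsScalarTower ℤ (ZMod p) (MvPolynomial σ ℤ ⧸ M) :=
    IsScalarTower.of_algebraMap_eq' (RingHom.ext_int _ _)
  have hft2 : Algebra.FiniteType (ZMod p) (MvPolynomial σ ℤ ⧸ M) :=
    Algebra.FiniteType.of_restrictScalars_finiteType ℤ (ZMod p) (MvPolynomial σ ℤ ⧸ M)
  have hmf : Module.Finite (ZMod p) (MvPolynomial σ ℤ ⧸ M) :=
    finite_of_finite_type_of_isJacobsonRing (ZMod p) (MvPolynomial σ ℤ ⧸ M)
  have hfin : Finite (MvPolynomial σ ℤ ⧸ M) := Module.finite_of_finite (ZMod p)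
  refine ⟨hfin, ?_⟩
  have : Fintype (MvPolynomial σ ℤ ⧸ M) := Fintype.ofFinite _
  obtain ⟨n, -, hn⟩ := FiniteField.card (MvPolynomial σ ℤ ⧸ M) p
  exact ⟨n, n.2, by rw [Nat.card_eq_fintype_card]; exact hn⟩

namespace HtPar

theorem height_poly {R : Type} [CommRing R] [IsNoetherianRing R] (P : Ideal (Polynomial R))
    (hP : P.IsMaximal) : P.height = (P.comap Polynomial.C).height + 1 := by
  have h : P.LiesOver (P.comap Polynomial.C) := ⟨rfl⟩
  exact Polynomial.height_eq_height_add_one _ P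

/-- the statement of `height_max` -/
def HT (σ : Type) : Prop := ∀ (p : ℕ), p.Prime → ∀ M : Ideal (MvPolynomial σ ℤ), M.IsMaximal →
  C (p : ℤ) ∈ M → M.height = (Nat.card σ : ℕ∞) + 1

theorem ht_equiv {α β : Type} (e : α ≃ β) (h : HT α) : HT β := by
  intro p hp M hM hpM
  let E : MvPolynomial α ℤ ≃+* MvPolynomial β ℤ := (renameEquiv ℤ e).toRingEquiv
  have h1 := RingEquiv.height_comap E M
  have h2 : (M.comap (E : MvPolynomial α ℤ →+* MvPolynomial β ℤ)).IsMaximal :=
    Ideal.comap_isMaximal_of_surjective (E : MvPolynomial α ℤ →+* MvPolynomial β ℤ) E.surjective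
  have h3 := h p hp (M.comap (E : MvPolynomial α ℤ →+* MvPolynomial β ℤ)) h2 (by
    rw [Ideal.mem_comap]
    have : (E : MvPolynomial α ℤ →+* MvPolynomial β ℤ) (C (p : ℤ)) = C (p : ℤ) := by
      change renameEquiv ℤ e (C (p : ℤ)) = C (p : ℤ)
      simp
    rw [this]
    exact hpM)
  rw [← Nat.card_congr e, ← h3]
  exact h1.symm

theorem ht_empty : HT PEmpty := by
  intro p hp M hM hpM
  let E : ℤ ≃+* MvPolynomial PEmpty ℤ := (isEmptyRingEquiv ℤ PEmpty).symm
  have h1 := RingEquiv.height_comap E M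
  have h2 : (M.comap (E : ℤ →+* MvPolynomial PEmpty ℤ)).IsMaximal :=
    Ideal.comap_isMaximal_of_surjective (E : ℤ →+* MvPolynomial PEmpty ℤ) E.surjective
  have h3 : (M.comap (E : ℤ →+* MvPolynomial PEmpty ℤ)).height = 1 :=
    IsPrincipalIdealRing.height_eq_one_of_isMaximal _ Int.not_isField
  have h4 : M.height = 1 := by rw [← h3]; exact h1.symm
  rw [h4]
  simp

theorem ht_option {α : Type} [Fintype α] (h : HT α) : HT (Option α) := by
  intro p hp M hM hpM
  let E : Polynomial (MvPolynomial α ℤ) ≃+* MvPolynomial (Option α) ℤ :=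
    (optionEquivLeft ℤ α).symm.toRingEquiv
  have h1 := RingEquiv.height_comap E M
  let P : Ideal (Polynomial (MvPolynomial α ℤ)) :=
    M.comap (E : Polynomial (MvPolynomial α ℤ) →+* MvPolynomial (Option α) ℤ)
  have h2 : P.IsMaximal :=
    Ideal.comap_isMaximal_of_surjective
      (E : Polynomial (MvPolynomial α ℤ) →+* MvPolynomial (Option α) ℤ) E.surjective
  have hC : ∀ a : ℤ, E (Polynomial.C (C a)) = C a := by
    intro a
    change (optionEquivLeft ℤ α).symm (Polynomial.C (C a)) = C a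
    rw [AlgEquiv.symm_apply_eq, optionEquivLeft_C]
  have h3 := height_poly P h2
  let ι : MvPolynomial α ℤ →+* MvPolynomial (Option α) ℤ :=
    (E : Polynomial (MvPolynomial α ℤ) →+* MvPolynomial (Option α) ℤ).comp Polynomial.C
  have h4 : (P.comap Polynomial.C) = M.comap ι := rfl
  -- the contraction is maximal
  have h5 : (M.comap ι).IsMaximal := by
    have hfin := (quot_finite hp M hM hpM).1
    have : M.IsPrime := hM.isPrime
    have hpr : (M.comap ι).IsPrime := Ideal.IsPrime.comap ι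
    have hinj : Function.Injective (Ideal.quotientMap M ι (le_refl (M.comap ι))) :=
      Ideal.quotientMap_injective
    have hf : Finite (MvPolynomial α ℤ ⧸ M.comap ι) := Finite.of_injective _ hinj
    exact Ideal.Quotient.maximal_of_isField _ (Finite.isField_of_domain _)
  have h6 := h p hp (M.comap ι) h5 (by
    rw [Ideal.mem_comap]
    change E (Polynomial.C (C (p : ℤ))) ∈ M
    rw [hC]
    exact hpM)
  have h7 : M.height = P.height := h1.symm
  rw [h7, h3, h4, h6, Nat.card_eq_fintype_card, Nat.card_eq_fintype_card, Fintype.card_option]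
  push_cast
  rfl

theorem ht (σ : Type) [Finite σ] : HT σ := by
  refine Finite.induction_empty_option (P := fun α : Type => HT α) ?_ ht_empty ?_ σ
  · intro α β e h
    exact ht_equiv e h
  · intro α _ h
    exact ht_option h


/-! ### parameters -/

open IsLocalRing in
theorem params_gen {A : Type} [CommRing A] [IsNoetherianRing A] (M : Ideal A) [M.IsMaximal]
    (s : ℕ) (hs : (maximalIdeal (Localization.AtPrime M)).spanFinrank = s) :
    ∃ t : Fin s → A, (∀ i, t i ∈ M) ∧ M ≤ Ideal.span (Set.range t) ⊔ M ^ 2 ∧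
      ∀ c : Fin s → A, ∑ i, c i * t i ∈ M ^ 2 → ∀ i, c i ∈ M := by
  classical
  let R := Localization.AtPrime M
  have hfg : (maximalIdeal R).FG := (maximalIdeal R).fg_of_isNoetherianRing
  -- generators of the maximal ideal
  obtain ⟨g, hg⟩ : ∃ g : Fin s → R, Ideal.span (Set.range g) = maximalIdeal R := by
    have h1 := Submodule.FG.generators_ncard hfg
    have h2 := Submodule.FG.finite_generators hfg
    have h3 := Submodule.span_generators (maximalIdeal R)
    rw [hs] at h1
    have h4 : Nat.card ((maximalIdeal R).generators) = s := by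
      rw [Nat.card_coe_set_eq, h1]
    have : Finite ((maximalIdeal R).generators) := h2
    let e := Finite.equivFinOfCardEq h4
    refine ⟨fun i => (e.symm i).1, ?_⟩
    have h5 : Set.range (fun i => ((e.symm i).1 : R)) = (maximalIdeal R).generators := by
      ext x
      constructor
      · rintro ⟨i, rfl⟩; exact (e.symm i).2
      · intro hx; exact ⟨e ⟨x, hx⟩, by simp⟩
    rw [h5]
    exact h3
  have hsurj : ∀ i, ∃ (x : A) (y : M.primeCompl), IsLocalization.mk' R x y = g i := fun i =>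
    IsLocalization.exists_mk'_eq M.primeCompl (g i)
  choose t u htu using hsurj
  have hu : ∀ i, IsUnit (algebraMap A R (u i : A)) := fun i =>
    IsLocalization.map_units R (u i)
  have htg : ∀ i, algebraMap A R (t i) = g i * algebraMap A R (u i : A) := fun i => by
    rw [← htu i]
    exact (IsLocalization.mk'_spec R (t i) (u i)).symm
  have hmap : Ideal.map (algebraMap A R) (Ideal.span (Set.range t)) = maximalIdeal R := by
    rw [Ideal.map_span, ← hg]
    apply le_antisymm
    · rw [Ideal.span_le]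
      rintro _ ⟨_, ⟨i, rfl⟩, rfl⟩
      rw [htg i]
      exact Ideal.mul_mem_right _ _ (Ideal.subset_span ⟨i, rfl⟩)
    · rw [Ideal.span_le]
      rintro _ ⟨i, rfl⟩
      obtain ⟨v, hv⟩ := hu i
      have h1 : g i = algebraMap A R (t i) * (↑v⁻¹ : R) := by
        rw [htg i, ← hv, mul_assoc, Units.mul_inv, mul_one]
      rw [h1]
      exact Ideal.mul_mem_right _ _ (Ideal.subset_span ⟨t i, ⟨i, rfl⟩, rfl⟩)
  have hmem : ∀ x : A, algebraMap A R x ∈ maximalIdeal R ↔ x ∈ M := fun x =>
    IsLocalization.AtPrime.to_map_mem_maximal_iff R M x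
  have htM : ∀ i, t i ∈ M := fun i => by
    rw [← hmem, ← hmap]
    exact Ideal.mem_map_of_mem _ (Ideal.subset_span ⟨i, rfl⟩)
  have hgen : M ≤ Ideal.span (Set.range t) ⊔ M ^ 2 := by
    intro x hx
    have h1 : algebraMap A R x ∈ Ideal.map (algebraMap A R) (Ideal.span (Set.range t)) := by
      rw [hmap, hmem]; exact hx
    obtain ⟨w, hw, hwx⟩ := (IsLocalization.algebraMap_mem_map_algebraMap_iff M.primeCompl R _ _).1 h1
    obtain ⟨b, m, hm, hb⟩ := Ideal.IsMaximal.exists_inv ‹M.IsMaximal› (x := w) hw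
    -- b * w + m = 1
    have h2 : x = b * (w * x) + m * x := by
      rw [← mul_assoc, ← add_mul, hb, one_mul]
    rw [h2]
    refine Submodule.add_mem_sup (Ideal.mul_mem_left _ _ hwx) ?_
    rw [pow_two]
    exact Ideal.mul_mem_mul hm hx
  refine ⟨t, htM, hgen, ?_⟩
  intro c hc j
  by_contra hcj
  -- the other `t i` generate the maximal ideal of `R`
  let T : Finset A := (Finset.univ.erase j).image t
  have hs1 : (Finset.univ.erase j).card = s - 1 := by
    rw [Finset.card_erase_of_mem (Finset.mem_univ j), Finset.card_univ, Fintype.card_fin]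
  obtain ⟨b, m, hm, hb⟩ := Ideal.IsMaximal.exists_inv ‹M.IsMaximal› (x := c j) hcj
  have htj : t j ∈ Ideal.span (T : Set A) ⊔ M ^ 2 := by
    have h1 : t j = b * (∑ i, c i * t i) - b * (∑ i ∈ Finset.univ.erase j, c i * t i) +
        m * t j := by
      rw [← Finset.add_sum_erase _ _ (Finset.mem_univ j)]
      have h2 : (1 : A) * t j = (b * c j + m) * t j := by rw [hb]
      rw [one_mul] at h2
      calc t j = (b * c j + m) * t j := h2
        _ = _ := by ring
    rw [h1]
    refine add_mem (sub_mem ?_ ?_) ?_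
    · exact Ideal.mem_sup_right (Ideal.mul_mem_left _ _ hc)
    · refine Ideal.mem_sup_left (Ideal.mul_mem_left _ _ (sum_mem fun i hi => ?_))
      refine Ideal.mul_mem_left _ _ (Ideal.subset_span ?_)
      exact Finset.mem_coe.2 (Finset.mem_image_of_mem t hi)
    · refine Ideal.mem_sup_right ?_
      rw [pow_two]
      exact Ideal.mul_mem_mul hm (htM j)
  have hMT : M ≤ Ideal.span (T : Set A) ⊔ M ^ 2 := by
    refine hgen.trans (sup_le ?_ le_sup_right)
    rw [Ideal.span_le]
    rintro _ ⟨i, rfl⟩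
    by_cases hij : i = j
    · subst hij; exact htj
    · refine Ideal.mem_sup_left (Ideal.subset_span ?_)
      exact Finset.mem_coe.2 (Finset.mem_image_of_mem t (Finset.mem_erase.2 ⟨hij, Finset.mem_univ i⟩))
  have hMmap : Ideal.map (algebraMap A R) M = maximalIdeal R :=
    Localization.AtPrime.map_eq_maximalIdeal
  have h3 : maximalIdeal R ≤ Ideal.span ((T.image (algebraMap A R) : Finset R) : Set R) ⊔
      maximalIdeal R • maximalIdeal R := by
    have h4 := Ideal.map_mono (f := algebraMap A R) hMT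
    rw [Ideal.map_sup, Ideal.map_pow, hMmap, Ideal.map_span] at h4
    rw [Finset.coe_image, smul_eq_mul, ← pow_two]
    exact h4
  have h5 : maximalIdeal R ≤ Ideal.span ((T.image (algebraMap A R) : Finset R) : Set R) :=
    Submodule.le_of_le_smul_of_le_jacobson_bot hfg
      (IsLocalRing.maximalIdeal_le_jacobson ⊥) h3
  have h6 : Ideal.span ((T.image (algebraMap A R) : Finset R) : Set R) = maximalIdeal R := by
    apply le_antisymm _ h5
    rw [Ideal.span_le]
    intro x hx
    obtain ⟨y, hy, rfl⟩ := Finset.mem_image.1 (Finset.mem_coe.1 hx)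
    obtain ⟨i, _, rfl⟩ := Finset.mem_image.1 hy
    exact (hmem _).2 (htM i)
  have h7 := Submodule.spanFinrank_span_le_ncard_of_finite (R := R)
    (s := ((T.image (algebraMap A R) : Finset R) : Set R)) (Finset.finite_toSet _)
  have h8 : Submodule.span R ((T.image (algebraMap A R) : Finset R) : Set R) = maximalIdeal R := h6
  rw [h8, hs, Set.ncard_coe_finset] at h7
  have h9 : (T.image (algebraMap A R)).card ≤ s - 1 :=
    (Finset.card_image_le.trans Finset.card_image_le).trans hs1.le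
  have h10 : 0 < s := Fin.pos j
  omega

end HtPar

open HtPar

theorem height_max {σ : Type} [Finite σ] {p : ℕ} (hp : p.Prime)
    (M : Ideal (MvPolynomial σ ℤ)) (hM : M.IsMaximal) (hpM : C (p : ℤ) ∈ M) :
    M.height = (Nat.card σ : ℕ∞) + 1 :=
  ht σ p hp M hM hpM

/-- `n + 1` elements which form a basis of `M` modulo `M ^ 2`. -/
theorem exists_params {σ : Type} [Finite σ] {n : ℕ} (hn : Nat.card σ = n) {p : ℕ} (hp : p.Prime)
    (M : Ideal (MvPolynomial σ ℤ)) (hM : M.IsMaximal) (hpM : C (p : ℤ) ∈ M) :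
    ∃ t : Fin (n + 1) → MvPolynomial σ ℤ, (∀ i, t i ∈ M) ∧
      M ≤ Ideal.span (Set.range t) ⊔ M ^ 2 ∧
      ∀ c : Fin (n + 1) → MvPolynomial σ ℤ, ∑ i, c i * t i ∈ M ^ 2 → ∀ i, c i ∈ M := by
  have hreg : IsRegularRing (MvPolynomial σ ℤ) := inferInstance
  have h1 : IsRegularLocalRing (Localization.AtPrime M) := inferInstance
  have h2 := h1.spanFinrank_maximalIdeal
  rw [IsLocalization.AtPrime.ringKrullDim_eq_height M (Localization.AtPrime M),
    height_max hp M hM hpM, hn] at h2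
  refine params_gen M (n + 1) ?_
  exact_mod_cast h2

namespace CardQuot

/-- `c ↦ c y` from `A / M` to `A / J`. -/
noncomputable def mulTo {A : Type} [CommRing A] (M J : Ideal A) (y : A)
    (h : ∀ c ∈ M, c * y ∈ J) : (A ⧸ M) →+ (A ⧸ J) :=
  (Submodule.mapQ M J (LinearMap.toSpanSingleton A A y) (fun c hc => h c hc)).toAddMonoidHom

theorem mulTo_mk {A : Type} [CommRing A] (M J : Ideal A) (y : A) (h : ∀ c ∈ M, c * y ∈ J) (c : A) :
    mulTo M J y h (Ideal.Quotient.mk M c) = Ideal.Quotient.mk J (c * y) := rfl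

/-- `(c_i) ↦ sum c_i y_i`. -/
noncomputable def sumTo {A : Type} [CommRing A] {ι : Type} [Fintype ι] (M J : Ideal A) (y : ι → A)
    (h : ∀ i, ∀ c ∈ M, c * y i ∈ J) : (ι → A ⧸ M) →+ (A ⧸ J) where
  toFun c := ∑ i, mulTo M J (y i) (h i) (c i)
  map_zero' := by simp
  map_add' a b := by simp [Finset.sum_add_distrib]

theorem sumTo_mk {A : Type} [CommRing A] {ι : Type} [Fintype ι] (M J : Ideal A) (y : ι → A)
    (h : ∀ i, ∀ c ∈ M, c * y i ∈ J) (c : ι → A) :
    sumTo M J y h (fun i => Ideal.Quotient.mk M (c i)) = Ideal.Quotient.mk J (∑ i, c i * y i) := by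
  rw [map_sum]
  exact Finset.sum_congr rfl fun i _ => mulTo_mk M J (y i) (h i) (c i)

theorem range_sumTo {A : Type} [CommRing A] {ι : Type} [Fintype ι] (M J J' : Ideal A) (y : ι → A)
    (h : ∀ i, ∀ c ∈ M, c * y i ∈ J) (hJ : J ≤ J') (hy : ∀ i, y i ∈ J')
    (hs : ∀ z ∈ J', ∃ c : ι → A, z - ∑ i, c i * y i ∈ J) :
    (sumTo M J y h).range = (Ideal.Quotient.factor hJ).toAddMonoidHom.ker := by
  ext z
  obtain ⟨z, rfl⟩ := Ideal.Quotient.mk_surjective z
  rw [AddMonoidHom.mem_ker]
  have h1 : (Ideal.Quotient.factor hJ).toAddMonoidHom (Ideal.Quotient.mk J z) =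
      Ideal.Quotient.mk J' z := rfl
  rw [h1, Ideal.Quotient.eq_zero_iff_mem]
  constructor
  · rintro ⟨c, hc⟩
    obtain ⟨c', hc'⟩ : ∃ c' : ι → A, c = fun i => Ideal.Quotient.mk M (c' i) := by
      choose c' hc' using fun i => Ideal.Quotient.mk_surjective (c i)
      exact ⟨c', funext fun i => (hc' i).symm⟩
    rw [hc', sumTo_mk, Ideal.Quotient.eq] at hc
    have h2 : ∑ i, c' i * y i ∈ J' := J'.sum_mem fun i _ => J'.mul_mem_left _ (hy i)
    have h3 := J'.sub_mem h2 (hJ hc)
    simpa using h3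
  · intro hz
    obtain ⟨c, hc⟩ := hs z hz
    refine ⟨fun i => Ideal.Quotient.mk M (c i), ?_⟩
    rw [sumTo_mk, eq_comm, Ideal.Quotient.eq]
    exact hc

theorem card_step {A : Type} [CommRing A] (J J' : Ideal A) (hJ : J ≤ J') :
    Nat.card (A ⧸ J) = Nat.card (A ⧸ J') *
      Nat.card (Ideal.Quotient.factor hJ).toAddMonoidHom.ker := by
  rw [AddSubgroup.card_eq_card_quotient_mul_card_addSubgroup
    (Ideal.Quotient.factor hJ).toAddMonoidHom.ker]
  congr 1
  have h1 : Function.Surjective (Ideal.Quotient.factor hJ).toAddMonoidHom :=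
    Ideal.Quotient.factor_surjective hJ
  exact Nat.card_congr (QuotientAddGroup.quotientKerEquivOfSurjective _ h1).toEquiv

end CardQuot

open CardQuot

theorem card_quot_sq {σ : Type} [Finite σ] {n : ℕ} (hn : Nat.card σ = n) {p : ℕ} (hp : p.Prime)
    (M : Ideal (MvPolynomial σ ℤ)) (hM : M.IsMaximal) (hpM : C (p : ℤ) ∈ M) :
    Finite (MvPolynomial σ ℤ ⧸ M ^ 2) ∧
      Nat.card (MvPolynomial σ ℤ ⧸ M ^ 2) = Nat.card (MvPolynomial σ ℤ ⧸ M) ^ (n + 2) := by
  obtain ⟨t, ht1, ht2, ht3⟩ := exists_params hn hp M hM hpM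
  obtain ⟨hf, e, he1, he⟩ := quot_finite hp M hM hpM
  have hle : M ^ 2 ≤ M := Ideal.pow_le_self two_ne_zero
  have h : ∀ i, ∀ c ∈ M, c * t i ∈ M ^ 2 := fun i c hc => by
    rw [pow_two]
    exact Ideal.mul_mem_mul hc (ht1 i)
  have hs : ∀ z ∈ M, ∃ c : Fin (n + 1) → MvPolynomial σ ℤ, z - ∑ i, c i * t i ∈ M ^ 2 := by
    intro z hz
    obtain ⟨x, hx, w, hw, hxw⟩ := Submodule.mem_sup.1 (ht2 hz)
    obtain ⟨c, hc⟩ := Ideal.mem_span_range_iff_exists_fun.1 hx
    refine ⟨c, ?_⟩
    rw [hc, ← hxw]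
    simpa using hw
  have hinj : Function.Injective (sumTo M (M ^ 2) t h) := by
    rw [injective_iff_map_eq_zero]
    intro c hc
    obtain ⟨c', hc'⟩ : ∃ c' : Fin (n + 1) → MvPolynomial σ ℤ,
        c = fun i => Ideal.Quotient.mk M (c' i) := by
      choose c' hc' using fun i => Ideal.Quotient.mk_surjective (c i)
      exact ⟨c', funext fun i => (hc' i).symm⟩
    rw [hc', sumTo_mk, Ideal.Quotient.eq_zero_iff_mem] at hc
    rw [hc']
    funext i
    exact Ideal.Quotient.eq_zero_iff_mem.2 (ht3 c' hc i)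
  have hcard : Nat.card (MvPolynomial σ ℤ ⧸ M ^ 2) =
      Nat.card (MvPolynomial σ ℤ ⧸ M) ^ (n + 2) := by
    rw [card_step (M ^ 2) M hle, ← range_sumTo M (M ^ 2) M t h hle ht1 hs,
      ← Nat.card_congr (AddMonoidHom.ofInjective hinj).toEquiv, Nat.card_fun, Nat.card_fin]
    ring
  refine ⟨?_, hcard⟩
  apply Nat.finite_of_card_ne_zero
  rw [hcard]
  have : 0 < Nat.card (MvPolynomial σ ℤ ⧸ M) := Nat.card_pos
  positivity

/-- The order of `A / M ^ 3` is a power of `p`, at most `q ^ (1 + (n + 1) + (n + 1) ^ 2)`: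
`M ^ 2` is spanned by the products `t_i t_j` modulo `M ^ 3`. -/
theorem card_quot_cube {σ : Type} [Finite σ] {n : ℕ} (hn : Nat.card σ = n) {p : ℕ} (hp : p.Prime)
    (M : Ideal (MvPolynomial σ ℤ)) (hM : M.IsMaximal) (hpM : C (p : ℤ) ∈ M)
    {e : ℕ} (he : Nat.card (MvPolynomial σ ℤ ⧸ M) = p ^ e) :
    Finite (MvPolynomial σ ℤ ⧸ M ^ 3) ∧ ∃ a : ℕ, a ≤ e * (1 + (n + 1) + (n + 1) ^ 2) ∧
      Nat.card (MvPolynomial σ ℤ ⧸ M ^ 3) = p ^ a := by
  obtain ⟨t, ht1, ht2, ht3⟩ := exists_params hn hp M hM hpM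
  obtain ⟨hf, -⟩ := quot_finite hp M hM hpM
  have hle : M ^ 3 ≤ M ^ 2 := Ideal.pow_le_pow_right (by norm_num)
  let y : Fin (n + 1) × Fin (n + 1) → MvPolynomial σ ℤ := fun ij => t ij.1 * t ij.2
  have hy : ∀ i, y i ∈ M ^ 2 := fun i => by
    rw [pow_two]
    exact Ideal.mul_mem_mul (ht1 _) (ht1 _)
  have h : ∀ i, ∀ c ∈ M, c * y i ∈ M ^ 3 := fun i c hc => by
    rw [pow_succ']
    exact Ideal.mul_mem_mul hc (hy i)
  have hs1 : ∀ z ∈ M, ∃ c : Fin (n + 1) → MvPolynomial σ ℤ, z - ∑ i, c i * t i ∈ M ^ 2 := by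
    intro z hz
    obtain ⟨x, hx, w, hw, hxw⟩ := Submodule.mem_sup.1 (ht2 hz)
    obtain ⟨c, hc⟩ := Ideal.mem_span_range_iff_exists_fun.1 hx
    refine ⟨c, ?_⟩
    rw [hc, ← hxw]
    simpa using hw
  have hs : ∀ z ∈ M ^ 2, ∃ c : Fin (n + 1) × Fin (n + 1) → MvPolynomial σ ℤ,
      z - ∑ i, c i * y i ∈ M ^ 3 := by
    intro z hz
    rw [pow_two] at hz
    refine Submodule.mul_induction_on hz ?_ ?_
    · intro a ha b hb
      obtain ⟨c, hc⟩ := hs1 a ha
      obtain ⟨c', hc'⟩ := hs1 b hb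
      refine ⟨fun ij => c ij.1 * c' ij.2, ?_⟩
      have h1 : ∑ i : Fin (n + 1) × Fin (n + 1), c i.1 * c' i.2 * y i =
          (∑ i, c i * t i) * ∑ j, c' j * t j := by
        rw [Fintype.sum_prod_type, Finset.sum_mul]
        refine Finset.sum_congr rfl fun i _ => ?_
        rw [Finset.mul_sum]
        refine Finset.sum_congr rfl fun j _ => ?_
        simp only [y]
        ring
      rw [h1]
      have h2 : a * b - (∑ i, c i * t i) * ∑ j, c' j * t j =
          (a - ∑ i, c i * t i) * b + (∑ i, c i * t i) * (b - ∑ j, c' j * t j) := by ring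
      rw [h2]
      have h3 : (∑ i, c i * t i) ∈ M := M.sum_mem fun i _ => M.mul_mem_left _ (ht1 i)
      refine Ideal.add_mem _ ?_ ?_
      · rw [pow_succ]
        exact Ideal.mul_mem_mul hc hb
      · rw [pow_succ']
        exact Ideal.mul_mem_mul h3 hc'
    · rintro a b ⟨c, hc⟩ ⟨c', hc'⟩
      refine ⟨fun i => c i + c' i, ?_⟩
      have h4 : a + b - ∑ i, (c i + c' i) * y i =
          (a - ∑ i, c i * y i) + (b - ∑ i, c' i * y i) := by
        simp only [add_mul, Finset.sum_add_distrib]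
        ring
      rw [h4]
      exact Ideal.add_mem _ hc hc'
  have hdvd : Nat.card (sumTo M (M ^ 3) y h).range ∣ p ^ (e * (n + 1) ^ 2) := by
    have h1 : Nat.card (sumTo M (M ^ 3) y h).range ∣
        Nat.card (Fin (n + 1) × Fin (n + 1) → MvPolynomial σ ℤ ⧸ M) :=
      AddSubgroup.card_range_dvd _
    rw [Nat.card_fun, he, Nat.card_prod, Nat.card_fin, ← pow_mul] at h1
    rwa [pow_two]
  obtain ⟨b, hb1, hb2⟩ := (Nat.dvd_prime_pow hp).1 hdvd
  obtain ⟨-, hsq⟩ := card_quot_sq hn hp M hM hpM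
  have hcard : Nat.card (MvPolynomial σ ℤ ⧸ M ^ 3) = p ^ (e * (n + 2) + b) := by
    rw [card_step (M ^ 3) (M ^ 2) hle, ← range_sumTo M (M ^ 3) (M ^ 2) y h hle hy hs, hb2, hsq, he,
      ← pow_mul, ← pow_add]
  refine ⟨?_, e * (n + 2) + b, ?_, hcard⟩
  · apply Nat.finite_of_card_ne_zero
    rw [hcard]
    have := hp.pos
    positivity
  · nlinarith

theorem p_cancel {σ : Type} [Finite σ] {p : ℕ} (hp : p.Prime)
    (M : Ideal (MvPolynomial σ ℤ)) (hM : M.IsMaximal) (hpM : C (p : ℤ) ∈ M)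
    {g : MvPolynomial σ ℤ} (hg : C (p : ℤ) * g ∈ M ^ 2) : g ∈ M := by
  have : M.IsPrime := hM.isPrime
  exact QuadAll.mem_of_prime_mul_mem_sq p hp M hpM g hg

/-- Chain of images: the image of the polynomials of degree at most `t` in a finite quotient of
order `p ^ a` has at least `p ^ min (a, t + 1)` elements. (The images `V_t` are subgroups of a finite
`p`-group, increasing, `V_(t+1) = V_t + sum X_i V_t`; if `V_t = V_(t+1)` then `V_t` is everything. `V_0`
contains `1`.) -/
theorem chain_images {σ : Type} [Finite σ] {p : ℕ} (hp : p.Prime)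
    (I : Ideal (MvPolynomial σ ℤ)) {a : ℕ} (hI : Nat.card (MvPolynomial σ ℤ ⧸ I) = p ^ a)
    (t : ℕ) : p ^ (min a (t + 1)) ≤
      (Ideal.Quotient.mk I '' {f : MvPolynomial σ ℤ | f.totalDegree ≤ t}).ncard := by
  have hfin : Finite (MvPolynomial σ ℤ ⧸ I) := by
    apply Nat.finite_of_card_ne_zero
    rw [hI]
    have := hp.pos
    positivity
  let V : ℕ → AddSubgroup (MvPolynomial σ ℤ ⧸ I) := fun t =>
    (restrictTotalDegree σ ℤ t).toAddSubgroup.map (Ideal.Quotient.mk I).toAddMonoidHom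
  have hV : ∀ t x, x ∈ V t ↔ ∃ f : MvPolynomial σ ℤ, f.totalDegree ≤ t ∧
      Ideal.Quotient.mk I f = x := by
    intro t x
    constructor
    · rintro ⟨f, hf, rfl⟩
      exact ⟨f, (mem_restrictTotalDegree _ _ _).1 hf, rfl⟩
    · rintro ⟨f, hf, rfl⟩
      exact ⟨f, (mem_restrictTotalDegree _ _ _).2 hf, rfl⟩
  have hVset : ∀ t, ((V t : AddSubgroup (MvPolynomial σ ℤ ⧸ I)) : Set (MvPolynomial σ ℤ ⧸ I)) =
      Ideal.Quotient.mk I '' {f : MvPolynomial σ ℤ | f.totalDegree ≤ t} := by
    intro t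
    ext x
    rw [SetLike.mem_coe, hV]
    rfl
  have hmono : ∀ t, V t ≤ V (t + 1) := by
    intro t x hx
    rw [hV] at hx ⊢
    obtain ⟨f, hf, rfl⟩ := hx
    exact ⟨f, hf.trans (Nat.le_succ t), rfl⟩
  have htop : ∀ t, V (t + 1) ≤ V t → V t = ⊤ := by
    intro t ht
    rw [eq_top_iff]
    intro x _
    obtain ⟨f, rfl⟩ := Ideal.Quotient.mk_surjective x
    induction f using MvPolynomial.induction_on with
    | C c =>
      rw [hV]
      exact ⟨C c, by rw [totalDegree_C]; exact Nat.zero_le _, rfl⟩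
    | add f g hf hg =>
      rw [map_add]
      exact (V t).add_mem (hf trivial) (hg trivial)
    | mul_X f i hf =>
      have h1 := hf trivial
      rw [hV] at h1
      obtain ⟨g, hg, hfg⟩ := h1
      apply ht
      rw [hV]
      refine ⟨g * X i, ?_, by rw [map_mul, map_mul, hfg]⟩
      refine (totalDegree_mul _ _).trans ?_
      rw [totalDegree_X]
      omega
  have hpow : ∀ t, ∃ b, Nat.card (V t) = p ^ b := by
    intro t
    have h1 : Nat.card (V t) ∣ p ^ a := by
      rw [← hI]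
      exact AddSubgroup.card_addSubgroup_dvd_card (V t)
    obtain ⟨b, -, hb⟩ := (Nat.dvd_prime_pow hp).1 h1
    exact ⟨b, hb⟩
  have key : ∀ t, p ^ (min a (t + 1)) ≤ Nat.card (V t) := by
    intro t
    induction t with
    | zero =>
      rcases Nat.eq_zero_or_pos a with ha | ha
      · rw [ha]
        simp only [Nat.zero_min, pow_zero]
        exact Nat.card_pos
      · have hne : (1 : MvPolynomial σ ℤ ⧸ I) ≠ 0 := by
          intro h10
          have : Subsingleton (MvPolynomial σ ℤ ⧸ I) := subsingleton_of_zero_eq_one h10.symm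
          have h2 : Nat.card (MvPolynomial σ ℤ ⧸ I) ≤ 1 := Finite.card_le_one_iff_subsingleton.2 this
          rw [hI] at h2
          have h3 := Nat.one_lt_pow ha.ne' hp.one_lt
          omega
        have h1 : (1 : MvPolynomial σ ℤ ⧸ I) ∈ V 0 := by
          rw [hV]
          exact ⟨1, by rw [totalDegree_one], map_one _⟩
        have h4 : 1 < Nat.card (V 0) := by
          rw [Finite.one_lt_card_iff_nontrivial]
          exact ⟨⟨⟨1, h1⟩, 0, fun h => hne (congrArg Subtype.val h)⟩⟩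
        obtain ⟨b, hb⟩ := hpow 0
        have h5 : 1 ≤ b := by
          by_contra h6
          rw [hb, show b = 0 by omega, pow_zero] at h4
          omega
        rw [hb]
        exact Nat.pow_le_pow_right hp.pos (by omega)
    | succ t ih =>
      by_cases h1 : V (t + 1) ≤ V t
      · have h2 : V (t + 1) = ⊤ := by
          rw [eq_top_iff, ← htop t h1]
          exact hmono t
        rw [h2]
        have h3 : Nat.card ((⊤ : AddSubgroup (MvPolynomial σ ℤ ⧸ I))) = p ^ a := by
          rw [AddSubgroup.card_top, hI]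
        rw [h3]
        exact Nat.pow_le_pow_right hp.pos (min_le_left _ _)
      · obtain ⟨b, hb⟩ := hpow t
        obtain ⟨b', hb'⟩ := hpow (t + 1)
        have h4 : Nat.card (V t) < Nat.card (V (t + 1)) := by
          have h5 : ((V t : AddSubgroup _) : Set (MvPolynomial σ ℤ ⧸ I)) ⊂
              ((V (t + 1) : AddSubgroup _) : Set (MvPolynomial σ ℤ ⧸ I)) :=
            ⟨hmono t, fun h => h1 h⟩
          exact Set.ncard_lt_ncard h5 (Set.toFinite _)
        have h6 : b < b' := by
          rw [hb, hb'] at h4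
          exact (Nat.pow_lt_pow_iff_right hp.one_lt).1 h4
        have h7 : min a (t + 1) ≤ b := by
          rw [hb] at ih
          exact (Nat.pow_le_pow_iff_right hp.one_lt).1 ih
        rw [hb']
        exact Nat.pow_le_pow_right hp.pos (by omega)
  rw [← hVset t]
  exact key t

end Pool.Agent.NT9
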