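import Pool.Agent.NT9.CfDefs

set_option autoImplicit false

/-! # CFEXP: perturbations which change only two derivatives -/

namespace Pool.Agent.NT9

open MvPolynomial

namespace CfExPAux

variable {n : ℕ} {k : Type} [Field k]

theorem aeval_inj (l : Fin n) :
    Function.Injective (Polynomial.aeval (R := k) (X l : MvPolynomial (Fin n) k)) := by
  intro h h' hh
  have h1 := congrArg (MvPolynomial.aeval (fun _ : Fin n => (Polynomial.X : Polynomial k))) hh
  have h2 : ∀ g : Polynomial k, MvPolynomial.aeval (fun _ : Fin n => (Polynomial.X : Polynomial k))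
      (Polynomial.aeval (X l : MvPolynomial (Fin n) k) g) = g := by
    intro g
    rw [← Polynomial.aeval_algHom_apply, MvPolynomial.aeval_X, Polynomial.aeval_X_left,
      AlgHom.id_apply]
  rwa [h2, h2] at h1

theorem gen [Finite k] (a l : Fin n) {s e : ℕ} {ι : Type} [Fintype ι]
    (v : ι → MvPolynomial (Fin n) k) (u : ι → Polynomial k) (hu : LinearIndependent k u)
    (hdeg : ∀ i, (u i).natDegree ≤ s)
    (hv : ∀ i, pderiv a (v i) = Polynomial.aeval (X l : MvPolynomial (Fin n) k) (u i))
    (he : e ≤ Fintype.card ι) (Q : Ideal (MvPolynomial (Fin n) k)) (hQ : Big Q l s)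
    (w : MvPolynomial (Fin n) k) :
    Nat.card {g : Submodule.span k (Set.range v) //
      w + pderiv a (g : MvPolynomial (Fin n) k) ∈ Q} * Nat.card k ^ e ≤
      Nat.card (Submodule.span k (Set.range v)) := by
  classical
  have hder : ∀ c : ι → k, pderiv a (∑ i, c i • v i) =
      Polynomial.aeval (X l : MvPolynomial (Fin n) k) (∑ i, c i • u i) := by
    intro c
    rw [map_sum, map_sum]
    refine Finset.sum_congr rfl fun i _ => ?_
    rw [Derivation.map_smul, hv i, map_smul]
  have hvli : LinearIndependent k v := by
    rw [Fintype.linearIndependent_iff] at hu ⊢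
    intro c hc
    apply hu c
    have h1 := hder c
    rw [hc, map_zero] at h1
    exact aeval_inj l (by rw [← h1, map_zero])
  have hcard : Nat.card (Submodule.span k (Set.range v)) = Nat.card k ^ Fintype.card ι := by
    have : Module.Finite k (Submodule.span k (Set.range v)) :=
      Module.Finite.span_of_finite k (Set.finite_range v)
    rw [Module.natCard_eq_pow_finrank (K := k), finrank_span_eq_card hvli]
  have : Module.Finite k (Submodule.span k (Set.range v)) :=
      Module.Finite.span_of_finite k (Set.finite_range v)
  have : Finite (Submodule.span k (Set.range v)) := Module.finite_of_finite k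
  have hsub : Subsingleton {g : Submodule.span k (Set.range v) //
      w + pderiv a (g : MvPolynomial (Fin n) k) ∈ Q} := by
    refine ⟨fun g g' => ?_⟩
    obtain ⟨c, hc⟩ := Submodule.mem_span_range_iff_exists_fun k |>.1 (g.1 - g'.1).2
    have h1 : pderiv a (((g.1 - g'.1 : Submodule.span k (Set.range v)) :
        MvPolynomial (Fin n) k)) ∈ Q := by
      have h2 := Q.sub_mem g.2 g'.2
      have h3 : w + pderiv a ((g.1 : MvPolynomial (Fin n) k)) -
          (w + pderiv a ((g'.1 : MvPolynomial (Fin n) k))) =
          pderiv a (((g.1 - g'.1 : Submodule.span k (Set.range v)) :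
            MvPolynomial (Fin n) k)) := by
        rw [Submodule.coe_sub, map_sub]
        ring
      rwa [h3] at h2
    rw [← hc, hder] at h1
    have h4 : (∑ i, c i • u i).natDegree ≤ s := by
      refine Polynomial.natDegree_sum_le_of_forall_le _ _ fun i _ => ?_
      exact (Polynomial.natDegree_smul_le _ _).trans (hdeg i)
    have h5 := hQ _ h4 h1
    have h6 := Fintype.linearIndependent_iff.1 hu c h5
    have h7 : ((g.1 - g'.1 : Submodule.span k (Set.range v)) : MvPolynomial (Fin n) k) = 0 := by
      rw [← hc]
      exact Finset.sum_eq_zero fun i _ => by rw [h6 i, zero_smul]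
    apply Subtype.ext
    exact sub_eq_zero.1 (Subtype.ext h7)
  have h8 : Nat.card {g : Submodule.span k (Set.range v) //
      w + pderiv a (g : MvPolynomial (Fin n) k) ∈ Q} ≤ 1 :=
    Finite.card_le_one_iff_subsingleton.2 hsub
  have hq : 0 < Nat.card k := Nat.card_pos
  calc _ ≤ 1 * Nat.card k ^ e := Nat.mul_le_mul_right _ h8
    _ = Nat.card k ^ e := one_mul _
    _ ≤ Nat.card k ^ Fintype.card ι := Nat.pow_le_pow_right hq he
    _ = _ := hcard.symm

theorem pderiv_aeval (b l : Fin n) (h : Polynomial k) :
    pderiv b (Polynomial.aeval (X l : MvPolynomial (Fin n) k) h) =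
      Polynomial.aeval (X l : MvPolynomial (Fin n) k) (Polynomial.derivative h) *
        pderiv b (X l) := by
  induction h using Polynomial.induction_on' with
  | add f g hf hg => simp only [map_add, hf, hg, add_mul]
  | monomial m c =>
    rw [Polynomial.aeval_monomial, Polynomial.derivative_monomial, Polynomial.aeval_monomial,
      Derivation.leibniz, Derivation.leibniz_pow, MvPolynomial.algebraMap_eq]
    simp only [pderiv_C, smul_eq_mul, nsmul_eq_mul, map_mul, map_natCast]
    ring

theorem pderiv_pow' (b l : Fin n) (m : ℕ) :
    pderiv b ((X l : MvPolynomial (Fin n) k) ^ m) =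
      (m : MvPolynomial (Fin n) k) * X l ^ (m - 1) * pderiv b (X l) := by
  rw [Derivation.leibniz_pow]
  simp only [smul_eq_mul, nsmul_eq_mul]
  ring

open Classical in
theorem card_B (k : Type) [Field k] (s : ℕ) :
    s + 1 ≤ 2 * ((Finset.Icc 1 (s + 1)).filter fun b : ℕ => ((b : ℕ) : k) ≠ 0).card := by
  have h1 := Finset.card_filter_add_card_filter_not (s := Finset.Icc 1 (s + 1))
    (fun b : ℕ => ((b : ℕ) : k) ≠ 0)
  have h2 : ((Finset.Icc 1 (s + 1)).filter fun b : ℕ => ¬ ((b : ℕ) : k) ≠ 0).card ≤
      ((Finset.Icc 1 (s + 1)).filter fun b : ℕ => ((b : ℕ) : k) ≠ 0).card := by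
    refine Finset.card_le_card_of_injOn (fun b => b - 1) ?_ ?_
    · intro b hb
      simp only [Finset.coe_filter, Finset.mem_Icc, Set.mem_ofPred_eq, not_not] at hb ⊢
      obtain ⟨⟨hb1, hb2⟩, hb3⟩ := hb
      have hb4 : b ≠ 1 := by
        rintro rfl
        simp at hb3
      refine ⟨⟨by omega, by omega⟩, ?_⟩
      intro h
      rw [Nat.cast_sub hb1, hb3] at h
      simp at h
    · intro b hb b' hb' h
      simp only [Finset.coe_filter, Finset.mem_Icc, Set.mem_ofPred_eq, not_not] at hb hb'
      have h' : b - 1 = b' - 1 := h
      omega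
  have h3 : (Finset.Icc 1 (s + 1)).card = s + 1 := by simp
  omega

end CfExPAux

open CfExPAux

/-- The space of polynomials of bounded degree is finite. -/
theorem finite_UU (n : ℕ) (k : Type) [Field k] [Finite k] (d : ℕ) : Finite (UU n k d) := Module.finite_of_finite k

/-- Proof. `a ≠ l`: `G = {y_a h (y_l) : deg h ≤ s}`, `∂_a (y_a h (y_l)) = h (y_l)`; by `Big` at most one
element of `G` satisfies the condition (subtract two of them), and `G` has `q ^ (s + 1)` elements.
`a = l`: `G = {h (y_l)}`, `h` a combination of the `y_l ^ b`, `1 ≤ b ≤ s + 1`, `p ∤ b` (`p` the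
characteristic); `∂_l` is injective on `G` and `∂_l h (y_l)` is a polynomial of degree at most `s` in
`y_l`; again at most one element; `G` has `q ^ c` elements, where `c = s + 1 - (s + 1) / p` is the number
of such `b`, and `2 c ≥ s + 1 ≥ 2 e`. -/
theorem exists_pert {n : ℕ} {k : Type} [Field k] [Finite k] (a l : Fin n)
    {s d e : ℕ} (hs : s + 1 ≤ d) (he : 2 * e ≤ s + 1) :
    ∃ G : Submodule k (MvPolynomial (Fin n) k), G ≤ UU n k d ∧
      (∀ g ∈ G, ∀ b, b ≠ a → b ≠ l → pderiv b g = 0) ∧
      ∀ Q : Ideal (MvPolynomial (Fin n) k), Big Q l s → ∀ w : MvPolynomial (Fin n) k,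
        Nat.card {g : G // w + pderiv a (g : MvPolynomial (Fin n) k) ∈ Q} * Nat.card k ^ e ≤
          Nat.card G := by
  classical
  by_cases hal : a = l
  · subst hal
    let B : Finset ℕ := (Finset.Icc 1 (s + 1)).filter fun b : ℕ => ((b : ℕ) : k) ≠ 0
    have hB0 : ∀ b : B, ((b.1 : ℕ) : k) ≠ 0 := fun b => (Finset.mem_filter.1 b.2).2
    have hB1 : ∀ b : B, 1 ≤ b.1 ∧ b.1 ≤ s + 1 := fun b =>
      Finset.mem_Icc.1 (Finset.mem_filter.1 b.2).1
    have hBc : e ≤ Fintype.card B := by
      rw [Fintype.card_coe]
      have := card_B k s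
      have h2 : s + 1 ≤ 2 * B.card := by convert this
      omega
    let v : B → MvPolynomial (Fin n) k := fun b => X a ^ b.1
    let u : B → Polynomial k := fun b => ((b.1 : ℕ) : k) • Polynomial.monomial (b.1 - 1) 1
    have hu : LinearIndependent k u := by
      have h1 : LinearIndependent k fun b : B => (Polynomial.basisMonomials k) (b.1 - 1) := by
        refine (Polynomial.basisMonomials k).linearIndependent.comp (fun b : B => b.1 - 1) ?_
        intro b b' h
        have h' : b.1 - 1 = b'.1 - 1 := h
        have := hB1 b
        have := hB1 b'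
        exact Subtype.ext (by omega)
      have h2 := h1.units_smul fun b : B => Units.mk0 ((b.1 : ℕ) : k) (hB0 b)
      convert h2 using 1
      funext b
      simp only [Pi.smul_apply', Units.smul_def, Units.val_mk0, Polynomial.coe_basisMonomials, u]
    have hv : ∀ b, pderiv a (v b) = Polynomial.aeval (X a : MvPolynomial (Fin n) k) (u b) := by
      intro b
      simp only [v, u]
      rw [pderiv_pow', pderiv_X_self, map_smul, Polynomial.aeval_monomial, Algebra.smul_def,
        MvPolynomial.algebraMap_eq]
      simp
    refine ⟨Submodule.span k (Set.range v), ?_, ?_, ?_⟩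
    · rw [Submodule.span_le]
      rintro _ ⟨b, rfl⟩
      simp only [v, SetLike.mem_coe]
      rw [mem_restrictTotalDegree]
      refine (totalDegree_pow _ _).trans ?_
      rw [totalDegree_X]
      have := hB1 b
      omega
    · intro g hg b hba _
      induction hg using Submodule.span_induction with
      | mem x hx =>
        obtain ⟨c, rfl⟩ := hx
        simp only [v]
        rw [pderiv_pow', pderiv_X_of_ne (Ne.symm hba), mul_zero]
      | zero => exact map_zero _
      | add x y _ _ hx hy => rw [map_add, hx, hy, add_zero]
      | smul c x _ hx => rw [Derivation.map_smul, hx, smul_zero]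
    · intro Q hQ w
      refine gen a a v u hu ?_ hv hBc Q hQ w
      intro b
      simp only [u]
      refine (Polynomial.natDegree_smul_le _ _).trans ((Polynomial.natDegree_monomial_le _).trans ?_)
      have := hB1 b
      omega
  · let v : Fin (s + 1) → MvPolynomial (Fin n) k := fun j => X a * X l ^ j.1
    let u : Fin (s + 1) → Polynomial k := fun j => Polynomial.monomial j.1 1
    have hu : LinearIndependent k u := by
      have h1 : LinearIndependent k fun j : Fin (s + 1) => (Polynomial.basisMonomials k) j.1 :=
        (Polynomial.basisMonomials k).linearIndependent.comp (fun j : Fin (s + 1) => j.1)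
          Fin.val_injective
      convert h1 using 1
      funext j
      simp only [Polynomial.coe_basisMonomials, u]
    have hv : ∀ j, pderiv a (v j) = Polynomial.aeval (X l : MvPolynomial (Fin n) k) (u j) := by
      intro j
      simp only [v, u]
      rw [Derivation.leibniz, pderiv_pow', pderiv_X_self, pderiv_X_of_ne (Ne.symm hal),
        Polynomial.aeval_monomial]
      simp
    refine ⟨Submodule.span k (Set.range v), ?_, ?_, ?_⟩
    · rw [Submodule.span_le]
      rintro _ ⟨j, rfl⟩
      simp only [v, SetLike.mem_coe]
      rw [mem_restrictTotalDegree]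
      refine (totalDegree_mul _ _).trans ?_
      have h1 : (X a : MvPolynomial (Fin n) k).totalDegree = 1 := totalDegree_X _
      have h2 : ((X l : MvPolynomial (Fin n) k) ^ j.1).totalDegree ≤ j.1 := by
        refine (totalDegree_pow _ _).trans ?_
        rw [totalDegree_X]
        omega
      have := j.2
      omega
    · intro g hg b hba hbl
      induction hg using Submodule.span_induction with
      | mem x hx =>
        obtain ⟨c, rfl⟩ := hx
        simp only [v]
        rw [Derivation.leibniz, pderiv_pow', pderiv_X_of_ne (Ne.symm hba),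
          pderiv_X_of_ne (Ne.symm hbl)]
        simp
      | zero => exact map_zero _
      | add x y _ _ hx hy => rw [map_add, hx, hy, add_zero]
      | smul c x _ hx => rw [Derivation.map_smul, hx, smul_zero]
    · intro Q hQ w
      refine gen a l v u hu ?_ hv (by rw [Fintype.card_fin]; omega) Q hQ w
      intro j
      simp only [u]
      refine (Polynomial.natDegree_monomial_le _).trans ?_
      have := j.2
      omega

/-- Counting coset by coset. Proof: the sum over `u₀ ∈ U` of the number of `g ∈ G` with
`∃ x ∈ T (u₀ + g) = T u₀, bad (u₀ + g) x` is `card G` times the number of bad `u`; times `N` it is at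
most `card U * t * card G`. -/
theorem coset_count {U τ : Type} [AddCommGroup U] [Finite U] (G : AddSubgroup U)
    (T : U → Set τ) {t N : ℕ} (hT : ∀ u, ∀ g ∈ G, T (u + g) = T u) (hfin : ∀ u, (T u).Finite)
    (ht : ∀ u, (T u).ncard ≤ t) (bad : U → τ → Prop)
    (hb : ∀ u, ∀ x ∈ T u, Nat.card {g : G // bad (u + (g : U)) x} * N ≤ Nat.card G) :
    Nat.card {u : U // ∃ x ∈ T u, bad u x} * N ≤ t * Nat.card U := by
  classical
  have : Fintype U := Fintype.ofFinite U
  have : Fintype G := Fintype.ofFinite G
  set B : U → Prop := fun u => ∃ x ∈ T u, bad u x with hB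
  have hsum : ∑ u : U, Fintype.card {g : G // B (u + (g : U))} =
      Fintype.card G * Fintype.card {u : U // B u} := by
    have h1 : ∀ u : U, Fintype.card {g : G // B (u + (g : U))} =
        ∑ g : G, if B (u + (g : U)) then 1 else 0 := by
      intro u
      rw [Fintype.card_subtype, Finset.card_filter]
    have h2 : ∀ g : G, (∑ u : U, if B (u + (g : U)) then 1 else 0) =
        Fintype.card {u : U // B u} := by
      intro g
      rw [Fintype.card_subtype, Finset.card_filter]
      exact Fintype.sum_equiv (Equiv.addRight (g : U)) _ _ (fun u => rfl)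
    rw [Finset.sum_congr rfl fun u _ => h1 u, Finset.sum_comm, Finset.sum_congr rfl fun g _ => h2 g,
      Finset.sum_const, Finset.card_univ, smul_eq_mul]
  have hone : ∀ u : U, Fintype.card {g : G // B (u + (g : U))} * N ≤ t * Fintype.card G := by
    intro u
    have h1 : Fintype.card {g : G // B (u + (g : U))} ≤
        ∑ x ∈ (hfin u).toFinset, Fintype.card {g : G // bad (u + (g : U)) x} := by
      have h2 : (Finset.univ.filter fun g : G => B (u + (g : U))) ⊆
          (hfin u).toFinset.biUnion fun x =>
            Finset.univ.filter fun g : G => bad (u + (g : U)) x := by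
        intro g hg
        obtain ⟨x, hx, hbx⟩ := (Finset.mem_filter.1 hg).2
        rw [hT u g g.2] at hx
        exact Finset.mem_biUnion.2 ⟨x, (hfin u).mem_toFinset.2 hx,
          Finset.mem_filter.2 ⟨Finset.mem_univ _, hbx⟩⟩
      have h3 := (Finset.card_le_card h2).trans Finset.card_biUnion_le
      rw [Fintype.card_subtype]
      refine h3.trans (le_of_eq (Finset.sum_congr rfl fun x _ => ?_))
      rw [Fintype.card_subtype]
    calc Fintype.card {g : G // B (u + (g : U))} * N
        ≤ (∑ x ∈ (hfin u).toFinset, Fintype.card {g : G // bad (u + (g : U)) x}) * N :=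
          Nat.mul_le_mul_right _ h1
      _ = ∑ x ∈ (hfin u).toFinset, Fintype.card {g : G // bad (u + (g : U)) x} * N :=
          Finset.sum_mul _ _ _
      _ ≤ ∑ x ∈ (hfin u).toFinset, Fintype.card G := by
          refine Finset.sum_le_sum fun x hx => ?_
          have := hb u x ((hfin u).mem_toFinset.1 hx)
          rwa [Nat.card_eq_fintype_card, Nat.card_eq_fintype_card] at this
      _ = (hfin u).toFinset.card * Fintype.card G := by rw [Finset.sum_const, smul_eq_mul]
      _ ≤ t * Fintype.card G := by
          refine Nat.mul_le_mul_right _ ?_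
          have := ht u
          rwa [Set.ncard_eq_toFinset_card _ (hfin u)] at this
  have hG : 0 < Fintype.card G := Fintype.card_pos
  rw [Nat.card_eq_fintype_card, Nat.card_eq_fintype_card]
  have h4 : Fintype.card G * (Fintype.card {u : U // B u} * N) ≤
      Fintype.card G * (t * Fintype.card U) := by
    calc Fintype.card G * (Fintype.card {u : U // B u} * N)
        = (∑ u : U, Fintype.card {g : G // B (u + (g : U))}) * N := by rw [hsum, mul_assoc]
      _ = ∑ u : U, Fintype.card {g : G // B (u + (g : U))} * N := Finset.sum_mul _ _ _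
      _ ≤ ∑ u : U, t * Fintype.card G := Finset.sum_le_sum fun u _ => hone u
      _ = Fintype.card G * (t * Fintype.card U) := by
          rw [Finset.sum_const, Finset.card_univ, smul_eq_mul]
          ring
  exact Nat.le_of_mul_le_mul_left h4 hG

end Pool.Agent.NT9
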