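import Pool.Agent.NT9.CfHeight
import Pool.Agent.NT9.CfExP

set_option autoImplicit false

/-! # CFBIG: components on which a coordinate takes many values -/

namespace Pool.Agent.NT9

open MvPolynomial

private theorem big_case_deg {σ k : Type} [Field k] (i : σ) (f : MvPolynomial σ k) :
    (pderiv i f).totalDegree ≤ f.totalDegree := by
  classical
  have h0 : pderiv i f = ∑ α ∈ f.support, pderiv i (monomial α (coeff α f)) := by
    conv_lhs => rw [f.as_sum]
    rw [map_sum]
  rw [h0]
  refine totalDegree_finsetSum_le fun α hα => ?_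
  rw [pderiv_monomial]
  refine (totalDegree_monomial_le _ _).trans (le_trans ?_ (le_totalDegree hα))
  have h1 : ∀ β γ : σ →₀ ℕ, β ≤ γ → (β.sum fun _ e => e) ≤ γ.sum fun _ e => e := by
    intro β γ h
    obtain ⟨δ, rfl⟩ := exists_add_of_le h
    rw [Finsupp.sum_add_index' (fun _ => rfl) (fun _ _ _ => rfl)]
    exact Nat.le_add_right _ _
  exact h1 _ _ tsub_le_self

/-- Proof: `coset_count` with `U = UU n k d`, the subgroup `G` of `exists_pert` (comap to `U`),
`T u` = the prime ideals of height `i`, minimal over `(∂_(σ j) (f₀ + u), j < i)`, with `Big Q l s`: it does not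
change when `g ∈ G` is added to `u`, since `σ j` is neither `σ i` nor `l` for `j < i`; `t` from `count_height` (the derivatives have degree at most
`max (deg f₀) d ≤ D`; the set `{j | j < i}` is the range of `Fin.castLE : Fin i → Fin n`). -/
theorem big_case {n : ℕ} {k : Type} [Field k] [Finite k] (σ : Equiv.Perm (Fin n)) (i l : Fin n)
    (hσ : ∀ j, j < i → σ j ≠ l) {s d e D : ℕ} (hs : s + 1 ≤ d) (he : 2 * e ≤ s + 1) (hD : d ≤ D)
    (f₀ : MvPolynomial (Fin n) k) (hf₀ : f₀.totalDegree ≤ D) :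
    Nat.card {u : UU n k d // ∃ Q : Ideal (MvPolynomial (Fin n) k),
        Q ∈ (Ideal.span ((fun j => pderiv (σ j) (f₀ + (u : MvPolynomial (Fin n) k))) ''
          {j | j < i})).minimalPrimes ∧ Q.height = ((i : ℕ) : ℕ∞) ∧ Big Q l s ∧
        pderiv (σ i) (f₀ + (u : MvPolynomial (Fin n) k)) ∈ Q} * Nat.card k ^ e ≤
      2 ^ n * (D + 1) ^ (n ^ 2) * Nat.card (UU n k d) := by
  classical
  have hUfin : Finite (UU n k d) := finite_UU n k d
  obtain ⟨G, hGU, hG0, hGcard⟩ := exists_pert (k := k) (σ i) l hs he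
  let G' : AddSubgroup (UU n k d) := (G.comap (UU n k d).subtype).toAddSubgroup
  let T : UU n k d → Set (Ideal (MvPolynomial (Fin n) k)) := fun u =>
    {Q | Q ∈ (Ideal.span ((fun j => pderiv (σ j) (f₀ + (u : MvPolynomial (Fin n) k))) ''
          {j | j < i})).minimalPrimes ∧ Q.height = ((i : ℕ) : ℕ∞) ∧ Big Q l s}
  have hmemG : ∀ g : UU n k d, g ∈ G' → (g : MvPolynomial (Fin n) k) ∈ G := fun g hg => hg
  -- the set does not change
  have hT : ∀ u, ∀ g ∈ G', T (u + g) = T u := by
    intro u g hg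
    have h1 : ((fun j => pderiv (σ j) (f₀ + ((u + g : UU n k d) : MvPolynomial (Fin n) k))) ''
          {j | j < i}) = ((fun j => pderiv (σ j) (f₀ + (u : MvPolynomial (Fin n) k))) ''
          {j | j < i}) := by
      refine Set.image_congr fun j hj => ?_
      rw [Submodule.coe_add, ← add_assoc, map_add (pderiv (σ j)) (f₀ + _),
        hG0 _ (hmemG g hg) (σ j) (fun h => (ne_of_lt hj) (σ.injective h)) (hσ j hj),
        add_zero]
    show {Q | Q ∈ (Ideal.span ((fun j => pderiv (σ j) (f₀ + ((u + g : UU n k d) :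
      MvPolynomial (Fin n) k))) '' {j | j < i})).minimalPrimes ∧
      Q.height = ((i : ℕ) : ℕ∞) ∧ Big Q l s} = _
    rw [h1]
  -- the number of components
  have hcount : ∀ u : UU n k d, (T u).Finite ∧ (T u).ncard ≤ 2 ^ n * (D + 1) ^ (n ^ 2) := by
    intro u
    let g : Fin (i : ℕ) → MvPolynomial (Fin n) k := fun j =>
      pderiv (σ (Fin.castLE i.is_le' j)) (f₀ + (u : MvPolynomial (Fin n) k))
    have hg : ∀ j, (g j).totalDegree ≤ D := by
      intro j
      have h2 : (f₀ + (u : MvPolynomial (Fin n) k)).totalDegree ≤ D := by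
        refine (totalDegree_add _ _).trans (max_le hf₀ ?_)
        exact ((mem_restrictTotalDegree _ _ _).1 u.2).trans hD
      exact (big_case_deg _ _).trans h2
    have hrange : Set.range g = (fun j => pderiv (σ j) (f₀ + (u : MvPolynomial (Fin n) k))) ''
        {j | j < i} := by
      ext y
      constructor
      · rintro ⟨j, rfl⟩
        exact ⟨Fin.castLE i.is_le' j, j.2, rfl⟩
      · rintro ⟨j, hj, rfl⟩
        exact ⟨⟨(j : ℕ), hj⟩, rfl⟩
    have h3 := count_height g hg
    rw [hrange] at h3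
    have hsub : T u ⊆ {Q : Ideal (MvPolynomial (Fin n) k) | Q ∈ (Ideal.span
      ((fun j => pderiv (σ j) (f₀ + (u : MvPolynomial (Fin n) k))) '' {j | j < i})).minimalPrimes ∧
      Q.height = (((i : ℕ) : ℕ) : ℕ∞)} := fun Q hQ => ⟨hQ.1, hQ.2.1⟩
    exact ⟨h3.1.subset hsub, (Set.ncard_le_ncard hsub h3.1).trans h3.2⟩
  let bad : UU n k d → Ideal (MvPolynomial (Fin n) k) → Prop := fun u Q =>
    pderiv (σ i) (f₀ + (u : MvPolynomial (Fin n) k)) ∈ Q
  have hb : ∀ u, ∀ Q ∈ T u,
      Nat.card {g : G' // bad (u + (g : UU n k d)) Q} * Nat.card k ^ e ≤ Nat.card G' := by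
    intro u Q hQ
    have h1 := hGcard Q hQ.2.2 (pderiv (σ i) (f₀ + (u : MvPolynomial (Fin n) k)))
    let E : G' ≃ G :=
      { toFun := fun g => ⟨((g : UU n k d) : MvPolynomial (Fin n) k), hmemG g g.2⟩
        invFun := fun g => ⟨⟨(g : MvPolynomial (Fin n) k), hGU g.2⟩, g.2⟩
        left_inv := fun g => rfl
        right_inv := fun g => rfl }
    have h2 : Nat.card G' = Nat.card G := Nat.card_congr E
    have h3 : Nat.card {g : G' // bad (u + (g : UU n k d)) Q} =
        Nat.card {g : G // pderiv (σ i) (f₀ + (u : MvPolynomial (Fin n) k)) +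
          pderiv (σ i) (g : MvPolynomial (Fin n) k) ∈ Q} := by
      refine Nat.card_congr (E.subtypeEquiv fun g => ?_)
      show pderiv (σ i) (f₀ + ((u + (g : UU n k d) : UU n k d) : MvPolynomial (Fin n) k)) ∈ Q ↔
        pderiv (σ i) (f₀ + (u : MvPolynomial (Fin n) k)) +
          pderiv (σ i) ((g : UU n k d) : MvPolynomial (Fin n) k) ∈ Q
      rw [Submodule.coe_add, ← add_assoc, map_add (pderiv (σ i)) (f₀ + _)]
    rw [h2, h3]
    exact h1
  have key := coset_count G' T hT (fun u => (hcount u).1) (fun u => (hcount u).2) bad hb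
  refine le_trans (le_of_eq ?_) key
  congr 1
  refine Nat.card_congr (Equiv.subtypeEquivRight fun u => ?_)
  constructor
  · rintro ⟨Q, h1, h2, h3, h4⟩
    exact ⟨Q, ⟨h1, h2, h3⟩, h4⟩
  · rintro ⟨Q, ⟨h1, h2, h3⟩, h4⟩
    exact ⟨Q, h1, h2, h3, h4⟩

end Pool.Agent.NT9
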