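import Pool.Agent.NT9.CfHt

set_option autoImplicit false

/-! # CFCOORD: prime ideals of height `i` and maximal ideals over `k (y_J)` -/

namespace Pool.Agent.NT9

open MvPolynomial

/-- `k [y] → k [y_J] [y_l, l ∉ J]`. -/
private noncomputable def thF {n : ℕ} (k : Type) [Field k] (J : Finset (Fin n)) :
    MvPolynomial (Fin n) k →+* MvPolynomial {x : Fin n // x ∉ J} (MvPolynomial {x : Fin n // x ∈ J} k) :=
  eval₂Hom (C.comp C) (fun l => if h : l ∈ J then C (X ⟨l, h⟩) else X ⟨l, h⟩)

/-- the inverse -/
private noncomputable def thG {n : ℕ} (k : Type) [Field k] (J : Finset (Fin n)) :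
    MvPolynomial {x : Fin n // x ∉ J} (MvPolynomial {x : Fin n // x ∈ J} k) →+* MvPolynomial (Fin n) k :=
  eval₂Hom ((rename (R := k) (Subtype.val : {x : Fin n // x ∈ J} → Fin n)).toRingHom)
    (fun l => X l.1)

private lemma thF_C {n : ℕ} (k : Type) [Field k] (J : Finset (Fin n)) (a : k) :
    thF k J (C a) = C (C a) := by
  simp [thF]

private lemma thF_X {n : ℕ} (k : Type) [Field k] (J : Finset (Fin n)) {l : Fin n} (h : l ∈ J) :
    thF k J (X l) = C (X ⟨l, h⟩) := by
  simp [thF, h]

private lemma thF_X' {n : ℕ} (k : Type) [Field k] (J : Finset (Fin n)) {l : Fin n} (h : l ∉ J) :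
    thF k J (X l) = X ⟨l, h⟩ := by
  simp [thF, h]

private noncomputable def thE {n : ℕ} (k : Type) [Field k] (J : Finset (Fin n)) :
    MvPolynomial (Fin n) k ≃+*
      MvPolynomial {x : Fin n // x ∉ J} (MvPolynomial {x : Fin n // x ∈ J} k) :=
  RingEquiv.ofRingHom (thF k J) (thG k J)
    (by
      apply MvPolynomial.ringHom_ext'
      · apply MvPolynomial.ringHom_ext
        · intro a
          simp [thG, thF_C]
        · intro j
          simp [thG, thF_X k J j.2]
      · intro l
        simp [thG, thF_X' k J l.2])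
    (by
      apply MvPolynomial.ringHom_ext
      · intro a
        simp [thG, thF_C]
      · intro l
        by_cases h : l ∈ J
        · simp [thG, thF_X k J h]
        · simp [thG, thF_X' k J h])

private lemma th_eq {n : ℕ} (k : Type) [Field k] (J : Finset (Fin n)) :
    Th k J = (MvPolynomial.map (algebraMap (MvPolynomial {x : Fin n // x ∈ J} k) (KJ k J))).comp
      (thF k J) := by
  apply MvPolynomial.ringHom_ext
  · intro a
    simp [Th, thF_C]
  · intro l
    by_cases h : l ∈ J
    · simp [Th, thF_X k J h, h]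
    · simp [Th, thF_X' k J h, h]

private lemma thF_rename {n : ℕ} (k : Type) [Field k] (J : Finset (Fin n))
    (w : MvPolynomial {x : Fin n // x ∈ J} k) :
    thF k J (rename (Subtype.val : {x : Fin n // x ∈ J} → Fin n) w) = C w := by
  have h : (thF k J).comp ((rename (R := k) (Subtype.val : {x : Fin n // x ∈ J} → Fin n)).toRingHom) =
      C := by
    apply MvPolynomial.ringHom_ext
    · intro a
      simp [thF_C]
    · intro j
      simp [thF_X k J j.2]
  exact RingHom.congr_fun h w

/-- `k (y_J) [y_l, l ∉ J]` is the localisation of `k [y]` at the nonzero polynomials in `y_J`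
(`k [y] ≃ k [y_J] [y_l, l ∉ J]`, then the coefficients are localised). -/
theorem th_loc {n : ℕ} (k : Type) [Field k] (J : Finset (Fin n)) :
    @IsLocalization _ _
      (Submonoid.map (rename (R := k) (Subtype.val : {x : Fin n // x ∈ J} → Fin n)).toRingHom
        (nonZeroDivisors (MvPolynomial {x : Fin n // x ∈ J} k)))
      (MvPolynomial {x : Fin n // x ∉ J} (KJ k J)) _ (Th k J).toAlgebra := by
  let : Algebra (MvPolynomial (Fin n) k) (MvPolynomial {x : Fin n // x ∉ J} (KJ k J)) :=
    (Th k J).toAlgebra
  let : Algebra (MvPolynomial {x : Fin n // x ∉ J} (MvPolynomial {x : Fin n // x ∈ J} k))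
      (MvPolynomial {x : Fin n // x ∉ J} (KJ k J)) := MvPolynomial.algebraMvPolynomial
  have : IsLocalization ((nonZeroDivisors (MvPolynomial {x : Fin n // x ∈ J} k)).map
      (C (σ := {x : Fin n // x ∉ J}))) (MvPolynomial {x : Fin n // x ∉ J} (KJ k J)) :=
    MvPolynomial.isLocalization _ _
  refine IsLocalization.of_ringEquiv_left (thE k J)
    (M₁ := (nonZeroDivisors (MvPolynomial {x : Fin n // x ∈ J} k)).map
      (C (σ := {x : Fin n // x ∉ J}))) ?_ ?_
  · apply Submonoid.ext
    intro x
    constructor
    · rintro ⟨_, ⟨w, hw, rfl⟩, rfl⟩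
      exact ⟨w, hw, (thF_rename k J w).symm⟩
    · rintro ⟨w, hw, rfl⟩
      exact ⟨_, ⟨w, hw, rfl⟩, thF_rename k J w⟩
  · intro x
    change Th k J x = MvPolynomial.map _ (thF k J x)
    rw [th_eq]
    rfl

/-- The degree in the remaining variables. -/
theorem th_degree {n : ℕ} (k : Type) [Field k] (J : Finset (Fin n)) (g : MvPolynomial (Fin n) k) :
    (Th k J g).totalDegree ≤ g.totalDegree := by
  unfold Th
  rw [coe_eval₂Hom, eval₂_eq]
  refine totalDegree_finsetSum_le ?_
  intro d hd
  refine (totalDegree_mul _ _).trans ?_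
  rw [RingHom.comp_apply, totalDegree_C, zero_add]
  refine (totalDegree_finsetProd _ _).trans ?_
  refine le_trans ?_ (le_totalDegree hd)
  rw [Finsupp.sum]
  refine Finset.sum_le_sum ?_
  intro l _
  refine (totalDegree_pow _ _).trans ?_
  by_cases h : l ∈ J
  · simp [h]
  · simp [h, totalDegree_X]

private lemma th_inj {n : ℕ} (k : Type) [Field k] (J : Finset (Fin n)) :
    Function.Injective (Th k J) := by
  let : Algebra (MvPolynomial (Fin n) k) (MvPolynomial {x : Fin n // x ∉ J} (KJ k J)) :=
    (Th k J).toAlgebra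
  have := th_loc k J
  refine IsLocalization.injective (R := MvPolynomial (Fin n) k)
    (M := Submonoid.map (rename (R := k) (Subtype.val : {x : Fin n // x ∈ J} → Fin n)).toRingHom
        (nonZeroDivisors (MvPolynomial {x : Fin n // x ∈ J} k)))
    (S := MvPolynomial {x : Fin n // x ∉ J} (KJ k J)) ?_
  exact map_le_nonZeroDivisors_of_injective _ (rename_injective _ Subtype.val_injective) le_rfl

/-- `k [y_J, y_l] → k (y_J) [t]`. -/
private noncomputable def thP {n : ℕ} (k : Type) [Field k] (J : Finset (Fin n)) (l : Fin n) :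
    MvPolynomial {x : Fin n // x ∈ insert l J} k →+* Polynomial (KJ k J) :=
  eval₂Hom (Polynomial.C.comp ((algebraMap (MvPolynomial {x : Fin n // x ∈ J} k) (KJ k J)).comp C))
    (fun j => if h : j.1 ∈ J then Polynomial.C
      (algebraMap (MvPolynomial {x : Fin n // x ∈ J} k) (KJ k J) (X ⟨j.1, h⟩)) else Polynomial.X)

private lemma thP_eq {n : ℕ} (k : Type) [Field k] (J : Finset (Fin n)) (l : Fin n) (hl : l ∉ J)
    (p : MvPolynomial {x : Fin n // x ∈ insert l J} k) :
    Polynomial.aeval (X ⟨l, hl⟩ : MvPolynomial {x : Fin n // x ∉ J} (KJ k J)) (thP k J l p) =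
      Th k J (rename Subtype.val p) := by
  have h : ((Polynomial.aeval (X ⟨l, hl⟩ : MvPolynomial {x : Fin n // x ∉ J} (KJ k J)) :
      Polynomial (KJ k J) →ₐ[KJ k J] _) : Polynomial (KJ k J) →+* _).comp (thP k J l) =
      (Th k J).comp ((rename (R := k) (Subtype.val : {x : Fin n // x ∈ insert l J} → Fin n)) :
        MvPolynomial {x : Fin n // x ∈ insert l J} k →+* _) := by
    apply MvPolynomial.ringHom_ext
    · intro a
      simp [thP, Th]
    · intro j
      by_cases hj : j.1 ∈ J
      · simp [thP, Th, hj]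
      · have : j.1 = l := by
          have := j.2
          rw [Finset.mem_insert] at this
          exact this.resolve_right hj
        obtain ⟨j, hj'⟩ := j
        simp only at this hj
        subst this
        simp [thP, Th, hj]
  exact RingHom.congr_fun h p

private lemma th_field {F B σ : Type*} [Field F] [CommRing B] [IsDomain B] [Algebra F B]
    (φ : MvPolynomial σ F →ₐ[F] B) (hφ : Function.Surjective φ)
    (h : ∀ l, IsIntegral F (φ (X l))) : IsField B := by
  have hint : Algebra.IsIntegral F B := by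
    refine ⟨fun b => ?_⟩
    obtain ⟨g, rfl⟩ := hφ b
    induction g using MvPolynomial.induction_on with
    | C a =>
      have : φ (C a) = algebraMap F B a := φ.commutes a
      rw [this]
      exact isIntegral_algebraMap
    | add p q hp hq => rw [map_add]; exact hp.add hq
    | mul_X p l hp => rw [map_mul]; exact hp.mul (h l)
  exact isField_of_isIntegral_of_isField' (Field.toIsField F)

private lemma th_maximal {F σ : Type*} [Field F] (M : Ideal (MvPolynomial σ F)) [M.IsPrime]
    (h : ∀ l, ∃ P : Polynomial F, P ≠ 0 ∧ Polynomial.aeval (X l : MvPolynomial σ F) P ∈ M) :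
    M.IsMaximal := by
  apply Ideal.Quotient.maximal_of_isField
  refine th_field (Ideal.Quotient.mkₐ F M) (Ideal.Quotient.mkₐ_surjective F M) ?_
  intro l
  obtain ⟨P, hP, hPM⟩ := h l
  refine IsAlgebraic.isIntegral ⟨P, hP, ?_⟩
  rw [Polynomial.aeval_algHom_apply]
  exact Ideal.Quotient.eq_zero_iff_mem.mpr hPM

/-- A prime ideal `Q` of height `i` is the contraction of a maximal ideal of `k (y_J) [y_l, l ∉ J]`
for some `J` with `n - i` elements.
Proof: let `J` be maximal such that `Q` contains no nonzero polynomial in `y_J`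
(`J` = a transcendence basis of `Frac (k [y] / Q)` consisting of coordinates). `Q` generates a prime
ideal `M` of the localisation `k (y_J) [y_l, l ∉ J]` (`th_loc`) with contraction `Q` and the same height
(`IsLocalization.height_under` or `height_comap`). By maximality of `J` every `y_l` is algebraic over
`k (y_J)` modulo `M` (a nonzero polynomial in `y_J, y_l` in `Q` is not constant in `y_l`), so the
quotient by `M` is a domain, integral over the field `k (y_J)`: `M` is maximal. By `ht_max`,
`i = height M = n - card J`. -/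
theorem exists_coords {n i : ℕ} {k : Type} [Field k] (Q : Ideal (MvPolynomial (Fin n) k))
    [Q.IsPrime] (hQ : Q.height = (i : ℕ∞)) :
    ∃ J : Finset (Fin n), J.card + i = n ∧
      ∃ M : Ideal (MvPolynomial {x : Fin n // x ∉ J} (KJ k J)), M.IsMaximal ∧
        M.comap (Th k J) = Q := by
  classical
  have hex : ∃ J : Finset (Fin n), Maximal (fun J : Finset (Fin n) =>
      ∀ p : MvPolynomial {x : Fin n // x ∈ J} k, rename Subtype.val p ∈ Q → p = 0) J := by
    refine (Set.toFinite {J : Finset (Fin n) |
      ∀ p : MvPolynomial {x : Fin n // x ∈ J} k, rename Subtype.val p ∈ Q → p = 0}).exists_maximal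
      ⟨∅, ?_⟩
    intro p hp
    have : IsEmpty {x : Fin n // x ∈ (∅ : Finset (Fin n))} := ⟨fun x => absurd x.2 (Finset.notMem_empty _)⟩
    rw [MvPolynomial.eq_C_of_isEmpty p] at hp ⊢
    rw [rename_C] at hp
    by_contra hne
    refine (Ideal.IsPrime.ne_top ‹Q.IsPrime›) (Ideal.eq_top_of_isUnit_mem Q hp ?_)
    rw [MvPolynomial.isUnit_iff_eq_C_of_isReduced]
    refine ⟨_, ?_, rfl⟩
    refine isUnit_iff_ne_zero.mpr fun h => hne ?_
    rw [h, C_0]
  obtain ⟨J, hJ, hmax⟩ := hex
  let : Algebra (MvPolynomial (Fin n) k) (MvPolynomial {x : Fin n // x ∉ J} (KJ k J)) :=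
    (Th k J).toAlgebra
  have := th_loc k J
  set W := Submonoid.map (rename (R := k) (Subtype.val : {x : Fin n // x ∈ J} → Fin n)).toRingHom
        (nonZeroDivisors (MvPolynomial {x : Fin n // x ∈ J} k)) with hW
  have hdisj : Disjoint (W : Set (MvPolynomial (Fin n) k)) (Q : Set (MvPolynomial (Fin n) k)) := by
    rw [Set.disjoint_left]
    rintro _ ⟨w, hw, rfl⟩ hQ'
    exact nonZeroDivisors.ne_zero hw (hJ w hQ')
  set M : Ideal (MvPolynomial {x : Fin n // x ∉ J} (KJ k J)) := Q.map (Th k J) with hMdef
  have hM : M.IsPrime := IsLocalization.isPrime_of_isPrime_disjoint W _ Q inferInstance hdisj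
  have hMc : M.comap (Th k J) = Q :=
    IsLocalization.under_map_of_isPrime_disjoint W _ inferInstance hdisj
  -- every coordinate is algebraic
  have halg : ∀ l : {x : Fin n // x ∉ J}, ∃ P : Polynomial (KJ k J), P ≠ 0 ∧
      Polynomial.aeval (X l : MvPolynomial {x : Fin n // x ∉ J} (KJ k J)) P ∈ M := by
    rintro ⟨l, hl⟩
    have hnot : ¬ ∀ p : MvPolynomial {x : Fin n // x ∈ insert l J} k,
        rename Subtype.val p ∈ Q → p = 0 := by
      intro h
      have := hmax h (Finset.subset_insert l J)
      exact hl (this (Finset.mem_insert_self l J))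
    push Not at hnot
    obtain ⟨p, hpQ, hp0⟩ := hnot
    have h1 := thP_eq k J l hl p
    have h2 : thP k J l p ≠ 0 := by
      intro h0
      rw [h0, map_zero] at h1
      have h3 := th_inj k J (h1.symm.trans (map_zero (Th k J)).symm)
      exact hp0 (rename_injective _ Subtype.val_injective (h3.trans (map_zero _).symm))
    refine ⟨thP k J l p, h2, ?_⟩
    rw [h1]
    exact Ideal.mem_map_of_mem _ hpQ
  have hMm : M.IsMaximal := th_maximal M halg
  refine ⟨J, ?_, M, hMm, hMc⟩
  have h1 : M.height = (Fintype.card {x : Fin n // x ∉ J} : ℕ∞) := ht_max _ _ M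
  have h2 : (M.under (MvPolynomial (Fin n) k)).height = M.height := IsLocalization.height_under W M
  have h3 : M.under (MvPolynomial (Fin n) k) = Q := hMc
  rw [h3, hQ, h1] at h2
  have h4 : i = Fintype.card {x : Fin n // x ∉ J} := by exact_mod_cast h2
  have h5 := Fintype.card_subtype_compl (fun x : Fin n => x ∈ J)
  rw [Fintype.card_coe, Fintype.card_fin] at h5
  have h6 : J.card ≤ n := by simpa using J.card_le_univ
  omega

/-- Minimality passes to the localisation (`th_loc`; a prime ideal of the localisation is determined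
by its contraction). -/
theorem min_of_min {n : ℕ} {k : Type} [Field k] (J : Finset (Fin n))
    (I : Ideal (MvPolynomial (Fin n) k)) (M : Ideal (MvPolynomial {x : Fin n // x ∉ J} (KJ k J)))
    [M.IsPrime] (h : M.comap (Th k J) ∈ I.minimalPrimes) : M ∈ (I.map (Th k J)).minimalPrimes := by
  let : Algebra (MvPolynomial (Fin n) k) (MvPolynomial {x : Fin n // x ∉ J} (KJ k J)) :=
    (Th k J).toAlgebra
  have := th_loc k J
  refine ⟨⟨inferInstance, Ideal.map_le_iff_le_comap.mpr h.1.2⟩, ?_⟩
  rintro N ⟨hN, hIN⟩ hNM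
  have h1 : M.comap (Th k J) ≤ N.comap (Th k J) :=
    h.2 ⟨Ideal.comap_isPrime _ N, Ideal.map_le_iff_le_comap.mp hIN⟩ (Ideal.comap_mono hNM)
  have h2 : ∀ I : Ideal (MvPolynomial {x : Fin n // x ∉ J} (KJ k J)),
      (I.comap (Th k J)).map (Th k J) = I := fun I =>
    IsLocalization.map_under (Submonoid.map (rename (R := k)
      (Subtype.val : {x : Fin n // x ∈ J} → Fin n)).toRingHom
        (nonZeroDivisors (MvPolynomial {x : Fin n // x ∈ J} k))) _ I
  rw [← h2 M, ← h2 N]
  exact Ideal.map_mono h1

end Pool.Agent.NT9
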