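import Pool.Agent.NT9.CfHt

set_option autoImplicit false

/-! # CFFIRST: the first equation which fails to cut down the dimension -/

namespace Pool.Agent.NT9

open MvPolynomial

private theorem fb_alg {n : ℕ} {k : Type} [Field k] (P : Ideal (MvPolynomial (Fin n) k))
    [P.IsPrime] (hP : ¬ P.IsMaximal) : ∃ l : Fin n, ∀ h : Polynomial k,
      Polynomial.aeval (X l : MvPolynomial (Fin n) k) h ∈ P → h = 0 := by
  by_contra hcon
  push Not at hcon
  apply hP
  have hint : ∀ f : MvPolynomial (Fin n) k, IsIntegral k (Ideal.Quotient.mkₐ k P f) := by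
    intro f
    induction f using MvPolynomial.induction_on with
    | C a =>
      have h1 : Ideal.Quotient.mkₐ k P (C a) = algebraMap k _ a := rfl
      rw [h1]
      exact isIntegral_algebraMap
    | add p q hp hq => rw [map_add]; exact hp.add hq
    | mul_X p l hp =>
      rw [map_mul]
      refine hp.mul ?_
      obtain ⟨h, hh, hh0⟩ := hcon l
      refine IsAlgebraic.isIntegral ⟨h, hh0, ?_⟩
      rw [Polynomial.aeval_algHom_apply]
      exact Ideal.Quotient.eq_zero_iff_mem.2 hh
  have hI : Algebra.IsIntegral k (MvPolynomial (Fin n) k ⧸ P) := ⟨fun x => by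
    obtain ⟨f, rfl⟩ := Ideal.Quotient.mk_surjective x
    exact hint f⟩
  exact Ideal.Quotient.maximal_of_isField P
    (isField_of_isIntegral_of_isField' (R := k) (Field.toIsField k))

private theorem fb_prime {n : ℕ} {k : Type} [Field k] [Finite k]
    (I : Ideal (MvPolynomial (Fin n) k)) (h : ¬ Finite (MvPolynomial (Fin n) k ⧸ I)) :
    ∃ P : Ideal (MvPolynomial (Fin n) k), P.IsPrime ∧ ¬ P.IsMaximal ∧ I ≤ P := by
  have h1 : ¬ Ring.KrullDimLE 0 (MvPolynomial (Fin n) k ⧸ I) := by
    intro hk
    apply h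
    have h2 : Module.Finite k (MvPolynomial (Fin n) k ⧸ I) :=
      (Module.finite_iff_krullDimLE_zero k _).2 hk
    exact Module.finite_of_finite k
  rw [Ring.krullDimLE_zero_iff] at h1
  push Not at h1
  obtain ⟨P', hP', hP'm⟩ := h1
  refine ⟨P'.comap (Ideal.Quotient.mk I), Ideal.comap_isPrime _ _, fun hm => hP'm ?_, ?_⟩
  · have h3 := Ideal.map_comap_of_surjective (Ideal.Quotient.mk I) Ideal.Quotient.mk_surjective P'
    rw [← h3]
    rcases Ideal.map_eq_top_or_isMaximal_of_surjective (Ideal.Quotient.mk I)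
      Ideal.Quotient.mk_surjective hm with h4 | h4
    · rw [h3] at h4
      exact absurd h4 hP'.ne_top
    · exact h4
  · intro x hx
    show Ideal.Quotient.mk I x ∈ P'
    rw [Ideal.Quotient.eq_zero_iff_mem.2 hx]
    exact P'.zero_mem

/-- If `k [y_1..y_n] / (D_1..D_n)` is not finite, there is a variable `y_l` such that for every order
`σ` of the equations there are an index `i` and a prime ideal `Q` of height `i` (counted from `0`),
minimal over `(D_(σ j), j < i)`, which contains `D_(σ i)` and modulo which `y_l` is transcendental.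
Proof: some prime ideal `P` containing all `D_j` is not maximal and some variable `y_l` is
transcendental modulo `P` (otherwise the quotient by every prime ideal over `(D)` is a finite field, and
the quotient by `(D)` is an Artinian finitely generated algebra over the finite field `k`, hence
finite). Fix `σ`. Suppose there is no such `(i, Q)` with `Q ≤ P` (`Q ≤ P` implies `Big Q l s` for all `s`).
By induction on `i ≤ n`, every prime ideal `Q ≤ P` minimal over `(D_(σ j), j < i)` has height `i`: at
most `i` by Krull's height theorem (`Ideal.height_le_card_of_mem_minimalPrimes_span`); it contains a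
prime ideal `Q'` minimal over `(D_(σ j), j < i - 1)`, of height `i - 1`, `D_(σ (i-1)) ∉ Q'` by assumption,
so `Q' < Q`. For `i = n`, `P` contains a prime ideal minimal over all the equations, of height `n`,
which is maximal (`ht_lt`), so it is `P`: a contradiction to the choice of `P`. -/
theorem first_bad {n : ℕ} {k : Type} [Field k] [Finite k] (D : Fin n → MvPolynomial (Fin n) k)
    (h : ¬ Finite (MvPolynomial (Fin n) k ⧸ Ideal.span (Set.range D))) :
    ∃ l : Fin n, ∀ σ : Equiv.Perm (Fin n),
      ∃ (i : Fin n) (Q : Ideal (MvPolynomial (Fin n) k)),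
        Q ∈ (Ideal.span ((fun j => D (σ j)) '' {j | j < i})).minimalPrimes ∧
        Q.height = ((i : ℕ) : ℕ∞) ∧ D (σ i) ∈ Q ∧ ∀ s, Big Q l s := by
  classical
  obtain ⟨P, hP, hPm, hDP⟩ := fb_prime _ h
  obtain ⟨l, hl⟩ := fb_alg P hPm
  refine ⟨l, fun σ => ?_⟩
  by_contra hcon
  push Not at hcon
  have hDP' : ∀ j, D j ∈ P := fun j => hDP (Ideal.subset_span ⟨j, rfl⟩)
  -- the ideals
  set J : ℕ → Ideal (MvPolynomial (Fin n) k) := fun m =>
    Ideal.span ((fun j => D (σ j)) '' {j : Fin n | (j : ℕ) < m}) with hJ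
  have hJP : ∀ m, J m ≤ P := by
    intro m
    rw [hJ]
    simp only
    rw [Ideal.span_le]
    rintro _ ⟨j, -, rfl⟩
    exact hDP' (σ j)
  have hbig : ∀ Q : Ideal (MvPolynomial (Fin n) k), Q ≤ P → ∀ s, Big Q l s :=
    fun Q hQ s h _ hh => hl h (hQ hh)
  have hcard : ∀ m, m ≤ n → ((fun j => D (σ j)) '' {j : Fin n | (j : ℕ) < m}).ncard ≤ m := by
    intro m hm
    refine (Set.ncard_image_le (Set.toFinite _)).trans ?_
    have h1 : {j : Fin n | (j : ℕ) < m}.ncard ≤ (Set.Iio m).ncard := by
      refine Set.ncard_le_ncard_of_injOn (fun j => (j : ℕ)) (fun j hj => hj) ?_ (Set.finite_Iio m)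
      intro a _ b _ hab
      exact Fin.ext hab
    refine h1.trans ?_
    rw [← Finset.coe_Iio, Set.ncard_coe_finset]
    simp
  have key : ∀ m, m ≤ n → ∀ Q ∈ (J m).minimalPrimes, Q ≤ P → Q.height = (m : ℕ∞) := by
    intro m
    induction m with
    | zero =>
      intro _ Q hQ _
      have hJ0 : J 0 = ⊥ := by
        rw [hJ]
        simp
      rw [hJ0] at hQ
      have hQpr : Q.IsPrime := hQ.1.1
      have h1 : Q = ⊥ := by
        have h2 : (⊥ : Ideal (MvPolynomial (Fin n) k)).IsPrime := Ideal.isPrime_bot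
        exact le_bot_iff.1 (hQ.2 ⟨h2, le_rfl⟩ bot_le)
      rw [h1, Ideal.height_bot]
      rfl
    | succ m ih =>
      intro hm Q hQ hQP
      have hQpr : Q.IsPrime := hQ.1.1
      have hle : J m ≤ J (m + 1) := by
        rw [hJ]
        simp only
        refine Ideal.span_mono (Set.image_mono fun j hj => ?_)
        exact Nat.lt_succ_of_lt hj
      obtain ⟨Q', hQ', hQ'Q⟩ := Ideal.exists_minimalPrimes_le (hle.trans hQ.1.2)
      have hQ'pr : Q'.IsPrime := hQ'.1.1
      have hh := ih (by omega) Q' hQ' (hQ'Q.trans hQP)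
      have hnot : D (σ ⟨m, by omega⟩) ∉ Q' := by
        intro hmem
        obtain ⟨s, hs⟩ := hcon ⟨m, by omega⟩ Q' hQ' hh hmem
        exact hs (hbig Q' (hQ'Q.trans hQP) s)
      have hin : D (σ ⟨m, by omega⟩) ∈ Q :=
        hQ.1.2 (Ideal.subset_span ⟨⟨m, by omega⟩, Nat.lt_succ_self m, rfl⟩)
      have hlt : Q' < Q := lt_of_le_of_ne hQ'Q fun heq => hnot (heq ▸ hin)
      have h1 := Ideal.height_add_one_le_of_lt_of_isPrime hlt
      rw [hh] at h1
      have h2 : Q.height ≤ ((m + 1 : ℕ) : ℕ∞) := by
        refine (Ideal.height_le_card_of_mem_minimalPrimes_span (Set.toFinite _) hQ).trans ?_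
        exact_mod_cast hcard (m + 1) hm
      refine le_antisymm h2 ?_
      push_cast
      exact h1
  obtain ⟨Q, hQ, hQP⟩ := Ideal.exists_minimalPrimes_le (hJP n)
  have hQpr : Q.IsPrime := hQ.1.1
  have hQh := key n le_rfl Q hQ hQP
  have hQm : Q.IsMaximal := by
    by_contra hne
    have h1 := ht_lt k (Fin n) Q hne
    rw [hQh, Fintype.card_fin] at h1
    have : n + 1 ≤ n := by exact_mod_cast h1
    omega
  apply hPm
  rw [← hQm.eq_of_le hP.ne_top hQP]
  exact hQm

end Pool.Agent.NT9
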