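import Pool.Agent.NT9.CfDefs

set_option autoImplicit false

/-! # CFHT: heights of the maximal ideals of polynomial rings over fields

Mathlib: `Mathlib/RingTheory/KrullDimension/Polynomial.lean` (`height_eq_height_add_one` for a
maximal ideal of `R[X]` over its contraction, `MvPolynomial.ringKrullDim_of_isNoetherianRing`). -/

namespace Pool.Agent.NT9

open MvPolynomial

private theorem ht_max_aux (K : Type) [Field K] (τ : Type) [Finite τ] :
    ∀ M : Ideal (MvPolynomial τ K), M.IsMaximal → M.height = (Nat.card τ : ℕ∞) := by
  induction τ using Finite.induction_empty_option with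
  | of_equiv e H =>
    intro M hM
    rename_i α β
    let f : MvPolynomial β K ≃+* MvPolynomial α K := (renameEquiv K e.symm).toRingEquiv
    have h1 := H (M.map f) (Ideal.map_isMaximal_of_equiv f)
    rw [f.height_map] at h1
    rw [h1, Nat.card_congr e]
  | h_empty =>
    intro M hM
    let f : MvPolynomial PEmpty K ≃+* K := isEmptyRingEquiv K PEmpty
    have h1 : (M.map f).IsMaximal := Ideal.map_isMaximal_of_equiv f
    have h2 : M.map f = ⊥ := by
      rcases Ideal.eq_bot_or_top (M.map f) with h | h
      · exact h
      · exact absurd h h1.ne_top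
    have h3 := f.height_map M
    rw [h2, Ideal.height_bot] at h3
    rw [← h3]; simp
  | h_option IH =>
    intro M hM
    rename_i α _
    let f : MvPolynomial (Option α) K ≃+* Polynomial (MvPolynomial α K) :=
      (optionEquivLeft K α).toRingEquiv
    have h1 : (M.map f).IsMaximal := Ideal.map_isMaximal_of_equiv f
    have h2 : ((M.map f).comap Polynomial.C).IsMaximal :=
      Polynomial.isMaximal_comap_C_of_isJacobsonRing (M.map f)
    have h3 : (M.map f).height = ((M.map f).comap Polynomial.C).height + 1 := by
      have : (M.map f).LiesOver ((M.map f).comap Polynomial.C) := ⟨rfl⟩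
      exact Polynomial.height_eq_height_add_one _ _
    rw [f.height_map, IH _ h2] at h3
    rw [h3]
    simp [Nat.card_eq_fintype_card, Fintype.card_option]

/-- A maximal ideal of `K [z_τ]` has height `card τ`. Proof: `Fin m` by `renameEquiv` and
`finSuccEquiv`; the contraction of a maximal ideal of `A[X]` to `A = K [z_1..z_m]` is maximal (`A` is
a Jacobson ring: `Ideal.Polynomial.isMaximal_comap_C_of_isJacobsonRing`), induction with
`Polynomial.height_eq_height_add_one`. -/
theorem ht_max (K τ : Type) [Field K] [Fintype τ] (M : Ideal (MvPolynomial τ K))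
    [M.IsMaximal] : M.height = (Fintype.card τ : ℕ∞) := by
  rw [ht_max_aux K τ M ‹_›, Nat.card_eq_fintype_card]

/-- A prime ideal which is not maximal has smaller height (it is properly contained in a maximal
ideal). -/
theorem ht_lt (K τ : Type) [Field K] [Fintype τ] (Q : Ideal (MvPolynomial τ K))
    [Q.IsPrime] (hQ : ¬ Q.IsMaximal) : Q.height + 1 ≤ (Fintype.card τ : ℕ∞) := by
  obtain ⟨M, hM, hQM⟩ := Ideal.exists_le_maximal Q (Ideal.IsPrime.ne_top ‹_›)
  have hlt : Q < M := lt_of_le_of_ne hQM fun h => hQ (h ▸ hM)
  have := hM.isPrime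
  have h1 := Ideal.height_add_one_le_of_lt_of_isPrime hlt
  rwa [ht_max K τ M] at h1

end Pool.Agent.NT9
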