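import Pool.Agent.NT9.CfPert
import Pool.Agent.NT9.CfHt

set_option autoImplicit false

/-! # CFISO: isolated zeros satisfy the eliminated equations, and their number -/

namespace Pool.Agent.NT9

open MvPolynomial

/-- Let `M` be a maximal ideal, minimal over `(g_i)`, and `p`, `s` as in `pert_poly`. Then
`p (0, z_j) ∈ M`.
Proof: `A = K[ε] [z_τ]`, `M' = (M, ε)` = kernel of `A → K [z_τ] / M` (`ε ↦ 0`), a maximal ideal of
height `card τ + 1` (`A` is a polynomial ring in `card τ + 1` variables, `ht_max`, e.g. by
`MvPolynomial.optionEquivRight`). The ideal generated by the `g_i + ε z_i ^ (D + 1)` is contained in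
`M'`; let `P ≤ M'` be a prime ideal minimal over it. It has height at most `card τ` (Krull:
`Ideal.height_le_card_of_mem_minimalPrimes_span`), so `P ≠ M'`. If `ε ∈ P`, then `g_i ∈ P` and the
image of `P` under `ε ↦ 0` is a prime ideal of `K [z_τ]`, contained in `M` and containing the `g_i`,
so it is `M` and `P = M'`. So `ε ∉ P` and `p (z_j) ∈ P ≤ M'`; put `ε = 0`. -/
theorem iso_mem {K τ : Type} [Field K] [Fintype τ] (g : τ → MvPolynomial τ K) {D : ℕ}
    (j : τ) (p : Polynomial (Polynomial K)) (s : ℕ)
    (hp : (C (Polynomial.X ^ s) * Polynomial.aeval (X j : MvPolynomial τ (Polynomial K)) p :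
        MvPolynomial τ (Polynomial K)) ∈
        Ideal.span (Set.range fun i =>
          (MvPolynomial.map Polynomial.C (g i) + C Polynomial.X * X i ^ (D + 1) :
            MvPolynomial τ (Polynomial K))))
    (M : Ideal (MvPolynomial τ K)) [M.IsMaximal]
    (hM : M ∈ (Ideal.span (Set.range g)).minimalPrimes) :
    Polynomial.aeval (X j : MvPolynomial τ K) (p.map (Polynomial.evalRingHom (0 : K))) ∈ M := by
  classical
  set φ : MvPolynomial τ (Polynomial K) →+* MvPolynomial τ K :=
    MvPolynomial.map (Polynomial.evalRingHom (0 : K)) with hφ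
  set ψ : MvPolynomial τ K →+* MvPolynomial τ (Polynomial K) := MvPolynomial.map Polynomial.C with hψ
  have hφψ : ∀ x, φ (ψ x) = x := by
    intro x
    rw [hφ, hψ, MvPolynomial.map_map]
    have h1 : (Polynomial.evalRingHom (0 : K)).comp Polynomial.C = RingHom.id K := by
      ext x
      simp
    rw [h1, MvPolynomial.map_id]
  have hsurj : Function.Surjective φ := fun x => ⟨ψ x, hφψ x⟩
  set 𝔞 : Ideal (MvPolynomial τ (Polynomial K)) := Ideal.span (Set.range fun i =>
          (MvPolynomial.map Polynomial.C (g i) + C Polynomial.X * X i ^ (D + 1) :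
            MvPolynomial τ (Polynomial K))) with h𝔞
  set M' : Ideal (MvPolynomial τ (Polynomial K)) := M.comap φ with hM'
  have hM'max : M'.IsMaximal := Ideal.comap_isMaximal_of_surjective φ hsurj
  have hM'pr : M'.IsPrime := hM'max.isPrime
  have hε : φ (C Polynomial.X) = 0 := by
    rw [hφ, MvPolynomial.map_C]
    simp
  have hgM : ∀ i, g i ∈ M := fun i => hM.1.2 (Ideal.subset_span ⟨i, rfl⟩)
  have h𝔞M : 𝔞 ≤ M' := by
    rw [h𝔞, Ideal.span_le]
    rintro _ ⟨i, rfl⟩
    show φ (ψ (g i) + C Polynomial.X * X i ^ (D + 1)) ∈ M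
    rw [map_add, map_mul, hε, zero_mul, add_zero, hφψ]
    exact hgM i
  obtain ⟨P, hP, hPM⟩ := Ideal.exists_minimalPrimes_le h𝔞M
  have hPpr : P.IsPrime := hP.1.1
  -- the height of `M'`
  have hM'h : M'.height = ((Fintype.card τ + 1 : ℕ) : ℕ∞) := by
    have e := (MvPolynomial.optionEquivRight K τ).toRingEquiv
    have h1 : (M'.comap e).IsMaximal := Ideal.comap_isMaximal_of_equiv e
    have h2 := ht_max K (Option τ) (M'.comap e)
    rw [RingEquiv.height_comap, Fintype.card_option] at h2
    exact h2
  have hPh : P.height ≤ ((Fintype.card τ : ℕ) : ℕ∞) := by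
    refine (Ideal.height_le_card_of_mem_minimalPrimes_span (Set.finite_range _) hP).trans ?_
    have h1 : (Set.range fun i =>
          (MvPolynomial.map Polynomial.C (g i) + C Polynomial.X * X i ^ (D + 1) :
            MvPolynomial τ (Polynomial K))).ncard ≤ Fintype.card τ := by
      rw [← Set.image_univ]
      refine (Set.ncard_image_le Set.finite_univ).trans ?_
      rw [Set.ncard_univ, Nat.card_eq_fintype_card]
    exact_mod_cast h1
  have hne : P ≠ M' := by
    intro h
    rw [h, hM'h] at hPh
    have : Fintype.card τ + 1 ≤ Fintype.card τ := by exact_mod_cast hPh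
    omega
  have hεP : C Polynomial.X ∉ P := by
    intro hεP
    apply hne
    refine le_antisymm hPM ?_
    have hkerP : RingHom.ker φ ≤ P := by
      rw [hφ, MvPolynomial.ker_map, Polynomial.ker_evalRingHom, Ideal.map_span, Ideal.span_le]
      rintro _ ⟨x, hx, rfl⟩
      rw [Set.mem_singleton_iff] at hx
      rw [hx, Polynomial.C_0, sub_zero]
      exact hεP
    have hQpr : (P.comap ψ).IsPrime := Ideal.comap_isPrime ψ P
    have hgQ : Ideal.span (Set.range g) ≤ P.comap ψ := by
      rw [Ideal.span_le]
      rintro _ ⟨i, rfl⟩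
      show ψ (g i) ∈ P
      have h1 : ψ (g i) + C Polynomial.X * X i ^ (D + 1) ∈ P := hP.1.2 (Ideal.subset_span ⟨i, rfl⟩)
      have h2 : C Polynomial.X * X i ^ (D + 1) ∈ P := P.mul_mem_right _ hεP
      have h3 := P.sub_mem h1 h2
      rwa [add_sub_cancel_right] at h3
    have hQM : P.comap ψ ≤ M := by
      intro x hx
      have h1 : ψ x ∈ M' := hPM hx
      have h2 : φ (ψ x) ∈ M := h1
      rwa [hφψ] at h2
    have hMQ : M ≤ P.comap ψ := hM.2 ⟨hQpr, hgQ⟩ hQM
    intro y hy
    have h1 : φ y ∈ M := hy
    have h2 : ψ (φ y) ∈ P := hMQ h1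
    have h3 : y - ψ (φ y) ∈ P := by
      apply hkerP
      rw [RingHom.mem_ker, map_sub, hφψ, sub_self]
    have h4 := P.add_mem h3 h2
    rwa [sub_add_cancel] at h4
  have h1 : (C (Polynomial.X ^ s) * Polynomial.aeval (X j : MvPolynomial τ (Polynomial K)) p :
        MvPolynomial τ (Polynomial K)) ∈ P := hP.1.2 hp
  have h2 : Polynomial.aeval (X j : MvPolynomial τ (Polynomial K)) p ∈ P := by
    rcases hPpr.mem_or_mem h1 with h | h
    · rw [C_pow] at h
      exact absurd (hPpr.mem_of_pow_mem s h) hεP
    · exact h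
  have h3 : φ (Polynomial.aeval (X j : MvPolynomial τ (Polynomial K)) p) ∈ M := hPM h2
  have h4 : φ (Polynomial.aeval (X j : MvPolynomial τ (Polynomial K)) p) =
      Polynomial.aeval (X j : MvPolynomial τ K) (p.map (Polynomial.evalRingHom (0 : K))) := by
    rw [Polynomial.aeval_def, Polynomial.hom_eval₂, Polynomial.aeval_def, Polynomial.eval₂_map]
    congr 1
    · ext x
      · simp [hφ, MvPolynomial.algebraMap_eq]
      · simp [hφ, MvPolynomial.algebraMap_eq]
    · simp [hφ]
  rwa [h4] at h3

/-- finitely many distinct maximal ideals over an ideal with finite dimensional quotient -/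
private theorem max_card {K R : Type} [Field K] [CommRing R] [Algebra K R] (I : Ideal R)
    [Module.Finite K (R ⧸ I)] (s : Finset (Ideal R)) (hs : ∀ M ∈ s, M.IsMaximal ∧ I ≤ M) :
    s.card ≤ Module.finrank K (R ⧸ I) := by
  classical
  have hcop : Pairwise (Function.onFun IsCoprime fun M : s => (M : Ideal R)) := by
    intro M M' hne
    have := (hs M M.2).1
    have := (hs M' M'.2).1
    exact Ideal.isCoprime_of_isMaximal fun h => hne (Subtype.ext h)
  have hex : ∀ M : s, ∃ e : R, ∀ M' : s, e - (if M' = M then 1 else 0) ∈ (M' : Ideal R) := fun M =>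
    Ideal.exists_forall_sub_mem_ideal hcop _
  choose e he using hex
  have hli : LinearIndependent K fun M : s => Ideal.Quotient.mk I (e M) := by
    rw [Fintype.linearIndependent_iff]
    intro c hc M
    by_contra hne
    have h1 : (∑ M' : s, c M' • e M') ∈ I := by
      rw [← Ideal.Quotient.eq_zero_iff_mem, map_sum, ← hc]
      refine Finset.sum_congr rfl fun M' _ => ?_
      rw [← Ideal.Quotient.mkₐ_eq_mk K, map_smul]
    have h2 : (∑ M' : s, c M' • e M') ∈ (M : Ideal R) := (hs M M.2).2 h1
    have h3 : ∀ M' : s, c M' • e M' - c M' • (if M = M' then (1 : R) else 0) ∈ (M : Ideal R) := by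
      intro M'
      rw [← smul_sub, Algebra.smul_def]
      exact Ideal.mul_mem_left _ _ (he M' M)
    have h4 : (∑ M' : s, c M' • e M') - ∑ M' : s, c M' • (if M = M' then (1 : R) else 0) ∈
        (M : Ideal R) := by
      rw [← Finset.sum_sub_distrib]
      exact Ideal.sum_mem _ fun M' _ => h3 M'
    have h5 : (∑ M' : s, c M' • (if M = M' then (1 : R) else 0)) = algebraMap K R (c M) := by
      rw [Finset.sum_eq_single M]
      · rw [if_pos rfl, Algebra.smul_def, mul_one]
      · intro M' _ hM'
        rw [if_neg (Ne.symm hM'), smul_zero]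
      · intro h; exact absurd (Finset.mem_univ _) h
    rw [h5] at h4
    have h6 : algebraMap K R (c M) ∈ (M : Ideal R) := by
      have := Ideal.sub_mem _ h2 h4
      rwa [sub_sub_cancel] at this
    refine (hs M M.2).1.ne_top (Ideal.eq_top_of_isUnit_mem _ h6 ?_)
    exact (IsUnit.mk0 _ hne).map (algebraMap K R)
  have := hli.fintype_card_le_finrank
  simpa using this

/-- The number of maximal ideals which contain nonzero polynomials `P_j (z_j)` of degree at most
`N` for all `j` is at most `N ^ card τ`: the quotient by the `P_j (z_j)` has dimension at most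
`N ^ card τ` over `K` (monomials with exponents less than `N`), and a finite dimensional algebra
has at most as many maximal ideals as its dimension (Chinese remainder theorem). -/
theorem max_count {K τ : Type} [Field K] [Fintype τ] (P : τ → Polynomial K) {N : ℕ}
    (h0 : ∀ j, P j ≠ 0) (hN : ∀ j, (P j).natDegree ≤ N) :
    {M : Ideal (MvPolynomial τ K) | M.IsMaximal ∧
      ∀ j, Polynomial.aeval (X j : MvPolynomial τ K) (P j) ∈ M}.Finite ∧
    {M : Ideal (MvPolynomial τ K) | M.IsMaximal ∧
      ∀ j, Polynomial.aeval (X j : MvPolynomial τ K) (P j) ∈ M}.ncard ≤ N ^ Fintype.card τ := by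
  classical
  set T := {M : Ideal (MvPolynomial τ K) | M.IsMaximal ∧
      ∀ j, Polynomial.aeval (X j : MvPolynomial τ K) (P j) ∈ M} with hT
  by_cases hcase : N = 0 ∧ Nonempty τ
  · obtain ⟨rfl, ⟨j⟩⟩ := hcase
    have hTe : T = ∅ := by
      rw [Set.eq_empty_iff_forall_notMem]
      rintro M ⟨hM, hMj⟩
      have h1 : P j = Polynomial.C ((P j).coeff 0) :=
        Polynomial.eq_C_of_natDegree_le_zero (hN j)
      have h2 : (P j).coeff 0 ≠ 0 := by
        intro h
        rw [h, Polynomial.C_0] at h1
        exact h0 j h1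
      have h3 := hMj j
      rw [h1, Polynomial.aeval_C] at h3
      exact hM.ne_top (Ideal.eq_top_of_isUnit_mem _ h3
        ((IsUnit.mk0 _ h2).map (algebraMap K (MvPolynomial τ K))))
    rw [hTe]
    simp
  · have hND : N ≠ 0 ∨ IsEmpty τ := by
      by_cases hN0 : N = 0
      · right
        rw [← not_nonempty_iff]
        exact fun h => hcase ⟨hN0, h⟩
      · exact Or.inl hN0
    -- the perturbation data
    set D := N - 1 with hD
    let g : τ → MvPolynomial τ K := fun j =>
      Polynomial.aeval (X j : MvPolynomial τ K)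
        (Polynomial.X ^ (N - (P j).natDegree) * Polynomial.C ((P j).leadingCoeff)⁻¹ * P j -
          Polynomial.X ^ N)
    have hNpow : (D + 1) ^ Fintype.card τ = N ^ Fintype.card τ := by
      rcases hND with h | h
      · rw [hD, Nat.sub_add_cancel (Nat.pos_of_ne_zero h)]
      · rw [Fintype.card_eq_zero, pow_zero, pow_zero]
    have hlow : ∀ j, (Polynomial.X ^ (N - (P j).natDegree) *
        Polynomial.C ((P j).leadingCoeff)⁻¹ * P j - Polynomial.X ^ N).natDegree ≤ D := by
      intro j
      have hN1 : N ≠ 0 := by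
        rcases hND with h | h
        · exact h
        · exact (h.false j).elim
      set A := Polynomial.X ^ (N - (P j).natDegree) * Polynomial.C ((P j).leadingCoeff)⁻¹ * P j
        with hA
      have hlc : (P j).leadingCoeff ≠ 0 := Polynomial.leadingCoeff_ne_zero.2 (h0 j)
      have hmon : (Polynomial.C ((P j).leadingCoeff)⁻¹ * P j).Monic := by
        rw [Polynomial.Monic, Polynomial.leadingCoeff_mul, Polynomial.leadingCoeff_C,
          inv_mul_cancel₀ hlc]
      have hAm : A.Monic := by
        rw [hA, mul_assoc]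
        exact (Polynomial.monic_X_pow _).mul hmon
      have hAd : A.natDegree = N := by
        rw [hA, mul_assoc, (Polynomial.monic_X_pow _).natDegree_mul hmon,
          Polynomial.natDegree_X_pow, Polynomial.natDegree_C_mul (inv_ne_zero hlc)]
        have := hN j
        omega
      by_cases hz : A - Polynomial.X ^ N = 0
      · rw [hz, Polynomial.natDegree_zero]
        exact Nat.zero_le _
      · have hlt : (A - Polynomial.X ^ N).degree < A.degree := by
          refine Polynomial.degree_sub_lt_left ?_ hAm.ne_zero ?_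
          · rw [Polynomial.degree_X_pow, Polynomial.degree_eq_natDegree hAm.ne_zero, hAd]
          · rw [hAm.leadingCoeff, (Polynomial.monic_X_pow N).leadingCoeff]
        have := Polynomial.natDegree_lt_natDegree hz hlt
        omega
    have hg : ∀ j, (g j).totalDegree ≤ D := by
      intro j
      show (Polynomial.aeval (X j : MvPolynomial τ K) _).totalDegree ≤ D
      rw [Polynomial.aeval_eq_sum_range]
      refine totalDegree_finsetSum_le fun i hi => ?_
      rw [Finset.mem_range] at hi
      refine (totalDegree_smul_le _ _).trans ?_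
      rw [totalDegree_X_pow]
      have := hlow j
      omega
    obtain ⟨hfin, hrk⟩ := pert_dim g hg (a := (1 : K)) one_ne_zero
    set I := (Ideal.span (Set.range fun i => g i + C (1 : K) * X i ^ (D + 1)) :
      Ideal (MvPolynomial τ K)) with hI
    have hIM : ∀ M ∈ T, I ≤ M := by
      rintro M ⟨-, hMj⟩
      rw [hI, Ideal.span_le]
      rintro _ ⟨j, rfl⟩
      have hN1 : N ≠ 0 := by
        rcases hND with h | h
        · exact h
        · exact (h.false j).elim
      have h1 : g j + C (1 : K) * X j ^ (D + 1) =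
          (X j ^ (N - (P j).natDegree) * C ((P j).leadingCoeff)⁻¹) *
            Polynomial.aeval (X j : MvPolynomial τ K) (P j) := by
        show Polynomial.aeval (X j : MvPolynomial τ K) _ + _ = _
        rw [map_sub, map_mul, map_mul, map_pow, map_pow, Polynomial.aeval_X, Polynomial.aeval_C,
          hD, Nat.sub_add_cancel (Nat.pos_of_ne_zero hN1), C_1, one_mul, sub_add_cancel]
        rfl
      show g j + C (1 : K) * X j ^ (D + 1) ∈ M
      rw [h1]
      exact M.mul_mem_left _ (hMj j)
    have hbound : ∀ s : Finset (Ideal (MvPolynomial τ K)), (s : Set _) ⊆ T →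
        s.card ≤ N ^ Fintype.card τ := by
      intro s hs
      rw [← hNpow]
      refine (max_card (K := K) I s fun M hM => ⟨(hs hM).1, hIM M (hs hM)⟩).trans hrk
    have hTf : T.Finite := by
      by_contra hinf
      obtain ⟨s, hsT, hsc⟩ := Set.Infinite.exists_subset_card_eq hinf (N ^ Fintype.card τ + 1)
      have := hbound s hsT
      omega
    refine ⟨hTf, ?_⟩
    rw [Set.ncard_eq_toFinset_card T hTf]
    exact hbound _ (by simp)

/-- BEZOUT LITE: the number of isolated zeros of as many equations as variables, of degree at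
most `D`, over any field (from `pert_poly`, `iso_mem`, `max_count`). -/
theorem isolated_count {K τ ι : Type} [Field K] [Fintype τ] [Fintype ι]
    (hι : Fintype.card ι = Fintype.card τ) (g : ι → MvPolynomial τ K) {D : ℕ}
    (hg : ∀ i, (g i).totalDegree ≤ D) :
    {M : Ideal (MvPolynomial τ K) | M.IsMaximal ∧
      M ∈ (Ideal.span (Set.range g)).minimalPrimes}.Finite ∧
    {M : Ideal (MvPolynomial τ K) | M.IsMaximal ∧
      M ∈ (Ideal.span (Set.range g)).minimalPrimes}.ncard ≤ (D + 1) ^ (Fintype.card τ ^ 2) := by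
  classical
  let e : ι ≃ τ := Fintype.equivOfCardEq hι
  have hrange : Set.range (g ∘ e.symm) = Set.range g := by
    rw [Set.range_comp, e.symm.range_eq_univ, Set.image_univ]
  choose p s hp1 hp2 hp3 using fun j => pert_poly (g ∘ e.symm) (D := D) (fun i => hg (e.symm i)) j
  obtain ⟨hfin, hcard⟩ := max_count (fun j => (p j).map (Polynomial.evalRingHom (0 : K)))
    (N := (D + 1) ^ Fintype.card τ) hp2
    (fun j => (Polynomial.natDegree_map_le).trans (hp1 j))
  have hsub : {M : Ideal (MvPolynomial τ K) | M.IsMaximal ∧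
      M ∈ (Ideal.span (Set.range g)).minimalPrimes} ⊆ {M : Ideal (MvPolynomial τ K) |
      M.IsMaximal ∧ ∀ j, Polynomial.aeval (X j : MvPolynomial τ K)
        ((p j).map (Polynomial.evalRingHom (0 : K))) ∈ M} := by
    rintro M ⟨hM1, hM2⟩
    refine ⟨hM1, fun j => ?_⟩
    rw [← hrange] at hM2
    have := hM1
    exact iso_mem (g ∘ e.symm) j (p j) (s j) (hp3 j) M hM2
  refine ⟨hfin.subset hsub, (Set.ncard_le_ncard hsub hfin).trans (hcard.trans (le_of_eq ?_))⟩
  rw [← pow_mul, sq]

/-- BZ: the number of zeros of `n` equations of degree at most `D` with finite quotient: all prime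
ideals over `(g)` are maximal, hence minimal over `(g)`. -/
theorem bz {n : ℕ} {k : Type} [Field k] (g : Fin n → MvPolynomial (Fin n) k) {D : ℕ}
    (hg : ∀ i, (g i).totalDegree ≤ D)
    (hfin : Finite (MvPolynomial (Fin n) k ⧸ Ideal.span (Set.range g))) :
    {M : Ideal (MvPolynomial (Fin n) k) | M.IsMaximal ∧
      Ideal.span (Set.range g) ≤ M}.Finite ∧
    {M : Ideal (MvPolynomial (Fin n) k) | M.IsMaximal ∧
      Ideal.span (Set.range g) ≤ M}.ncard ≤ (D + 1) ^ (n ^ 2) := by
  have hsub : {M : Ideal (MvPolynomial (Fin n) k) | M.IsMaximal ∧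
      Ideal.span (Set.range g) ≤ M} ⊆ {M : Ideal (MvPolynomial (Fin n) k) | M.IsMaximal ∧
      M ∈ (Ideal.span (Set.range g)).minimalPrimes} := by
    rintro M ⟨hM1, hM2⟩
    refine ⟨hM1, ?_⟩
    have := hM1.isPrime
    obtain ⟨P, hP, hPM⟩ := Ideal.exists_minimalPrimes_le hM2
    have hPp : P.IsPrime := hP.1.1
    have : Finite (MvPolynomial (Fin n) k ⧸ P) :=
      Finite.of_surjective (Ideal.Quotient.factor hP.1.2)
        (Ideal.Quotient.factor_surjective hP.1.2)
    have hPmax : P.IsMaximal := Ideal.Quotient.maximal_of_isField P (Finite.isField_of_domain _)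
    have hPM' : P = M := hPmax.eq_of_le hM1.ne_top hPM
    rwa [← hPM']
  obtain ⟨hfin1, hcard⟩ := isolated_count (K := k) (τ := Fin n) (ι := Fin n) rfl g hg
  refine ⟨hfin1.subset hsub, (Set.ncard_le_ncard hsub hfin1).trans ?_⟩
  simpa using hcard

end Pool.Agent.NT9
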