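import Pool.Agent.NT9.CfCoord
import Pool.Agent.NT9.CfIso

set_option autoImplicit false

/-! # CFHEIGHT: the number of components of the expected dimension -/

namespace Pool.Agent.NT9

open MvPolynomial

/-- The number of prime ideals of height `i` which are minimal over `(g_1, ..., g_i)`, all `g_j` of
degree at most `D`. Proof: by `exists_coords`, `min_of_min`, each of them is the contraction of
a maximal ideal of `k (y_J) [y_l, l ∉ J]`, minimal over the ideal generated by the `Th k J (g_j)`, for
a `J` with `n - i` elements; `isolated_count`, `th_degree`; there are at most `2 ^ n` sets `J`, and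
`i ^ 2 ≤ n ^ 2`. -/
theorem count_height {n i : ℕ} {k : Type} [Field k] (g : Fin i → MvPolynomial (Fin n) k) {D : ℕ}
    (hg : ∀ j, (g j).totalDegree ≤ D) :
    {Q : Ideal (MvPolynomial (Fin n) k) | Q ∈ (Ideal.span (Set.range g)).minimalPrimes ∧
      Q.height = (i : ℕ∞)}.Finite ∧
    {Q : Ideal (MvPolynomial (Fin n) k) | Q ∈ (Ideal.span (Set.range g)).minimalPrimes ∧
      Q.height = (i : ℕ∞)}.ncard ≤ 2 ^ n * (D + 1) ^ (n ^ 2) := by
  classical
  set A : Set (Ideal (MvPolynomial (Fin n) k)) := {Q | Q ∈ (Ideal.span (Set.range g)).minimalPrimes ∧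
      Q.height = (i : ℕ∞)} with hA
  let W : Finset (Fin n) → Set (Ideal (MvPolynomial (Fin n) k)) := fun J =>
    if J.card + i = n then (fun M => M.comap (Th k J)) ''
      {M : Ideal (MvPolynomial {x : Fin n // x ∉ J} (KJ k J)) | M.IsMaximal ∧
        M ∈ (Ideal.span (Set.range fun j => Th k J (g j))).minimalPrimes} else ∅
  have hW : ∀ J, (W J).Finite ∧ (W J).ncard ≤ (D + 1) ^ (n ^ 2) := by
    intro J
    by_cases hJ : J.card + i = n
    · have hcard : Fintype.card {x : Fin n // x ∉ J} = i := by
        rw [Fintype.card_subtype_compl, Fintype.card_fin, Fintype.card_coe]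
        omega
      have h1 := isolated_count (K := KJ k J) (τ := {x : Fin n // x ∉ J}) (ι := Fin i)
        (by rw [hcard, Fintype.card_fin]) (fun j => Th k J (g j)) (D := D)
        (fun j => (th_degree k J (g j)).trans (hg j))
      simp only [W, if_pos hJ]
      refine ⟨h1.1.image _, (Set.ncard_image_le h1.1).trans (h1.2.trans ?_)⟩
      rw [hcard]
      have hin : i ≤ n := by omega
      exact Nat.pow_le_pow_right (Nat.succ_pos D) (Nat.pow_le_pow_left hin 2)
    · simp only [W, if_neg hJ]
      exact ⟨Set.finite_empty, by rw [Set.ncard_empty]; exact Nat.zero_le _⟩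
  have hsub : A ⊆ ⋃ J, W J := by
    rintro Q ⟨hQ, hht⟩
    have hQp : Q.IsPrime := hQ.1.1
    obtain ⟨J, hJ, M, hM, hMQ⟩ := exists_coords Q hht
    rw [Set.mem_iUnion]
    refine ⟨J, ?_⟩
    simp only [W, if_pos hJ]
    refine ⟨M, ⟨hM, ?_⟩, hMQ⟩
    have hMp : M.IsPrime := hM.isPrime
    have h1 := min_of_min J (Ideal.span (Set.range g)) M (by rw [hMQ]; exact hQ)
    rw [Ideal.map_span, ← Set.range_comp] at h1
    exact h1
  have hfin : (⋃ J, W J).Finite := Set.finite_iUnion fun J => (hW J).1
  refine ⟨hfin.subset hsub, (Set.ncard_le_ncard hsub hfin).trans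
    ((Set.ncard_iUnion_le_of_fintype W).trans ?_)⟩
  calc ∑ J, (W J).ncard ≤ ∑ _J : Finset (Fin n), (D + 1) ^ (n ^ 2) :=
        Finset.sum_le_sum fun J _ => (hW J).2
    _ = 2 ^ n * (D + 1) ^ (n ^ 2) := by
        rw [Finset.sum_const, Finset.card_univ, Fintype.card_finset, Fintype.card_fin, smul_eq_mul]

end Pool.Agent.NT9
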