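import Mathlib

set_option autoImplicit false

/-! # CFNUM: exponential growth beats polynomial growth -/

namespace Pool.Agent.NT9

private lemma cf_num_aux (C N : ℕ) : ∃ m₀ : ℕ, ∀ m : ℕ, m₀ ≤ m → C * m ^ N ≤ 2 ^ m := by
  have h := tendsto_pow_const_div_const_pow_of_one_lt N (one_lt_two : (1 : ℝ) < 2)
  have h2 := h.const_mul (C : ℝ)
  rw [mul_zero] at h2
  have h3 := h2.eventually (gt_mem_nhds (show (0 : ℝ) < 1 by norm_num))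
  rw [Filter.eventually_atTop] at h3
  obtain ⟨m₀, hm₀⟩ := h3
  refine ⟨m₀, fun m hm => ?_⟩
  have h4 := hm₀ m hm
  rw [← mul_div_assoc, div_lt_one (by positivity)] at h4
  have h5 : ((C * m ^ N : ℕ) : ℝ) < ((2 ^ m : ℕ) : ℝ) := by
    push_cast
    exact h4
  exact (Nat.cast_lt.1 h5).le

theorem cf_num (A B N : ℕ) : ∃ d₀ : ℕ, ∀ d : ℕ, d₀ ≤ d → 1 ≤ d ∧
    A * (B * d + 1) ^ N ≤ 2 ^ (d / 2) := by
  obtain ⟨m₀, hm₀⟩ := cf_num_aux (A * (3 * B + 1) ^ N) N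
  refine ⟨2 * m₀ + 2, fun d hd => ⟨by omega, ?_⟩⟩
  obtain ⟨m, hm⟩ : ∃ m, m = d / 2 := ⟨_, rfl⟩
  have h1 : 1 ≤ m := by omega
  have h2 : m₀ ≤ m := by omega
  have h3 : d ≤ 3 * m := by omega
  rw [← hm]
  have h4 : B * d + 1 ≤ (3 * B + 1) * m := by nlinarith
  calc A * (B * d + 1) ^ N ≤ A * ((3 * B + 1) * m) ^ N := by gcongr
    _ = A * (3 * B + 1) ^ N * m ^ N := by rw [mul_pow, mul_assoc]
    _ ≤ 2 ^ m := hm₀ m h2

end Pool.Agent.NT9
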