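import Pool.Agent.NT9.CfFirst
import Pool.Agent.NT9.CfBig
import Pool.Agent.NT9.CfNum

set_option autoImplicit false

/-! # CFMAIN: the critical locus of a random polynomial is finite -/

namespace Pool.Agent.NT9

open MvPolynomial

/-- CF: for every `n`, `E`, `B` there is `d₀` such that for all `d ≥ d₀`, all finite fields with `q`
elements and all `f₀` of degree at most `B d` the proportion of the `u` of degree at most `d` for which
`f₀ + u` has infinitely many critical points is at most `q ^ (-E)`.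
Proof: `n = 0`: the ring is `k`, finite. For `n ≥ 1`, `D = (B + 1) * d`, `s = d - 1`, `e = d / 2`: by `first_bad`
(with `D j = ∂_j (f₀ + u)`) and for `σ = Equiv.swap l (last)` (so that `σ j ≠ l` for `j < i`, as `j` is not
the last index) the bad `u` are contained in the union, over `l` and `i`, of the sets of `big_case`. So their
number times `q ^ e` is at most `n ^ 2 * 2 ^ n * (D + 1) ^ (n ^ 2) * card U`, and by `cf_num` (with
`A = 2 ^ E * n ^ 2 * 2 ^ n`) `q ^ E * n ^ 2 * 2 ^ n * (D + 1) ^ (n ^ 2) ≤ q ^ e`, since `q ^ (e - E) ≥ 2 ^ (e - E)`. -/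
theorem cf (n E B : ℕ) : ∃ d₀ : ℕ, ∀ d : ℕ, d₀ ≤ d → CFat n E B d := by
  classical
  rcases Nat.eq_zero_or_pos n with hn | hn
  · subst hn
    refine ⟨0, fun d _ k _ _ f₀ _ => ?_⟩
    have hfin : Finite (MvPolynomial (Fin 0) k) :=
      Finite.of_equiv k (isEmptyRingEquiv k (Fin 0)).symm.toEquiv
    have hemp : IsEmpty {u : UU 0 k d // ¬ Crit (f₀ + (u : MvPolynomial (Fin 0) k))} := by
      refine ⟨fun u => u.2 ?_⟩
      show Finite (MvPolynomial (Fin 0) k ⧸ _)
      exact Finite.of_surjective _ Ideal.Quotient.mk_surjective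
    rw [Nat.card_of_isEmpty, zero_mul]
    exact Nat.zero_le _
  obtain ⟨d₀, hd₀⟩ := cf_num (2 ^ E * n ^ 2 * 2 ^ n) (B + 1) (n ^ 2)
  refine ⟨d₀, fun d hd k _ _ f₀ hf₀ => ?_⟩
  obtain ⟨hd1, hnum⟩ := hd₀ d hd
  set q := Nat.card k with hq
  have hq2 : 2 ≤ q := Finite.one_lt_card
  set D := (B + 1) * d with hD
  have hdD : d ≤ D := by
    rw [hD]
    exact Nat.le_mul_of_pos_left _ (Nat.succ_pos B)
  have hfD : f₀.totalDegree ≤ D := hf₀.trans (by rw [hD]; exact Nat.mul_le_mul_right _ (Nat.le_succ B))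
  set e := d / 2 with he
  have hfinU := finite_UU n k d
  let last : Fin n := ⟨n - 1, by omega⟩
  let S : Fin n → Fin n → Set (UU n k d) := fun l i => {u | ∃ Q : Ideal (MvPolynomial (Fin n) k),
        Q ∈ (Ideal.span ((fun j => pderiv (Equiv.swap l last j)
          (f₀ + (u : MvPolynomial (Fin n) k))) '' {j | j < i})).minimalPrimes ∧
        Q.height = ((i : ℕ) : ℕ∞) ∧ Big Q l (d - 1) ∧
        pderiv (Equiv.swap l last i) (f₀ + (u : MvPolynomial (Fin n) k)) ∈ Q}
  have hS : ∀ l i, (S l i).ncard * q ^ e ≤ 2 ^ n * (D + 1) ^ (n ^ 2) * Nat.card (UU n k d) := by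
    intro l i
    refine big_case (Equiv.swap l last) i l ?_ (s := d - 1) (d := d) (e := e) (D := D)
      (by omega) (by omega) hdD f₀ hfD
    intro j hj h
    have h1 : j = last := by
      have h2 : Equiv.swap l last j = Equiv.swap l last last := by
        rw [h, Equiv.swap_apply_right]
      exact (Equiv.swap l last).injective h2
    have h3 : (j : ℕ) < i := hj
    have h4 : (j : ℕ) = n - 1 := by rw [h1]
    have h5 := i.isLt
    omega
  set bad : Set (UU n k d) := {u | ¬ Crit (f₀ + (u : MvPolynomial (Fin n) k))} with hbad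
  have hsub : bad ⊆ ⋃ x : Fin n × Fin n, S x.1 x.2 := by
    intro u hu
    obtain ⟨l, hl⟩ := first_bad (fun j => pderiv j (f₀ + (u : MvPolynomial (Fin n) k))) hu
    obtain ⟨i, Q, h1, h2, h3, h4⟩ := hl (Equiv.swap l last)
    rw [Set.mem_iUnion]
    exact ⟨(l, i), Q, h1, h2, h4 _, h3⟩
  have hcard : bad.ncard ≤ ∑ x : Fin n × Fin n, (S x.1 x.2).ncard :=
    (Set.ncard_le_ncard hsub (Set.toFinite _)).trans
      (Set.ncard_iUnion_le_of_fintype (fun x : Fin n × Fin n => S x.1 x.2))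
  have h1 : bad.ncard * q ^ e ≤ n ^ 2 * 2 ^ n * (D + 1) ^ (n ^ 2) * Nat.card (UU n k d) := by
    calc bad.ncard * q ^ e ≤ (∑ x : Fin n × Fin n, (S x.1 x.2).ncard) * q ^ e :=
          Nat.mul_le_mul_right _ hcard
      _ = ∑ x : Fin n × Fin n, (S x.1 x.2).ncard * q ^ e := by rw [Finset.sum_mul]
      _ ≤ ∑ _x : Fin n × Fin n, 2 ^ n * (D + 1) ^ (n ^ 2) * Nat.card (UU n k d) :=
          Finset.sum_le_sum fun x _ => hS x.1 x.2
      _ = _ := by
          rw [Finset.sum_const, Finset.card_univ, Fintype.card_prod, Fintype.card_fin,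
            smul_eq_mul]
          ring
  set A := n ^ 2 * 2 ^ n * (D + 1) ^ (n ^ 2) with hA
  have hA1 : 1 ≤ A := by
    rw [hA]
    exact Nat.succ_le_of_lt (by positivity)
  have hAe : 2 ^ E * A ≤ 2 ^ e := by
    calc 2 ^ E * A = 2 ^ E * n ^ 2 * 2 ^ n * ((B + 1) * d + 1) ^ (n ^ 2) := by rw [hA, hD]; ring
      _ ≤ 2 ^ (d / 2) := hnum
  have hEe : E ≤ e := by
    have h2 : 2 ^ E ≤ 2 ^ e := le_trans (Nat.le_mul_of_pos_right _ hA1) hAe
    exact (Nat.pow_le_pow_iff_right (by norm_num)).1 h2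
  have hA2 : A ≤ q ^ (e - E) := by
    have h2 : 2 ^ E * A ≤ 2 ^ E * 2 ^ (e - E) := by
      rw [← pow_add, Nat.add_sub_cancel' hEe]
      exact hAe
    exact (Nat.le_of_mul_le_mul_left h2 (by positivity)).trans (Nat.pow_le_pow_left hq2 _)
  have hAq : q ^ E * A ≤ q ^ e := by
    calc q ^ E * A ≤ q ^ E * q ^ (e - E) := Nat.mul_le_mul_left _ hA2
      _ = q ^ e := by rw [← pow_add, Nat.add_sub_cancel' hEe]
  show bad.ncard * q ^ E ≤ Nat.card (UU n k d)
  have hpos : 0 < q ^ e := by positivity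
  refine Nat.le_of_mul_le_mul_left ?_ hpos
  calc q ^ e * (bad.ncard * q ^ E) = bad.ncard * q ^ e * q ^ E := by ring
    _ ≤ A * Nat.card (UU n k d) * q ^ E := Nat.mul_le_mul_right _ h1
    _ = q ^ E * A * Nat.card (UU n k d) := by ring
    _ ≤ q ^ e * Nat.card (UU n k d) := Nat.mul_le_mul_right _ hAq

end Pool.Agent.NT9
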