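import Pool.Agent.NT9.CfDefs

set_option autoImplicit false

/-! # CFPERT: a perturbed system has a finite dimensional quotient -/

namespace Pool.Agent.NT9

open MvPolynomial

private noncomputable abbrev pertI {K τ : Type} [Field K] (g : τ → MvPolynomial τ K) (D : ℕ)
    (a : K) : Ideal (MvPolynomial τ K) :=
  Ideal.span (Set.range fun i => g i + C a * X i ^ (D + 1))

private theorem pert_span {K τ : Type} [Field K] [Fintype τ] (g : τ → MvPolynomial τ K) {D : ℕ}
    (hg : ∀ i, (g i).totalDegree ≤ D) {a : K} (ha : a ≠ 0) :
    Submodule.span K (Set.range fun m : τ → Fin (D + 1) =>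
      Ideal.Quotient.mk (pertI g D a)
        (monomial (Finsupp.equivFunOnFinite.symm fun i => (m i : ℕ)) (1 : K))) = ⊤ := by
  classical
  set I := pertI g D a with hI
  set W := Submodule.span K (Set.range fun m : τ → Fin (D + 1) =>
      (Ideal.Quotient.mk I
        (monomial (Finsupp.equivFunOnFinite.symm fun i => (m i : ℕ)) (1 : K)))) with hW
  have key : ∀ N : ℕ, ∀ f : MvPolynomial τ K, f.totalDegree < N → Ideal.Quotient.mk I f ∈ W := by
    intro N
    induction N with
    | zero => intro f hf; omega
    | succ N ih =>
      intro f hf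
      rw [f.as_sum, map_sum]
      refine Submodule.sum_mem _ fun m hm => ?_
      have hdeg : (m.sum fun _ e => e) < N + 1 := (le_totalDegree hm).trans_lt hf
      have hc : Ideal.Quotient.mk I (monomial m (coeff m f)) =
          (coeff m f) • Ideal.Quotient.mk I (monomial m (1 : K)) := by
        rw [← Ideal.Quotient.mkₐ_eq_mk K, ← map_smul, smul_monomial, smul_eq_mul, mul_one]
      rw [hc]
      refine W.smul_mem _ ?_
      by_cases hbox : ∀ i, m i ≤ D
      · refine Submodule.subset_span ⟨fun i => ⟨m i, Nat.lt_succ_of_le (hbox i)⟩, ?_⟩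
        have : Finsupp.equivFunOnFinite.symm (fun i => m i) = m := by
          ext i; simp
        simp only [this]
      · push Not at hbox
        obtain ⟨i, hi⟩ := hbox
        set m' : τ →₀ ℕ := m - Finsupp.single i (D + 1) with hm'
        have hmm : m' + Finsupp.single i (D + 1) = m := by
          rw [hm']
          refine tsub_add_cancel_of_le ?_
          rw [Finsupp.single_le_iff]
          omega
        have hmon : (monomial m (1 : K)) = X i ^ (D + 1) * monomial m' 1 := by
          rw [X_pow_eq_monomial, monomial_mul, one_mul, add_comm, hmm]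
        have hdeg' : (m'.sum fun _ e => e) + (D + 1) < N + 1 := by
          have h1 : (m.sum fun _ e => e) = (m'.sum fun _ e => e) + (D + 1) := by
            rw [← hmm, Finsupp.sum_add_index' (fun _ => rfl) (fun _ _ _ => rfl),
              Finsupp.sum_single_index rfl]
          omega
        have hlow : Ideal.Quotient.mk I (g i * monomial m' 1) ∈ W := by
          refine ih _ ?_
          refine (totalDegree_mul _ _).trans_lt ?_
          have h1 : (monomial m' (1 : K)).totalDegree = m'.sum fun _ e => e :=
            totalDegree_monomial m' one_ne_zero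
          have h2 := hg i
          omega
        have hrel : a • Ideal.Quotient.mk I (monomial m (1 : K)) =
            - Ideal.Quotient.mk I (g i * monomial m' 1) := by
          rw [eq_neg_iff_add_eq_zero]
          have h1 : a • Ideal.Quotient.mk I (monomial m (1 : K)) =
              Ideal.Quotient.mk I (C a * (X i ^ (D + 1) * monomial m' 1)) := by
            rw [← hmon, ← Ideal.Quotient.mkₐ_eq_mk K, ← map_smul, smul_eq_C_mul]
          rw [h1, ← map_add, Ideal.Quotient.eq_zero_iff_mem]
          have h2 : C a * (X i ^ (D + 1) * monomial m' 1) + g i * monomial m' 1 =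
              monomial m' 1 * (g i + C a * X i ^ (D + 1)) := by ring
          rw [h2]
          exact I.mul_mem_left _ (Ideal.subset_span ⟨i, rfl⟩)
        have hfin : Ideal.Quotient.mk I (monomial m (1 : K)) =
            a⁻¹ • - Ideal.Quotient.mk I (g i * monomial m' 1) := by
          rw [← hrel, smul_smul, inv_mul_cancel₀ ha, one_smul]
        rw [hfin]
        exact W.smul_mem _ (W.neg_mem hlow)
  rw [eq_top_iff]
  rintro x -
  obtain ⟨f, rfl⟩ := Ideal.Quotient.mk_surjective x
  exact key (f.totalDegree + 1) f (Nat.lt_succ_self _)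

/-- If `g_i` has degree at most `D` and `a ≠ 0`, the quotient of `K [z_τ]` by the polynomials
`g_i + a z_i ^ (D + 1)` is spanned by the monomials with all exponents at most `D`
(a monomial of degree `e` with some exponent `≥ D + 1` is congruent to a polynomial of degree less
than `e`: induction on the degree), so it has dimension at most `(D + 1) ^ card τ`. -/
theorem pert_dim {K τ : Type} [Field K] [Fintype τ] (g : τ → MvPolynomial τ K) {D : ℕ}
    (hg : ∀ i, (g i).totalDegree ≤ D) {a : K} (ha : a ≠ 0) :
    Module.Finite K (MvPolynomial τ K ⧸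
      Ideal.span (Set.range fun i => g i + C a * X i ^ (D + 1))) ∧
    Module.finrank K (MvPolynomial τ K ⧸
      Ideal.span (Set.range fun i => g i + C a * X i ^ (D + 1))) ≤ (D + 1) ^ Fintype.card τ := by
  classical
  have h := pert_span g hg ha
  refine ⟨⟨h ▸ Submodule.fg_span (Set.finite_range _)⟩, ?_⟩
  rw [← finrank_top, ← h]
  refine (finrank_range_le_card _).trans ?_
  rw [Fintype.card_fun, Fintype.card_fin]

private theorem pp_divide {K : Type} [Field K] (p : Polynomial (Polynomial K)) (hp : p ≠ 0) :
    ∃ (s : ℕ) (q : Polynomial (Polynomial K)), p = Polynomial.C (Polynomial.X ^ s) * q ∧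
      q.map (Polynomial.evalRingHom (0 : K)) ≠ 0 := by
  have hnu : ¬ IsUnit (Polynomial.C (Polynomial.X : Polynomial K)) := by
    rw [Polynomial.isUnit_C]
    exact Polynomial.not_isUnit_X
  have hfin : FiniteMultiplicity (Polynomial.C (Polynomial.X : Polynomial K)) p :=
    FiniteMultiplicity.of_not_isUnit hnu hp
  obtain ⟨q, hq, hnd⟩ := hfin.exists_eq_pow_mul_and_not_dvd
  refine ⟨_, q, by rw [Polynomial.C_pow]; exact hq, fun h0 => hnd ?_⟩
  rw [Polynomial.C_dvd_iff_dvd_coeff]
  intro i
  have h1 := congrArg (fun r => Polynomial.coeff r i) h0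
  simp only [Polynomial.coeff_map, Polynomial.coeff_zero, Polynomial.coe_evalRingHom] at h1
  rw [Polynomial.X_dvd_iff, Polynomial.coeff_zero_eq_eval_zero]
  exact h1

section

attribute [local instance] MvPolynomial.algebraMvPolynomial

private theorem pert_poly_aux {K τ : Type} [Field K] [Fintype τ] (g : τ → MvPolynomial τ K) {D : ℕ}
    (hg : ∀ i, (g i).totalDegree ≤ D) (j : τ) :
    ∃ (p : Polynomial (Polynomial K)) (s : ℕ), p.natDegree ≤ (D + 1) ^ Fintype.card τ ∧
      p.map (Polynomial.evalRingHom (0 : K)) ≠ 0 ∧
      (C (Polynomial.X ^ s) * Polynomial.aeval (X j : MvPolynomial τ (Polynomial K)) p :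
        MvPolynomial τ (Polynomial K)) ∈
        Ideal.span (Set.range fun i =>
          (MvPolynomial.map Polynomial.C (g i) + C Polynomial.X * X i ^ (D + 1) :
            MvPolynomial τ (Polynomial K))) := by
  classical
  let R := Polynomial K
  let L := FractionRing R
  let IR : Ideal (MvPolynomial τ R) := Ideal.span (Set.range fun i =>
          (MvPolynomial.map Polynomial.C (g i) + C Polynomial.X * X i ^ (D + 1) :
            MvPolynomial τ (Polynomial K)))
  let φ : K →+* L := (algebraMap R L).comp Polynomial.C
  let a : L := algebraMap R L Polynomial.X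
  have ha : a ≠ 0 := by
    intro h
    have : (Polynomial.X : R) = 0 := by
      apply IsFractionRing.injective R L
      rw [map_zero]; exact h
    exact Polynomial.X_ne_zero this
  let gL : τ → MvPolynomial τ L := fun i => MvPolynomial.map φ (g i)
  have hgL : ∀ i, (gL i).totalDegree ≤ D := fun i =>
    (Finset.sup_mono (MvPolynomial.support_map_subset φ (g i))).trans (hg i)
  obtain ⟨hfin, hrank⟩ := pert_dim gL hgL ha
  let IL : Ideal (MvPolynomial τ L) := Ideal.span (Set.range fun i => gL i + C a * X i ^ (D + 1))
  let Q := MvPolynomial τ L ⧸ IL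
  have : Module.Finite L Q := hfin
  have hrank' : Module.finrank L Q ≤ (D + 1) ^ Fintype.card τ := hrank
  let m : Module.End L Q := Algebra.lmul L Q (Ideal.Quotient.mk IL (X j))
  let q : Polynomial L := LinearMap.charpoly m
  have hqm : q.Monic := LinearMap.charpoly_monic m
  have hqd : q.natDegree ≤ (D + 1) ^ Fintype.card τ := by
    have : q.natDegree = Module.finrank L Q := LinearMap.charpoly_natDegree m
    rw [this]; exact hrank'
  have hq0 : Polynomial.aeval (Ideal.Quotient.mk IL (X j)) q = 0 := by
    have h1 : Polynomial.aeval m q = 0 := LinearMap.aeval_self_charpoly m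
    have h2 : Polynomial.aeval m q = Algebra.lmul L Q (Polynomial.aeval (Ideal.Quotient.mk IL (X j)) q) := by
      exact Polynomial.aeval_algHom_apply (Algebra.lmul L Q) (Ideal.Quotient.mk IL (X j)) q
    rw [h1] at h2
    have h3 := LinearMap.congr_fun h2 (1 : Q)
    simpa using h3.symm
  have hqI : Polynomial.aeval (X j : MvPolynomial τ L) q ∈ IL := by
    rw [← Ideal.Quotient.eq_zero_iff_mem, ← hq0]
    exact (Polynomial.aeval_algHom_apply (Ideal.Quotient.mkₐ L IL) (X j) q).symm
  -- clear denominators of `q`
  obtain ⟨b, hb, hbq⟩ := IsLocalization.integerNormalization_spec (nonZeroDivisors R) q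
  set p1 : Polynomial R := IsLocalization.integerNormalization (nonZeroDivisors R) q with hp1
  have hp1d : p1.natDegree ≤ (D + 1) ^ Fintype.card τ := by
    refine le_trans ?_ hqd
    refine Polynomial.natDegree_le_natDegree ?_
    exact Finset.sup_mono (IsLocalization.integerNormalization_support _ q)
  have hp1n : p1 ≠ 0 := by
    rw [hp1, Ne, IsLocalization.integerNormalization_eq_zero_iff le_rfl]
    exact hqm.ne_zero
  -- image in the polynomial ring over `L`
  have himg : MvPolynomial.map (algebraMap R L) (Polynomial.aeval (X j : MvPolynomial τ R) p1) =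
      C (algebraMap R L b) * Polynomial.aeval (X j : MvPolynomial τ L) q := by
    have e1 : MvPolynomial.map (algebraMap R L) (Polynomial.aeval (X j : MvPolynomial τ R) p1) =
        Polynomial.aeval (X j : MvPolynomial τ L) (p1.map (algebraMap R L)) := by
      rw [Polynomial.aeval_def, Polynomial.hom_eval₂, Polynomial.aeval_def, Polynomial.eval₂_map]
      congr 1
      · ext r
        · simp [MvPolynomial.algebraMap_eq]
        · simp [MvPolynomial.algebraMap_eq]
      · simp
    rw [e1, hbq]
    have e2 : (b • q : Polynomial L) = Polynomial.C (algebraMap R L b) * q := by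
      rw [← Polynomial.smul_eq_C_mul, algebraMap_smul]
    rw [e2, map_mul, Polynomial.aeval_C, MvPolynomial.algebraMap_eq]
  have hILmap : IL = IR.map (algebraMap (MvPolynomial τ R) (MvPolynomial τ L)) := by
    show Ideal.span _ = Ideal.map _ (Ideal.span _)
    rw [Ideal.map_span, ← Set.range_comp]
    congr 2
    funext i
    simp only [Function.comp, MvPolynomial.algebraMap_def, map_add, map_mul, map_pow,
      MvPolynomial.map_map, MvPolynomial.map_C, MvPolynomial.map_X]
    rfl
  have hmem : algebraMap (MvPolynomial τ R) (MvPolynomial τ L)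
      (Polynomial.aeval (X j : MvPolynomial τ R) p1) ∈
      IR.map (algebraMap (MvPolynomial τ R) (MvPolynomial τ L)) := by
    rw [← hILmap, MvPolynomial.algebraMap_def, himg]
    exact IL.mul_mem_left _ hqI
  rw [IsLocalization.mem_map_algebraMap_iff
    ((nonZeroDivisors R).map (C (σ := τ))) (MvPolynomial τ L)] at hmem
  obtain ⟨⟨x, y⟩, hxy⟩ := hmem
  obtain ⟨c, hc, hcy⟩ := y.2
  have hinj : Function.Injective (algebraMap (MvPolynomial τ R) (MvPolynomial τ L)) := by
    rw [MvPolynomial.algebraMap_def]
    exact MvPolynomial.map_injective _ (IsFractionRing.injective R L)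
  have h4 : Polynomial.aeval (X j : MvPolynomial τ R) p1 * C c = x.1 := by
    apply hinj
    rw [map_mul, ← hxy, ← hcy]
  have hc0 : c ≠ 0 := nonZeroDivisors.ne_zero hc
  let p2 : Polynomial R := Polynomial.C c * p1
  have hp2n : p2 ≠ 0 := mul_ne_zero (by simpa using hc0) hp1n
  have hp2d : p2.natDegree ≤ (D + 1) ^ Fintype.card τ := by
    show (Polynomial.C c * p1).natDegree ≤ _
    rw [Polynomial.natDegree_C_mul hc0]; exact hp1d
  have hp2I : Polynomial.aeval (X j : MvPolynomial τ R) p2 ∈ IR := by
    have : Polynomial.aeval (X j : MvPolynomial τ R) p2 = x.1 := by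
      rw [← h4]
      show Polynomial.aeval (X j : MvPolynomial τ R) (Polynomial.C c * p1) = _
      rw [map_mul, Polynomial.aeval_C, MvPolynomial.algebraMap_eq, mul_comm]
    rw [this]; exact x.2
  obtain ⟨s, p, hp, hp0⟩ := pp_divide p2 hp2n
  refine ⟨p, s, ?_, hp0, ?_⟩
  · rw [hp, Polynomial.natDegree_C_mul (pow_ne_zero _ Polynomial.X_ne_zero)] at hp2d
    exact hp2d
  · rw [hp, map_mul, Polynomial.aeval_C, MvPolynomial.algebraMap_eq] at hp2I
    exact hp2I

end

/-- Elimination with a parameter `ε` (`Polynomial.X`): for every `j` there are a polynomial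
`p ∈ K[ε][t]` of degree at most `(D + 1) ^ card τ` in `t`, nonzero modulo `ε`, and `s` with
`ε ^ s * p (z_j)` in the ideal of `K[ε] [z_τ]` generated by the `g_i + ε z_i ^ (D + 1)`.
Proof: apply `pert_dim` over the field `L = FractionRing K[ε]` with `a = ε`: the powers
`1, z_j, ..., z_j ^ N`, `N = (D + 1) ^ card τ`, are linearly dependent modulo the ideal. Clear the
denominators (of the coefficients of the relation and of its expression through the generators):
a nonzero `p₁ ∈ K[ε][t]` of degree at most `N` with `p₁ (z_j)` in the ideal of `K[ε] [z_τ]`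
(multiply by a nonzero element of `K[ε]`). Divide by the largest power of `ε` which divides `p₁`. -/
theorem pert_poly {K τ : Type} [Field K] [Fintype τ] (g : τ → MvPolynomial τ K) {D : ℕ}
    (hg : ∀ i, (g i).totalDegree ≤ D) (j : τ) :
    ∃ (p : Polynomial (Polynomial K)) (s : ℕ), p.natDegree ≤ (D + 1) ^ Fintype.card τ ∧
      p.map (Polynomial.evalRingHom (0 : K)) ≠ 0 ∧
      (C (Polynomial.X ^ s) * Polynomial.aeval (X j : MvPolynomial τ (Polynomial K)) p :
        MvPolynomial τ (Polynomial K)) ∈
        Ideal.span (Set.range fun i =>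
          (MvPolynomial.map Polynomial.C (g i) + C Polynomial.X * X i ^ (D + 1) :
            MvPolynomial τ (Polynomial K))) := by
  exact pert_poly_aux g hg j

end Pool.Agent.NT9
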