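import Pool.Agent.NT9.GeFrB
import Pool.Agent.NT9.GePB

set_option autoImplicit false

/-! # BLOWA: the key step -/

namespace Pool.Agent.NT9

variable {K : Type} [Field K]

/-- The key step. `g i`, `b`: the generators of `Mo` and of `P` at the point `O'` (`loc_mul`), `A = ch Mo (g i) ≤ O'`,
`O1` the localisation of `A` at the centre of `O'`. If some `h ∈ P` has `h / (g i) ^ e ∉ mx O'` then `O' = O1`.
Proof. `h / b ∈ O'`, `(g i) ^ e / h ∈ O'`, so `(g i) ^ e / b ∈ O'`; and `b / (g i) ^ e ∈ A`. So `b / (g i) ^ e` is a unit of `O'`, so of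
`O1` (domination). The generators of `ch (Mo * P) (g i * b)` are (sums of) `(m / g i) (u / (g i) ^ e) ((g i) ^ e / b)`,
`m ∈ Mo`, `u ∈ P ≤ Mo ^ e`: they are in `O1`. So `ch (Mo * P) (g i * b) ≤ O1` and `O' ≤ O1` (`le_of_fr`: `x ∈ O1`, `x⁻¹ ∈ O'` gives
`x ∉ mx O'`, so `x ∉ mx O1`, `x⁻¹ ∈ O1`). -/
theorem eq_of_unit {Mo P : Submodule ℤ K} {e : ℕ} (hP : P ≤ Mo ^ e) {μ b : K} (hμ : μ ∈ Mo)
    (hμ0 : μ ≠ 0) (hb : b ∈ P) (hb0 : b ≠ 0) {O' O1 : Subring K} [IsLocalRing O']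
    [IsLocalRing O1] (hA : ∀ x ∈ Mo, x / μ ∈ O') (hB : ∀ x ∈ P, x / b ∈ O')
    (hfr : IsFr (ch (Mo * P) (μ * b)) O') (hfr1 : IsFr (ch Mo μ) O1) (hle : O1 ≤ O')
    (hdom : ∀ x ∈ mx O1, x ∈ mx O') {h : K} (hh : h ∈ P) (hu : h / μ ^ e ∉ mx O') : O' = O1 := by
  have hAch : ch Mo μ ≤ O' := hfr1.1.trans hle
  have hhμ : h / μ ^ e ∈ O' := hAch (div_pow_mem_ch hμ0 (hP hh))
  have hbμ1 : b / μ ^ e ∈ O1 := hfr1.1 (div_pow_mem_ch hμ0 (hP hb))
  have hμe : μ ^ e ≠ 0 := pow_ne_zero _ hμ0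
  rw [notMem_mx_iff hhμ] at hu
  have hh0 : h ≠ 0 := by
    intro h0
    exact hu.1 (by rw [h0, zero_div])
  -- `b / μ ^ e` is a unit of `O1`
  have h1 : μ ^ e / b ∈ O' := by
    have h2 : μ ^ e / b = (h / b) * (h / μ ^ e)⁻¹ := by
      field_simp
    rw [h2]
    exact O'.mul_mem (hB h hh) hu.2
  have h2 : μ ^ e / b ∈ O1 := by
    have h3 : b / μ ^ e ∉ mx O1 := by
      intro h4
      have h5 := hdom _ h4
      refine (notMem_mx_iff (hle hbμ1)).2 ⟨div_ne_zero hb0 hμe, ?_⟩ h5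
      rw [inv_div]
      exact h1
    rw [notMem_mx_iff hbμ1] at h3
    have h4 := h3.2
    rwa [inv_div] at h4
  refine le_antisymm ?_ hle
  -- the chart ring is contained in `O1`
  have hch : ch (Mo * P) (μ * b) ≤ O1 := by
    unfold ch
    rw [Subring.closure_le]
    rintro x ⟨y, hy, rfl⟩
    change y / (μ * b) ∈ O1
    induction hy using Submodule.mul_induction_on' with
    | mem_mul_mem m hm u hu =>
      have h3 : m * u / (μ * b) = (m / μ) * (u / μ ^ e) * (μ ^ e / b) := by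
        field_simp
      rw [h3]
      exact O1.mul_mem (O1.mul_mem (hfr1.1 (Subring.subset_closure ⟨m, hm, rfl⟩))
        (hfr1.1 (div_pow_mem_ch hμ0 (hP hu)))) h2
    | add x _ y _ hx hy =>
      rw [add_div]
      exact O1.add_mem hx hy
  refine le_of_fr hfr hch ?_
  intro x hx hxO
  by_cases h0 : x = 0
  · rw [h0, inv_zero]
    exact O1.zero_mem
  · have h3 : x ∉ mx O1 := by
      intro h4
      exact (notMem_mx_iff (hle hx)).2 ⟨h0, hxO⟩ (hdom _ h4)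
    exact ((notMem_mx_iff hx).1 h3).2

end Pool.Agent.NT9
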