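import Mathlib

set_option autoImplicit false

/-! # HTA: heights of maximal ideals -/

namespace Pool.Agent.NT9

open MvPolynomial

private theorem hta_jacobson : IsJacobsonRing ℤ := by
  rw [isJacobsonRing_iff_prime_eq]
  intro P hP
  by_cases h0 : P = ⊥
  · subst h0
    rw [eq_bot_iff]
    intro x hx
    rw [Ideal.mem_jacobson_bot] at hx
    have h1 := hx x
    rw [Ideal.mem_bot]
    rw [Int.isUnit_iff] at h1
    rcases h1 with h1 | h1
    · have h2 : x * x = 0 := by linarith
      exact mul_self_eq_zero.1 h2
    · nlinarith [mul_self_nonneg x]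
  · have hM : P.IsMaximal := IsPrime.to_maximal_ideal h0
    exact Ideal.jacobson_eq_self_of_isMaximal

private theorem hta_aux (ι : Type) [Finite ι] : ∀ (M : Ideal (MvPolynomial ι ℤ)), M.IsMaximal →
    ((Nat.card ι + 1 : ℕ) : ℕ∞) ≤ M.height := by
  induction ι using Finite.induction_empty_option with
  | of_equiv e H =>
    intro M hM
    have h := H (M.comap (renameEquiv ℤ e).toRingEquiv) (Ideal.comap_isMaximal_of_equiv _)
    rw [RingEquiv.height_comap] at h
    rwa [Nat.card_congr e] at h
  | h_empty =>
    intro M hM
    have h1 : (M.comap (MvPolynomial.isEmptyRingEquiv ℤ PEmpty).symm).IsMaximal :=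
      Ideal.comap_isMaximal_of_equiv _
    have h2 := IsPrincipalIdealRing.height_eq_one_of_isMaximal
      (M.comap (MvPolynomial.isEmptyRingEquiv ℤ PEmpty).symm) Int.not_isField
    rw [RingEquiv.height_comap] at h2
    rw [h2]
    simp
  | h_option IH =>
    rename_i α _
    intro M hM
    have hJ : IsJacobsonRing ℤ := hta_jacobson
    let e := (MvPolynomial.optionEquivLeft ℤ α).toRingEquiv
    have h0 : (M.comap e.symm).IsMaximal := Ideal.comap_isMaximal_of_equiv _
    have h1 : (M.comap e.symm).height = M.height := RingEquiv.height_comap e.symm M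
    have hp : ((M.comap e.symm).comap (Polynomial.C : MvPolynomial α ℤ →+* _)).IsMaximal :=
      Polynomial.isMaximal_comap_C_of_isJacobsonRing _
    have hl : (M.comap e.symm).LiesOver
        ((M.comap e.symm).comap (Polynomial.C : MvPolynomial α ℤ →+* _)) := ⟨rfl⟩
    have h2 := Polynomial.height_eq_height_add_one
      ((M.comap e.symm).comap (Polynomial.C : MvPolynomial α ℤ →+* _)) (M.comap e.symm)
    rw [← h1, h2]
    have h3 := IH _ hp
    have h4 : Nat.card (Option α) = Nat.card α + 1 := Finite.card_option
    rw [h4]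
    push_cast at h3 ⊢
    gcongr

variable {σ : Type} [Fintype σ]

/-- Every maximal ideal of `ℤ[x_1, ..., x_n]` has height `n + 1` (we need `≥`).
Proof by induction on `n` (transport to `Fin n`, `MvPolynomial.finSuccEquiv`): `Polynomial.height_eq_height_add_one`, and the contraction of a
maximal ideal of `R[X]`, `R` a Jacobson ring, is maximal (`Polynomial.isMaximal_comap_C_of_isJacobsonRing`). Case `n = 0`:
a maximal ideal of `ℤ` is not `⊥`. -/
theorem le_height (M : Ideal (MvPolynomial σ ℤ)) [M.IsMaximal] :
    ((Fintype.card σ + 1 : ℕ) : ℕ∞) ≤ M.height := by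
  rw [← Nat.card_eq_fintype_card]
  exact hta_aux σ M inferInstance

end Pool.Agent.NT9
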