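import Pool.Agent.NT9.GeHtA
import Pool.Agent.NT9.GeNakA

set_option autoImplicit false

/-! # HTB: `z` is not nilpotent modulo the other parameters -/

namespace Pool.Agent.NT9

open MvPolynomial

variable {σ : Type} [Fintype σ]

/-- `z` is not nilpotent modulo the `η i` locally at `M`. Proof. Otherwise `M` is a minimal prime over `span (range η)`: if
`span (range η) ≤ Q ≤ M`, `Q` prime, then `s z ^ L ∈ Q`, `s ∉ Q`, so `z ∈ Q`, and `t M ≤ span (insert z (range η)) ≤ Q` with `t ∉ M` (`Par.gen`), `t ∉ Q`, so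
`M ≤ Q`. By Krull (`Ideal.height_le_card_of_mem_minimalPrimes_span_finset` or `Ideal.height_le_spanFinrank ...`) `M.height ≤ card σ`,
contradiction to `le_height`. -/
theorem no_pow {M : Ideal (MvPolynomial σ ℤ)} [M.IsMaximal] {z : MvPolynomial σ ℤ}
    {η : σ → MvPolynomial σ ℤ} (hpar : Par M z η) {s : MvPolynomial σ ℤ} (hs : s ∉ M) (L : ℕ) :
    s * z ^ L ∉ Ideal.span (Set.range η) := by
  classical
  intro hmem
  obtain ⟨t, ht, hgen⟩ := hpar.gen
  have hmin : M ∈ (Ideal.span (((Finset.univ.image η : Finset (MvPolynomial σ ℤ))) :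
      Set (MvPolynomial σ ℤ))).minimalPrimes := by
    have hset : (((Finset.univ.image η : Finset (MvPolynomial σ ℤ))) :
        Set (MvPolynomial σ ℤ)) = Set.range η := by
      simp
    rw [hset]
    refine ⟨⟨inferInstance, ?_⟩, ?_⟩
    · rw [Ideal.span_le]
      rintro _ ⟨i, rfl⟩
      exact hpar.2.1 i
    · rintro Q ⟨hQ, hIQ⟩ hQM m hm
      have hsQ : s ∉ Q := fun h => hs (hQM h)
      have hzQ : z ∈ Q := by
        rcases hQ.mem_or_mem (hIQ hmem) with h | h
        · exact absurd h hsQ
        · exact hQ.mem_of_pow_mem L h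
      obtain ⟨c0, c, h⟩ := hgen m hm
      have h1 : t * m ∈ Q := by
        rw [h]
        refine Q.add_mem (Q.mul_mem_left _ hzQ) (Q.sum_mem fun i _ => Q.mul_mem_left _ ?_)
        exact hIQ (Ideal.subset_span ⟨i, rfl⟩)
      rcases hQ.mem_or_mem h1 with h2 | h2
      · exact absurd (hQM h2) ht
      · exact h2
  have h1 := Ideal.height_le_card_of_mem_minimalPrimes_span_finset hmin
  have h2 := le_height M
  have h3 : ((Finset.univ.image η).card : ℕ∞) ≤ ((Fintype.card σ : ℕ) : ℕ∞) := by
    exact_mod_cast Finset.card_image_le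
  have h4 := (h2.trans h1).trans h3
  have h5 : Fintype.card σ + 1 ≤ Fintype.card σ := by exact_mod_cast h4
  omega

end Pool.Agent.NT9
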