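import Pool.Agent.NT9.GeCotB
import Pool.Agent.NT9.GeSub
import Pool.Agent.NodHyp.Chart2

set_option autoImplicit false

/-! # WA: regularity in the charts `W_i = η_i / z ^ k`; `T = MvPolynomial (V2 σ) ℤ`, `π = NH.CHART2_pi θ w` -/

namespace Pool.Agent.NT9

open MvPolynomial

variable {σ : Type} [Fintype σ] {K : Type} [Field K]

/-- Reduction modulo the relations: compare `NH.CHART2_red`. Proof: induction on `t`: `il z ^ k * X (inr i) ≡ il (η i)`. -/
theorem w_red {z : MvPolynomial σ ℤ} {η : σ → MvPolynomial σ ℤ} {k : ℕ}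
    {a : σ → σ → MvPolynomial σ ℤ} {b : σ → MvPolynomial σ ℤ} {c : MvPolynomial σ ℤ}
    (t : MvPolynomial (NH.V2 σ) ℤ) :
    ∃ (N : ℕ) (h : MvPolynomial σ ℤ), rename Sum.inl z ^ N * t - rename Sum.inl h ∈
      Ideal.span (Set.range (relW z η k a b c)) := by
  induction t using MvPolynomial.induction_on with
  | C r => exact ⟨0, C r, by rw [rename_C, pow_zero, one_mul, sub_self]; exact Ideal.zero_mem _⟩
  | add x y hx hy =>
    obtain ⟨N, h, h1⟩ := hx
    obtain ⟨N', h', h1'⟩ := hy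
    refine ⟨N + N', z ^ N' * h + z ^ N * h', ?_⟩
    have e1 : rename Sum.inl z ^ (N + N') * (x + y) -
        rename (Sum.inl : σ → NH.V2 σ) (z ^ N' * h + z ^ N * h') =
        rename Sum.inl z ^ N' * (rename Sum.inl z ^ N * x - rename Sum.inl h) +
        rename Sum.inl z ^ N * (rename Sum.inl z ^ N' * y - rename Sum.inl h') := by
      simp only [map_add, map_mul, map_pow]
      ring
    rw [e1]
    exact Ideal.add_mem _ (Ideal.mul_mem_left _ _ h1) (Ideal.mul_mem_left _ _ h1')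
  | mul_X x i hx =>
    obtain ⟨N, h, h1⟩ := hx
    rcases i with i | i
    · refine ⟨N, h * X i, ?_⟩
      have e1 : rename Sum.inl z ^ N * (x * X (Sum.inl i)) -
          rename (Sum.inl : σ → NH.V2 σ) (h * X i) =
          X (Sum.inl i) * (rename Sum.inl z ^ N * x - rename Sum.inl h) := by
        simp only [map_mul, rename_X]
        ring
      rw [e1]
      exact Ideal.mul_mem_left _ _ h1
    · refine ⟨N + k, h * η i, ?_⟩
      have e1 : rename Sum.inl z ^ (N + k) * (x * X (Sum.inr i)) -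
          rename (Sum.inl : σ → NH.V2 σ) (h * η i) =
          rename Sum.inl z ^ k * X (Sum.inr i) * (rename Sum.inl z ^ N * x - rename Sum.inl h) +
          (-rename (Sum.inl : σ → NH.V2 σ) h) * relW z η k a b c (some i) := by
        simp only [map_mul, relW]
        ring
      rw [e1]
      exact Ideal.add_mem _ (Ideal.mul_mem_left _ _ h1)
        (Ideal.mul_mem_left _ _ (Ideal.subset_span ⟨some i, rfl⟩))

/-- `il (s f)` is in the ideal of the relations: compare `NH.CHART2_Df`: modulo the relations `il (η i) ≡ il z ^ k W_i`, so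
`il (s f) ≡ il z ^ (2 k) GW ≡ 0`. -/
theorem w_sf {f z s : MvPolynomial σ ℤ} {η : σ → MvPolynomial σ ℤ} {k : ℕ}
    {a : σ → σ → MvPolynomial σ ℤ} {b : σ → MvPolynomial σ ℤ} {c : MvPolynomial σ ℤ}
    (hsf : s * f = ∑ i, ∑ j, a i j * η i * η j + z ^ k * ∑ i, b i * η i + z ^ (2 * k) * c) :
    rename Sum.inl (s * f) ∈ Ideal.span (Set.range (relW z η k a b c)) := by
  rw [← Ideal.Quotient.eq_zero_iff_mem]
  set J := Ideal.span (Set.range (relW z η k a b c)) with hJ
  have hy : ∀ i, Ideal.Quotient.mk J (rename Sum.inl (η i)) =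
      Ideal.Quotient.mk J (rename Sum.inl z) ^ k * Ideal.Quotient.mk J (X (Sum.inr i)) := by
    intro i
    have h1 : Ideal.Quotient.mk J (relW z η k a b c (some i)) = 0 :=
      Ideal.Quotient.eq_zero_iff_mem.mpr (Ideal.subset_span ⟨some i, rfl⟩)
    simp only [relW, map_sub, map_mul, map_pow] at h1
    exact sub_eq_zero.mp h1
  have h0 : Ideal.Quotient.mk J (relW z η k a b c none) = 0 :=
    Ideal.Quotient.eq_zero_iff_mem.mpr (Ideal.subset_span ⟨none, rfl⟩)
  simp only [relW, GW, map_add, map_mul, map_sum] at h0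
  rw [hsf]
  simp only [map_add, map_mul, map_pow, map_sum, hy]
  have e2 : (∑ i, ∑ j, Ideal.Quotient.mk J (rename Sum.inl (a i j)) *
      (Ideal.Quotient.mk J (rename Sum.inl z) ^ k * Ideal.Quotient.mk J (X (Sum.inr i))) *
      (Ideal.Quotient.mk J (rename Sum.inl z) ^ k * Ideal.Quotient.mk J (X (Sum.inr j)))) =
      Ideal.Quotient.mk J (rename Sum.inl z) ^ k * Ideal.Quotient.mk J (rename Sum.inl z) ^ k *
      ∑ i, ∑ j, Ideal.Quotient.mk J (rename Sum.inl (a i j)) *
        Ideal.Quotient.mk J (X (Sum.inr i)) * Ideal.Quotient.mk J (X (Sum.inr j)) := by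
    rw [Finset.mul_sum]
    refine Finset.sum_congr rfl fun i _ => ?_
    rw [Finset.mul_sum]
    refine Finset.sum_congr rfl fun j _ => ?_
    ring
  have e3 : (∑ i, Ideal.Quotient.mk J (rename Sum.inl (b i)) *
      (Ideal.Quotient.mk J (rename Sum.inl z) ^ k * Ideal.Quotient.mk J (X (Sum.inr i)))) =
      Ideal.Quotient.mk J (rename Sum.inl z) ^ k *
      ∑ i, Ideal.Quotient.mk J (rename Sum.inl (b i)) * Ideal.Quotient.mk J (X (Sum.inr i)) := by
    rw [Finset.mul_sum]
    refine Finset.sum_congr rfl fun i _ => ?_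
    ring
  rw [e2, e3, two_mul k, pow_add]
  linear_combination (Ideal.Quotient.mk J (rename Sum.inl z) ^ k *
    Ideal.Quotient.mk J (rename Sum.inl z) ^ k) * h0

theorem GeWA_rel {f : MvPolynomial σ ℤ} {θ : MvPolynomial σ ℤ →+* K}
    (hker : RingHom.ker θ = Ideal.span {f}) {z : MvPolynomial σ ℤ}
    {η : σ → MvPolynomial σ ℤ} (hz0 : θ z ≠ 0) {k : ℕ}
    {s : MvPolynomial σ ℤ} {a : σ → σ → MvPolynomial σ ℤ} {b : σ → MvPolynomial σ ℤ}
    {c : MvPolynomial σ ℤ}
    (hsf : s * f = ∑ i, ∑ j, a i j * η i * η j + z ^ k * ∑ i, b i * η i + z ^ (2 * k) * c)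
    {w : σ → K} (hwz : ∀ i, θ (η i) = θ z ^ k * w i) (i : Option σ) :
    NH.CHART2_pi θ w (relW z η k a b c i) = 0 := by
  have hf0 : θ f = 0 := by
    rw [← RingHom.mem_ker, hker]
    exact Ideal.subset_span rfl
  have hzk : θ z ^ k ≠ 0 := pow_ne_zero _ hz0
  set π := NH.CHART2_pi θ w with hπdef
  have hil : ∀ h, π (rename Sum.inl h) = θ h := NH.CHART2_pi_il θ w
  have hir : ∀ i, π (X (Sum.inr i)) = w i := NH.CHART2_pi_ir θ w
  rcases i with _ | i
  · simp only [relW, GW, map_add, map_mul, map_sum, hil, hir]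
    have h1 := congrArg θ hsf
    rw [map_mul, hf0, mul_zero] at h1
    simp only [map_add, map_mul, map_pow, map_sum, hwz] at h1
    have h2 : θ z ^ k * θ z ^ k * (∑ i, ∑ j, θ (a i j) * w i * w j + ∑ i, θ (b i) * w i +
        θ c) = 0 := by
      have e2 : (∑ i, ∑ j, θ (a i j) * (θ z ^ k * w i) * (θ z ^ k * w j)) =
          θ z ^ k * θ z ^ k * ∑ i, ∑ j, θ (a i j) * w i * w j := by
        rw [Finset.mul_sum]
        refine Finset.sum_congr rfl fun i _ => ?_
        rw [Finset.mul_sum]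
        refine Finset.sum_congr rfl fun j _ => ?_
        ring
      have e3 : (∑ i, θ (b i) * (θ z ^ k * w i)) = θ z ^ k * ∑ i, θ (b i) * w i := by
        rw [Finset.mul_sum]
        refine Finset.sum_congr rfl fun i _ => ?_
        ring
      rw [e2, e3, two_mul k, pow_add] at h1
      linear_combination -h1
    exact (mul_eq_zero.mp h2).resolve_left (mul_ne_zero hzk hzk)
  · simp only [relW, map_sub, map_mul, map_pow, hil, hir, hwz, sub_self]

/-- Regularity. Proof: `NH.regular_of_pres` with the relations `relW z η k a b c`, `e = il (s * z)`: torsion from `w_red`, `w_sf` as in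
`NH.regular_chart2` (`π t = 0` gives `θ h = 0`, `h = q f`). `θ s ≠ 0`: there is `s'` with `1 - s s' ∈ M`, so `θ s θ s' ∉ mx O`.
`π (relW ..) = 0`: for `none` multiply by `θ z ^ (2 k)` and use `θ (s f) = 0`.
Independence at the prime `Q` (`t ∈ Q ↔ π t ∈ mx O`): `hγ` gives `a none ∈ Q`; then, as `relW none ∈ Q`,
`∑ δ_i (il (η i) - il z ^ k W_i) ∈ Q ^ 2`, that is `(- il z ^ (k - 1) ∑ δ_i W_i) il z + ∑ δ_i il (η i) ∈ Q ^ 2` (`1 ≤ k`), and
`cot_indep` (`ι = Sum.inl`) gives `δ_i ∈ Q`. -/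
theorem regular_w {f : MvPolynomial σ ℤ} {θ : MvPolynomial σ ℤ →+* K}
    (hker : RingHom.ker θ = Ideal.span {f}) {M : Ideal (MvPolynomial σ ℤ)} [M.IsMaximal] {p : ℕ}
    (hp : p.Prime) (hpM : (C (p : ℤ) : MvPolynomial σ ℤ) ∈ M) {z : MvPolynomial σ ℤ}
    {η : σ → MvPolynomial σ ℤ} (hpar : Par M z η) (hz0 : θ z ≠ 0) {k : ℕ} (hk : 1 ≤ k)
    {s : MvPolynomial σ ℤ} {a : σ → σ → MvPolynomial σ ℤ} {b : σ → MvPolynomial σ ℤ}
    {c : MvPolynomial σ ℤ} (hs : s ∉ M)
    (hsf : s * f = ∑ i, ∑ j, a i j * η i * η j + z ^ k * ∑ i, b i * η i + z ^ (2 * k) * c)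
    {O : Subring K} [IsLocalRing O] (hpoly : ∀ h, θ h ∈ O) (hM : ∀ h ∈ M, θ h ∈ mx O)
    {w : σ → K} (hw : ∀ i, w i ∈ O) (hwz : ∀ i, θ (η i) = θ z ^ k * w i)
    (hfr : ∀ x ∈ O, ∃ u v : MvPolynomial (NH.V2 σ) ℤ, NH.CHART2_pi θ w v ≠ 0 ∧
      (NH.CHART2_pi θ w v)⁻¹ ∈ O ∧ x * NH.CHART2_pi θ w v = NH.CHART2_pi θ w u)
    (hγ : ∀ (Q : Ideal (MvPolynomial (NH.V2 σ) ℤ)) [Q.IsPrime],
      (∀ t, t ∈ Q ↔ NH.CHART2_pi θ w t ∈ mx O) →
      ∀ (γ : MvPolynomial (NH.V2 σ) ℤ) (δ : σ → MvPolynomial (NH.V2 σ) ℤ),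
        γ * GW a b c + ∑ i, δ i * (rename Sum.inl (η i) - rename Sum.inl z ^ k * X (Sum.inr i)) ∈
          Q ^ 2 → γ ∈ Q) : IsRegularLocalRing O := by
  have hf0 : θ f = 0 := by
    rw [← RingHom.mem_ker, hker]
    exact Ideal.subset_span rfl
  set π := NH.CHART2_pi θ w with hπdef
  have hil : ∀ h, π (rename Sum.inl h) = θ h := NH.CHART2_pi_il θ w
  have hir : ∀ i, π (X (Sum.inr i)) = w i := NH.CHART2_pi_ir θ w
  have hπO : ∀ t, π t ∈ O := NH.CHART2_pi_mem θ w O hpoly hw
  have hrel : ∀ i, π (relW z η k a b c i) = 0 := GeWA_rel hker hz0 hsf hwz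
  refine NH.regular_of_pres O π hπO hfr (relW z η k a b c) hrel (rename Sum.inl (s * z)) ?_ ?_ ?_
  · rw [hil, map_mul]
    refine mul_ne_zero (fun h => ?_) hz0
    obtain ⟨y, i, hi, hyi⟩ := (inferInstance : M.IsMaximal).exists_inv hs
    have h1 := congrArg θ hyi
    rw [map_add, map_mul, h, mul_zero, zero_add, map_one] at h1
    have h2 := hM i hi
    rw [h1] at h2
    exact one_notMem_mx h2
  · -- torsion
    intro t ht
    obtain ⟨N, h, h1⟩ := w_red (z := z) (η := η) (k := k) (a := a) (b := b) (c := c) t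
    have h2 : θ h = 0 := by
      have h3 : rename Sum.inl z ^ N * t - rename Sum.inl h ∈ RingHom.ker π := by
        refine (Ideal.span_le.mpr ?_ : Ideal.span (Set.range (relW z η k a b c)) ≤
          RingHom.ker π) h1
        rintro _ ⟨i, rfl⟩
        exact hrel i
      rw [RingHom.mem_ker, map_sub, map_mul, ht, mul_zero, hil, zero_sub, neg_eq_zero] at h3
      exact h3
    have h3 : h ∈ Ideal.span {f} := by rw [← hker]; exact h2
    obtain ⟨q, rfl⟩ := Ideal.mem_span_singleton'.mp h3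
    have h4 := w_sf hsf
    refine ⟨N + 1, ?_⟩
    have e1 : rename Sum.inl (s * z) ^ (N + 1) * t =
        (rename (Sum.inl : σ → NH.V2 σ) s ^ (N + 1) * rename Sum.inl z) *
          (rename Sum.inl z ^ N * t - rename Sum.inl (q * f)) +
        (rename (Sum.inl : σ → NH.V2 σ) s ^ N * rename Sum.inl z * rename Sum.inl q) *
          rename Sum.inl (s * f) := by
      simp only [map_mul]
      ring
    rw [e1]
    exact Ideal.add_mem _ (Ideal.mul_mem_left _ _ h1) (Ideal.mul_mem_left _ _ h4)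
  · -- independence
    intro P _ hP a' ha'
    have hQ : ∀ t, t ∈ P ↔ π t ∈ mx O := by
      intro t
      rw [hP]
      exact ⟨fun h => ⟨hπO t, h⟩, fun h => h.2⟩
    rw [Fintype.sum_option] at ha'
    have hnone : a' none ∈ P := hγ P hQ (a' none) (fun i => a' (some i)) ha'
    have hGW : relW z η k a b c none ∈ P := by
      rw [hQ, hrel]
      exact zero_mem_mx
    have h1 : a' none * relW z η k a b c none ∈ P ^ 2 := by
      rw [pow_two]
      exact Ideal.mul_mem_mul hnone hGW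
    have h2 : ∑ i, a' (some i) * relW z η k a b c (some i) ∈ P ^ 2 := by
      have h3 := Ideal.sub_mem _ ha' h1
      rwa [add_sub_cancel_left] at h3
    have h3 : (-(rename Sum.inl z ^ (k - 1) * ∑ i, a' (some i) * X (Sum.inr i))) *
        rename Sum.inl z + ∑ i, a' (some i) * rename Sum.inl (η i) ∈ P ^ 2 := by
      have e1 : (-(rename Sum.inl z ^ (k - 1) * ∑ i, a' (some i) * X (Sum.inr i))) *
          rename Sum.inl z + ∑ i, a' (some i) * rename Sum.inl (η i) =
          ∑ i, a' (some i) * relW z η k a b c (some i) := by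
        obtain ⟨k', rfl⟩ : ∃ k', k = k' + 1 := ⟨k - 1, by omega⟩
        simp only [relW, Nat.add_sub_cancel, mul_sub, Finset.sum_sub_distrib]
        have e2 : ∑ i, a' (some i) * (rename Sum.inl z ^ (k' + 1) * X (Sum.inr i)) =
            rename Sum.inl z ^ k' * (∑ i, a' (some i) * X (Sum.inr i)) * rename Sum.inl z := by
          rw [Finset.mul_sum, Finset.sum_mul]
          refine Finset.sum_congr rfl fun i _ => ?_
          ring
        rw [e2]
        ring
      rw [e1]
      exact h2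
    have h4 := cot_indep hp hpM hpar (ι := (Sum.inl : σ → NH.V2 σ)) Sum.inl_injective P
      (fun m hm => by rw [hQ, hil]; exact hM m hm) h3
    rintro (_ | i)
    · exact hnone
    · exact h4.2 i

end Pool.Agent.NT9
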