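import Pool.Agent.NT9.GeSub
import Pool.Agent.NT9.GeCotB
import Pool.Agent.NodHyp.Chart1

set_option autoImplicit false
set_option linter.unusedSectionVars false

/-! # YA: independence of the relations of the chart `y_e` -/

namespace Pool.Agent.NT9

open MvPolynomial

variable {σ : Type} [Fintype σ] [DecidableEq σ]

private theorem GeYa_pX (x y : NH.V1 σ) (h : y ≠ x) :
    pderiv x (X y : MvPolynomial (NH.V1 σ) ℤ) = 0 := pderiv_X_of_ne h

private theorem GeYa_GY (a : σ → σ → MvPolynomial σ ℤ) (b : σ → MvPolynomial σ ℤ)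
    (c : MvPolynomial σ ℤ) : GY a b c = NH.qv (Matrix.of a) +
      NH.ww σ * ∑ i, NH.il (b i) * NH.vv i + NH.il c * NH.ww σ ^ 2 := rfl

private theorem GeYa_lin (x : NH.V1 σ) (b : σ → MvPolynomial σ ℤ) (hx : ∃ y, x = Sum.inr y) :
    pderiv x (∑ i, NH.il (b i) * NH.vv i : MvPolynomial (NH.V1 σ) ℤ) =
      ∑ i, NH.il (b i) * pderiv x (NH.vv i : MvPolynomial (NH.V1 σ) ℤ) := by
  obtain ⟨y, rfl⟩ := hx
  rw [map_sum]
  refine Finset.sum_congr rfl fun i _ => ?_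
  rw [Derivation.leibniz, NH.IND1.pd_inr_il]
  simp

private theorem GeYa_GYv (a : σ → σ → MvPolynomial σ ℤ) (b : σ → MvPolynomial σ ℤ)
    (c : MvPolynomial σ ℤ) (k : σ) :
    pderiv (Sum.inr (Sum.inr k) : NH.V1 σ) (GY a b c) =
      ∑ j, NH.il (a k j + a j k) * NH.vv j + NH.ww σ * NH.il (b k) := by
  have hv : ∀ i : σ, pderiv (Sum.inr (Sum.inr k) : NH.V1 σ)
      (NH.vv i : MvPolynomial (NH.V1 σ) ℤ) = if i = k then 1 else 0 := by
    intro i
    by_cases h : i = k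
    · rw [if_pos h, h, pderiv_X_self]
    · rw [if_neg h]
      apply pderiv_X_of_ne
      intro h2
      exact h (Sum.inr_injective (Sum.inr_injective h2))
  rw [GeYa_GY, map_add, map_add, NH.IND1.pd_qv_v, Derivation.leibniz, GeYa_lin _ _ ⟨_, rfl⟩,
    Derivation.leibniz (pderiv _) (NH.il c), NH.IND1.pd_inr_il, Derivation.leibniz_pow,
    GeYa_pX _ (Sum.inr (Sum.inl 1)) (by simp)]
  simp only [hv, smul_zero, add_zero, mul_ite, mul_one, mul_zero, Finset.sum_ite_eq',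
    Finset.mem_univ, if_true, smul_eq_mul]
  rfl

private theorem GeYa_GYu (a : σ → σ → MvPolynomial σ ℤ) (b : σ → MvPolynomial σ ℤ)
    (c : MvPolynomial σ ℤ) :
    pderiv (Sum.inr (Sum.inl 1) : NH.V1 σ) (GY a b c) =
      ∑ i, NH.il (b i) * NH.vv i + 2 * NH.il c * NH.ww σ := by
  have hv : ∀ i : σ, pderiv (Sum.inr (Sum.inl 1) : NH.V1 σ)
      (NH.vv i : MvPolynomial (NH.V1 σ) ℤ) = 0 := by
    intro i
    apply pderiv_X_of_ne
    simp
  rw [GeYa_GY, map_add, map_add, NH.IND1.pd_qv_tw, Derivation.leibniz, GeYa_lin _ _ ⟨_, rfl⟩,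
    Derivation.leibniz (pderiv _) (NH.il c), NH.IND1.pd_inr_il, Derivation.leibniz_pow,
    pderiv_X_self]
  simp only [hv, mul_zero, Finset.sum_const_zero, smul_eq_mul, zero_add, mul_one, add_zero,
    Nat.reduceSub, pow_one, nsmul_eq_mul, Nat.cast_ofNat]
  ring

private theorem GeYa_GYy (a : σ → σ → MvPolynomial σ ℤ) (b : σ → MvPolynomial σ ℤ)
    (c : MvPolynomial σ ℤ) :
    pderiv (Sum.inr (Sum.inl 0) : NH.V1 σ) (GY a b c) = 0 := by
  have hv : ∀ i : σ, pderiv (Sum.inr (Sum.inl 0) : NH.V1 σ)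
      (NH.vv i : MvPolynomial (NH.V1 σ) ℤ) = 0 := by
    intro i
    apply pderiv_X_of_ne
    simp
  rw [GeYa_GY, map_add, map_add, NH.IND1.pd_qv_tw, Derivation.leibniz, GeYa_lin _ _ ⟨_, rfl⟩,
    Derivation.leibniz (pderiv _) (NH.il c), NH.IND1.pd_inr_il, Derivation.leibniz_pow,
    GeYa_pX _ (Sum.inr (Sum.inl 1)) (by simp)]
  simp only [hv, mul_zero, Finset.sum_const_zero, smul_zero, add_zero]

/-- Independence. `T = MvPolynomial (V1 σ) ℤ`, `Y = NH.tt σ`, `U = NH.ww σ`, `V_i = NH.vv i`; `Y, U ∈ Q`, `il m ∈ Q` for `m ∈ M`, all relations in `Q`.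
Let `α (V_e - 1) + β (il z - U Y) + γ GY + ∑ δ_i (il (η i) - (U Y)^J Y V_i) ∈ Q ^ 2` (`α = r (inl 0)`, ...).
1. `γ ∈ Q`. If `∂_c GY ∉ Q` for some `c ≠ e` (`∂_c GY = ∑ j, il (a c j + a j c) V_j + U il (b c)`): apply `∂/∂V_c`: `γ ∂_c GY - δ_c (U Y)^J Y ∈ Q` (all relations are in `Q`),
so `γ ∂_c GY ∈ Q`. If `J = 0` and `∂_U GY ∉ Q` (`∂_U GY = ∑ i, il (b i) V_i + 2 il c U`): apply `∂/∂U`: `- β Y + γ ∂_U GY ∈ Q`.
2. `∂/∂V_e`: `α + γ ∂_e GY - δ_e (U Y)^J Y ∈ Q`, so `α ∈ Q`.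
3. So `β (il z - U Y) + ∑ δ_i (il (η i) - (U Y)^J Y V_i) ∈ Q ^ 2` (coefficient and relation in `Q`), and `U Y ∈ Q ^ 2`. If `J ≥ 1` then `(U Y)^J Y V_i ∈ Q ^ 2`. If `J = 0` apply
`∂/∂Y`: `- β U - ∑ δ_i V_i ∈ Q`, so `∑ δ_i V_i ∈ Q`, `Y ∑ δ_i V_i ∈ Q ^ 2`. In both cases `β il z + ∑ δ_i il (η i) ∈ Q ^ 2`: `cot_indep`. -/
theorem ind_y {M : Ideal (MvPolynomial σ ℤ)} [M.IsMaximal] {p : ℕ}
    (hp : p.Prime) (hpM : (C (p : ℤ) : MvPolynomial σ ℤ) ∈ M) {z : MvPolynomial σ ℤ}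
    {η : σ → MvPolynomial σ ℤ} (hpar : Par M z η) {J : ℕ} {a : σ → σ → MvPolynomial σ ℤ}
    {b : σ → MvPolynomial σ ℤ} {c : MvPolynomial σ ℤ} {e : σ}
    (Q : Ideal (MvPolynomial (NH.V1 σ) ℤ)) [Q.IsPrime] (hMQ : ∀ m ∈ M, NH.il m ∈ Q)
    (hY : NH.tt σ ∈ Q) (hU : NH.ww σ ∈ Q) (hrel : ∀ i, relY z η J a b c e i ∈ Q)
    (hsm : (∃ i, i ≠ e ∧ ∑ j, NH.il (a i j + a j i) * NH.vv j + NH.ww σ * NH.il (b i) ∉ Q) ∨
      (J = 0 ∧ ∑ i, NH.il (b i) * NH.vv i + 2 * NH.il c * NH.ww σ ∉ Q))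
    (r : Fin 3 ⊕ σ → MvPolynomial (NH.V1 σ) ℤ)
    (hr : ∑ i, r i * relY z η J a b c e i ∈ Q ^ 2) : ∀ i, r i ∈ Q := by
  have hQ : Q.IsPrime := inferInstance
  have hUY : NH.ww σ * NH.tt σ ∈ Q := Q.mul_mem_left _ hY
  have hP : (NH.ww σ * NH.tt σ) ^ J * NH.tt σ ∈ Q := Q.mul_mem_left _ hY
  have key : ∀ x : NH.V1 σ, r (Sum.inl 0) * pderiv x (NH.vv e - 1) +
      r (Sum.inl 1) * pderiv x (NH.il z - NH.ww σ * NH.tt σ) +
      r (Sum.inl 2) * pderiv x (GY a b c) +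
      ∑ i, r (Sum.inr i) *
        pderiv x (NH.il (η i) - (NH.ww σ * NH.tt σ) ^ J * NH.tt σ * NH.vv i) ∈ Q := by
    intro x
    have h1 := NH.IND1.sum_pd Q x r (relY z η J a b c e) hrel hr
    rw [Fintype.sum_sum_type, Fin.sum_univ_three] at h1
    exact h1
  have pX := GeYa_pX (σ := σ)
  -- derivatives with respect to the `V_k`
  have keyV : ∀ k : σ, r (Sum.inl 0) * pderiv (Sum.inr (Sum.inr k) : NH.V1 σ) (NH.vv e - 1) +
      r (Sum.inl 2) * (∑ j, NH.il (a k j + a j k) * NH.vv j + NH.ww σ * NH.il (b k)) ∈ Q := by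
    intro k
    have h2 := key (Sum.inr (Sum.inr k))
    have e2 : pderiv (Sum.inr (Sum.inr k) : NH.V1 σ)
        (NH.il z - NH.ww σ * NH.tt σ : MvPolynomial (NH.V1 σ) ℤ) = 0 := by
      rw [map_sub, NH.IND1.pd_inr_il, Derivation.leibniz, pX _ _ (by simp), pX _ _ (by simp)]
      simp
    have e3 : ∀ i, pderiv (Sum.inr (Sum.inr k) : NH.V1 σ)
        (NH.il (η i) - (NH.ww σ * NH.tt σ) ^ J * NH.tt σ * NH.vv i :
          MvPolynomial (NH.V1 σ) ℤ) ∈ Q := by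
      intro i
      rw [map_sub, NH.IND1.pd_inr_il, Derivation.leibniz, Derivation.leibniz,
        Derivation.leibniz_pow, Derivation.leibniz, pX _ (Sum.inr (Sum.inl 0)) (by simp),
        pX _ (Sum.inr (Sum.inl 1)) (by simp)]
      simp only [smul_eq_mul, mul_zero, smul_zero, add_zero, zero_sub]
      exact Q.neg_mem (Q.mul_mem_right _ hP)
    rw [e2, mul_zero, add_zero, GeYa_GYv] at h2
    have h3 := Q.sub_mem h2 (Q.sum_mem (t := Finset.univ)
      (f := fun i => r (Sum.inr i) * pderiv (Sum.inr (Sum.inr k) : NH.V1 σ)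
        (NH.il (η i) - (NH.ww σ * NH.tt σ) ^ J * NH.tt σ * NH.vv i)) fun i _ =>
          Q.mul_mem_left _ (e3 i))
    rwa [add_sub_cancel_right] at h3
  -- `γ ∈ Q`
  have hγ : r (Sum.inl 2) ∈ Q := by
    rcases hsm with ⟨k, hk, hk2⟩ | ⟨hJ, hk2⟩
    · have h2 := keyV k
      have e1 : pderiv (Sum.inr (Sum.inr k) : NH.V1 σ)
          (NH.vv e - 1 : MvPolynomial (NH.V1 σ) ℤ) = 0 := by
        rw [map_sub, pX _ _ (by
          intro h; exact hk (Sum.inr_injective (Sum.inr_injective h)).symm), pderiv_one, sub_zero]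
      rw [e1, mul_zero, zero_add] at h2
      exact (hQ.mem_or_mem h2).resolve_right hk2
    · subst hJ
      have h2 := key (Sum.inr (Sum.inl 1))
      have e1 : pderiv (Sum.inr (Sum.inl 1) : NH.V1 σ)
          (NH.vv e - 1 : MvPolynomial (NH.V1 σ) ℤ) = 0 := by
        rw [map_sub, pX _ _ (by simp), pderiv_one, sub_zero]
      have e2 : pderiv (Sum.inr (Sum.inl 1) : NH.V1 σ)
          (NH.il z - NH.ww σ * NH.tt σ : MvPolynomial (NH.V1 σ) ℤ) = - NH.tt σ := by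
        rw [map_sub, NH.IND1.pd_inr_il, Derivation.leibniz, pderiv_X_self, pX _ _ (by simp)]
        simp
      have e3 : ∀ i, pderiv (Sum.inr (Sum.inl 1) : NH.V1 σ)
          (NH.il (η i) - (NH.ww σ * NH.tt σ) ^ 0 * NH.tt σ * NH.vv i :
            MvPolynomial (NH.V1 σ) ℤ) = 0 := by
        intro i
        rw [pow_zero, one_mul, map_sub, NH.IND1.pd_inr_il, Derivation.leibniz,
          pX _ (Sum.inr (Sum.inl 0)) (by simp), pX _ (Sum.inr (Sum.inr i)) (by simp)]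
        simp
      simp only [e1, e2, e3, GeYa_GYu, mul_zero, Finset.sum_const_zero, add_zero, zero_add] at h2
      have h3 : r (Sum.inl 2) * (∑ i, NH.il (b i) * NH.vv i + 2 * NH.il c * NH.ww σ) ∈ Q := by
        have h4 := Q.sub_mem h2 (Q.mul_mem_left (r (Sum.inl 1)) (Q.neg_mem hY))
        rwa [add_sub_cancel_left] at h4
      exact (hQ.mem_or_mem h3).resolve_right hk2
  -- `α ∈ Q`
  have hα : r (Sum.inl 0) ∈ Q := by
    have h2 := keyV e
    have e1 : pderiv (Sum.inr (Sum.inr e) : NH.V1 σ)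
        (NH.vv e - 1 : MvPolynomial (NH.V1 σ) ℤ) = 1 := by
      rw [map_sub, pderiv_X_self, pderiv_one, sub_zero]
    rw [e1, mul_one] at h2
    have h3 := Q.sub_mem h2 (Q.mul_mem_right
      (∑ j, NH.il (a e j + a j e) * NH.vv j + NH.ww σ * NH.il (b e)) hγ)
    rwa [add_sub_cancel_right] at h3
  -- the rest of the combination
  have h1 : r (Sum.inl 1) * (NH.il z - NH.ww σ * NH.tt σ) +
      ∑ i, r (Sum.inr i) * (NH.il (η i) - (NH.ww σ * NH.tt σ) ^ J * NH.tt σ * NH.vv i) ∈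
        Q ^ 2 := by
    have h2 : ∑ i, r i * relY z η J a b c e i = r (Sum.inl 0) * (NH.vv e - 1) +
        r (Sum.inl 1) * (NH.il z - NH.ww σ * NH.tt σ) + r (Sum.inl 2) * GY a b c +
        ∑ i, r (Sum.inr i) *
          (NH.il (η i) - (NH.ww σ * NH.tt σ) ^ J * NH.tt σ * NH.vv i) := by
      rw [Fintype.sum_sum_type, Fin.sum_univ_three]
      rfl
    rw [h2] at hr
    have h3 : r (Sum.inl 0) * (NH.vv e - 1) ∈ Q ^ 2 := by
      rw [pow_two]
      exact Ideal.mul_mem_mul hα (hrel (Sum.inl 0))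
    have h4 : r (Sum.inl 2) * GY a b c ∈ Q ^ 2 := by
      rw [pow_two]
      exact Ideal.mul_mem_mul hγ (hrel (Sum.inl 2))
    have h5 := (Q ^ 2).sub_mem ((Q ^ 2).sub_mem hr h3) h4
    have h6 : ∀ A B C D : MvPolynomial (NH.V1 σ) ℤ, A + B + C + D - A - C = B + D := by
      intro A B C D; ring
    rwa [h6] at h5
  have hUY2 : NH.ww σ * NH.tt σ ∈ Q ^ 2 := by
    rw [pow_two]
    exact Ideal.mul_mem_mul hU hY
  have h7 : ∑ i, r (Sum.inr i) * ((NH.ww σ * NH.tt σ) ^ J * NH.tt σ * NH.vv i) ∈ Q ^ 2 := by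
    rcases Nat.eq_zero_or_pos J with hJ | hJ
    · subst hJ
      have h2 := key (Sum.inr (Sum.inl 0))
      have e1 : pderiv (Sum.inr (Sum.inl 0) : NH.V1 σ)
          (NH.vv e - 1 : MvPolynomial (NH.V1 σ) ℤ) = 0 := by
        rw [map_sub, pX _ _ (by simp), pderiv_one, sub_zero]
      have e2 : pderiv (Sum.inr (Sum.inl 0) : NH.V1 σ)
          (NH.il z - NH.ww σ * NH.tt σ : MvPolynomial (NH.V1 σ) ℤ) = - NH.ww σ := by
        rw [map_sub, NH.IND1.pd_inr_il, Derivation.leibniz, pderiv_X_self, pX _ _ (by simp)]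
        simp
      have e3 : ∀ i, pderiv (Sum.inr (Sum.inl 0) : NH.V1 σ)
          (NH.il (η i) - (NH.ww σ * NH.tt σ) ^ 0 * NH.tt σ * NH.vv i :
            MvPolynomial (NH.V1 σ) ℤ) = - NH.vv i := by
        intro i
        rw [pow_zero, one_mul, map_sub, NH.IND1.pd_inr_il, Derivation.leibniz,
          pderiv_X_self, pX _ (Sum.inr (Sum.inr i)) (by simp)]
        simp
      simp only [e1, e2, e3, GeYa_GYy, mul_zero, add_zero, zero_add] at h2
      have h3 : ∑ i, r (Sum.inr i) * NH.vv i ∈ Q := by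
        have h4 := Q.neg_mem (Q.sub_mem h2 (Q.mul_mem_left (r (Sum.inl 1)) (Q.neg_mem hU)))
        rw [add_sub_cancel_left, ← Finset.sum_neg_distrib] at h4
        have h5 : ∀ i, -(r (Sum.inr i) * -NH.vv i) = r (Sum.inr i) * NH.vv i := by
          intro i; ring
        simp only [h5] at h4
        exact h4
      have h4 : ∑ i, r (Sum.inr i) * ((NH.ww σ * NH.tt σ) ^ 0 * NH.tt σ * NH.vv i) =
          NH.tt σ * ∑ i, r (Sum.inr i) * NH.vv i := by
        rw [Finset.mul_sum]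
        refine Finset.sum_congr rfl fun i _ => ?_
        ring
      rw [h4, pow_two]
      exact Ideal.mul_mem_mul hY h3
    · obtain ⟨m, rfl⟩ : ∃ m, J = m + 1 := ⟨J - 1, by omega⟩
      refine (Q ^ 2).sum_mem fun i _ => ?_
      have h2 : r (Sum.inr i) * ((NH.ww σ * NH.tt σ) ^ (m + 1) * NH.tt σ * NH.vv i) =
          (r (Sum.inr i) * (NH.ww σ * NH.tt σ) ^ m * NH.tt σ * NH.vv i) *
            (NH.ww σ * NH.tt σ) := by ring
      rw [h2]
      exact (Q ^ 2).mul_mem_left _ hUY2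
  have h8 : r (Sum.inl 1) * rename (Sum.inl : σ → NH.V1 σ) z +
      ∑ i, r (Sum.inr i) * rename (Sum.inl : σ → NH.V1 σ) (η i) ∈ Q ^ 2 := by
    have h9 : r (Sum.inl 1) * rename (Sum.inl : σ → NH.V1 σ) z +
        ∑ i, r (Sum.inr i) * rename (Sum.inl : σ → NH.V1 σ) (η i) =
        (r (Sum.inl 1) * (NH.il z - NH.ww σ * NH.tt σ) +
          ∑ i, r (Sum.inr i) * (NH.il (η i) - (NH.ww σ * NH.tt σ) ^ J * NH.tt σ * NH.vv i)) +
        r (Sum.inl 1) * (NH.ww σ * NH.tt σ) +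
        ∑ i, r (Sum.inr i) * ((NH.ww σ * NH.tt σ) ^ J * NH.tt σ * NH.vv i) := by
      have h10 : ∑ i, r (Sum.inr i) * rename (Sum.inl : σ → NH.V1 σ) (η i) =
          ∑ i, r (Sum.inr i) * (NH.il (η i) - (NH.ww σ * NH.tt σ) ^ J * NH.tt σ * NH.vv i) +
          ∑ i, r (Sum.inr i) * ((NH.ww σ * NH.tt σ) ^ J * NH.tt σ * NH.vv i) := by
        rw [← Finset.sum_add_distrib]
        refine Finset.sum_congr rfl fun i _ => ?_
        ring
      rw [h10]
      ring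
    rw [h9]
    exact (Q ^ 2).add_mem ((Q ^ 2).add_mem h1 ((Q ^ 2).mul_mem_left _ hUY2)) h7
  obtain ⟨hβ, hδ⟩ := cot_indep hp hpM hpar Sum.inl_injective Q hMQ h8
  intro i
  rcases i with i | i
  · fin_cases i
    · exact hα
    · exact hβ
    · exact hγ
  · exact hδ i

end Pool.Agent.NT9
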