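import Pool.Agent.NT9.SvQf

set_option autoImplicit false

/-!
# The constant

With `q >= 2` real put `U(0) = 1`, `U(1) = 1/q + 1/(q^2 (q+1))`, `U(2) = 1/(q (q^2-1))`,
`U(3) = q^(-6) / (1 - q^(-2))^2`, `U(r) = q^(-8) q^(4-r) / ((1 - q^(-2))^2 (1 - q^(-3)))` for `r >= 4`.
Then `(1 - q^(-r)) U(r+1) + q^(-r) U(r-1) <= U(r)` for all `r >= 1`
(`r = 1`: equality; `r = 2`: equality, `r = 3`: equality; `r = 4`: reduces to
`(1 - q^(-4)) / q + q^(-2) (1 - q^(-3)) <= 1`; `r >= 5`: `(1 - q^(-r)) / q + q^(1-r) <= 1`),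
so `G_N(r) <= U(r)` for all `N`, `r` by induction on `N` (`vert_rec`; for `N = 0` the vertex is the zero
space).
-/

namespace Pool.Agent.NT9

/-- The super-solution in terms of `x = 1 / q`. -/
private noncomputable def ss_U (x : ℝ) : ℕ → ℝ
  | 0 => 1
  | 1 => x + x ^ 3 / (1 + x)
  | 2 => x ^ 3 / (1 - x ^ 2)
  | 3 => x ^ 6 / (1 - x ^ 2) ^ 2
  | (r + 4) => x ^ 8 * x ^ r / ((1 - x ^ 2) ^ 2 * (1 - x ^ 3))

private theorem ss_main {x : ℝ} (hx : 0 < x) (hx2 : x ≤ 1 / 2) :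
    ∀ r, 1 ≤ r → (1 - x ^ r) * ss_U x (r + 1) + x ^ r * ss_U x (r - 1) ≤ ss_U x r := by
  have h1 : 0 < 1 + x := by linarith
  have h2 : 0 < 1 - x ^ 2 := by nlinarith
  have h3 : 0 < 1 - x ^ 3 := by
    have : x ^ 3 ≤ (1 / 2) ^ 3 := pow_le_pow_left₀ hx.le hx2 3
    norm_num at this
    linarith
  intro r hr
  match r, hr with
  | 1, _ =>
    refine le_of_eq ?_
    show (1 - x ^ 1) * (x ^ 3 / (1 - x ^ 2)) + x ^ 1 * 1 = x + x ^ 3 / (1 + x)
    have h4 : (1 - x ^ 1) * (x ^ 3 / (1 - x ^ 2)) = x ^ 3 / (1 + x) := by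
      rw [mul_div_assoc', div_eq_div_iff h2.ne' h1.ne']
      ring
    rw [h4]; ring
  | 2, _ =>
    refine le_of_eq ?_
    show (1 - x ^ 2) * (x ^ 6 / (1 - x ^ 2) ^ 2) + x ^ 2 * (x + x ^ 3 / (1 + x)) =
      x ^ 3 / (1 - x ^ 2)
    have h4 : (1 - x ^ 2) = (1 - x) * (1 + x) := by ring
    have h5 : 0 < 1 - x := by linarith
    rw [h4]
    field_simp
    ring
  | 3, _ =>
    refine le_of_eq ?_
    show (1 - x ^ 3) * (x ^ 8 * x ^ 0 / ((1 - x ^ 2) ^ 2 * (1 - x ^ 3))) +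
      x ^ 3 * (x ^ 3 / (1 - x ^ 2)) = x ^ 6 / (1 - x ^ 2) ^ 2
    field_simp
    ring
  | 4, _ =>
    show (1 - x ^ 4) * (x ^ 8 * x ^ 1 / ((1 - x ^ 2) ^ 2 * (1 - x ^ 3))) +
      x ^ 4 * (x ^ 6 / (1 - x ^ 2) ^ 2) ≤ x ^ 8 * x ^ 0 / ((1 - x ^ 2) ^ 2 * (1 - x ^ 3))
    have h4 : x ^ 4 * (x ^ 6 / (1 - x ^ 2) ^ 2) =
        x ^ 10 * (1 - x ^ 3) / ((1 - x ^ 2) ^ 2 * (1 - x ^ 3)) := by
      field_simp
    rw [h4, mul_div_assoc', ← add_div]
    refine div_le_div_of_nonneg_right ?_ (by positivity)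
    have h5 : (1 - x ^ 4) * (x ^ 8 * x ^ 1) + x ^ 10 * (1 - x ^ 3) =
        x ^ 8 * (x + x ^ 2 - x ^ 5 - x ^ 5) := by ring
    rw [h5]
    refine mul_le_mul_of_nonneg_left ?_ (by positivity)
    rw [pow_zero]
    have : 0 < x ^ 5 := by positivity
    nlinarith
  | (r + 5), _ =>
    have e1 : ss_U x (r + 5 + 1) =
      x ^ 8 * x ^ (r + 2) / ((1 - x ^ 2) ^ 2 * (1 - x ^ 3)) := rfl
    have e2 : ss_U x (r + 5 - 1) =
      x ^ 8 * x ^ r / ((1 - x ^ 2) ^ 2 * (1 - x ^ 3)) := rfl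
    have e3 : ss_U x (r + 5) =
      x ^ 8 * x ^ (r + 1) / ((1 - x ^ 2) ^ 2 * (1 - x ^ 3)) := rfl
    rw [e1, e2, e3, mul_div_assoc', mul_div_assoc', ← add_div]
    refine div_le_div_of_nonneg_right ?_ (by positivity)
    have h5 : (1 - x ^ (r + 5)) * (x ^ 8 * x ^ (r + 2)) + x ^ (r + 5) * (x ^ 8 * x ^ r) =
        x ^ 8 * x ^ (r + 1) * (x + x ^ (r + 4) - x ^ (r + 6)) := by ring
    rw [h5]
    have h6 : x + x ^ (r + 4) - x ^ (r + 6) ≤ 1 := by
      have h7 : x ^ (r + 4) ≤ x := by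
        calc x ^ (r + 4) ≤ x ^ 1 := pow_le_pow_of_le_one hx.le (by linarith) (by omega)
          _ = x := pow_one x
      have h8 : 0 < x ^ (r + 6) := by positivity
      linarith
    calc x ^ 8 * x ^ (r + 1) * (x + x ^ (r + 4) - x ^ (r + 6)) ≤ x ^ 8 * x ^ (r + 1) * 1 :=
          mul_le_mul_of_nonneg_left h6 (by positivity)
      _ = x ^ 8 * x ^ (r + 1) := mul_one _

private theorem ss_nonneg {x : ℝ} (hx : 0 < x) (hx2 : x ≤ 1 / 2) (r : ℕ) : 0 ≤ ss_U x r := by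
  have h2 : 0 < 1 - x ^ 2 := by nlinarith
  have h3 : 0 < 1 - x ^ 3 := by
    have : x ^ 3 ≤ (1 / 2) ^ 3 := pow_le_pow_left₀ hx.le hx2 3
    norm_num at this
    linarith
  match r with
  | 0 => exact zero_le_one
  | 1 => show 0 ≤ x + x ^ 3 / (1 + x); positivity
  | 2 => show 0 ≤ x ^ 3 / (1 - x ^ 2); positivity
  | 3 => show 0 ≤ x ^ 6 / (1 - x ^ 2) ^ 2; positivity
  | (r + 4) => show 0 ≤ x ^ 8 * x ^ r / ((1 - x ^ 2) ^ 2 * (1 - x ^ 3)); positivity

theorem superSol (q : ℝ) (hq : 2 ≤ q) : ∃ U : ℕ → ℝ, U 0 = 1 ∧ (∀ r, 0 ≤ U r) ∧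
    U 2 = 1 / (q * (q ^ 2 - 1)) ∧
    ∀ r, 1 ≤ r → (1 - 1 / q ^ r) * U (r + 1) + 1 / q ^ r * U (r - 1) ≤ U r := by
  have hq0 : 0 < q := by linarith
  have hx : 0 < 1 / q := by positivity
  have hx2 : 1 / q ≤ 1 / 2 := one_div_le_one_div_of_le (by norm_num) hq
  refine ⟨ss_U (1 / q), rfl, ss_nonneg hx hx2, ?_, ?_⟩
  · show (1 / q) ^ 3 / (1 - (1 / q) ^ 2) = 1 / (q * (q ^ 2 - 1))
    have h1 : 0 < q ^ 2 - 1 := by nlinarith
    have h2 : 1 - (1 / q) ^ 2 = (q ^ 2 - 1) / q ^ 2 := by field_simp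
    rw [h2]
    field_simp
  · intro r hr
    have h := ss_main hx hx2 r hr
    rwa [one_div_pow] at h

/-- At most `1 / (q (q ^ 2 - 1))` of all quadratic forms have a vertex of dimension at least `2`. -/
theorem vert_two {k : Type} [Field k] [Finite k] (N : ℕ) :
    pr (fun a : Matrix (Fin N) (Fin N) k => 2 ≤ Module.finrank k (vert a)) ≤
      1 / ((Nat.card k : ℝ) * ((Nat.card k : ℝ) ^ 2 - 1)) := by
  have hq : (2 : ℝ) ≤ Nat.card k := by
    exact_mod_cast Finite.one_lt_card_iff_nontrivial.2 (inferInstance : Nontrivial k)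
  obtain ⟨U, hU0, hUn, hU2, hU⟩ := superSol (Nat.card k : ℝ) hq
  rw [← hU2]
  have key : ∀ N : ℕ, ∀ r : ℕ,
      pr (fun a : Matrix (Fin N) (Fin N) k => r ≤ Module.finrank k (vert a)) ≤ U r := by
    intro N
    induction N with
    | zero =>
      intro r
      rcases Nat.eq_zero_or_pos r with h | h
      · rw [h, hU0]
        have : Finite (Matrix (Fin 0) (Fin 0) k) :=
          inferInstanceAs (Finite (Fin 0 → Fin 0 → k))
        exact pr_le_one _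
      · have h1 : ∀ a : Matrix (Fin 0) (Fin 0) k, ¬ r ≤ Module.finrank k (vert a) := by
          intro a ha
          have h2 := Submodule.finrank_le (vert a)
          rw [Module.finrank_fin_fun] at h2
          omega
        have h2 : pr (fun a : Matrix (Fin 0) (Fin 0) k => r ≤ Module.finrank k (vert a)) = 0 := by
          unfold pr
          have : IsEmpty {a : Matrix (Fin 0) (Fin 0) k // r ≤ Module.finrank k (vert a)} :=
            ⟨fun a => h1 a.1 a.2⟩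
          rw [Nat.card_of_isEmpty]
          simp
        rw [h2]
        exact hUn r
    | succ N ih =>
      intro r
      rcases Nat.eq_zero_or_pos r with h | h
      · rw [h, hU0]
        have : Finite (Matrix (Fin (N + 1)) (Fin (N + 1)) k) :=
          inferInstanceAs (Finite (Fin (N + 1) → Fin (N + 1) → k))
        exact pr_le_one _
      · refine (vert_rec N r h).trans (le_trans ?_ (hU r h))
        have h1 : 0 ≤ 1 / (Nat.card k : ℝ) ^ r := by positivity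
        have h2 : 1 / (Nat.card k : ℝ) ^ r ≤ 1 := by
          rw [div_le_one (by positivity)]
          exact one_le_pow₀ (by linarith)
        exact add_le_add (mul_le_mul_of_nonneg_left (ih (r + 1)) (by linarith))
          (mul_le_mul_of_nonneg_left (ih (r - 1)) h1)
  exact key N 2

end Pool.Agent.NT9
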