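import Pool.Agent.NT9.SvMax

set_option autoImplicit false

/-!
# Counting closed points

`M` maximal, `p ∈ M`, `card (A / M) = p ^ e`: choose an isomorphism of `A / M` with `GaloisField p e`; then
`M` is the kernel of `aeval v` (composed with `ℤ → GaloisField p e`) with `v_i = 0` for `i ∉ T`. So the number of
such `M` is at most the number of the `v`.
-/

namespace Pool.Agent.NT9

open MvPolynomial

theorem count_max {σ : Type} [Finite σ] {p : ℕ} (hp : p.Prime) (T : Set σ) (e : ℕ) (he : 1 ≤ e) :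
    {M : Ideal (MvPolynomial σ ℤ) | M.IsMaximal ∧ C (p : ℤ) ∈ M ∧
      (∀ i, i ∉ T → X i ∈ M) ∧ Nat.card (MvPolynomial σ ℤ ⧸ M) = p ^ e}.Finite ∧
    {M : Ideal (MvPolynomial σ ℤ) | M.IsMaximal ∧ C (p : ℤ) ∈ M ∧
      (∀ i, i ∉ T → X i ∈ M) ∧ Nat.card (MvPolynomial σ ℤ ⧸ M) = p ^ e}.ncard ≤
      (p ^ e) ^ T.ncard := by
  classical
  have : Fact p.Prime := ⟨hp⟩
  have hK : Finite (GaloisField p e) := inferInstance
  let ev : (T → GaloisField p e) → σ → GaloisField p e := fun v i =>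
    if h : i ∈ T then v ⟨i, h⟩ else 0
  let Mv : (T → GaloisField p e) → Ideal (MvPolynomial σ ℤ) := fun v =>
    RingHom.ker (aeval (ev v) : MvPolynomial σ ℤ →ₐ[ℤ] GaloisField p e).toRingHom
  have hsub : {M : Ideal (MvPolynomial σ ℤ) | M.IsMaximal ∧ C (p : ℤ) ∈ M ∧
      (∀ i, i ∉ T → X i ∈ M) ∧ Nat.card (MvPolynomial σ ℤ ⧸ M) = p ^ e} ⊆ Set.range Mv := by
    rintro M ⟨hM, -, hT, hc⟩
    let _ : Field (MvPolynomial σ ℤ ⧸ M) := Ideal.Quotient.field M
    have hf : Finite (MvPolynomial σ ℤ ⧸ M) := by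
      apply Nat.finite_of_card_ne_zero
      rw [hc]
      have := hp.pos
      positivity
    have : Fintype (MvPolynomial σ ℤ ⧸ M) := Fintype.ofFinite _
    have : Fintype (GaloisField p e) := Fintype.ofFinite _
    have hcard : Fintype.card (MvPolynomial σ ℤ ⧸ M) = Fintype.card (GaloisField p e) := by
      rw [← Nat.card_eq_fintype_card, ← Nat.card_eq_fintype_card, hc,
        GaloisField.card p e (by omega)]
    let φ : (MvPolynomial σ ℤ ⧸ M) ≃+* GaloisField p e := FiniteField.ringEquivOfCardEq hcard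
    let f : MvPolynomial σ ℤ →+* GaloisField p e := φ.toRingHom.comp (Ideal.Quotient.mk M)
    have hker : RingHom.ker f = M := by
      ext x
      rw [RingHom.mem_ker]
      have h1 : f x = φ (Ideal.Quotient.mk M x) := rfl
      rw [h1, EmbeddingLike.map_eq_zero_iff, Ideal.Quotient.eq_zero_iff_mem]
    refine ⟨fun i => f (X i.1), ?_⟩
    have h2 : (aeval (ev fun i => f (X i.1)) : MvPolynomial σ ℤ →ₐ[ℤ] GaloisField p e).toRingHom =
        f := by
      apply MvPolynomial.ringHom_ext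
      · intro r
        simp
      · intro i
        have h3 : (aeval (ev fun i => f (X i.1)) : MvPolynomial σ ℤ →ₐ[ℤ] GaloisField p e) (X i) =
            ev (fun i => f (X i.1)) i := aeval_X _ _
        refine h3.trans ?_
        by_cases h : i ∈ T
        · simp only [ev, dif_pos h]
        · simp only [ev, dif_neg h]
          have h4 : X i ∈ RingHom.ker f := by
            rw [hker]
            exact hT i h
          exact (RingHom.mem_ker.1 h4).symm
    show RingHom.ker _ = M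
    rw [h2, hker]
  have hrf : (Set.range Mv).Finite := Set.finite_range Mv
  refine ⟨hrf.subset hsub, (Set.ncard_le_ncard hsub hrf).trans ?_⟩
  have h5 : (Set.range Mv).ncard ≤ Nat.card (T → GaloisField p e) := by
    have h6 : Set.range Mv = Mv '' Set.univ := Set.image_univ.symm
    rw [h6, ← Set.ncard_univ]
    exact Set.ncard_image_le (Set.toFinite _)
  refine h5.trans (le_of_eq ?_)
  rw [Nat.card_fun, GaloisField.card p e (by omega)]
  rfl

/-- The points of the chart `m` with `x_i = 0` for `i < m`. -/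
theorem count_chart {n : ℕ} (m : Fin (n + 1)) {p : ℕ} (hp : p.Prime) (e : ℕ) (he : 1 ≤ e) :
    {M : Ideal (MvPolynomial {i : Fin (n + 1) // i ≠ m} ℤ) | M.IsMaximal ∧
      C (p : ℤ) ∈ M ∧
      (∀ i : {i : Fin (n + 1) // i ≠ m}, i.1 < m → X i ∈ M) ∧
      Nat.card (MvPolynomial {i : Fin (n + 1) // i ≠ m} ℤ ⧸ M) = p ^ e}.Finite ∧
    {M : Ideal (MvPolynomial {i : Fin (n + 1) // i ≠ m} ℤ) | M.IsMaximal ∧
      C (p : ℤ) ∈ M ∧
      (∀ i : {i : Fin (n + 1) // i ≠ m}, i.1 < m → X i ∈ M) ∧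
      Nat.card (MvPolynomial {i : Fin (n + 1) // i ≠ m} ℤ ⧸ M) = p ^ e}.ncard ≤
      (p ^ e) ^ (n - (m : ℕ)) := by
  have h := count_max hp {i : {i : Fin (n + 1) // i ≠ m} | ¬ i.1 < m} e he
  have hset : {M : Ideal (MvPolynomial {i : Fin (n + 1) // i ≠ m} ℤ) | M.IsMaximal ∧
      C (p : ℤ) ∈ M ∧
      (∀ i : {i : Fin (n + 1) // i ≠ m}, i.1 < m → X i ∈ M) ∧
      Nat.card (MvPolynomial {i : Fin (n + 1) // i ≠ m} ℤ ⧸ M) = p ^ e} =
      {M : Ideal (MvPolynomial {i : Fin (n + 1) // i ≠ m} ℤ) | M.IsMaximal ∧ C (p : ℤ) ∈ M ∧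
      (∀ i, i ∉ {i : {i : Fin (n + 1) // i ≠ m} | ¬ i.1 < m} → X i ∈ M) ∧
      Nat.card (MvPolynomial {i : Fin (n + 1) // i ≠ m} ℤ ⧸ M) = p ^ e} := by
    ext M
    simp only [Set.mem_ofPred_eq, not_not]
  rw [hset]
  refine ⟨h.1, h.2.trans (le_of_eq ?_)⟩
  congr 1
  have h1 : (Subtype.val '' {i : {i : Fin (n + 1) // i ≠ m} | ¬ i.1 < m}) =
      ((Finset.Ioi m : Finset (Fin (n + 1))) : Set (Fin (n + 1))) := by
    ext i
    simp only [Set.mem_image, Set.mem_ofPred_eq, Subtype.exists, exists_and_left, exists_prop,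
      Finset.coe_Ioi, Set.mem_Ioi]
    constructor
    · rintro ⟨j, hj1, hj2, rfl⟩
      exact lt_of_le_of_ne (not_lt.1 hj1) (Ne.symm hj2)
    · intro hi
      exact ⟨i, not_lt.2 hi.le, hi.ne', rfl⟩
  rw [← Set.ncard_image_of_injective _ Subtype.val_injective, h1, Set.ncard_coe_finset,
    Fin.card_Ioi]
  omega

end Pool.Agent.NT9
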