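import Pool.Agent.NodHyp.Dens

set_option autoImplicit false

/-! # TlB: the density of a set of residue classes -/

namespace Pool.Agent.NT9

open MvPolynomial Pool.Agent.NH

/-- The forms in the box whose coefficient vector modulo `m` belongs to `Bad` have density at most
`#Bad / m ^ N`, `N` the number of monomials. -/
theorem dens_mod (n d m : ℕ) (hm : 1 ≤ m) (Bad : Set (Mon n d → ZMod m)) (ε : ℝ) (hε : 0 < ε) :
    ∃ H₀ : ℕ, ∀ H : ℕ, H₀ ≤ H →
      ({F ∈ Box n d H | (fun α : Mon n d => ((coeff α.1 F : ℤ) : ZMod m)) ∈ Bad}.ncard : ℝ) ≤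
        ((Bad.ncard : ℝ) / (m : ℝ) ^ Fintype.card (Mon n d) + ε) * ((Box n d H).ncard : ℝ) := by
  classical
  have hmz : NeZero m := ⟨by omega⟩
  set N := Fintype.card (Mon n d) with hN
  have hm0 : (0 : ℝ) < m := by exact_mod_cast hm
  -- the bound for one class
  have key : ∀ H : ℕ, ∀ b : Mon n d → ZMod m,
      {F ∈ Box n d H | (fun α : Mon n d => ((coeff α.1 F : ℤ) : ZMod m)) = b}.ncard ≤
        (2 * H / m + 1) ^ N := by
    intro H b
    set F₀ : MvPolynomial (Fin (n + 1)) ℤ := toF (fun α => ((b α).val : ℤ)) with hF₀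
    obtain ⟨-, c₀, -, hG⟩ := class_count n d hm H F₀ (toF_isHomogeneous _)
    have hsub : {F ∈ Box n d H | (fun α : Mon n d => ((coeff α.1 F : ℤ) : ZMod m)) = b} ⊆
        ((Finset.univ : Finset (Mon n d → Fin (2 * H / m + 1))).image
          (fun x => toF fun α => c₀ α + m * ((x α : ℕ) : ℤ)) :
          Set (MvPolynomial (Fin (n + 1)) ℤ)) := by
      rintro G ⟨hG1, hG2⟩
      have hdvd : C (m : ℤ) ∣ G - F₀ := by
        obtain ⟨c, rfl⟩ := exists_toF hG1.1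
        rw [hF₀, DensA_dvd_iff]
        intro α
        have h1 := congrFun hG2 α
        simp only [coeff_toF] at h1
        rw [← ZMod.intCast_zmod_eq_zero_iff_dvd, Int.cast_sub, h1]
        simp
      obtain ⟨x, hx⟩ := hG G hG1 hdvd
      rw [Finset.coe_image, Set.mem_image]
      exact ⟨x, Finset.mem_coe.2 (Finset.mem_univ _), hx.symm⟩
    calc _ ≤ _ := Set.ncard_le_ncard hsub (Finset.finite_toSet _)
      _ = _ := Set.ncard_coe_finset _
      _ ≤ (Finset.univ : Finset (Mon n d → Fin (2 * H / m + 1))).card := Finset.card_image_le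
      _ = (2 * H / m + 1) ^ N := by
        rw [Finset.card_univ, Fintype.card_fun, Fintype.card_fin]
  -- the sum over the bad classes
  have hsum : ∀ H : ℕ,
      {F ∈ Box n d H | (fun α : Mon n d => ((coeff α.1 F : ℤ) : ZMod m)) ∈ Bad}.ncard ≤
        Bad.ncard * (2 * H / m + 1) ^ N := by
    intro H
    have hBf : Bad.Finite := Set.toFinite _
    have hsub : {F ∈ Box n d H | (fun α : Mon n d => ((coeff α.1 F : ℤ) : ZMod m)) ∈ Bad} ⊆
        ⋃ b ∈ hBf.toFinset,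
          {F ∈ Box n d H | (fun α : Mon n d => ((coeff α.1 F : ℤ) : ZMod m)) = b} := by
      rintro G ⟨hG1, hG2⟩
      rw [Set.mem_iUnion₂]
      exact ⟨_, hBf.mem_toFinset.2 hG2, hG1, rfl⟩
    have hfin : (⋃ b ∈ hBf.toFinset,
          {F ∈ Box n d H | (fun α : Mon n d => ((coeff α.1 F : ℤ) : ZMod m)) = b}).Finite :=
      (box_finite n d H).subset (Set.iUnion₂_subset fun b _ G hG => hG.1)
    calc _ ≤ _ := Set.ncard_le_ncard hsub hfin
      _ ≤ ∑ b ∈ hBf.toFinset,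
          {F ∈ Box n d H | (fun α : Mon n d => ((coeff α.1 F : ℤ) : ZMod m)) = b}.ncard :=
        Finset.set_ncard_biUnion_le _ _
      _ ≤ ∑ _b ∈ hBf.toFinset, (2 * H / m + 1) ^ N := Finset.sum_le_sum fun b _ => key H b
      _ = Bad.ncard * (2 * H / m + 1) ^ N := by
        rw [Finset.sum_const, smul_eq_mul, Set.ncard_eq_toFinset_card Bad hBf]
  -- the limit
  have hlim : Filter.Tendsto (fun H : ℕ => (Bad.ncard : ℝ) *
      (((2 * H / m + 1 : ℕ) : ℝ) / ((2 * H + 1 : ℕ) : ℝ)) ^ N) Filter.atTop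
      (nhds ((Bad.ncard : ℝ) * (1 / (m : ℝ)) ^ N)) := by
    refine Filter.Tendsto.const_mul _ (Filter.Tendsto.pow ?_ N)
    rw [tendsto_iff_norm_sub_tendsto_zero]
    have h1 : Filter.Tendsto (fun H : ℕ => (1 : ℝ) / ((H : ℝ) + 1)) Filter.atTop (nhds 0) :=
      tendsto_one_div_add_atTop_nhds_zero_nat
    refine squeeze_zero (fun _ => norm_nonneg _) (fun H => ?_) h1
    have hH : (0 : ℝ) < ((2 * H + 1 : ℕ) : ℝ) := by positivity
    have h2 : (m : ℝ) * ((2 * H / m : ℕ) : ℝ) ≤ 2 * H := by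
      have := Nat.mul_div_le (2 * H) m
      exact_mod_cast this
    have h3 : (2 * H : ℝ) < m * ((2 * H / m : ℕ) : ℝ) + m := by
      have h4 := Nat.lt_mul_div_succ (2 * H) (show 0 < m by omega)
      have h5 : ((2 * H : ℕ) : ℝ) < ((m * (2 * H / m + 1) : ℕ) : ℝ) := by exact_mod_cast h4
      push_cast at h5
      linarith
    have hm1 : (1 : ℝ) ≤ m := by exact_mod_cast hm
    rw [Real.norm_eq_abs, div_sub_div _ _ hH.ne' hm0.ne', abs_div,
      abs_of_pos (mul_pos hH hm0), div_le_div_iff₀ (mul_pos hH hm0) (by positivity)]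
    have h6 : |((2 * H / m + 1 : ℕ) : ℝ) * m - ((2 * H + 1 : ℕ) : ℝ) * 1| ≤ m := by
      rw [abs_le]
      push_cast
      constructor <;> nlinarith
    push_cast at h6 ⊢
    have hHn : (0 : ℝ) ≤ H := by positivity
    calc |((↑(2 * H / m) : ℝ) + 1) * m - (2 * ↑H + 1) * 1| * (↑H + 1) ≤ m * (↑H + 1) := by
          gcongr
      _ ≤ 1 * ((2 * ↑H + 1) * m) := by nlinarith
  have hev := (hlim.eventually_lt_const (show (Bad.ncard : ℝ) * (1 / (m : ℝ)) ^ N <
    (Bad.ncard : ℝ) * (1 / (m : ℝ)) ^ N + ε by linarith))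
  obtain ⟨H₀, hH₀⟩ := Filter.eventually_atTop.1 hev
  refine ⟨H₀, fun H hH => ?_⟩
  have h1 := hH₀ H hH
  have hL0 : (0 : ℝ) < ((2 * H + 1 : ℕ) : ℝ) := by positivity
  have hbox : ((Box n d H).ncard : ℝ) = ((2 * H + 1 : ℕ) : ℝ) ^ N := by
    rw [card_box, ← hN, Nat.cast_pow]
  rw [hbox]
  calc ({F ∈ Box n d H | (fun α : Mon n d => ((coeff α.1 F : ℤ) : ZMod m)) ∈ Bad}.ncard : ℝ)
      ≤ (Bad.ncard : ℝ) * ((2 * H / m + 1 : ℕ) : ℝ) ^ N := by exact_mod_cast hsum H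
    _ = ((Bad.ncard : ℝ) * (((2 * H / m + 1 : ℕ) : ℝ) / ((2 * H + 1 : ℕ) : ℝ)) ^ N) *
        ((2 * H + 1 : ℕ) : ℝ) ^ N := by
      rw [div_pow]
      field_simp
    _ ≤ ((Bad.ncard : ℝ) * (1 / (m : ℝ)) ^ N + ε) * ((2 * H + 1 : ℕ) : ℝ) ^ N := by
      gcongr
    _ = ((Bad.ncard : ℝ) / (m : ℝ) ^ N + ε) * ((2 * H + 1 : ℕ) : ℝ) ^ N := by
      rw [one_div, inv_pow, div_eq_mul_inv]

end Pool.Agent.NT9
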