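import Pool.Agent.NT9.SvSum
import Pool.Agent.NT9.TlA
import Pool.Agent.NT9.TlB
import Pool.Agent.NT9.TlC

set_option autoImplicit false

/-! # Assembly of the sieve -/

namespace Pool.Agent.NT9

open MvPolynomial Pool.Agent.NH

theorem locOK_of_nodal {n d p : ℕ} (hp : p.Prime) {F : MvPolynomial (Fin (n + 1)) ℤ}
    (hF : F.IsHomogeneous d) (hnod : NodalAt F p) : LocOK F p := by
  intro m
  refine ⟨fun Q hQ hpQ hf hd => ?_, fun M hM hpM _ hf => ?_⟩
  · haveI := hQ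
    exact nodal_iso hp hF hnod m Q hpQ hf hd
  · haveI := hM
    exact nodal_tz hp hF hnod m M hpM hf

/-- A form is congruent to the form with the reduced coefficients. -/
theorem Fz_congr {n d P : ℕ} (hP : 1 ≤ P) {F : MvPolynomial (Fin (n + 1)) ℤ}
    (hF : F.IsHomogeneous d) :
    C (P : ℤ) ∣ Fz P (fun α : Mon n d => ((coeff α.1 F : ℤ) : ZMod P)) - F := by
  obtain ⟨a, rfl⟩ := exists_toF hF
  haveI : NeZero P := ⟨by omega⟩
  have h := (DensA_dvd_iff (n := n) (d := d) (P := P)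
    (fun α : Mon n d => ((((coeff α.1 (toF a) : ℤ) : ZMod P).val : ℕ) : ℤ)) a).2 ?_
  · exact h
  · intro α
    rw [coeff_toF]
    rw [← ZMod.intCast_zmod_eq_zero_iff_dvd, Int.cast_sub, Int.cast_natCast, ZMod.natCast_val,
      ZMod.cast_id, sub_self]

theorem sieve_main (n : ℕ) : ∃ d₀ : ℕ, ∀ d : ℕ, d₀ ≤ d → ∃ H₀ : ℕ, ∀ H : ℕ, H₀ ≤ H →
    9 / 10 * ((Box n d H).ncard : ℝ) ≤
      ({F ∈ Box n d H | SmoothQ F ∧ ∀ p : ℕ, p.Prime → LocOK F p}.ncard : ℝ) := by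
  classical
  obtain ⟨d₁, h₁⟩ := loc_sum n
  refine ⟨max d₁ 3, fun d hd => ?_⟩
  have hd1 : d₁ ≤ d := (le_max_left _ _).trans hd
  have hd3 : 3 ≤ d := (le_max_right _ _).trans hd
  obtain ⟨M, H₁, hT⟩ := tail_all n d hd3 (1 / 1000) (by norm_num)
  set T := (Finset.range (M + 1)).filter Nat.Prime with hTdef
  -- the bad classes at `p`
  set Bad : (p : ℕ) → Set (Mon n d → ZMod (p ^ 3)) := fun p =>
    {c | ¬ LocOK (Fz (p ^ 3) c) p} with hBad
  set η : ℝ := 1 / (1000 * ((M : ℝ) + 1)) with hη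
  have hη0 : 0 < η := by positivity
  have hdens : ∀ p : ℕ, ∃ H₀ : ℕ, ∀ H : ℕ, H₀ ≤ H → p.Prime →
      ({F ∈ Box n d H | (fun α : Mon n d => ((coeff α.1 F : ℤ) : ZMod (p ^ 3))) ∈ Bad p}.ncard : ℝ) ≤
        (pr (fun c : Mon n d → ZMod (p ^ 3) => ¬ LocOK (Fz (p ^ 3) c) p) + η) *
          ((Box n d H).ncard : ℝ) := by
    intro p
    by_cases hp : p.Prime
    · obtain ⟨H₀, hH₀⟩ := dens_mod n d (p ^ 3) (show 1 ≤ p ^ 3 from Nat.one_le_pow _ _ hp.pos) (Bad p) η hη0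
      refine ⟨H₀, fun H hH _ => ?_⟩
      have h := hH₀ H hH
      haveI : NeZero (p ^ 3) := ⟨(pow_pos hp.pos 3).ne'⟩
      have hpr : pr (fun c : Mon n d → ZMod (p ^ 3) => ¬ LocOK (Fz (p ^ 3) c) p) =
          ((Bad p).ncard : ℝ) / ((p ^ 3 : ℕ) : ℝ) ^ Fintype.card (Mon n d) := by
        unfold pr
        congr 1
        rw [Nat.card_eq_fintype_card, Fintype.card_fun, ZMod.card]
        push_cast
        ring
      rw [hpr]
      exact h
    · exact ⟨0, fun H _ hp' => absurd hp' hp⟩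
  choose H₂ hH₂ using hdens
  refine ⟨max H₁ (∑ p ∈ T, H₂ p), fun H hH => ?_⟩
  have hHT : H₁ ≤ H := (le_max_left _ _).trans hH
  have hHp : ∀ p ∈ T, H₂ p ≤ H := fun p hp =>
    (Finset.single_le_sum (f := H₂) (fun _ _ => Nat.zero_le _) hp).trans
      ((le_max_right _ _).trans hH)
  have hfin : (Box n d H).Finite := box_finite n d H
  set G := {F ∈ Box n d H | SmoothQ F ∧ ∀ p : ℕ, p.Prime → LocOK F p} with hG
  set B₀ := {F ∈ Box n d H | ¬ (SmoothQ F ∧ ∀ p : ℕ, p.Prime → M < p → NodalAt F p)} with hB₀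
  set B₁ : ℕ → Set (MvPolynomial (Fin (n + 1)) ℤ) := fun p =>
    {F ∈ Box n d H | (fun α : Mon n d => ((coeff α.1 F : ℤ) : ZMod (p ^ 3))) ∈ Bad p} with hB₁
  have hsub : Box n d H ⊆ (B₀ ∪ ⋃ p ∈ T, B₁ p) ∪ G := by
    intro F hF
    by_cases hF0 : F ∈ B₀
    · exact Or.inl (Or.inl hF0)
    by_cases hF1 : F ∈ ⋃ p ∈ T, B₁ p
    · exact Or.inl (Or.inr hF1)
    right
    have h0 : SmoothQ F ∧ ∀ p : ℕ, p.Prime → M < p → NodalAt F p := by
      by_contra hcon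
      exact hF0 ⟨hF, hcon⟩
    refine ⟨hF, h0.1, fun p hp => ?_⟩
    rcases Nat.lt_or_ge M p with hMp | hMp
    · exact locOK_of_nodal hp hF.1 (h0.2 p hp hMp)
    · by_contra hcon
      apply hF1
      rw [Set.mem_iUnion₂]
      refine ⟨p, Finset.mem_filter.2 ⟨Finset.mem_range.2 (by omega), hp⟩, hF, ?_⟩
      show ¬ LocOK (Fz (p ^ 3) _) p
      intro hok
      apply hcon
      exact locOK_congr (Fz_congr (show 1 ≤ p ^ 3 from Nat.one_le_pow _ _ hp.pos) hF.1) hok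
  have hB0fin : B₀.Finite := hfin.subset fun F hF => hF.1
  have hB1fin : ∀ p, (B₁ p).Finite := fun p => hfin.subset fun F hF => hF.1
  have hGfin : G.Finite := hfin.subset fun F hF => hF.1
  have hUfin : (⋃ p ∈ T, B₁ p).Finite := Set.Finite.biUnion T.finite_toSet fun p _ => hB1fin p
  have hU : (⋃ p ∈ T, B₁ p).ncard ≤ ∑ p ∈ T, (B₁ p).ncard := Finset.set_ncard_biUnion_le T B₁
  have hcard : ((Box n d H).ncard : ℝ) ≤ B₀.ncard + ∑ p ∈ T, ((B₁ p).ncard : ℝ) + G.ncard := by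
    have h1 : (Box n d H).ncard ≤ B₀.ncard + ∑ p ∈ T, (B₁ p).ncard + G.ncard := by
      refine (Set.ncard_le_ncard hsub ((hB0fin.union hUfin).union hGfin)).trans ?_
      refine (Set.ncard_union_le _ _).trans ?_
      have := Set.ncard_union_le B₀ (⋃ p ∈ T, B₁ p)
      omega
    exact_mod_cast h1
  have hsum : ∑ p ∈ T, ((B₁ p).ncard : ℝ) ≤ (98 / 1000 + 1 / 1000) * ((Box n d H).ncard : ℝ) := by
    have h2 : ∑ p ∈ T, ((B₁ p).ncard : ℝ) ≤ ∑ p ∈ T,
        (pr (fun c : Mon n d → ZMod (p ^ 3) => ¬ LocOK (Fz (p ^ 3) c) p) + η) *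
          ((Box n d H).ncard : ℝ) := by
      refine Finset.sum_le_sum fun p hp => ?_
      exact hH₂ p H (hHp p hp) (Finset.mem_filter.1 hp).2
    refine h2.trans ?_
    rw [← Finset.sum_mul, Finset.sum_add_distrib]
    have h3 := h₁ d hd1 M
    have h4 : ∑ _p ∈ T, η ≤ 1 / 1000 := by
      rw [Finset.sum_const, nsmul_eq_mul]
      have h5 : (T.card : ℝ) ≤ (M : ℝ) + 1 := by
        have : T.card ≤ M + 1 := by
          refine (Finset.card_filter_le _ _).trans ?_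
          rw [Finset.card_range]
        exact_mod_cast this
      rw [hη]
      have hM0 : (0 : ℝ) < (M : ℝ) + 1 := by positivity
      calc (T.card : ℝ) * (1 / (1000 * ((M : ℝ) + 1))) ≤
          ((M : ℝ) + 1) * (1 / (1000 * ((M : ℝ) + 1))) := by gcongr
        _ = 1 / 1000 := by field_simp
    have hB : (0 : ℝ) ≤ ((Box n d H).ncard : ℝ) := by positivity
    gcongr
  have h6 := hT H hHT
  have h7 : (B₀.ncard : ℝ) ≤ 1 / 1000 * ((Box n d H).ncard : ℝ) := h6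
  linarith

end Pool.Agent.NT9
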