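import Pool.Agent.NT9.SvRed
import Pool.Agent.NT9.CfMain
import Pool.Agent.NT9.CfIso

set_option autoImplicit false

/-!
# Closed points of large degree

`crit_chart`: `c ↦ fp p m (Fz (p ^ 3) c)` is an additive map from `Ω = (Mon n d → ℤ/p^3)` onto the polynomials of degree at
most `d` over `ZMod p` in `n` variables (`UU n (ZMod p) d`): apply `cf n E 0` with `f₀ = 0` and pull back (`pr_comp`).

`high_cost`: `V = p Ω`; `ψ : V → A / M ^ 2`, `v ↦ f (v)` mod `M ^ 2`, `f (v) = deh m (Fz v)`; up to `p ^ 3 A ⊆ M ^ 2` the map `c ↦ f (c)`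
is additive, `v = p g` gives `f (v) = p f (g)` mod `p ^ 3 A`, and `p f (g) ∈ M ^ 2` iff `f (g) ∈ M` (`p_cancel`), so the range of `ψ` has
as many elements as the image of the polynomials of degree at most `d` in `A / M`, at least `p ^ min (e, d + 1)` (`chain_images`,
`deh_onto`). The event is `ψ v = - f (c₀)`: `pr_eq_le`.

`high_chart`: cosets `c₀ + V` (`pr_cosets`): `CritR` and the set `S` of the `M` with all `∂_i f ∈ M` depend only on `c₀` modulo `p`;
`S` has at most `(d + 1) ^ (n ^ 2)` elements (`high_count`); `f ∈ M ^ 2` implies `M ∈ S`; each costs `high_cost`.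
-/

namespace Pool.Agent.NT9

open MvPolynomial Pool.Agent.NH

/-- the reduction of the chart modulo `p` -/
private noncomputable def hi_rho {n : ℕ} (p : ℕ) (m : Fin (n + 1)) :
    MvPolynomial {i : Fin (n + 1) // i ≠ m} ℤ →+* MvPolynomial (Fin n) (ZMod p) :=
  ((rename (finSuccAboveEquiv m).symm : MvPolynomial {i : Fin (n + 1) // i ≠ m} (ZMod p) →ₐ[ZMod p]
    MvPolynomial (Fin n) (ZMod p)) : MvPolynomial {i : Fin (n + 1) // i ≠ m} (ZMod p) →+*
    MvPolynomial (Fin n) (ZMod p)).comp (map (Int.castRingHom (ZMod p)))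

private theorem hi_rho_apply {n : ℕ} (p : ℕ) (m : Fin (n + 1))
    (f : MvPolynomial {i : Fin (n + 1) // i ≠ m} ℤ) :
    hi_rho p m f = rename (finSuccAboveEquiv m).symm (map (Int.castRingHom (ZMod p)) f) := rfl

private theorem hi_fp {n : ℕ} (p : ℕ) (m : Fin (n + 1)) (F : MvPolynomial (Fin (n + 1)) ℤ) :
    fp p m F = hi_rho p m (deh m F) := rfl

private theorem hi_ker {n : ℕ} (p : ℕ) (m : Fin (n + 1))
    (f : MvPolynomial {i : Fin (n + 1) // i ≠ m} ℤ) :
    hi_rho p m f = 0 ↔ C (p : ℤ) ∣ f := by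
  rw [C_dvd_iff_zmod, hi_rho_apply]
  exact map_eq_zero_iff _ (rename_injective _ (finSuccAboveEquiv m).symm.injective)

private theorem hi_degree {n p : ℕ} (m : Fin (n + 1))
    (f : MvPolynomial {i : Fin (n + 1) // i ≠ m} ℤ) :
    (hi_rho p m f).totalDegree ≤ f.totalDegree := by
  rw [hi_rho_apply]
  refine (totalDegree_rename_le _ _).trans ?_
  exact Finset.sup_mono (support_map_subset _ _)

/-- lifting with control of the degree -/
private theorem hi_lift {n p d : ℕ} (hp : p ≠ 0) (m : Fin (n + 1))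
    (u : MvPolynomial (Fin n) (ZMod p)) (hu : u.totalDegree ≤ d) :
    ∃ f : MvPolynomial {i : Fin (n + 1) // i ≠ m} ℤ, f.totalDegree ≤ d ∧ hi_rho p m f = u := by
  haveI : NeZero p := ⟨hp⟩
  set f0 : MvPolynomial (Fin n) ℤ := ∑ α ∈ u.support, monomial α (((coeff α u).val : ℕ) : ℤ)
    with hf0
  have h1 : map (Int.castRingHom (ZMod p)) f0 = u := by
    rw [hf0, map_sum]
    conv_rhs => rw [← support_sum_monomial_coeff u]
    refine Finset.sum_congr rfl (fun α _ => ?_)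
    rw [map_monomial, eq_intCast, Int.cast_natCast, ZMod.natCast_zmod_val]
  refine ⟨rename (finSuccAboveEquiv m) f0, ?_, ?_⟩
  · refine (totalDegree_rename_le _ _).trans ?_
    rw [hf0]
    refine totalDegree_finsetSum_le (fun α hα => ?_)
    refine (totalDegree_monomial_le _ _).trans ?_
    exact (le_totalDegree hα).trans hu
  · rw [hi_rho_apply, map_rename, h1, rename_rename]
    have h2 : ((finSuccAboveEquiv m).symm ∘ (finSuccAboveEquiv m) : Fin n → Fin n) = id := by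
      funext x
      exact (finSuccAboveEquiv m).symm_apply_apply x
    rw [h2, rename_id_apply]

private theorem hi_surj {n p : ℕ} (hp : p ≠ 0) (m : Fin (n + 1)) :
    Function.Surjective (hi_rho p m) := by
  intro u
  obtain ⟨f, _, hf⟩ := hi_lift hp m u le_rfl
  exact ⟨f, hf⟩

private theorem hi_pderiv {n p : ℕ} (m : Fin (n + 1)) (i : Fin n)
    (f : MvPolynomial {i : Fin (n + 1) // i ≠ m} ℤ) :
    pderiv i (hi_rho p m f) = hi_rho p m (pderiv (finSuccAboveEquiv m i) f) := by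
  rw [hi_rho_apply, hi_rho_apply]
  have h1 := pderiv_rename (R := ZMod p) (finSuccAboveEquiv m).symm.injective
    (finSuccAboveEquiv m i) (map (Int.castRingHom (ZMod p)) f)
  rw [Equiv.symm_apply_apply] at h1
  rw [h1, pderiv_map]

/-- the ideal of the critical scheme -/
private noncomputable abbrev hi_J {n : ℕ} (p : ℕ) (m : Fin (n + 1))
    (F : MvPolynomial (Fin (n + 1)) ℤ) : Ideal (MvPolynomial (Fin n) (ZMod p)) :=
  Ideal.span (Set.range fun i => pderiv i (fp p m F))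

private theorem hi_mem {n p : ℕ} (hp : p ≠ 0) (m : Fin (n + 1))
    {F : MvPolynomial (Fin (n + 1)) ℤ}
    (Q : Ideal (MvPolynomial {i : Fin (n + 1) // i ≠ m} ℤ)) (hpQ : C (p : ℤ) ∈ Q)
    (hd : ∀ i, pderiv i (deh m F) ∈ Q) {x : MvPolynomial {i : Fin (n + 1) // i ≠ m} ℤ}
    (hx : hi_rho p m x ∈ hi_J p m F) : x ∈ Q := by
  have h1 : hi_J p m F ≤ Q.map (hi_rho p m) := by
    rw [Ideal.span_le]
    rintro _ ⟨i, rfl⟩
    change pderiv i (fp p m F) ∈ Q.map (hi_rho p m)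
    rw [hi_fp, hi_pderiv]
    exact Ideal.mem_map_of_mem _ (hd _)
  obtain ⟨y, hy, hyx⟩ := (Ideal.mem_map_iff_of_surjective _ (hi_surj hp m)).1 (h1 hx)
  have h2 : hi_rho p m (x - y) = 0 := by rw [map_sub, hyx, sub_self]
  have h3 := Q.mem_of_dvd ((hi_ker p m _).1 h2) hpQ
  have h4 := Q.add_mem h3 hy
  rwa [sub_add_cancel] at h4

theorem crit_chart (n E : ℕ) : ∃ d₀ : ℕ, ∀ d : ℕ, d₀ ≤ d → ∀ p : ℕ, p.Prime →
    ∀ m : Fin (n + 1),
      pr (fun c : Mon n d → ZMod (p ^ 3) => ¬ CritR (fp p m (Fz (p ^ 3) c))) ≤ 1 / (p : ℝ) ^ E := by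
  obtain ⟨d₀, h₀⟩ := cf n E 0
  refine ⟨d₀, fun d hd p hp m => ?_⟩
  haveI : Fact p.Prime := ⟨hp⟩
  haveI : NeZero (p ^ 3) := ⟨pow_ne_zero _ hp.ne_zero⟩
  have hcf := h₀ d hd (ZMod p) 0 (by simp)
  have hker3 : ∀ F : MvPolynomial (Fin (n + 1)) ℤ,
      hi_rho p m (deh m (C ((p ^ 3 : ℕ) : ℤ) * F)) = 0 := by
    intro F
    rw [hi_ker, map_mul]
    apply Dvd.dvd.mul_right
    have h1 : deh m (C ((p ^ 3 : ℕ) : ℤ)) = C ((p ^ 3 : ℕ) : ℤ) := by
      rw [← algebraMap_eq, AlgHom.commutes, algebraMap_eq]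
    rw [h1]
    refine ⟨C ((p ^ 2 : ℕ) : ℤ), ?_⟩
    rw [← map_mul]
    congr 1
    push_cast
    ring
  obtain ⟨φ, hφ1, hφ2⟩ := exists_red (n := n) (d := d) (P := p ^ 3) (Nat.one_le_iff_ne_zero.2
    (pow_ne_zero _ hp.ne_zero)) ((hi_rho p m).toAddMonoidHom.comp
      (deh m : MvPolynomial (Fin (n + 1)) ℤ →+ MvPolynomial {i : Fin (n + 1) // i ≠ m} ℤ))
    (fun F => hker3 F)
  have hφ1' : ∀ c, φ c = fp p m (Fz (p ^ 3) c) := fun c => by rw [hφ1, hi_fp]; rfl
  have hmem : ∀ c, φ c ∈ UU n (ZMod p) d := by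
    intro c
    rw [mem_restrictTotalDegree, hφ1', hi_fp]
    exact (hi_degree m _).trans (deh_degree m (toF_isHomogeneous _))
  set φ' : (Mon n d → ZMod (p ^ 3)) →+ UU n (ZMod p) d := φ.codRestrict (UU n (ZMod p) d) hmem
    with hφ'
  have hsurj : Function.Surjective φ' := by
    intro u
    have hu := (mem_restrictTotalDegree _ _ _).1 u.2
    obtain ⟨f, hf1, hf2⟩ := hi_lift hp.ne_zero m u.1 hu
    obtain ⟨F, hF1, hF2⟩ := deh_onto m f hf1
    obtain ⟨c, hc⟩ := hφ2 F hF1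
    refine ⟨c, Subtype.ext ?_⟩
    change φ c = u.1
    rw [hc, ← hf2, ← hF2]
    rfl
  have h1 := pr_comp φ' hsurj (fun u => ¬ CritR (u : MvPolynomial (Fin n) (ZMod p)))
  have h2 : (fun c : Mon n d → ZMod (p ^ 3) => ¬ CritR (fp p m (Fz (p ^ 3) c))) =
      fun c => ¬ CritR ((φ' c : UU n (ZMod p) d) : MvPolynomial (Fin n) (ZMod p)) := by
    funext c
    change _ = ¬ CritR (φ c)
    rw [hφ1']
  rw [h2, h1]
  haveI : Finite (UU n (ZMod p) d) := Module.finite_of_finite (ZMod p)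
  unfold pr
  have hcard : 0 < Nat.card (UU n (ZMod p) d) := Nat.card_pos
  have hp0 : (0 : ℝ) < (p : ℝ) := by exact_mod_cast hp.pos
  rw [div_le_div_iff₀ (by exact_mod_cast hcard) (by positivity), one_mul]
  simp only [zero_add, Nat.card_zmod] at hcf
  exact_mod_cast hcf

/-- The primes of `ℤ[σ]` containing `p` and the derivatives of `deh m F` correspond to the primes over the
derivatives of `fp p m F`; these are maximal as the quotient is finite. -/
theorem iso_of_crit {n : ℕ} {p : ℕ} (hp : p.Prime) (m : Fin (n + 1))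
    {F : MvPolynomial (Fin (n + 1)) ℤ} (h : CritR (fp p m F))
    (Q : Ideal (MvPolynomial {i : Fin (n + 1) // i ≠ m} ℤ)) (hQ : Q.IsPrime)
    (hpQ : C (p : ℤ) ∈ Q) (hd : ∀ i, pderiv i (deh m F) ∈ Q) : Q.IsMaximal := by
  haveI : Finite (MvPolynomial (Fin n) (ZMod p) ⧸ hi_J p m F) := h
  haveI hfin : Finite (MvPolynomial {i : Fin (n + 1) // i ≠ m} ℤ ⧸ Q) := by
    refine Finite.of_injective
      (fun c : MvPolynomial {i : Fin (n + 1) // i ≠ m} ℤ ⧸ Q =>
        Ideal.Quotient.mk (hi_J p m F) (hi_rho p m (Quotient.out c))) ?_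
    intro c c' hcc
    have h1 : Ideal.Quotient.mk (hi_J p m F) (hi_rho p m (Quotient.out c)) =
        Ideal.Quotient.mk (hi_J p m F) (hi_rho p m (Quotient.out c')) := hcc
    rw [Ideal.Quotient.mk_eq_mk_iff_sub_mem, ← map_sub] at h1
    have h2 := hi_mem hp.ne_zero m Q hpQ hd h1
    have h3 : Ideal.Quotient.mk Q (Quotient.out c) = Ideal.Quotient.mk Q (Quotient.out c') :=
      (Ideal.Quotient.mk_eq_mk_iff_sub_mem _ _).2 h2
    rw [← Ideal.Quotient.mk_out c, ← Ideal.Quotient.mk_out c']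
    exact h3
  haveI := hQ
  haveI : IsDomain (MvPolynomial {i : Fin (n + 1) // i ≠ m} ℤ ⧸ Q) :=
    Ideal.Quotient.isDomain Q
  exact Ideal.Quotient.maximal_of_isField Q (Finite.isField_of_domain _)

private theorem hi_pderiv_degree {n : ℕ} {R : Type} [CommRing R] (i : Fin n)
    (f : MvPolynomial (Fin n) R) : (pderiv i f).totalDegree ≤ f.totalDegree := by
  conv_lhs => rw [← support_sum_monomial_coeff f]
  rw [map_sum]
  refine totalDegree_finsetSum_le (fun v hv => ?_)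
  rw [pderiv_monomial]
  refine (totalDegree_monomial_le _ _).trans ?_
  refine le_trans ?_ (le_totalDegree hv)
  have h1 : ∀ u : Fin n →₀ ℕ, (u.sum fun _ => id) = ∑ j, u j := fun u => by
    rw [Finsupp.sum_fintype _ _ (fun _ => rfl)]
    rfl
  have h2 : (v.sum fun _ e => e) = ∑ j, v j := by
    rw [Finsupp.sum_fintype _ _ (fun _ => rfl)]
  rw [h1, h2]
  refine Finset.sum_le_sum (fun j _ => ?_)
  rw [Finsupp.tsub_apply]
  exact Nat.sub_le _ _

/-- `bz` with the derivatives of `fp p m F`. -/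
theorem high_count {n d : ℕ} {p : ℕ} (hp : p.Prime) (m : Fin (n + 1))
    {F : MvPolynomial (Fin (n + 1)) ℤ} (hF : F.IsHomogeneous d) (h : CritR (fp p m F)) :
    {M : Ideal (MvPolynomial {i : Fin (n + 1) // i ≠ m} ℤ) | M.IsMaximal ∧ C (p : ℤ) ∈ M ∧
      ∀ i, pderiv i (deh m F) ∈ M}.Finite ∧
    {M : Ideal (MvPolynomial {i : Fin (n + 1) // i ≠ m} ℤ) | M.IsMaximal ∧ C (p : ℤ) ∈ M ∧
      ∀ i, pderiv i (deh m F) ∈ M}.ncard ≤ (d + 1) ^ (n ^ 2) := by
  haveI : Fact p.Prime := ⟨hp⟩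
  obtain ⟨hfin, hcard⟩ := bz (k := ZMod p) (fun i => pderiv i (fp p m F)) (D := d)
    (fun i => by
      refine (hi_pderiv_degree i _).trans ?_
      rw [hi_fp]
      exact (hi_degree m _).trans (deh_degree m hF)) h
  set S := {M : Ideal (MvPolynomial {i : Fin (n + 1) // i ≠ m} ℤ) | M.IsMaximal ∧ C (p : ℤ) ∈ M ∧
      ∀ i, pderiv i (deh m F) ∈ M} with hS
  set S' := {M : Ideal (MvPolynomial (Fin n) (ZMod p)) | M.IsMaximal ∧
      Ideal.span (Set.range fun i => pderiv i (fp p m F)) ≤ M} with hS'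
  have hsub : S ⊆ (fun M' : Ideal (MvPolynomial (Fin n) (ZMod p)) =>
      M'.comap (hi_rho p m)) '' S' := by
    rintro M ⟨hM1, hM2, hM3⟩
    have hk : RingHom.ker (hi_rho p m) ≤ M := by
      intro x hx
      exact M.mem_of_dvd ((hi_ker p m _).1 hx) hM2
    haveI := hM1
    refine ⟨M.map (hi_rho p m), ⟨Ideal.IsMaximal.map_of_surjective_of_ker_le
      (hi_surj hp.ne_zero m) hk, ?_⟩, ?_⟩
    · rw [Ideal.span_le]
      rintro _ ⟨i, rfl⟩
      change pderiv i (fp p m F) ∈ M.map (hi_rho p m)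
      rw [hi_fp, hi_pderiv]
      exact Ideal.mem_map_of_mem _ (hM3 _)
    · change Ideal.comap (hi_rho p m) (M.map (hi_rho p m)) = M
      rw [Ideal.comap_map_of_surjective _ (hi_surj hp.ne_zero m), ← RingHom.ker_eq_comap_bot]
      exact sup_of_le_left hk
  refine ⟨(hfin.image _).subset hsub, ?_⟩
  exact ((Set.ncard_le_ncard hsub (hfin.image _)).trans (Set.ncard_image_le hfin)).trans hcard

/-- The subgroup `p Ω`. -/
def pV (n d p : ℕ) : AddSubgroup (Mon n d → ZMod (p ^ 3)) :=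
  (nsmulAddMonoidHom (α := Mon n d → ZMod (p ^ 3)) p).range

theorem high_cost {n d : ℕ} {p : ℕ} (hp : p.Prime) (m : Fin (n + 1))
    (M : Ideal (MvPolynomial {i : Fin (n + 1) // i ≠ m} ℤ)) (hM : M.IsMaximal)
    (hpM : C (p : ℤ) ∈ M) {e : ℕ}
    (he : Nat.card (MvPolynomial {i : Fin (n + 1) // i ≠ m} ℤ ⧸ M) = p ^ e)
    (c₀ : Mon n d → ZMod (p ^ 3)) :
    pr (fun v : pV n d p => deh m (Fz (p ^ 3) (c₀ + (v : Mon n d → ZMod (p ^ 3)))) ∈ M ^ 2) ≤
      1 / (p : ℝ) ^ (min e (d + 1)) := by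
  classical
  haveI : NeZero (p ^ 3) := ⟨pow_ne_zero _ hp.ne_zero⟩
  set A := MvPolynomial {i : Fin (n + 1) // i ≠ m} ℤ with hA
  have hn : Nat.card {i : Fin (n + 1) // i ≠ m} = n := by
    rw [← Nat.card_congr (finSuccAboveEquiv m), Nat.card_eq_fintype_card, Fintype.card_fin]
  haveI : Finite (A ⧸ M ^ 2) := (card_quot_sq hn hp M hM hpM).1
  have hp3 : (C ((p ^ 3 : ℕ) : ℤ) : A) ∈ M ^ 2 := by
    have h1 : (C ((p ^ 3 : ℕ) : ℤ) : A) = C (p : ℤ) * C (p : ℤ) * C (p : ℤ) := by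
      rw [← map_mul, ← map_mul]
      congr 1
      push_cast
      ring
    rw [h1, pow_two]
    exact Ideal.mul_mem_right _ _ (Ideal.mul_mem_mul hpM hpM)
  obtain ⟨φ, hφ1, hφ2⟩ := exists_red (n := n) (d := d) (P := p ^ 3) (Nat.one_le_iff_ne_zero.2
    (pow_ne_zero _ hp.ne_zero)) (((Ideal.Quotient.mk (M ^ 2)).toAddMonoidHom).comp
      (deh m : MvPolynomial (Fin (n + 1)) ℤ →+ A))
    (fun F => by
      change Ideal.Quotient.mk (M ^ 2) (deh m (C ((p ^ 3 : ℕ) : ℤ) * F)) = 0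
      rw [Ideal.Quotient.eq_zero_iff_mem, map_mul]
      apply Ideal.mul_mem_right
      have h1 : deh m (C ((p ^ 3 : ℕ) : ℤ)) = C ((p ^ 3 : ℕ) : ℤ) := by
        rw [← algebraMap_eq, AlgHom.commutes, algebraMap_eq]
      rw [h1]
      exact hp3)
  have hφ1' : ∀ c, φ c = Ideal.Quotient.mk (M ^ 2) (deh m (Fz (p ^ 3) c)) := fun c => hφ1 c
  set ψ : pV n d p →+ A ⧸ M ^ 2 := φ.comp (pV n d p).subtype with hψ
  have hev : (fun v : pV n d p =>
      deh m (Fz (p ^ 3) (c₀ + (v : Mon n d → ZMod (p ^ 3)))) ∈ M ^ 2) =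
      fun v => ψ v = - φ c₀ := by
    funext v
    apply propext
    rw [← Ideal.Quotient.eq_zero_iff_mem, ← hφ1', map_add, eq_neg_iff_add_eq_zero]
    have h9 : φ c₀ + φ (v : Mon n d → ZMod (p ^ 3)) = ψ v + φ c₀ := add_comm _ _
    rw [h9]
  rw [hev]
  refine (pr_eq_le ψ (-φ c₀)).trans ?_
  have hp0 : (0 : ℝ) < (p : ℝ) := by exact_mod_cast hp.pos
  refine one_div_le_one_div_of_le (by positivity) ?_
  have hchain := chain_images hp M he d
  have hT : (Ideal.Quotient.mk M '' {f : A | f.totalDegree ≤ d}).ncard ≤ Nat.card ψ.range := by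
    have hch : ∀ t : Ideal.Quotient.mk M '' {f : A | f.totalDegree ≤ d},
        ∃ f : A, f.totalDegree ≤ d ∧ Ideal.Quotient.mk M f = t.1 := fun t => by
      obtain ⟨f, hf, hft⟩ := t.2
      exact ⟨f, hf, hft⟩
    choose fn hfn1 hfn2 using hch
    have hmemR : ∀ t, Ideal.Quotient.mk (M ^ 2) (C (p : ℤ) * fn t) ∈ ψ.range := by
      intro t
      obtain ⟨F, hF1, hF2⟩ := deh_onto (d := d) m (fn t) (hfn1 t)
      obtain ⟨c, hc⟩ := hφ2 F hF1
      refine ⟨⟨p • c, ⟨c, rfl⟩⟩, ?_⟩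
      change φ (p • c) = _
      rw [map_nsmul, hc]
      change p • Ideal.Quotient.mk (M ^ 2) (deh m F) = _
      rw [hF2, nsmul_eq_mul, map_mul]
      congr 1
    rw [← Nat.card_coe_set_eq]
    refine Nat.card_le_card_of_injective (fun t => (⟨_, hmemR t⟩ : ψ.range)) ?_
    intro t t' htt
    have h1 := congrArg Subtype.val htt
    change Ideal.Quotient.mk (M ^ 2) (C (p : ℤ) * fn t) =
      Ideal.Quotient.mk (M ^ 2) (C (p : ℤ) * fn t') at h1
    rw [Ideal.Quotient.mk_eq_mk_iff_sub_mem, ← mul_sub] at h1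
    have h2 := p_cancel hp M hM hpM h1
    apply Subtype.ext
    rw [← hfn2 t, ← hfn2 t']
    exact (Ideal.Quotient.mk_eq_mk_iff_sub_mem _ _).2 h2
  exact_mod_cast hchain.trans hT

private theorem hi_coset {n d p : ℕ} (hp : p.Prime) (m : Fin (n + 1))
    (x v : Mon n d → ZMod (p ^ 3)) (hv : v ∈ pV n d p) :
    C (p : ℤ) ∣ deh m (Fz (p ^ 3) (x + v)) - deh m (Fz (p ^ 3) x) := by
  haveI : NeZero (p ^ 3) := ⟨pow_ne_zero _ hp.ne_zero⟩
  haveI : NeZero p := ⟨hp.ne_zero⟩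
  obtain ⟨w, hw⟩ := hv
  have hdvd : p ∣ p ^ 3 := dvd_pow_self p (by norm_num)
  have h1 : C (p : ℤ) ∣ Fz (p ^ 3) (x + v) - Fz (p ^ 3) x := by
    rw [C_dvd_iff_zmod, map_sub, sub_eq_zero]
    unfold Fz
    rw [map_toF, map_toF]
    congr 1
    funext α
    have h2 : ∀ y : ZMod (p ^ 3), (Int.castRingHom (ZMod p)) ((y.val : ℕ) : ℤ) =
        ZMod.castHom hdvd (ZMod p) y := by
      intro y
      rw [ZMod.castHom_apply, eq_intCast, Int.cast_natCast, ZMod.natCast_val]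
    rw [h2, h2]
    have h3 : v α = (p : ZMod (p ^ 3)) * w α := by
      rw [← hw]
      change (p • w) α = _
      rw [Pi.smul_apply, nsmul_eq_mul]
    rw [Pi.add_apply, map_add, h3, map_mul, map_natCast, ZMod.natCast_self, zero_mul, add_zero]
  have h4 := map_dvd (deh m) h1
  rw [map_sub] at h4
  have h5 : deh m (C (p : ℤ)) = C (p : ℤ) := by
    rw [← algebraMap_eq, AlgHom.commutes, algebraMap_eq]
  rwa [h5] at h4

theorem high_chart {n d r : ℕ} (hr : r ≤ d) {p : ℕ} (hp : p.Prime) (m : Fin (n + 1)) :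
    pr (fun c : Mon n d → ZMod (p ^ 3) => CritR (fp p m (Fz (p ^ 3) c)) ∧
      ∃ M : Ideal (MvPolynomial {i : Fin (n + 1) // i ≠ m} ℤ), M.IsMaximal ∧ C (p : ℤ) ∈ M ∧
        (∃ e : ℕ, r < e ∧ Nat.card (MvPolynomial {i : Fin (n + 1) // i ≠ m} ℤ ⧸ M) = p ^ e) ∧
        deh m (Fz (p ^ 3) c) ∈ M ^ 2) ≤
      ((d : ℝ) + 1) ^ (n ^ 2) / (p : ℝ) ^ (r + 1) := by
  classical
  haveI : NeZero (p ^ 3) := ⟨pow_ne_zero _ hp.ne_zero⟩
  have hp0 : (0 : ℝ) < (p : ℝ) := by exact_mod_cast hp.pos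
  have hp1 : (1 : ℝ) ≤ (p : ℝ) := by exact_mod_cast hp.one_lt.le
  refine pr_cosets (pV n d p) _ (fun x => ?_)
  have hpr0 : ∀ A : pV n d p → Prop, (∀ v, ¬ A v) → pr A ≤ 0 := by
    intro A hA
    unfold pr
    have : IsEmpty {v // A v} := ⟨fun v => hA v.1 v.2⟩
    rw [Nat.card_of_isEmpty, Nat.cast_zero, zero_div]
  have hfpeq : ∀ v : pV n d p, fp p m (Fz (p ^ 3) (x + (v : Mon n d → ZMod (p ^ 3)))) =
      fp p m (Fz (p ^ 3) x) := by
    intro v
    rw [hi_fp, hi_fp, ← sub_eq_zero, ← map_sub, hi_ker]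
    exact hi_coset hp m x v.1 v.2
  by_cases hcrit : CritR (fp p m (Fz (p ^ 3) x))
  · obtain ⟨hSf, hSc⟩ := high_count (d := d) hp m (toF_isHomogeneous _) hcrit
    set S := {M : Ideal (MvPolynomial {i : Fin (n + 1) // i ≠ m} ℤ) | M.IsMaximal ∧
      C (p : ℤ) ∈ M ∧ ∀ i, pderiv i (deh m (Fz (p ^ 3) x)) ∈ M} with hS
    have h1 : pr (fun v : pV n d p => ∃ M ∈ S,
        ((∃ e : ℕ, r < e ∧ Nat.card (MvPolynomial {i : Fin (n + 1) // i ≠ m} ℤ ⧸ M) = p ^ e) ∧
        deh m (Fz (p ^ 3) (x + (v : Mon n d → ZMod (p ^ 3)))) ∈ M ^ 2)) ≤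
        (((d + 1) ^ (n ^ 2) : ℕ) : ℝ) * (1 / (p : ℝ) ^ (r + 1)) := by
      refine pr_exists_set hSf hSc (fun M (v : pV n d p) =>
        ((∃ e : ℕ, r < e ∧ Nat.card (MvPolynomial {i : Fin (n + 1) // i ≠ m} ℤ ⧸ M) = p ^ e) ∧
        deh m (Fz (p ^ 3) (x + (v : Mon n d → ZMod (p ^ 3)))) ∈ M ^ 2)) (by positivity) ?_
      rintro M ⟨hM1, hM2, hM3⟩
      by_cases hex : ∃ e : ℕ, r < e ∧
          Nat.card (MvPolynomial {i : Fin (n + 1) // i ≠ m} ℤ ⧸ M) = p ^ e
      · obtain ⟨e, hre, hec⟩ := hex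
        have h2 := high_cost (d := d) hp m M hM1 hM2 hec x
        refine le_trans ?_ (h2.trans ?_)
        · exact pr_mono (fun v hv => hv.2)
        · refine one_div_le_one_div_of_le (by positivity) ?_
          exact pow_le_pow_right₀ hp1 (by omega)
      · refine (hpr0 _ (fun v hv => hex hv.1)).trans (by positivity)
    have e1 : ((d : ℝ) + 1) ^ (n ^ 2) / (p : ℝ) ^ (r + 1) =
        (((d + 1) ^ (n ^ 2) : ℕ) : ℝ) * (1 / (p : ℝ) ^ (r + 1)) := by
      push_cast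
      ring
    rw [e1]
    refine le_trans (pr_mono ?_) h1
    rintro v ⟨_, M, hM1, hM2, hM3, hM4⟩
    refine ⟨M, ⟨hM1, hM2, fun i => ?_⟩, hM3, hM4⟩
    have h3 : pderiv i (deh m (Fz (p ^ 3) (x + (v : Mon n d → ZMod (p ^ 3))))) ∈ M := by
      have hder : ∀ f ∈ M ^ 2, pderiv i f ∈ M := by
        intro f hf
        rw [pow_two] at hf
        refine Submodule.mul_induction_on hf ?_ ?_
        · intro a ha b hb
          rw [Derivation.leibniz, smul_eq_mul, smul_eq_mul]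
          exact M.add_mem (M.mul_mem_right _ ha) (M.mul_mem_right _ hb)
        · intro a b ha hb
          rw [map_add]
          exact M.add_mem ha hb
      exact hder _ hM4
    obtain ⟨g, hg⟩ := hi_coset hp m x v.1 v.2
    have h4 : pderiv i (deh m (Fz (p ^ 3) x)) =
        pderiv i (deh m (Fz (p ^ 3) (x + (v : Mon n d → ZMod (p ^ 3))))) -
          C (p : ℤ) * pderiv i g := by
      rw [← pderiv_C_mul, ← hg, map_sub]
      ring
    rw [h4]
    exact M.sub_mem h3 (M.mul_mem_right _ hM2)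
  · refine (hpr0 _ (fun v hv => hcrit ?_)).trans (by positivity)
    rw [← hfpeq v]
    exact hv.1

end Pool.Agent.NT9
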