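import Pool.Agent.NT9.SvDef

set_option autoImplicit false

/-!
# Linear algebra: a vertex of dimension at most one gives a smooth hyperplane section

`cut a i₀ lam` = matrix of the quadratic form on the hyperplane `sum lam_i T_i = 0` (`lam i₀ = 1`) in the basis
`e_J - lam_J e_(i₀)`, `J ≠ i₀`.

`sm_ext`: let `w ∈ L ^ N` be in the vertex; `w = sum l_i w_i` with `l_i ∈ L` linearly independent over `k`,
`w_i ∈ k ^ N`. Then `B (w_i, .) = 0` and `0 = q (w) = sum l_i ^ 2 q (w_i)` (as `B (w_i, w_j) = 0`). Characteristic not 2: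
`2 q (w_i) = B (w_i, w_i) = 0`. Characteristic 2: `q (w_i) = c_i ^ 2` (`k` is finite), so `(sum l_i c_i) ^ 2 = 0`, `c_i = 0`.
So `w_i` is in the vertex over `k`, `w_i = 0`.

`hyp`: (1) vertex = line of `v₀`: `i₀` with `v₀ i₀ ≠ 0`, `lam` = the coordinate `i₀`: if `w` is in the hyperplane `H` and in the
vertex of the restriction then `B (w, .)` vanishes on `H` and on `v₀`, so everywhere, `w ∈ k v₀ ∩ H = 0`.
(2) vertex zero, `rad B ≠ 0` (so characteristic 2; `rad B = k r`, `q (r) ≠ 0`): `H` any hyperplane not containing `r`: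
`w ∈ H`, `B (w, H) = 0` gives `w ∈ rad B ∩ H = 0`. (3) vertex zero, `rad B = 0`: choose `w` with `q (w) ≠ 0` (exists, otherwise
`B = 0`), `lam = B (w, .)` (not zero), `H = w ^ ⊥`: if `u ∈ H`, `B (u, H) = 0`, then `u ∈ (w ^ ⊥) ^ ⊥ = k w`, `u = c w`,
`q (u) = c ^ 2 q (w)`, so `q (u) = 0` gives `u = 0`. Normalise `lam i₀ = 1`.

`qg_tz`: with `lam` lifted to `A`, `z = t_(i₀) + sum lam_J t_J`, `η` = the other `t_J`, `t_(i₀) = z - sum lam_J η_J`:
`sum a_ij t_i t_j = sum (cut a)_(jl) η_j η_l + z (...)` with `(...)` in `M`.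
-/

namespace Pool.Agent.NT9

open MvPolynomial

/-- The form on a hyperplane. -/
def cut {k : Type} [CommRing k] {N : ℕ} (a : Matrix (Fin (N + 1)) (Fin (N + 1)) k)
    (i₀ : Fin (N + 1)) (lam : Fin (N + 1) → k) : Matrix (Fin N) (Fin N) k :=
  Matrix.of fun j l =>
    a (i₀.succAbove j) (i₀.succAbove l) - lam (i₀.succAbove j) * a i₀ (i₀.succAbove l) -
      lam (i₀.succAbove l) * a (i₀.succAbove j) i₀ +
      lam (i₀.succAbove j) * lam (i₀.succAbove l) * a i₀ i₀

/-- the vector of the hyperplane with given coordinates -/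
private def QG_ev {k : Type} [CommRing k] {N : ℕ} (i₀ : Fin (N + 1)) (lam : Fin (N + 1) → k)
    (u : Fin N → k) : Fin (N + 1) → k :=
  i₀.insertNth (- ∑ j, lam (i₀.succAbove j) * u j) u

private theorem QG_ev_same {k : Type} [CommRing k] {N : ℕ} (i₀ : Fin (N + 1))
    (lam : Fin (N + 1) → k) (u : Fin N → k) :
    QG_ev i₀ lam u i₀ = - ∑ j, lam (i₀.succAbove j) * u j := by
  simp [QG_ev]

private theorem QG_ev_succ {k : Type} [CommRing k] {N : ℕ} (i₀ : Fin (N + 1))
    (lam : Fin (N + 1) → k) (u : Fin N → k) (j : Fin N) :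
    QG_ev i₀ lam u (i₀.succAbove j) = u j := by
  simp [QG_ev]

private theorem QG_qf {k : Type} [CommRing k] {N : ℕ} (a : Matrix (Fin (N + 1)) (Fin (N + 1)) k)
    (i₀ : Fin (N + 1)) (lam : Fin (N + 1) → k) (u : Fin N → k) :
    qf (cut a i₀ lam) u = qf a (QG_ev i₀ lam u) := by
  set s := ∑ j, lam (i₀.succAbove j) * u j with hs
  clear_value s
  have h1 : qf a (QG_ev i₀ lam u) = a i₀ i₀ * s * s - s * (∑ l, a i₀ (i₀.succAbove l) * u l) -
      s * (∑ j, a (i₀.succAbove j) i₀ * u j) +
      ∑ j, ∑ l, a (i₀.succAbove j) (i₀.succAbove l) * u j * u l := by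
    unfold qf
    simp only [Fin.sum_univ_succAbove _ i₀, QG_ev_same, QG_ev_succ, ← hs,
      Finset.sum_add_distrib]
    have e1 : ∑ l, a i₀ (i₀.succAbove l) * -s * u l =
        - (s * ∑ l, a i₀ (i₀.succAbove l) * u l) := by
      rw [Finset.mul_sum, ← Finset.sum_neg_distrib]
      exact Finset.sum_congr rfl fun l _ => by ring
    have e2 : ∑ j, a (i₀.succAbove j) i₀ * u j * -s =
        - (s * ∑ j, a (i₀.succAbove j) i₀ * u j) := by
      rw [Finset.mul_sum, ← Finset.sum_neg_distrib]
      exact Finset.sum_congr rfl fun l _ => by ring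
    rw [e1, e2]
    ring
  have h2 : qf (cut a i₀ lam) u = (∑ j, ∑ l, a (i₀.succAbove j) (i₀.succAbove l) * u j * u l) -
      (∑ j, ∑ l, (lam (i₀.succAbove j) * u j) * (a i₀ (i₀.succAbove l) * u l)) -
      (∑ j, ∑ l, (a (i₀.succAbove j) i₀ * u j) * (lam (i₀.succAbove l) * u l)) +
      ∑ j, ∑ l, (a i₀ i₀ * (lam (i₀.succAbove j) * u j)) * (lam (i₀.succAbove l) * u l) := by
    unfold qf cut
    simp only [← Finset.sum_sub_distrib, ← Finset.sum_add_distrib, Matrix.of_apply]
    refine Finset.sum_congr rfl fun j _ => Finset.sum_congr rfl fun l _ => ?_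
    ring
  rw [h1, h2, ← Finset.sum_mul_sum, ← Finset.sum_mul_sum, ← Finset.sum_mul_sum, ← Finset.mul_sum,
    ← hs]
  ring

private theorem QG_qb {k : Type} [CommRing k] {N : ℕ} (a : Matrix (Fin (N + 1)) (Fin (N + 1)) k)
    (i₀ : Fin (N + 1)) (lam : Fin (N + 1) → k) (u : Fin N → k) (j : Fin N) :
    qb (cut a i₀ lam) u j = qb a (QG_ev i₀ lam u) (i₀.succAbove j) -
      lam (i₀.succAbove j) * qb a (QG_ev i₀ lam u) i₀ := by
  set s := ∑ j, lam (i₀.succAbove j) * u j with hs
  clear_value s
  unfold qb cut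
  rw [Fin.sum_univ_succAbove _ i₀, Fin.sum_univ_succAbove _ i₀]
  simp only [QG_ev_same, QG_ev_succ, ← hs, Matrix.of_apply]
  have e1 : ∑ l, (a (i₀.succAbove j) (i₀.succAbove l) - lam (i₀.succAbove j) *
      a i₀ (i₀.succAbove l) - lam (i₀.succAbove l) * a (i₀.succAbove j) i₀ +
      lam (i₀.succAbove j) * lam (i₀.succAbove l) * a i₀ i₀ +
      (a (i₀.succAbove l) (i₀.succAbove j) - lam (i₀.succAbove l) * a i₀ (i₀.succAbove j) -
      lam (i₀.succAbove j) * a (i₀.succAbove l) i₀ +
      lam (i₀.succAbove l) * lam (i₀.succAbove j) * a i₀ i₀)) * u l =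
      (∑ l, (a (i₀.succAbove j) (i₀.succAbove l) + a (i₀.succAbove l) (i₀.succAbove j)) * u l) -
      lam (i₀.succAbove j) * (∑ l, (a i₀ (i₀.succAbove l) + a (i₀.succAbove l) i₀) * u l) -
      (a (i₀.succAbove j) i₀ + a i₀ (i₀.succAbove j)) * s +
      lam (i₀.succAbove j) * (a i₀ i₀ + a i₀ i₀) * s := by
    rw [hs, Finset.mul_sum, Finset.mul_sum, Finset.mul_sum, ← Finset.sum_sub_distrib,
      ← Finset.sum_sub_distrib, ← Finset.sum_add_distrib]
    refine Finset.sum_congr rfl fun l _ => ?_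
    ring
  rw [e1]
  ring

private theorem QG_cut {k : Type} [CommRing k] {N : ℕ} (a : Matrix (Fin (N + 1)) (Fin (N + 1)) k)
    (i₀ : Fin (N + 1)) (lam : Fin (N + 1) → k) (hlam : lam i₀ = 1)
    (h : ∀ w : Fin (N + 1) → k, ∑ i, lam i * w i = 0 → qf a w = 0 →
      (∀ i, qb a w i = lam i * qb a w i₀) → w = 0) : vert (cut a i₀ lam) = ⊥ := by
  rw [Submodule.eq_bot_iff]
  intro u hu
  obtain ⟨h1, h2⟩ : qf (cut a i₀ lam) u = 0 ∧ ∀ i, qb (cut a i₀ lam) u i = 0 := hu
  have h3 : QG_ev i₀ lam u = 0 := by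
    refine h _ ?_ ?_ ?_
    · rw [Fin.sum_univ_succAbove _ i₀, hlam, one_mul, QG_ev_same]
      simp only [QG_ev_succ]
      exact neg_add_cancel _
    · rw [← QG_qf, h1]
    · intro i
      rcases Fin.eq_self_or_eq_succAbove i₀ i with rfl | ⟨j, rfl⟩
      · rw [hlam, one_mul]
      · have := h2 j
        rw [QG_qb] at this
        exact sub_eq_zero.1 this
  ext j
  have := congrFun h3 (i₀.succAbove j)
  rw [QG_ev_succ] at this
  exact this

private theorem QG_symm {k : Type} [CommRing k] {N : ℕ} (a : Matrix (Fin N) (Fin N) k)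
    (v w : Fin N → k) : ∑ i, v i * qb a w i = ∑ i, w i * qb a v i := by
  unfold qb
  simp only [Finset.mul_sum]
  rw [Finset.sum_comm]
  refine Finset.sum_congr rfl fun i _ => Finset.sum_congr rfl fun j _ => ?_
  ring

private theorem QG_two {k : Type} [CommRing k] {N : ℕ} (a : Matrix (Fin N) (Fin N) k)
    (v : Fin N → k) : ∑ i, v i * qb a v i = 2 * qf a v := by
  have h1 := qf_add a v v
  have h2 : qf a (v + v) = 4 * qf a v := by
    have : v + v = (2 : k) • v := by rw [two_smul]
    rw [this, qf_smul]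
    ring
  rw [h2] at h1
  linear_combination -h1

private theorem QG_zero {k : Type} [CommRing k] {N : ℕ} (a : Matrix (Fin N) (Fin N) k) :
    qf a 0 = 0 := by
  simp [qf]

private theorem QG_sum {k : Type} [CommRing k] {N m : ℕ} (a : Matrix (Fin N) (Fin N) k)
    (c : Fin m → Fin N → k) (h : ∀ s i, qb a (c s) i = 0) (S : Finset (Fin m)) :
    qf a (∑ s ∈ S, c s) = ∑ s ∈ S, qf a (c s) := by
  classical
  induction S using Finset.induction_on with
  | empty => simp [QG_zero]
  | insert x S hx ih =>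
    have h0 : ∑ i, (∑ y ∈ S, c y) i * qb a (c x) i = 0 :=
      Finset.sum_eq_zero fun i _ => by rw [h x i, mul_zero]
    rw [Finset.sum_insert hx, Finset.sum_insert hx, qf_add, ih, h0, add_zero]

theorem sm_ext {k L : Type} [Field k] [Finite k] [Field L] {N : ℕ}
    (a : Matrix (Fin N) (Fin N) k) (h : vert a = ⊥) (χ : k →+* L) : vert (a.map χ) = ⊥ := by
  let _ : Algebra k L := χ.toAlgebra
  have hχ : ∀ (x : k) (y : L), x • y = χ x * y := fun x y => rfl
  rw [Submodule.eq_bot_iff]
  intro w hw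
  obtain ⟨h1, h2⟩ : qf (a.map χ) w = 0 ∧ ∀ i, qb (a.map χ) w i = 0 := hw
  let W := Submodule.span k (Set.range w)
  have hfin : FiniteDimensional k W := FiniteDimensional.span_of_finite k (Set.finite_range w)
  let b := Module.finBasis k W
  have hli : LinearIndependent k fun s => ((b s : W) : L) :=
    b.linearIndependent.map' W.subtype (Submodule.ker_subtype W)
  have hmem : ∀ i, w i ∈ W := fun i => Submodule.subset_span ⟨i, rfl⟩
  let c : Fin (Module.finrank k W) → Fin N → k := fun s i => b.repr ⟨w i, hmem i⟩ s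
  have hw : ∀ i, w i = ∑ s, χ (c s i) * (b s : L) := by
    intro i
    have h3 : w i = ((⟨w i, hmem i⟩ : W) : L) := rfl
    rw [h3, ← b.sum_repr ⟨w i, hmem i⟩]
    simp only [AddSubmonoidClass.coe_finsetSum, Submodule.coe_smul, hχ]
    rfl
  have hind : ∀ d : Fin (Module.finrank k W) → k, ∑ s, χ (d s) * (b s : L) = 0 → ∀ s, d s = 0 := by
    intro d hd
    exact Fintype.linearIndependent_iff.1 hli d hd
  -- the polar forms of the components vanish
  have hqb : ∀ s i, qb a (c s) i = 0 := by
    intro s i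
    refine hind (fun s => qb a (c s) i) ?_ s
    rw [← h2 i]
    unfold qb
    simp only [map_sum, map_mul, map_add, Matrix.map_apply, hw, Finset.sum_mul, Finset.mul_sum]
    rw [Finset.sum_comm]
    refine Finset.sum_congr rfl fun j _ => Finset.sum_congr rfl fun s _ => ?_
    ring
  -- the quadratic form
  have hqb' : ∀ s i, qb (a.map χ) (fun i => χ (c s i) * (b s : L)) i = 0 := by
    intro s i
    have := congrArg χ (hqb s i)
    rw [map_zero] at this
    unfold qb at this ⊢
    simp only [map_sum, map_mul, map_add] at this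
    have e : ∑ j, ((a.map χ) i j + (a.map χ) j i) * (χ (c s j) * (b s : L)) =
        (∑ j, (χ (a i j) + χ (a j i)) * χ (c s j)) * (b s : L) := by
      rw [Finset.sum_mul]
      exact Finset.sum_congr rfl fun j _ => by rw [Matrix.map_apply, Matrix.map_apply]; ring
    rw [e, this, zero_mul]
  have hqf : ∑ s, χ (qf a (c s)) * (b s : L) ^ 2 = 0 := by
    have e1 : w = ∑ s, fun i => χ (c s i) * (b s : L) := by
      ext i
      rw [Finset.sum_apply]
      exact hw i
    rw [← h1, e1, QG_sum _ _ hqb']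
    refine Finset.sum_congr rfl fun s _ => ?_
    unfold qf
    simp only [map_sum, map_mul, Finset.sum_mul]
    refine Finset.sum_congr rfl fun i _ => Finset.sum_congr rfl fun j _ => ?_
    rw [Matrix.map_apply]
    ring
  have hq0 : ∀ s, qf a (c s) = 0 := by
    by_cases h22 : (2 : k) = 0
    · -- characteristic two
      have hr : ringChar k = 2 := by
        have : CharP k 2 := CharTwo.of_one_ne_zero_of_two_eq_zero one_ne_zero h22
        exact ringChar.eq k 2
      have hc2 : CharP L 2 := by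
        have h3 : (2 : L) = 0 := by
          have := congrArg χ h22
          rwa [map_ofNat, map_zero] at this
        exact CharTwo.of_one_ne_zero_of_two_eq_zero one_ne_zero h3
      have hsq : ∀ s, ∃ d : k, qf a (c s) = d * d := fun s =>
        FiniteField.isSquare_of_char_two hr _
      choose d hd using hsq
      have h4 : (∑ s, χ (d s) * (b s : L)) ^ 2 = 0 := by
        have hf : Fact (Nat.Prime 2) := ⟨Nat.prime_two⟩
        rw [sum_pow_char 2]
        rw [← hqf]
        refine Finset.sum_congr rfl fun s _ => ?_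
        rw [hd s, map_mul]
        ring
      have h5 := hind d (pow_eq_zero_iff (two_ne_zero) |>.1 h4)
      intro s
      rw [hd s, h5 s, mul_zero]
    · intro s
      have h3 := QG_two a (c s)
      rw [Finset.sum_eq_zero fun i _ => by rw [hqb s i, mul_zero]] at h3
      exact (mul_eq_zero.1 h3.symm).resolve_left h22
  have hc0 : ∀ s, c s = 0 := by
    intro s
    have : c s ∈ vert a := ⟨hq0 s, hqb s⟩
    rw [h] at this
    exact (Submodule.mem_bot k).1 this
  ext i
  rw [hw i]
  simp [hc0]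

theorem hyp {k : Type} [Field k] [Finite k] {N : ℕ} (a : Matrix (Fin (N + 1)) (Fin (N + 1)) k)
    (h : Module.finrank k (vert a) ≤ 1) :
    ∃ (i₀ : Fin (N + 1)) (lam : Fin (N + 1) → k), lam i₀ = 1 ∧ vert (cut a i₀ lam) = ⊥ := by
  -- a vector in the radical of the polar form which spans the vertex
  have caseA : (∃ r : Fin (N + 1) → k, r ≠ 0 ∧ (∀ i, qb a r i = 0) ∧
      ∀ w ∈ vert a, ∃ c : k, w = c • r) → ∃ (i₀ : Fin (N + 1)) (lam : Fin (N + 1) → k),
      lam i₀ = 1 ∧ vert (cut a i₀ lam) = ⊥ := by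
    rintro ⟨r, hr, hqb, hv⟩
    obtain ⟨i₀, hi₀⟩ : ∃ i, r i ≠ 0 := by
      by_contra hcon
      push Not at hcon
      exact hr (funext hcon)
    refine ⟨i₀, Pi.single i₀ 1, Pi.single_eq_same _ _, ?_⟩
    refine QG_cut a i₀ _ (Pi.single_eq_same _ _) ?_
    intro w h1 h2 h3
    have h4 : w i₀ = 0 := by
      rw [Finset.sum_eq_single i₀] at h1
      · rwa [Pi.single_eq_same, one_mul] at h1
      · intro i _ hi
        rw [Pi.single_eq_of_ne hi, zero_mul]
      · intro hi
        exact absurd (Finset.mem_univ _) hi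
    have h5 : ∀ i, i ≠ i₀ → qb a w i = 0 := by
      intro i hi
      rw [h3 i, Pi.single_eq_of_ne hi, zero_mul]
    have h6 : qb a w i₀ = 0 := by
      have h7 := QG_symm a r w
      rw [Finset.sum_eq_zero (s := Finset.univ) (f := fun i => w i * qb a r i)
        fun i _ => by rw [hqb i, mul_zero]] at h7
      rw [Finset.sum_eq_single i₀] at h7
      · exact (mul_eq_zero.1 h7).resolve_left hi₀
      · intro i _ hi
        rw [h5 i hi, mul_zero]
      · intro hi
        exact absurd (Finset.mem_univ _) hi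
    have h8 : w ∈ vert a := by
      refine ⟨h2, fun i => ?_⟩
      by_cases hi : i = i₀
      · rw [hi, h6]
      · exact h5 i hi
    obtain ⟨c, rfl⟩ := hv w h8
    rw [Pi.smul_apply, smul_eq_mul] at h4
    rw [(mul_eq_zero.1 h4).resolve_right hi₀, zero_smul]
  by_cases hv : vert a = ⊥
  · by_cases hrad : ∃ r : Fin (N + 1) → k, r ≠ 0 ∧ ∀ i, qb a r i = 0
    · obtain ⟨r, hr, hqb⟩ := hrad
      refine caseA ⟨r, hr, hqb, fun w hw => ⟨0, ?_⟩⟩
      rw [hv, Submodule.mem_bot] at hw
      rw [hw, zero_smul]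
    · push Not at hrad
      have hrad' : ∀ r : Fin (N + 1) → k, (∀ i, qb a r i = 0) → r = 0 := by
        intro r hr
        by_contra h0
        obtain ⟨i, hi⟩ := hrad r h0
        exact hi (hr i)
      -- a vector with `q ≠ 0`
      obtain ⟨w₀, hw₀⟩ : ∃ w, qf a w ≠ 0 := by
        by_contra hcon
        push Not at hcon
        have h0 : (Pi.single (0 : Fin (N + 1)) (1 : k) : Fin (N + 1) → k) = 0 := by
          refine hrad' _ fun i => ?_
          have h1 := qf_add a (Pi.single (0 : Fin (N + 1)) (1 : k)) (Pi.single i 1)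
          rw [hcon, hcon, hcon, zero_add, zero_add] at h1
          rw [Finset.sum_eq_single i] at h1
          · rw [Pi.single_eq_same, one_mul] at h1
            exact h1.symm
          · intro j _ hj
            rw [Pi.single_eq_of_ne hj, zero_mul]
          · intro hi
            exact absurd (Finset.mem_univ _) hi
        have := congrFun h0 0
        rw [Pi.single_eq_same] at this
        exact one_ne_zero this
      have hw1 : w₀ ≠ 0 := by
        rintro rfl
        exact hw₀ (QG_zero a)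
      obtain ⟨i₀, hi₀⟩ := hrad w₀ hw1
      refine ⟨i₀, fun i => qb a w₀ i / qb a w₀ i₀, div_self hi₀, ?_⟩
      refine QG_cut a i₀ _ (div_self hi₀) ?_
      intro w _ h2 h3
      set c := qb a w i₀ / qb a w₀ i₀ with hc
      have h4 : w + (-c) • w₀ = 0 := by
        refine hrad' _ fun i => ?_
        rw [qb_add, qb_smul, h3 i, hc]
        ring
      have h5 : w = c • w₀ := by
        rw [neg_smul, ← sub_eq_add_neg, sub_eq_zero] at h4
        exact h4
      rw [h5, qf_smul] at h2
      have h6 : c = 0 := by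
        have := (mul_eq_zero.1 h2).resolve_right hw₀
        exact pow_eq_zero_iff (two_ne_zero) |>.1 this
      rw [h5, h6, zero_smul]
  · obtain ⟨r, hr, hr0⟩ := Submodule.exists_mem_ne_zero_of_ne_bot hv
    refine caseA ⟨r, hr0, hr.2, fun w hw => ?_⟩
    have h1 : Module.finrank k (vert a) = 1 := by
      refine le_antisymm h ?_
      rw [Nat.one_le_iff_ne_zero]
      intro h0
      rw [Submodule.finrank_eq_zero] at h0
      exact hv h0
    obtain ⟨c, hc⟩ := (finrank_eq_one_iff_of_nonzero' (⟨r, hr⟩ : vert a)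
      (fun h0 => hr0 (congrArg Subtype.val h0))).1 h1 ⟨w, hw⟩
    exact ⟨c, (congrArg Subtype.val hc).symm⟩

theorem qg_tz {σ : Type} [Fintype σ] {n : ℕ} (hn : Fintype.card σ = n)
    (M : Ideal (MvPolynomial σ ℤ)) (hM : M.IsMaximal) (hfin : Finite (MvPolynomial σ ℤ ⧸ M))
    (f : MvPolynomial σ ℤ) (h : QG (n + 1) f M) : TZ f M := by
  obtain ⟨t, a, ht, hspan, hf, hrk⟩ := h
  let _ : Field (MvPolynomial σ ℤ ⧸ M) := Ideal.Quotient.field M
  obtain ⟨i₀, lam, hlam, hv⟩ := hyp (a.map (Ideal.Quotient.mk M)) hrk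
  -- lift of `lam`
  obtain ⟨Lam, hLam0, hLam⟩ : ∃ Lam : Fin (n + 1) → MvPolynomial σ ℤ, Lam i₀ = 1 ∧
      ∀ i, Ideal.Quotient.mk M (Lam i) = lam i := by
    choose g hg using fun i => Ideal.Quotient.mk_surjective (lam i)
    refine ⟨Function.update g i₀ 1, Function.update_self _ _ _, fun i => ?_⟩
    by_cases hi : i = i₀
    · rw [hi, Function.update_self, map_one, hlam]
    · rw [Function.update_of_ne hi]
      exact hg i
  let e : σ ≃ Fin n := Fintype.equivFinOfCardEq hn
  let u : Fin n → MvPolynomial σ ℤ := fun j => t (i₀.succAbove j)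
  let z : MvPolynomial σ ℤ := t i₀ + ∑ j, Lam (i₀.succAbove j) * u j
  have hu : ∀ j, u j ∈ M := fun j => ht _
  have hz : z ∈ M := Ideal.add_mem _ (ht _) (Ideal.sum_mem _ fun j _ => Ideal.mul_mem_left _ _ (hu j))
  refine ⟨z, fun s => u (e s), fun s s' => cut a i₀ Lam (e s) (e s'), ⟨hz, fun s => hu _, ?_⟩,
    ?_, ?_⟩
  · -- the parameters
    refine hspan.trans (sup_le ?_ le_sup_right)
    rw [Ideal.span_le]
    rintro _ ⟨i, rfl⟩
    refine Ideal.mem_sup_left ?_
    have h1 : ∀ j, u j ∈ Ideal.span (insert z (Set.range fun s => u (e s))) := by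
      intro j
      refine Ideal.subset_span (Set.mem_insert_of_mem _ ⟨e.symm j, ?_⟩)
      simp
    rcases Fin.eq_self_or_eq_succAbove i₀ i with rfl | ⟨j, rfl⟩
    · have h2 : t i = z - ∑ j, Lam (i.succAbove j) * u j := by
        rw [eq_sub_iff_add_eq]
      rw [h2]
      exact Ideal.sub_mem _ (Ideal.subset_span (Set.mem_insert _ _))
        (Ideal.sum_mem _ fun j _ => Ideal.mul_mem_left _ _ (h1 j))
    · exact h1 j
  · -- the form
    set w := QG_ev i₀ Lam u with hw
    have hwM : ∀ i, w i ∈ M := by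
      intro i
      rcases Fin.eq_self_or_eq_succAbove i₀ i with rfl | ⟨j, rfl⟩
      · rw [hw, QG_ev_same]
        exact neg_mem (Ideal.sum_mem _ fun j _ => Ideal.mul_mem_left _ _ (hu j))
      · rw [hw, QG_ev_succ]
        exact hu j
    have h1 : t = w + z • Pi.single i₀ 1 := by
      ext1 i
      rcases Fin.eq_self_or_eq_succAbove i₀ i with rfl | ⟨j, rfl⟩
      · rw [Pi.add_apply, Pi.smul_apply, Pi.single_eq_same, smul_eq_mul, mul_one, hw, QG_ev_same]
        simp only [z]
        ring
      · rw [Pi.add_apply, Pi.smul_apply, Pi.single_eq_of_ne (Fin.succAbove_ne _ _), smul_zero,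
          add_zero, hw, QG_ev_succ]
    have h2 : ∑ i, ∑ j, a i j * t i * t j = qf (cut a i₀ Lam) u +
        z * (z * qf a (Pi.single i₀ 1) + qb a w i₀) := by
      have h3 : ∑ i, ∑ j, a i j * t i * t j = qf a t := rfl
      have h4 : ∑ i, (z • (Pi.single i₀ 1 : Fin (n + 1) → MvPolynomial σ ℤ)) i * qb a w i =
          z * qb a w i₀ := by
        rw [Finset.sum_eq_single i₀]
        · rw [Pi.smul_apply, Pi.single_eq_same, smul_eq_mul, mul_one]
        · intro i _ hi
          rw [Pi.smul_apply, Pi.single_eq_of_ne hi, smul_zero, zero_mul]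
        · intro hi
          exact absurd (Finset.mem_univ _) hi
      rw [h3]
      conv_lhs => rw [h1]
      rw [qf_add, h4, qf_smul, ← QG_qf]
      ring
    have h5 : ∑ i : σ, ∑ j : σ, cut a i₀ Lam (e i) (e j) * u (e i) * u (e j) =
        qf (cut a i₀ Lam) u := by
      unfold qf
      rw [← e.sum_comp]
      refine Finset.sum_congr rfl fun i _ => ?_
      rw [← e.sum_comp]
    have h6 : f - ∑ i : σ, ∑ j : σ, cut a i₀ Lam (e i) (e j) * u (e i) * u (e j) =
        z * (z * qf a (Pi.single i₀ 1) + qb a w i₀) + (f - ∑ i, ∑ j, a i j * t i * t j) := by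
      rw [h5, h2]
      ring
    rw [h6]
    refine Ideal.add_mem _ (Ideal.mem_sup_left ?_) (Ideal.mem_sup_right hf)
    refine Ideal.mul_mem_mul (Ideal.mem_span_singleton_self z) ?_
    refine Ideal.add_mem _ (Ideal.mul_mem_right _ _ hz) ?_
    unfold qb
    exact Ideal.sum_mem _ fun j _ => Ideal.mul_mem_left _ _ (hwM j)
  · -- smoothness
    intro L _ χ hχ v h1 h2
    let χ' : MvPolynomial σ ℤ ⧸ M →+* L := Ideal.Quotient.lift M χ hχ
    have hχ' : ∀ x, χ' (Ideal.Quotient.mk M x) = χ x := fun x => Ideal.Quotient.lift_mk M χ hχ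
    have h3 := sm_ext (cut (a.map (Ideal.Quotient.mk M)) i₀ lam) hv χ'
    have h4 : (cut (a.map (Ideal.Quotient.mk M)) i₀ lam).map χ' = (cut a i₀ Lam).map χ := by
      ext j l
      rw [Matrix.map_apply, Matrix.map_apply, ← hχ']
      unfold cut
      simp only [Matrix.of_apply, Matrix.map_apply, map_add, map_sub, map_mul, hLam]
    rw [h4] at h3
    have h5 : (fun j => v (e.symm j)) ∈ vert ((cut a i₀ Lam).map χ) := by
      refine ⟨?_, fun i => ?_⟩
      · rw [← h1]
        unfold qf
        rw [← e.sum_comp]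
        refine Finset.sum_congr rfl fun i _ => ?_
        rw [← e.sum_comp]
        refine Finset.sum_congr rfl fun j _ => ?_
        simp only [Equiv.symm_apply_apply, Matrix.map_apply]
      · have h6 := h2 (e.symm i)
        rw [← h6]
        unfold qb
        rw [← e.sum_comp]
        refine Finset.sum_congr rfl fun j _ => ?_
        simp only [Equiv.symm_apply_apply, Matrix.map_apply, Equiv.apply_symm_apply, map_add]
    rw [h3, Submodule.mem_bot] at h5
    ext s
    have := congrFun h5 (e s)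
    simpa using this

end Pool.Agent.NT9
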