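import Pool.Agent.NT9.SvRed
import Pool.Agent.NT9.SvBeta
import Pool.Agent.NT9.SvCnt
import Pool.Agent.NT9.SvQG

set_option autoImplicit false

/-!
# Closed points of small degree

`q = card (A / M) = p ^ e`, `t` as in `exists_params`. The map `a ↦ sum a_ij t_i t_j` from the `(n+1) x (n+1)` matrices
over `A / M` to `M ^ 2 / M ^ 3` (well defined: `M t_i t_j` is in `M ^ 3`) is additive and onto; if the image of `a` is the class
of a polynomial `f` which is not `TZ` then `dim vert a >= 2` (otherwise `QG (n + 1) f M`, `qg_tz`). So among the elements of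
`M ^ 2 / M ^ 3` at most a proportion `1 / (q (q^2 - 1))` is not `TZ` (`vert_two`), and `M ^ 2 / M ^ 3` has index
`card (A / M ^ 2) = q ^ (n + 2)` in `A / M ^ 3`. Pull back by `red_onto` with `I = M ^ 3`, `P = p ^ 3` (`card_quot_cube`).
-/

namespace Pool.Agent.NT9

open MvPolynomial Pool.Agent.NH

namespace BadQuot

/-- elements of the square of an ideal -/
theorem exists_mat {A : Type} [CommRing A] {N : ℕ} (M : Ideal A) (t : Fin N → A)
    (ht : M ≤ Ideal.span (Set.range t) ⊔ M ^ 2) {f : A} (hf : f ∈ M ^ 2) :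
    ∃ a : Matrix (Fin N) (Fin N) A, f - ∑ i, ∑ j, a i j * t i * t j ∈ M ^ 3 := by
  have h32 : M ^ 2 * M ^ 2 ≤ M ^ 3 := by
    rw [← pow_add]; exact Ideal.pow_le_pow_right (by norm_num)
  rw [pow_two] at hf
  induction hf using Submodule.mul_induction_on' with
  | mem_mul_mem x hx y hy =>
    obtain ⟨x1, hx1, x2, hx2, rfl⟩ := Submodule.mem_sup.1 (ht hx)
    obtain ⟨y1, hy1, y2, hy2, rfl⟩ := Submodule.mem_sup.1 (ht hy)
    obtain ⟨c, rfl⟩ := Ideal.mem_span_range_iff_exists_fun.1 hx1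
    obtain ⟨d, rfl⟩ := Ideal.mem_span_range_iff_exists_fun.1 hy1
    refine ⟨fun i j => c i * d j, ?_⟩
    have e : (∑ i, c i * t i + x2) * (∑ j, d j * t j + y2) -
        ∑ i, ∑ j, c i * d j * t i * t j =
        (∑ i, c i * t i + x2) * y2 + x2 * (∑ j, d j * t j + y2) - x2 * y2 := by
      have e1 : ∑ i, ∑ j, c i * d j * t i * t j = (∑ i, c i * t i) * (∑ j, d j * t j) := by
        rw [Finset.sum_mul_sum]
        exact Finset.sum_congr rfl fun i _ => Finset.sum_congr rfl fun j _ => by ring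
      rw [e1]; ring
    rw [e]
    have m3 : M * M ^ 2 = M ^ 3 := (pow_succ' M 2).symm
    have m3' : M ^ 2 * M = M ^ 3 := (pow_succ M 2).symm
    refine sub_mem (add_mem ?_ ?_) (h32 (Ideal.mul_mem_mul hx2 hy2))
    · rw [← m3]; exact Ideal.mul_mem_mul hx hy2
    · rw [← m3']; exact Ideal.mul_mem_mul hx2 hy
  | add x hx y hy h1 h2 =>
    obtain ⟨a, ha⟩ := h1
    obtain ⟨b, hb⟩ := h2
    refine ⟨a + b, ?_⟩
    have e : x + y - ∑ i, ∑ j, (a + b) i j * t i * t j =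
        (x - ∑ i, ∑ j, a i j * t i * t j) + (y - ∑ i, ∑ j, b i j * t i * t j) := by
      have e1 : ∑ i, ∑ j, (a + b) i j * t i * t j =
          (∑ i, ∑ j, a i j * t i * t j) + ∑ i, ∑ j, b i j * t i * t j := by
        rw [← Finset.sum_add_distrib]
        refine Finset.sum_congr rfl fun i _ => ?_
        rw [← Finset.sum_add_distrib]
        refine Finset.sum_congr rfl fun j _ => ?_
        rw [Matrix.add_apply]; ring
      rw [e1]; ring
    rw [e]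
    exact add_mem ha hb

/-- the class of `c * t` modulo `M ^ 3` for `t ∈ M ^ 2` depends only on `c` modulo `M` -/
noncomputable def psi {A : Type} [CommRing A] (M : Ideal A) (t : A) (ht : t ∈ M ^ 2) :
    (A ⧸ M) →ₗ[A] (A ⧸ M ^ 3) :=
  Submodule.liftQ M (LinearMap.toSpanSingleton A (A ⧸ M ^ 3) (Ideal.Quotient.mk (M ^ 3) t)) (by
    intro c hc
    rw [LinearMap.mem_ker, LinearMap.toSpanSingleton_apply]
    change Ideal.Quotient.mk (M ^ 3) (c • t) = 0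
    rw [Ideal.Quotient.eq_zero_iff_mem, smul_eq_mul, pow_succ' M 2]
    exact Ideal.mul_mem_mul hc ht)

theorem psi_mk {A : Type} [CommRing A] (M : Ideal A) (t : A) (ht : t ∈ M ^ 2) (c : A) :
    psi M t ht (Ideal.Quotient.mk M c) = Ideal.Quotient.mk (M ^ 3) (c * t) := by
  rfl

theorem card_mul {G H : Type} [AddCommGroup G] [AddCommGroup H] (ρ : G →+ H)
    (hρ : Function.Surjective ρ) : Nat.card ρ.ker * Nat.card H = Nat.card G := by
  rw [← AddSubgroup.card_mul_index ρ.ker, AddSubgroup.index_ker, AddMonoidHom.range_eq_top.2 hρ]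
  congr 1
  exact (Nat.card_congr AddSubgroup.topEquiv.toEquiv).symm

end BadQuot

open BadQuot

theorem bad_quot {σ : Type} [Fintype σ] {n : ℕ} (hn : Fintype.card σ = n) {p : ℕ} (hp : p.Prime)
    (M : Ideal (MvPolynomial σ ℤ)) (hM : M.IsMaximal) (hpM : C (p : ℤ) ∈ M)
    {q : ℕ} (hq : Nat.card (MvPolynomial σ ℤ ⧸ M) = q) :
    pr (fun x : MvPolynomial σ ℤ ⧸ M ^ 3 => ∃ f, Ideal.Quotient.mk (M ^ 3) f = x ∧
      f ∈ M ^ 2 ∧ ¬ TZ f M) ≤
      1 / (q : ℝ) ^ (n + 2) * (1 / ((q : ℝ) * ((q : ℝ) ^ 2 - 1))) := by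
  classical
  have hn' : Nat.card σ = n := by rw [Nat.card_eq_fintype_card, hn]
  obtain ⟨hfin, e, he1, he⟩ := quot_finite hp M hM hpM
  obtain ⟨t, htM, hts, -⟩ := exists_params hn' hp M hM hpM
  obtain ⟨hfin2, hc2⟩ := card_quot_sq hn' hp M hM hpM
  obtain ⟨hfin3, a, -, hc3⟩ := card_quot_cube hn' hp M hM hpM he
  let _ : Field (MvPolynomial σ ℤ ⧸ M) := Ideal.Quotient.field M
  have := hfin
  have := hfin3
  -- the matrices
  have htt : ∀ i j, t i * t j ∈ M ^ 2 := fun i j => by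
    rw [pow_two]; exact Ideal.mul_mem_mul (htM i) (htM j)
  let ρ : MvPolynomial σ ℤ ⧸ M ^ 3 →+ MvPolynomial σ ℤ ⧸ M ^ 2 :=
    (Ideal.Quotient.factor (Ideal.pow_le_pow_right (by norm_num : 2 ≤ 3) : M ^ 3 ≤ M ^ 2) :
      MvPolynomial σ ℤ ⧸ M ^ 3 →+* MvPolynomial σ ℤ ⧸ M ^ 2).toAddMonoidHom
  have hρmk : ∀ f, ρ (Ideal.Quotient.mk (M ^ 3) f) = Ideal.Quotient.mk (M ^ 2) f := fun f => rfl
  have hρ : Function.Surjective ρ := by
    intro x
    obtain ⟨f, rfl⟩ := Ideal.Quotient.mk_surjective x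
    exact ⟨Ideal.Quotient.mk _ f, hρmk f⟩
  let φ0 : Matrix (Fin (n + 1)) (Fin (n + 1)) (MvPolynomial σ ℤ ⧸ M) → MvPolynomial σ ℤ ⧸ M ^ 3 :=
    fun b => ∑ i, ∑ j, psi M (t i * t j) (htt i j) (b i j)
  have hφ0 : ∀ b' : Matrix (Fin (n + 1)) (Fin (n + 1)) (MvPolynomial σ ℤ),
      φ0 (b'.map (Ideal.Quotient.mk M)) =
        Ideal.Quotient.mk (M ^ 3) (∑ i, ∑ j, b' i j * t i * t j) := by
    intro b'
    simp only [φ0, Matrix.map_apply, psi_mk, map_sum]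
    refine Finset.sum_congr rfl fun i _ => Finset.sum_congr rfl fun j _ => ?_
    rw [mul_assoc]
  have hlift : ∀ b : Matrix (Fin (n + 1)) (Fin (n + 1)) (MvPolynomial σ ℤ ⧸ M),
      ∃ b' : Matrix (Fin (n + 1)) (Fin (n + 1)) (MvPolynomial σ ℤ),
        b'.map (Ideal.Quotient.mk M) = b := by
    intro b
    choose b' hb' using fun i j => Ideal.Quotient.mk_surjective (b i j)
    exact ⟨Matrix.of b', by ext i j; exact hb' i j⟩
  have hker : ∀ b, φ0 b ∈ ρ.ker := by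
    intro b
    obtain ⟨b', rfl⟩ := hlift b
    rw [hφ0, AddMonoidHom.mem_ker, hρmk, Ideal.Quotient.eq_zero_iff_mem]
    refine sum_mem fun i _ => sum_mem fun j _ => ?_
    rw [mul_assoc]
    exact Ideal.mul_mem_left _ _ (htt i j)
  let φ : Matrix (Fin (n + 1)) (Fin (n + 1)) (MvPolynomial σ ℤ ⧸ M) →+ ρ.ker :=
    AddMonoidHom.mk' (fun b => ⟨φ0 b, hker b⟩) (by
      intro b c
      apply Subtype.ext
      change φ0 (b + c) = φ0 b + φ0 c
      simp only [φ0, Matrix.add_apply, map_add, Finset.sum_add_distrib])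
  have hφs : Function.Surjective φ := by
    rintro ⟨x, hx⟩
    obtain ⟨f, rfl⟩ := Ideal.Quotient.mk_surjective x
    rw [AddMonoidHom.mem_ker, hρmk, Ideal.Quotient.eq_zero_iff_mem] at hx
    obtain ⟨b', hb'⟩ := exists_mat M t hts hx
    refine ⟨b'.map (Ideal.Quotient.mk M), Subtype.ext ?_⟩
    change φ0 _ = _
    rw [hφ0]
    exact (Ideal.Quotient.eq.2 hb').symm
  -- the bad classes
  let Bad : MvPolynomial σ ℤ ⧸ M ^ 3 → Prop := fun x =>
    ∃ f, Ideal.Quotient.mk (M ^ 3) f = x ∧ f ∈ M ^ 2 ∧ ¬ TZ f M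
  have key : pr (fun v : ρ.ker => Bad v.1) ≤ 1 / ((q : ℝ) * ((q : ℝ) ^ 2 - 1)) := by
    have h1 : pr (fun b : Matrix (Fin (n + 1)) (Fin (n + 1)) (MvPolynomial σ ℤ ⧸ M) =>
        Bad (φ b).1) = pr (fun v : ρ.ker => Bad v.1) := pr_comp φ hφs (fun v => Bad v.1)
    rw [← h1]
    have h2 := vert_two (k := MvPolynomial σ ℤ ⧸ M) (n + 1)
    rw [hq] at h2
    refine le_trans (pr_mono ?_) h2
    rintro b ⟨f, hf1, hf2, hf3⟩
    by_contra hlt
    obtain ⟨b', rfl⟩ := hlift b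
    apply hf3
    refine qg_tz hn M hM hfin f ⟨t, b', htM, hts, ?_, ?_⟩
    · have h3 : Ideal.Quotient.mk (M ^ 3) f =
          Ideal.Quotient.mk (M ^ 3) (∑ i, ∑ j, b' i j * t i * t j) := by
        rw [hf1, ← hφ0]; rfl
      exact Ideal.Quotient.eq.1 h3
    · exact Nat.le_of_lt_succ (not_le.1 hlt)
  -- count
  have hcard := card_mul ρ hρ
  rw [hc2, hq] at hcard
  have e1 : Nat.card {x : MvPolynomial σ ℤ ⧸ M ^ 3 // Bad x} =
      Nat.card {v : ρ.ker // Bad v.1} := by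
    refine Nat.card_congr
      { toFun := fun x => ⟨⟨x.1, ?_⟩, x.2⟩
        invFun := fun v => ⟨v.1.1, v.2⟩
        left_inv := fun x => rfl
        right_inv := fun v => rfl }
    obtain ⟨x, f, rfl, hf, -⟩ := x
    rw [AddMonoidHom.mem_ker, hρmk, Ideal.Quotient.eq_zero_iff_mem]
    exact hf
  have hq0 : 0 < q := by
    rw [← hq]; exact Nat.card_pos
  have hk0 : 0 < Nat.card ρ.ker := Nat.card_pos
  have hq' : (0 : ℝ) < (q : ℝ) ^ (n + 2) := by positivity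
  have hk' : (0 : ℝ) < Nat.card ρ.ker := by exact_mod_cast hk0
  change pr Bad ≤ _
  have e2 : pr Bad = 1 / (q : ℝ) ^ (n + 2) * pr (fun v : ρ.ker => Bad v.1) := by
    unfold pr
    rw [e1, ← hcard]
    push_cast
    field_simp
  rw [e2]
  exact mul_le_mul_of_nonneg_left key (by positivity)

theorem low_point {n d : ℕ} (m : Fin (n + 1)) {p : ℕ} (hp : p.Prime)
    (M : Ideal (MvPolynomial {i : Fin (n + 1) // i ≠ m} ℤ)) (hM : M.IsMaximal)
    (hpM : C (p : ℤ) ∈ M) {e : ℕ}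
    (he : Nat.card (MvPolynomial {i : Fin (n + 1) // i ≠ m} ℤ ⧸ M) = p ^ e)
    (hed : e * (1 + (n + 1) + (n + 1) ^ 2) ≤ d) :
    pr (fun c : Mon n d → ZMod (p ^ 3) => deh m (Fz (p ^ 3) c) ∈ M ^ 2 ∧
      ¬ TZ (deh m (Fz (p ^ 3) c)) M) ≤
      1 / ((p : ℝ) ^ e) ^ (n + 2) * (1 / ((p : ℝ) ^ e * (((p : ℝ) ^ e) ^ 2 - 1))) := by
  have hcard : Fintype.card {i : Fin (n + 1) // i ≠ m} = n := by
    simp
  have hn' : Nat.card {i : Fin (n + 1) // i ≠ m} = n := by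
    rw [Nat.card_eq_fintype_card, hcard]
  obtain ⟨hfin3, a, ha, hc3⟩ := card_quot_cube hn' hp M hM hpM he
  have hP : 1 ≤ p ^ 3 := Nat.one_le_pow _ _ hp.pos
  have hPI : C ((p ^ 3 : ℕ) : ℤ) ∈ M ^ 3 := by
    have e1 : (C ((p ^ 3 : ℕ) : ℤ) : MvPolynomial {i : Fin (n + 1) // i ≠ m} ℤ) =
        C (p : ℤ) ^ 3 := by
      rw [← C_pow]; push_cast; rfl
    rw [e1]
    exact Ideal.pow_mem_pow hpM 3
  obtain ⟨φ, hφs, hφ⟩ := red_onto (n := n) (d := d) hP m hp (M ^ 3) hPI hc3 (by omega)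
  have : NeZero (p ^ 3) := ⟨by have := hp.pos; positivity⟩
  have h1 := pr_comp φ hφs (fun x : MvPolynomial {i : Fin (n + 1) // i ≠ m} ℤ ⧸ M ^ 3 =>
    ∃ f, Ideal.Quotient.mk (M ^ 3) f = x ∧ f ∈ M ^ 2 ∧ ¬ TZ f M)
  have h2 := bad_quot hcard hp M hM hpM he
  rw [← h1] at h2
  push_cast at h2
  refine le_trans (pr_mono ?_) h2
  rintro c ⟨hc1, hc2⟩
  exact ⟨deh m (Fz (p ^ 3) c), (hφ c).symm, hc1, hc2⟩

/-- All closed points of degree `e`: there are at most `sum_m q ^ (n - m) <= q ^ (n + 1) / (q - 1)`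
(`count_chart`), each is bad with proportion at most `low_point`. -/
theorem low_sum {n d : ℕ} {p : ℕ} (hp : p.Prime) {e : ℕ} (he : 1 ≤ e)
    (hed : e * (1 + (n + 1) + (n + 1) ^ 2) ≤ d) :
    pr (fun c : Mon n d → ZMod (p ^ 3) => ∃ m : Fin (n + 1),
      ∃ M : Ideal (MvPolynomial {i : Fin (n + 1) // i ≠ m} ℤ), M.IsMaximal ∧ C (p : ℤ) ∈ M ∧
        (∀ i : {i : Fin (n + 1) // i ≠ m}, i.1 < m → X i ∈ M) ∧
        Nat.card (MvPolynomial {i : Fin (n + 1) // i ≠ m} ℤ ⧸ M) = p ^ e ∧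
        deh m (Fz (p ^ 3) c) ∈ M ^ 2 ∧ ¬ TZ (deh m (Fz (p ^ 3) c)) M) ≤
      1 / (((p : ℝ) ^ e) ^ 2 * ((p : ℝ) ^ e - 1) * (((p : ℝ) ^ e) ^ 2 - 1)) := by
  classical
  have : NeZero (p ^ 3) := ⟨by have := hp.pos; positivity⟩
  set q : ℝ := (p : ℝ) ^ e with hqdef
  have hq2 : (2 : ℝ) ≤ q := by
    have h2 : (2 : ℝ) ≤ p := by exact_mod_cast hp.two_le
    calc (2 : ℝ) ≤ p := h2
      _ = (p : ℝ) ^ 1 := (pow_one _).symm
      _ ≤ (p : ℝ) ^ e := pow_le_pow_right₀ (by linarith) he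
  set B : ℝ := 1 / q ^ (n + 2) * (1 / (q * (q ^ 2 - 1))) with hB
  have hq1 : 0 < q - 1 := by linarith
  have hqq : 0 < q ^ 2 - 1 := by nlinarith
  have hq0 : 0 < q := by linarith
  have hB0 : 0 ≤ B := by positivity
  let S : ∀ m : Fin (n + 1), Set (Ideal (MvPolynomial {i : Fin (n + 1) // i ≠ m} ℤ)) := fun m =>
    {M | M.IsMaximal ∧ C (p : ℤ) ∈ M ∧
      (∀ i : {i : Fin (n + 1) // i ≠ m}, i.1 < m → X i ∈ M) ∧
      Nat.card (MvPolynomial {i : Fin (n + 1) // i ≠ m} ℤ ⧸ M) = p ^ e}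
  let Ev : ∀ m : Fin (n + 1), (Mon n d → ZMod (p ^ 3)) → Prop := fun m c =>
    ∃ M ∈ S m, deh m (Fz (p ^ 3) c) ∈ M ^ 2 ∧ ¬ TZ (deh m (Fz (p ^ 3) c)) M
  have h1 : ∀ m : Fin (n + 1), pr (Ev m) ≤ q ^ (n - (m : ℕ)) * B := by
    intro m
    obtain ⟨hS, hc⟩ := count_chart m hp e he
    have h := pr_exists_set (Ω := Mon n d → ZMod (p ^ 3)) (S := S m) hS hc
      (fun M c => deh m (Fz (p ^ 3) c) ∈ M ^ 2 ∧ ¬ TZ (deh m (Fz (p ^ 3) c)) M) hB0
      (fun M hM => low_point m hp M hM.1 hM.2.1 hM.2.2.2 hed)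
    push_cast at h
    exact h
  have h2 : pr (fun c : Mon n d → ZMod (p ^ 3) => ∃ m ∈ (Finset.univ : Finset (Fin (n + 1))),
      Ev m c) ≤ ∑ m : Fin (n + 1), pr (Ev m) := pr_exists _ _
  have h3 : ∑ m : Fin (n + 1), q ^ (n - (m : ℕ)) ≤ q ^ (n + 1) / (q - 1) := by
    have e1 : ∑ m : Fin (n + 1), q ^ (n - (m : ℕ)) = ∑ m ∈ Finset.range (n + 1), q ^ (n - m) :=
      Fin.sum_univ_eq_sum_range (fun m => q ^ (n - m)) (n + 1)
    have e2 : ∑ m ∈ Finset.range (n + 1), q ^ (n - m) = ∑ m ∈ Finset.range (n + 1), q ^ m := by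
      rw [← Finset.sum_range_reflect]
      refine Finset.sum_congr rfl fun m hm => ?_
      rw [Finset.mem_range] at hm
      congr 1
      omega
    rw [e1, e2, geom_sum_eq (by linarith : q ≠ 1)]
    apply div_le_div_of_nonneg_right _ hq1.le
    linarith
  have h4 : pr (fun c : Mon n d → ZMod (p ^ 3) => ∃ m ∈ (Finset.univ : Finset (Fin (n + 1))),
      Ev m c) ≤ q ^ (n + 1) / (q - 1) * B := by
    refine h2.trans ?_
    refine (Finset.sum_le_sum fun m _ => h1 m).trans ?_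
    rw [← Finset.sum_mul]
    exact mul_le_mul_of_nonneg_right h3 hB0
  have h5 : q ^ (n + 1) / (q - 1) * B = 1 / (q ^ 2 * (q - 1) * (q ^ 2 - 1)) := by
    have e3 : q ^ (n + 2) = q * q ^ (n + 1) := by ring
    rw [hB, e3]
    have hpn : q ^ (n + 1) ≠ 0 := by positivity
    field_simp
  rw [h5] at h4
  refine le_trans (pr_mono ?_) h4
  rintro c ⟨m, M, hM1, hM2, hM3, hM4, hM5, hM6⟩
  exact ⟨m, Finset.mem_univ _, M, ⟨hM1, hM2, hM3, hM4⟩, hM5, hM6⟩

end Pool.Agent.NT9
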