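import Pool.Agent.NT9.SvDef

set_option autoImplicit false

/-! # Elementary lemmas on proportions -/

namespace Pool.Agent.NT9

theorem pr_nonneg {Ω : Type} (A : Ω → Prop) : 0 ≤ pr A := by
  unfold pr
  positivity

private theorem svpr_card_mono {Ω : Type} [Finite Ω] {A B : Ω → Prop} (h : ∀ x, A x → B x) :
    Nat.card {x : Ω // A x} ≤ Nat.card {x : Ω // B x} :=
  Nat.card_le_card_of_injective (fun x : {x : Ω // A x} => (⟨x.1, h x.1 x.2⟩ : {x : Ω // B x}))
    (fun x y hxy => Subtype.ext (by simpa using congrArg Subtype.val hxy))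

theorem pr_mono {Ω : Type} [Finite Ω] {A B : Ω → Prop} (h : ∀ x, A x → B x) : pr A ≤ pr B := by
  unfold pr
  refine div_le_div_of_nonneg_right ?_ (Nat.cast_nonneg _)
  exact_mod_cast svpr_card_mono h

theorem pr_le_one {Ω : Type} [Finite Ω] (A : Ω → Prop) : pr A ≤ 1 := by
  unfold pr
  refine div_le_one_of_le₀ ?_ (Nat.cast_nonneg _)
  have : Nat.card {x : Ω // A x} ≤ Nat.card Ω :=
    Nat.card_le_card_of_injective (fun x : {x : Ω // A x} => x.1) Subtype.val_injective
  exact_mod_cast this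

private theorem svpr_card_or {Ω : Type} [Finite Ω] (A B : Ω → Prop) :
    Nat.card {x : Ω // A x ∨ B x} ≤ Nat.card {x : Ω // A x} + Nat.card {x : Ω // B x} := by
  rw [← Nat.card_sum]
  classical
  refine Nat.card_le_card_of_injective
    (fun x : {x : Ω // A x ∨ B x} => if h : A x.1 then (Sum.inl ⟨x.1, h⟩ : {x : Ω // A x} ⊕ {x : Ω // B x})
      else Sum.inr ⟨x.1, x.2.resolve_left h⟩) ?_
  rintro ⟨x, hx⟩ ⟨y, hy⟩ hxy
  dsimp only at hxy
  by_cases h1 : A x <;> by_cases h2 : A y <;> simp [h1, h2] at hxy <;> exact Subtype.ext hxy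

theorem pr_or {Ω : Type} [Finite Ω] (A B : Ω → Prop) : pr (fun x => A x ∨ B x) ≤ pr A + pr B := by
  unfold pr
  rw [← add_div]
  refine div_le_div_of_nonneg_right ?_ (Nat.cast_nonneg _)
  exact_mod_cast svpr_card_or A B

theorem pr_and_not {Ω : Type} [Finite Ω] (A B : Ω → Prop) (h : ∀ x, B x → A x) :
    pr (fun x => A x ∧ ¬ B x) = pr A - pr B := by
  unfold pr
  rw [← sub_div]
  congr 1
  have h1 : Nat.card {x : Ω // A x} = Nat.card {x : Ω // A x ∧ ¬ B x} + Nat.card {x : Ω // B x} := by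
    rw [← Nat.card_sum]
    classical
    refine Nat.card_congr
      { toFun := fun x => if hx : B x.1 then Sum.inr ⟨x.1, hx⟩ else Sum.inl ⟨x.1, x.2, hx⟩
        invFun := fun y => Sum.elim (fun z => ⟨z.1, z.2.1⟩) (fun z => ⟨z.1, h z.1 z.2⟩) y
        left_inv := ?_
        right_inv := ?_ }
    · rintro ⟨x, hx⟩
      by_cases hb : B x <;> simp [hb]
    · rintro (⟨x, hx⟩ | ⟨x, hx⟩)
      · simp [hx.2]
      · simp [hx]
  rw [h1]
  push_cast
  ring

theorem pr_exists {Ω ι : Type} [Finite Ω] (T : Finset ι) (A : ι → Ω → Prop) :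
    pr (fun x => ∃ i ∈ T, A i x) ≤ ∑ i ∈ T, pr (A i) := by
  classical
  induction T using Finset.induction_on with
  | empty =>
    have : pr (fun x : Ω => ∃ i ∈ (∅ : Finset ι), A i x) = 0 := by
      unfold pr
      have : IsEmpty {x : Ω // ∃ i ∈ (∅ : Finset ι), A i x} :=
        ⟨fun x => by obtain ⟨i, hi, _⟩ := x.2; simp at hi⟩
      rw [Nat.card_of_isEmpty]
      simp
    rw [this]
    simp
  | insert a s ha ih =>
    rw [Finset.sum_insert ha]
    refine le_trans (pr_mono (B := fun x => A a x ∨ ∃ i ∈ s, A i x) ?_)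
      ((pr_or _ _).trans (by linarith))
    rintro x ⟨i, hi, hx⟩
    rcases Finset.mem_insert.1 hi with rfl | hi
    · exact Or.inl hx
    · exact Or.inr ⟨i, hi, hx⟩

/-- A set of at most `K` events of proportion at most `ε`. -/
theorem pr_exists_set {Ω ι : Type} [Finite Ω] {S : Set ι} (hS : S.Finite) {K : ℕ}
    (hK : S.ncard ≤ K) (A : ι → Ω → Prop) {ε : ℝ} (hε : 0 ≤ ε) (h : ∀ i ∈ S, pr (A i) ≤ ε) :
    pr (fun x => ∃ i ∈ S, A i x) ≤ K * ε := by
  have h1 : pr (fun x => ∃ i ∈ S, A i x) ≤ ∑ i ∈ hS.toFinset, pr (A i) := by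
    refine le_trans (pr_mono ?_) (pr_exists hS.toFinset A)
    rintro x ⟨i, hi, hx⟩
    exact ⟨i, (Set.Finite.mem_toFinset hS).2 hi, hx⟩
  refine h1.trans ?_
  have h2 : ∑ i ∈ hS.toFinset, pr (A i) ≤ ∑ _i ∈ hS.toFinset, ε :=
    Finset.sum_le_sum fun i hi => h i ((Set.Finite.mem_toFinset hS).1 hi)
  refine h2.trans ?_
  rw [Finset.sum_const, nsmul_eq_mul, ← Set.ncard_eq_toFinset_card S hS]
  exact mul_le_mul_of_nonneg_right (by exact_mod_cast hK) hε

/-- Pull back along a bijection. -/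
theorem pr_equiv {Ω Ω' : Type} (e : Ω ≃ Ω') (A : Ω' → Prop) : pr (fun x => A (e x)) = pr A := by
  unfold pr
  rw [Nat.card_congr e, Nat.card_congr (e.subtypeEquiv (p := fun x => A (e x)) (q := A)
    (fun a => Iff.rfl))]

private theorem svpr_fib {Ω Ω' : Type} [AddCommGroup Ω] [AddCommGroup Ω'] (φ : Ω →+ Ω') (x : Ω) :
    Nat.card {u : Ω // φ u = φ x} = Nat.card φ.ker := by
  refine Nat.card_congr
    { toFun := fun u => ⟨u.1 - x, by rw [AddMonoidHom.mem_ker, map_sub, u.2, sub_self]⟩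
      invFun := fun v => ⟨v.1 + x, by
        have := v.2
        rw [AddMonoidHom.mem_ker] at this
        rw [map_add, this, zero_add]⟩
      left_inv := fun u => Subtype.ext (by simp)
      right_inv := fun v => Subtype.ext (by simp) }

private theorem svpr_card_range {Ω Ω' : Type} [AddCommGroup Ω] [AddCommGroup Ω'] [Finite Ω]
    (φ : Ω →+ Ω') : Nat.card Ω = Nat.card φ.range * Nat.card φ.ker := by
  rw [AddSubgroup.card_eq_card_quotient_mul_card_addSubgroup φ.ker]
  rw [Nat.card_congr (QuotientAddGroup.quotientKerEquivRange φ).toEquiv]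

/-- Pull back along a surjective homomorphism of finite groups. -/
theorem pr_comp {Ω Ω' : Type} [AddCommGroup Ω] [AddCommGroup Ω'] [Finite Ω] (φ : Ω →+ Ω')
    (hφ : Function.Surjective φ) (A : Ω' → Prop) : pr (fun x => A (φ x)) = pr A := by
  have hfin : Finite Ω' := Finite.of_surjective φ hφ
  have h1 : Nat.card Ω = Nat.card Ω' * Nat.card φ.ker := by
    rw [svpr_card_range φ]
    congr 1
    rw [AddMonoidHom.range_eq_top.2 hφ]
    exact Nat.card_congr AddSubgroup.topEquiv.toEquiv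
  have h2 : Nat.card {x : Ω // A (φ x)} = Nat.card {y : Ω' // A y} * Nat.card φ.ker := by
    have e : {x : Ω // A (φ x)} ≃ Σ y : {y : Ω' // A y}, {x : Ω // φ x = y.1} :=
      { toFun := fun x => ⟨⟨φ x.1, x.2⟩, ⟨x.1, rfl⟩⟩
        invFun := fun z => ⟨z.2.1, by rw [z.2.2]; exact z.1.2⟩
        left_inv := fun x => rfl
        right_inv := by
          rintro ⟨⟨y, hy⟩, ⟨x, hx⟩⟩
          dsimp only at hx
          subst hx
          rfl }
    have : Fintype {y : Ω' // A y} := Fintype.ofFinite _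
    rw [Nat.card_congr e, Nat.card_sigma]
    have h3 : ∀ y : {y : Ω' // A y}, Nat.card {x : Ω // φ x = y.1} = Nat.card φ.ker := by
      rintro ⟨y, hy⟩
      obtain ⟨x, rfl⟩ := hφ y
      exact svpr_fib φ x
    rw [Finset.sum_congr rfl fun y _ => h3 y, Finset.sum_const, smul_eq_mul, Finset.card_univ,
      ← Nat.card_eq_fintype_card]
  unfold pr
  rw [h1, h2]
  push_cast
  have h4 : (Nat.card φ.ker : ℝ) ≠ 0 := by
    have : 0 < Nat.card φ.ker := Nat.card_pos
    positivity
  exact mul_div_mul_right _ _ h4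

/-- Bound on all cosets of a subgroup. -/
theorem pr_cosets {Ω : Type} [AddCommGroup Ω] [Finite Ω] (V : AddSubgroup Ω) (A : Ω → Prop)
    {ε : ℝ} (h : ∀ x : Ω, pr (fun v : V => A (x + v)) ≤ ε) : pr A ≤ ε := by
  classical
  have hV : (0 : ℝ) < Nat.card V := by
    have : 0 < Nat.card V := Nat.card_pos
    exact_mod_cast this
  have hO : (0 : ℝ) < Nat.card Ω := by
    have : 0 < Nat.card Ω := Nat.card_pos
    exact_mod_cast this
  have h1 : ∀ x : Ω, (Nat.card {v : V // A (x + v)} : ℝ) ≤ ε * Nat.card V := by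
    intro x
    have := h x
    unfold pr at this
    rwa [div_le_iff₀ hV] at this
  have : Fintype Ω := Fintype.ofFinite _
  have : Fintype V := Fintype.ofFinite _
  have h2 : Nat.card (Σ x : Ω, {v : V // A (x + v)}) = Nat.card V * Nat.card {x : Ω // A x} := by
    rw [← Nat.card_prod]
    refine Nat.card_congr
      { toFun := fun z => (z.2.1, ⟨z.1 + z.2.1, z.2.2⟩)
        invFun := fun w => ⟨w.2.1 - w.1, ⟨w.1, by simpa using w.2.2⟩⟩
        left_inv := ?_
        right_inv := ?_ }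
    · rintro ⟨x, v, hv⟩
      refine Sigma.ext (by simp) ?_
      dsimp only
      have : x + (v : Ω) - v = x := by abel
      congr! 2
      rw [this]
    · rintro ⟨v, x, hx⟩
      simp
  have h3 : (Nat.card (Σ x : Ω, {v : V // A (x + v)}) : ℝ) ≤ Nat.card Ω * (ε * Nat.card V) := by
    rw [Nat.card_sigma]
    push_cast
    refine (Finset.sum_le_sum fun x _ => h1 x).trans ?_
    rw [Finset.sum_const, nsmul_eq_mul, Finset.card_univ, ← Nat.card_eq_fintype_card]
  rw [h2] at h3
  push_cast at h3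
  unfold pr
  rw [div_le_iff₀ hO]
  have h4 : (Nat.card V : ℝ) * Nat.card {x : Ω // A x} ≤ Nat.card V * (ε * Nat.card Ω) := by
    linarith
  exact le_of_mul_le_mul_left h4 hV

/-- Fibres of a homomorphism. -/
theorem pr_eq_le {Ω Y : Type} [AddCommGroup Ω] [AddCommGroup Y] [Finite Ω] (ψ : Ω →+ Y) (y : Y) :
    pr (fun u => ψ u = y) ≤ 1 / (Nat.card ψ.range : ℝ) := by
  have hr : (0 : ℝ) < Nat.card ψ.range := by
    have : Finite ψ.range := Finite.of_surjective ψ.rangeRestrict ψ.rangeRestrict_surjective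
    have : 0 < Nat.card ψ.range := Nat.card_pos
    exact_mod_cast this
  by_cases hy : ∃ x, ψ x = y
  · obtain ⟨x, rfl⟩ := hy
    unfold pr
    rw [svpr_fib ψ x, svpr_card_range ψ]
    push_cast
    have hk : (0 : ℝ) < Nat.card ψ.ker := by
      have : 0 < Nat.card ψ.ker := Nat.card_pos
      exact_mod_cast this
    rw [div_le_div_iff₀ (by positivity) hr]
    linarith
  · have : IsEmpty {u : Ω // ψ u = y} := ⟨fun u => hy ⟨u.1, u.2⟩⟩
    unfold pr
    rw [Nat.card_of_isEmpty]
    simp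

/-- Products: `A` holds on the fibre over `x` with proportion at most `ε x`. -/
theorem pr_prod {X Y : Type} [Finite X] [Finite Y] [Nonempty Y] (A : X → Y → Prop) (B : X → Prop)
    {ε : ℝ} (hε : 0 ≤ ε) (h : ∀ x, B x → pr (fun y => A x y) ≤ ε) :
    pr (fun z : X × Y => B z.1 ∧ A z.1 z.2) ≤ ε * pr B := by
  have hY : (0 : ℝ) < Nat.card Y := by
    have : 0 < Nat.card Y := Nat.card_pos
    exact_mod_cast this
  have h1 : ∀ x : {x : X // B x}, (Nat.card {y : Y // A x.1 y} : ℝ) ≤ ε * Nat.card Y := by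
    intro x
    have := h x.1 x.2
    unfold pr at this
    rwa [div_le_iff₀ hY] at this
  have : Fintype {x : X // B x} := Fintype.ofFinite _
  have h2 : Nat.card {z : X × Y // B z.1 ∧ A z.1 z.2} =
      Nat.card (Σ x : {x : X // B x}, {y : Y // A x.1 y}) := by
    refine Nat.card_congr
      { toFun := fun z => ⟨⟨z.1.1, z.2.1⟩, ⟨z.1.2, z.2.2⟩⟩
        invFun := fun w => ⟨(w.1.1, w.2.1), w.1.2, w.2.2⟩
        left_inv := fun z => rfl
        right_inv := fun w => rfl }
  have h3 : (Nat.card (Σ x : {x : X // B x}, {y : Y // A x.1 y}) : ℝ) ≤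
      Nat.card {x : X // B x} * (ε * Nat.card Y) := by
    rw [Nat.card_sigma]
    push_cast
    refine (Finset.sum_le_sum fun x _ => h1 x).trans ?_
    rw [Finset.sum_const, nsmul_eq_mul, Finset.card_univ, ← Nat.card_eq_fintype_card]
  unfold pr
  rw [h2, Nat.card_prod]
  push_cast
  by_cases hX : (Nat.card X : ℝ) = 0
  · rw [hX]
    simp
  · have _hε := hε
    have hX' : (0 : ℝ) < Nat.card X := lt_of_le_of_ne (Nat.cast_nonneg _) (Ne.symm hX)
    rw [mul_div_assoc', div_le_div_iff₀ (by positivity) hX']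
    nlinarith [mul_le_mul_of_nonneg_right h3 hX'.le]

end Pool.Agent.NT9
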