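import Pool.Agent.NT9.SvPr

set_option autoImplicit false

/-!
# The recursion for the dimension of the vertex

Over a finite field with `q` elements; `G_N(r)` = proportion of the `N x N` matrices `a` with
`dim vert a >= r`.

Proof of `vert_rec`. Write an `(N+1) x (N+1)` matrix as `(a, l, l', c)` (new variable `t`, index `0`:
`a'_(00) = c`, row `l`, column `l'`), `lam = l + l'` (uniform):
`q'(t, v) = q_a(v) + t lam(v) + c t ^ 2`. Let `V = vert a`, `w = dim V`, `V' = vert a'`.
* `V' ∩ {t = 0} = {(0, v) : v ∈ V, lam v = 0}`, so `dim V' <= w + 1`.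
* If `V'` has an element `(1, x)` then `B_a(x, .) = - lam`, so `lam = 0` on `V` (as `B_a(x, v) = 0` for
  `v ∈ V`), and `c = - lam x - q_a x = B_a(x, x) - q_a x = q_a x`. The pair
  `(lam, c) = (- B_a(x, .), q_a x)` depends only on `x` modulo `V`.
* `w = r` and `dim V' >= r`: then `lam = 0` on `V` (otherwise `V' = ker lam ∩ V` has dimension
  `r - 1`): proportion `q ^ (-r)` of the `lam`.
* `w = r - 1` and `dim V' >= r`: then `V'` has an element `(1, x)`: at most `q ^ (N - w)` pairs
  `(lam, c)` among `q ^ (N + 1)`.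
Sum: `G_(N+1)(r) <= G_N(r+1) + q^(-r) (G_N(r) - G_N(r+1)) + q^(-r) (G_N(r-1) - G_N(r))`.
-/

namespace Pool.Agent.NT9

private theorem qf_self {k : Type} [CommRing k] {N : ℕ} (a : Matrix (Fin N) (Fin N) k)
    (v : Fin N → k) : ∑ i, v i * qb a v i = 2 * qf a v := by
  have h := qf_add a v v
  have h2 : qf a (v + v) = 4 * qf a v := by
    have : v + v = (2 : k) • v := by
      ext i; simp; ring
    rw [this, qf_smul]; ring
  rw [h2] at h
  have h3 : 4 * qf a v = qf a v + qf a v + ∑ i, v i * qb a v i := h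
  have h4 : ∑ i, v i * qb a v i = 4 * qf a v - (qf a v + qf a v) := by rw [h3]; ring
  rw [h4]; ring

private theorem qb_symm {k : Type} [CommRing k] {N : ℕ} (a : Matrix (Fin N) (Fin N) k)
    (v w : Fin N → k) : ∑ i, w i * qb a v i = ∑ i, v i * qb a w i := by
  have h1 := qf_add a v w
  have h2 := qf_add a w v
  rw [add_comm w v] at h2
  rw [h1] at h2
  have h3 : qf a v + qf a w + ∑ i, w i * qb a v i = qf a v + qf a w + ∑ i, v i * qb a w i := by
    rw [h2]; ring
  exact add_left_cancel h3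

/-- The number of linear forms vanishing on a subspace of dimension `w`. -/
theorem card_annihilator {k : Type} [Field k] [Finite k] {N : ℕ} (V : Submodule k (Fin N → k)) :
    pr (fun l : Fin N → k => ∀ v ∈ V, ∑ i, l i * v i = 0) =
      1 / (Nat.card k : ℝ) ^ (Module.finrank k V) := by
  classical
  have hq : (0 : ℝ) < Nat.card k := by exact_mod_cast Nat.card_pos
  set W : Submodule k (Fin N → k) :=
    V.dualAnnihilator.comap (dotProductEquiv k (Fin N)).toLinearMap with hW
  have hmem : ∀ l : Fin N → k, (∀ v ∈ V, ∑ i, l i * v i = 0) ↔ l ∈ W := by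
    intro l
    rw [hW, Submodule.mem_comap, Submodule.mem_dualAnnihilator]
    rfl
  have h1 : Module.finrank k W = Module.finrank k V.dualAnnihilator := by
    have e : W ≃ₗ[k] V.dualAnnihilator :=
      (dotProductEquiv k (Fin N)).ofSubmodules W V.dualAnnihilator (by
        rw [hW]
        exact Submodule.map_comap_eq_of_surjective (dotProductEquiv k (Fin N)).surjective _)
    exact e.finrank_eq
  have h2 : Module.finrank k V + Module.finrank k V.dualAnnihilator = N := by
    rw [Subspace.finrank_add_finrank_dualAnnihilator_eq]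
    simp
  have h3 : Nat.card {l : Fin N → k // ∀ v ∈ V, ∑ i, l i * v i = 0} = Nat.card W :=
    Nat.card_congr (Equiv.subtypeEquivRight hmem)
  unfold pr
  rw [h3, Module.natCard_eq_pow_finrank (K := k) (V := W),
    Module.natCard_eq_pow_finrank (K := k) (V := (Fin N → k)), h1]
  rw [Module.finrank_fin_fun]
  push_cast
  rw [div_eq_div_iff (by positivity) (by positivity), one_mul, ← pow_add, add_comm, h2]

/-- The number of pairs `(lam, c)` for which the new vertex contains an element `(1, x)`. -/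
theorem card_pairs {k : Type} [Field k] [Finite k] {N : ℕ} (a : Matrix (Fin N) (Fin N) k) :
    pr (fun z : (Fin N → k) × k => ∃ x : Fin N → k, (∀ i, qb a x i = - z.1 i) ∧ z.2 = qf a x) ≤
      1 / (Nat.card k : ℝ) ^ (Module.finrank k (vert a) + 1) := by
  classical
  have hq : (0 : ℝ) < Nat.card k := by exact_mod_cast Nat.card_pos
  -- the map from the quotient
  let f : (Fin N → k) → (Fin N → k) × k := fun x => (fun i => - qb a x i, qf a x)
  have hf : ∀ x y : Fin N → k, x - y ∈ vert a → f x = f y := by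
    intro x y h
    obtain ⟨h1, h2⟩ := h
    have e : x = y + (x - y) := by abel
    have h3 : ∀ i, qb a x i = qb a y i := by
      intro i
      rw [e, qb_add, h2 i, add_zero]
    have h4 : qf a x = qf a y := by
      rw [e, qf_add, h1, qb_symm]
      rw [Finset.sum_eq_zero fun i _ => by rw [h2 i, mul_zero]]
      ring
    simp only [f, Prod.mk.injEq]
    exact ⟨funext fun i => by rw [h3 i], h4⟩
  have : Finite ((Fin N → k) ⧸ vert a) :=
    Finite.of_surjective _ (Submodule.mkQ_surjective (vert a))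
  have h1 : Nat.card {z : (Fin N → k) × k // ∃ x : Fin N → k,
      (∀ i, qb a x i = - z.1 i) ∧ z.2 = qf a x} ≤ Nat.card ((Fin N → k) ⧸ vert a) := by
    refine Nat.card_le_card_of_surjective
      (fun c : (Fin N → k) ⧸ vert a => (⟨f (Quotient.out c), Quotient.out c,
        fun i => by simp [f], rfl⟩ : {z : (Fin N → k) × k // ∃ x : Fin N → k,
          (∀ i, qb a x i = - z.1 i) ∧ z.2 = qf a x})) ?_
    rintro ⟨⟨l, c⟩, x, hx1, hx2⟩
    refine ⟨Submodule.Quotient.mk x, ?_⟩
    apply Subtype.ext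
    have h5 : f (Quotient.out (Submodule.Quotient.mk x : (Fin N → k) ⧸ vert a)) = f x := by
      apply hf
      have := (Submodule.Quotient.mk_out (Submodule.Quotient.mk (p := vert a) x))
      exact (Submodule.Quotient.eq (vert a)).1 this
    have h6 : f x = (l, c) := by
      simp only [f, Prod.mk.injEq]
      refine ⟨funext fun i => ?_, hx2.symm⟩
      have := hx1 i
      simp only at this
      rw [this, neg_neg]
    exact h5.trans h6
  have h2 : Module.finrank k ((Fin N → k) ⧸ vert a) + Module.finrank k (vert a) = N := by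
    rw [Submodule.finrank_quotient_add_finrank]
    simp
  unfold pr
  rw [Module.natCard_eq_pow_finrank (K := k) (V := ((Fin N → k) ⧸ vert a))] at h1
  rw [Module.natCard_eq_pow_finrank (K := k) (V := ((Fin N → k) × k)), Module.finrank_prod,
    Module.finrank_self, Module.finrank_fin_fun]
  rw [div_le_div_iff₀ (by rw [Nat.cast_pow]; positivity) (by positivity)]
  calc (Nat.card {z : (Fin N → k) × k // ∃ x : Fin N → k,
      (∀ i, qb a x i = - z.1 i) ∧ z.2 = qf a x} : ℝ) *
        (Nat.card k : ℝ) ^ (Module.finrank k (vert a) + 1)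
      ≤ (Nat.card k : ℝ) ^ (Module.finrank k ((Fin N → k) ⧸ vert a)) *
        (Nat.card k : ℝ) ^ (Module.finrank k (vert a) + 1) := by
        refine mul_le_mul_of_nonneg_right ?_ (by positivity)
        exact_mod_cast h1
    _ = 1 * ((Nat.card k ^ (N + 1) : ℕ) : ℝ) := by
        rw [← pow_add, ← add_assoc, h2]
        push_cast
        ring

section Rec

variable {k : Type} [Field k] {N : ℕ}

/-- The smaller matrix. -/
private def vr_sub (A : Matrix (Fin (N + 1)) (Fin (N + 1)) k) : Matrix (Fin N) (Fin N) k :=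
  fun i j => A i.succ j.succ

/-- The linear form. -/
private def vr_lam (A : Matrix (Fin (N + 1)) (Fin (N + 1)) k) : Fin N → k :=
  fun i => A 0 i.succ + A i.succ 0

private theorem vr_qf (A : Matrix (Fin (N + 1)) (Fin (N + 1)) k) (t : k) (v : Fin N → k) :
    qf A (Fin.cons t v : Fin (N + 1) → k) =
      A 0 0 * t ^ 2 + t * ∑ i, vr_lam A i * v i + qf (vr_sub A) v := by
  unfold qf
  rw [Fin.sum_univ_succ, Fin.sum_univ_succ]
  simp only [Fin.cons_zero, Fin.cons_succ, Fin.sum_univ_succ, vr_sub, vr_lam]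
  rw [Finset.sum_add_distrib]
  have h1 : ∑ i : Fin N, (A 0 i.succ + A i.succ 0) * v i =
      ∑ i : Fin N, A 0 i.succ * v i + ∑ i : Fin N, A i.succ 0 * v i := by
    rw [← Finset.sum_add_distrib]
    exact Finset.sum_congr rfl fun i _ => by ring
  rw [h1]
  have h2 : ∑ x : Fin N, A 0 x.succ * t * v x = t * ∑ i : Fin N, A 0 i.succ * v i := by
    rw [Finset.mul_sum]
    exact Finset.sum_congr rfl fun i _ => by ring
  have h3 : ∑ x : Fin N, A x.succ 0 * v x * t = t * ∑ i : Fin N, A i.succ 0 * v i := by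
    rw [Finset.mul_sum]
    exact Finset.sum_congr rfl fun i _ => by ring
  rw [h2, h3]
  ring

private theorem vr_qb_zero (A : Matrix (Fin (N + 1)) (Fin (N + 1)) k) (t : k) (v : Fin N → k) :
    qb A (Fin.cons t v : Fin (N + 1) → k) 0 = 2 * A 0 0 * t + ∑ i, vr_lam A i * v i := by
  unfold qb
  rw [Fin.sum_univ_succ]
  simp only [Fin.cons_zero, Fin.cons_succ, vr_lam]
  ring

private theorem vr_qb_succ (A : Matrix (Fin (N + 1)) (Fin (N + 1)) k) (t : k) (v : Fin N → k)
    (i : Fin N) :
    qb A (Fin.cons t v : Fin (N + 1) → k) i.succ = vr_lam A i * t + qb (vr_sub A) v i := by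
  unfold qb
  rw [Fin.sum_univ_succ]
  simp only [Fin.cons_zero, Fin.cons_succ, vr_lam, vr_sub]
  ring

/-- The part of the old vertex on which the linear form vanishes. -/
private def vr_ker (A : Matrix (Fin (N + 1)) (Fin (N + 1)) k) : Submodule k (Fin N → k) where
  carrier := {v | v ∈ vert (vr_sub A) ∧ ∑ i, vr_lam A i * v i = 0}
  add_mem' := by
    rintro v w ⟨h1, h2⟩ ⟨h3, h4⟩
    refine ⟨Submodule.add_mem _ h1 h3, ?_⟩
    have : ∑ i, vr_lam A i * (v + w) i = ∑ i, vr_lam A i * v i + ∑ i, vr_lam A i * w i := by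
      rw [← Finset.sum_add_distrib]
      exact Finset.sum_congr rfl fun i _ => by rw [Pi.add_apply]; ring
    rw [this, h2, h4, add_zero]
  zero_mem' := ⟨Submodule.zero_mem _, by simp⟩
  smul_mem' := by
    rintro c v ⟨h1, h2⟩
    refine ⟨Submodule.smul_mem _ _ h1, ?_⟩
    have : ∑ i, vr_lam A i * (c • v) i = c * ∑ i, vr_lam A i * v i := by
      rw [Finset.mul_sum]
      exact Finset.sum_congr rfl fun i _ => by rw [Pi.smul_apply, smul_eq_mul]; ring
    rw [this, h2, mul_zero]

private theorem vr_ker_le (A : Matrix (Fin (N + 1)) (Fin (N + 1)) k) :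
    vr_ker A ≤ vert (vr_sub A) := fun _ h => h.1

private theorem vr_mem_zero (A : Matrix (Fin (N + 1)) (Fin (N + 1)) k) (v : Fin N → k) :
    (Fin.cons 0 v : Fin (N + 1) → k) ∈ vert A ↔ v ∈ vr_ker A := by
  constructor
  · rintro ⟨h1, h2⟩
    have h3 := h2 0
    rw [vr_qb_zero] at h3
    have h4 : ∑ i, vr_lam A i * v i = 0 := by rw [← h3]; ring
    refine ⟨⟨?_, fun i => ?_⟩, h4⟩
    · rw [vr_qf] at h1
      rw [← h1]; ring
    · have h5 := h2 i.succ
      rw [vr_qb_succ] at h5
      rw [← h5]; ring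
  · rintro ⟨⟨h1, h2⟩, h3⟩
    refine ⟨?_, fun i => ?_⟩
    · rw [vr_qf, h1]; ring
    · refine Fin.cases ?_ (fun i => ?_) i
      · rw [vr_qb_zero, h3]; ring
      · rw [vr_qb_succ, h2 i]; ring

private theorem vr_mem_one (A : Matrix (Fin (N + 1)) (Fin (N + 1)) k) (x : Fin N → k)
    (h : (Fin.cons 1 x : Fin (N + 1) → k) ∈ vert A) :
    (∀ i, qb (vr_sub A) x i = - vr_lam A i) ∧ A 0 0 = qf (vr_sub A) x := by
  obtain ⟨h1, h2⟩ := h
  have h3 : ∀ i, qb (vr_sub A) x i = - vr_lam A i := by
    intro i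
    have h5 := h2 i.succ
    rw [vr_qb_succ, mul_one] at h5
    exact eq_neg_of_add_eq_zero_right h5
  refine ⟨h3, ?_⟩
  rw [vr_qf] at h1
  have h4 : ∑ i, vr_lam A i * x i = - (2 * qf (vr_sub A) x) := by
    rw [← qf_self, ← Finset.sum_neg_distrib]
    refine Finset.sum_congr rfl fun i _ => ?_
    rw [h3 i]; ring
  rw [h4] at h1
  have h6 : A 0 0 - qf (vr_sub A) x = 0 := by rw [← h1]; ring
  exact sub_eq_zero.1 h6

/-- If the new vertex has an element outside `t = 0`, it has one with `t = 1`. -/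
private theorem vr_exists_one (A : Matrix (Fin (N + 1)) (Fin (N + 1)) k)
    (v : Fin (N + 1) → k) (hv : v ∈ vert A) (h0 : v 0 ≠ 0) :
    ∃ x : Fin N → k, (Fin.cons 1 x : Fin (N + 1) → k) ∈ vert A := by
  refine ⟨fun i => (v 0)⁻¹ * v i.succ, ?_⟩
  have h1 : (Fin.cons 1 (fun i => (v 0)⁻¹ * v i.succ) : Fin (N + 1) → k) = (v 0)⁻¹ • v := by
    ext i
    refine Fin.cases ?_ (fun i => ?_) i
    · simp [h0]
    · simp
  rw [h1]
  exact Submodule.smul_mem _ _ hv

private theorem vr_ann (A : Matrix (Fin (N + 1)) (Fin (N + 1)) k) (x : Fin N → k)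
    (h : (Fin.cons 1 x : Fin (N + 1) → k) ∈ vert A) :
    ∀ v ∈ vert (vr_sub A), ∑ i, vr_lam A i * v i = 0 := by
  intro v hv
  have h1 := (vr_mem_one A x h).1
  have h2 : ∑ i, vr_lam A i * v i = - ∑ i, v i * qb (vr_sub A) x i := by
    rw [← Finset.sum_neg_distrib]
    refine Finset.sum_congr rfl fun i _ => ?_
    rw [h1 i]; ring
  rw [h2, qb_symm, Finset.sum_eq_zero fun i _ => by rw [hv.2 i, mul_zero], neg_zero]

/-- The projection to the first coordinate. -/
private def vr_t : (Fin (N + 1) → k) →ₗ[k] k := LinearMap.proj 0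

private theorem vr_finrank_ker (A : Matrix (Fin (N + 1)) (Fin (N + 1)) k) :
    Module.finrank k (LinearMap.ker (vr_t.domRestrict (vert A))) =
      Module.finrank k (vr_ker A) := by
  let f : vr_ker A →ₗ[k] LinearMap.ker (vr_t.domRestrict (vert A)) :=
    { toFun := fun v => ⟨⟨(Fin.cons 0 v.1 : Fin (N + 1) → k), (vr_mem_zero A v.1).2 v.2⟩, by
        rw [LinearMap.mem_ker]; simp [vr_t]⟩
      map_add' := by
        intro v w
        apply Subtype.ext
        apply Subtype.ext
        ext i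
        refine Fin.cases ?_ (fun i => ?_) i
        · simp
        · simp
      map_smul' := by
        intro c v
        apply Subtype.ext
        apply Subtype.ext
        ext i
        refine Fin.cases ?_ (fun i => ?_) i
        · simp
        · simp }
  have hinj : Function.Injective f := by
    intro v w h
    have h1 : (Fin.cons 0 v.1 : Fin (N + 1) → k) = Fin.cons 0 w.1 :=
      congrArg (fun z => z.1.1) h
    exact Subtype.ext (Fin.cons_injective2 h1).2
  have hsurj : Function.Surjective f := by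
    rintro ⟨⟨v, hv⟩, hv0⟩
    have h0 : v 0 = 0 := by
      rw [LinearMap.mem_ker] at hv0
      simpa [vr_t] using hv0
    have h1 : (Fin.cons 0 (fun i : Fin N => v i.succ) : Fin (N + 1) → k) = v := by
      ext i
      refine Fin.cases ?_ (fun i => ?_) i
      · simp [h0]
      · simp
    refine ⟨⟨fun i => v i.succ, (vr_mem_zero A _).1 (by rw [h1]; exact hv)⟩, ?_⟩
    apply Subtype.ext
    apply Subtype.ext
    exact h1
  exact (LinearEquiv.ofBijective f ⟨hinj, hsurj⟩).finrank_eq.symm

/-- The three cases. -/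
private theorem vr_cases (A : Matrix (Fin (N + 1)) (Fin (N + 1)) k) {r : ℕ} (hr : 1 ≤ r)
    (h : r ≤ Module.finrank k (vert A)) :
    r + 1 ≤ Module.finrank k (vert (vr_sub A)) ∨
    ((r ≤ Module.finrank k (vert (vr_sub A)) ∧ ¬ r + 1 ≤ Module.finrank k (vert (vr_sub A))) ∧
      ∀ v ∈ vert (vr_sub A), ∑ i, vr_lam A i * v i = 0) ∨
    ((r - 1 ≤ Module.finrank k (vert (vr_sub A)) ∧ ¬ r ≤ Module.finrank k (vert (vr_sub A))) ∧
      ∃ x : Fin N → k, (∀ i, qb (vr_sub A) x i = - vr_lam A i) ∧ A 0 0 = qf (vr_sub A) x) := by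
  set w := Module.finrank k (vert (vr_sub A)) with hw
  have hk : Module.finrank k (vr_ker A) ≤ w := Submodule.finrank_mono (vr_ker_le A)
  have hrn := LinearMap.finrank_range_add_finrank_ker (vr_t.domRestrict (vert A))
  rw [vr_finrank_ker] at hrn
  by_cases hex : ∃ x : Fin N → k, (Fin.cons 1 x : Fin (N + 1) → k) ∈ vert A
  · obtain ⟨x, hx⟩ := hex
    have h1 : Module.finrank k (LinearMap.range (vr_t.domRestrict (vert A))) ≤ 1 := by
      have := Submodule.finrank_le (LinearMap.range (vr_t.domRestrict (vert A)))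
      rwa [Module.finrank_self] at this
    have h2 : r - 1 ≤ w := by omega
    by_cases h3 : r + 1 ≤ w
    · exact Or.inl h3
    · by_cases h4 : r ≤ w
      · exact Or.inr (Or.inl ⟨⟨h4, h3⟩, vr_ann A x hx⟩)
      · exact Or.inr (Or.inr ⟨⟨h2, h4⟩, x, vr_mem_one A x hx⟩)
  · have h1 : LinearMap.range (vr_t.domRestrict (vert A)) = ⊥ := by
      rw [LinearMap.range_eq_bot]
      apply LinearMap.ext
      intro v
      by_contra hne
      exact hex (vr_exists_one A v.1 v.2 hne)
    rw [h1, finrank_bot, zero_add] at hrn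
    by_cases h3 : r + 1 ≤ w
    · exact Or.inl h3
    · have h4 : r ≤ w := by omega
      refine Or.inr (Or.inl ⟨⟨h4, h3⟩, ?_⟩)
      have h5 : Module.finrank k (vr_ker A) = Module.finrank k (vert (vr_sub A)) := by omega
      have h6 : vr_ker A = vert (vr_sub A) :=
        Submodule.eq_of_le_of_finrank_eq (vr_ker_le A) h5
      intro v hv
      rw [← h6] at hv
      exact hv.2

/-- Matrices as tuples. -/
private def vr_equiv : Matrix (Fin (N + 1)) (Fin (N + 1)) k ≃
    Matrix (Fin N) (Fin N) k × ((Fin N → k) × k) × (Fin N → k) where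
  toFun A := (vr_sub A, (vr_lam A, A 0 0), fun i => A 0 i.succ)
  invFun z := Matrix.of (Fin.cons (Fin.cons z.2.1.2 z.2.2)
    (fun i => Fin.cons (z.2.1.1 i - z.2.2 i) (z.1 i)))
  left_inv A := by
    ext i j
    refine Fin.cases ?_ (fun i => ?_) i
    · refine Fin.cases ?_ (fun j => ?_) j
      · simp
      · simp
    · refine Fin.cases ?_ (fun j => ?_) j
      · simp [vr_lam]
      · simp [vr_sub]
  right_inv z := by
    obtain ⟨a, ⟨l, c⟩, m⟩ := z
    simp only [Prod.mk.injEq]
    refine ⟨?_, ⟨?_, ?_⟩, ?_⟩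
    · ext i j; simp [vr_sub]
    · ext i; simp [vr_lam]
    · simp
    · ext i; simp

end Rec

theorem vert_rec {k : Type} [Field k] [Finite k] (N r : ℕ) (hr : 1 ≤ r) :
    pr (fun a : Matrix (Fin (N + 1)) (Fin (N + 1)) k => r ≤ Module.finrank k (vert a)) ≤
      (1 - 1 / (Nat.card k : ℝ) ^ r) *
        pr (fun a : Matrix (Fin N) (Fin N) k => r + 1 ≤ Module.finrank k (vert a)) +
      1 / (Nat.card k : ℝ) ^ r *
        pr (fun a : Matrix (Fin N) (Fin N) k => r - 1 ≤ Module.finrank k (vert a)) := by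
  classical
  have hq : (0 : ℝ) < Nat.card k := by exact_mod_cast Nat.card_pos
  have : Finite (Matrix (Fin (N + 1)) (Fin (N + 1)) k) := inferInstanceAs (Finite (Fin (N + 1) → Fin (N + 1) → k))
  have : Finite (Matrix (Fin N) (Fin N) k) := inferInstanceAs (Finite (Fin N → Fin N → k))
  set w : Matrix (Fin N) (Fin N) k → ℕ := fun a => Module.finrank k (vert a) with hw
  -- the three events on the product space
  let B1 : Matrix (Fin N) (Fin N) k → Prop := fun a => r + 1 ≤ w a
  let B2 : Matrix (Fin N) (Fin N) k → Prop := fun a => r ≤ w a ∧ ¬ r + 1 ≤ w a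
  let B3 : Matrix (Fin N) (Fin N) k → Prop := fun a => r - 1 ≤ w a ∧ ¬ r ≤ w a
  let A2 : Matrix (Fin N) (Fin N) k → ((Fin N → k) × k) × (Fin N → k) → Prop :=
    fun a y => ∀ v ∈ vert a, ∑ i, y.1.1 i * v i = 0
  let A3 : Matrix (Fin N) (Fin N) k → ((Fin N → k) × k) × (Fin N → k) → Prop :=
    fun a y => ∃ x : Fin N → k, (∀ i, qb a x i = - y.1.1 i) ∧ y.1.2 = qf a x
  have h0 : pr (fun a : Matrix (Fin (N + 1)) (Fin (N + 1)) k => r ≤ Module.finrank k (vert a)) ≤
      pr (fun z : Matrix (Fin N) (Fin N) k × ((Fin N → k) × k) × (Fin N → k) =>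
        (B1 z.1 ∧ True) ∨ ((B2 z.1 ∧ A2 z.1 z.2) ∨ (B3 z.1 ∧ A3 z.1 z.2))) := by
    rw [← pr_equiv (vr_equiv (k := k) (N := N))]
    refine pr_mono fun A hA => ?_
    rcases vr_cases A hr hA with h | h | h
    · exact Or.inl ⟨h, trivial⟩
    · exact Or.inr (Or.inl h)
    · exact Or.inr (Or.inr h)
  have h1 : pr (fun z : Matrix (Fin N) (Fin N) k × ((Fin N → k) × k) × (Fin N → k) =>
      B1 z.1 ∧ True) ≤ 1 * pr B1 :=
    pr_prod (fun _ _ => True) B1 zero_le_one (fun _ _ => pr_le_one _)
  have h2 : pr (fun z : Matrix (Fin N) (Fin N) k × ((Fin N → k) × k) × (Fin N → k) =>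
      B2 z.1 ∧ A2 z.1 z.2) ≤ 1 / (Nat.card k : ℝ) ^ r * pr B2 := by
    refine pr_prod A2 B2 (by positivity) (fun a ha => ?_)
    have e : Module.finrank k (vert a) = r := by
      have h3 : r ≤ Module.finrank k (vert a) := ha.1
      have h4 : ¬ r + 1 ≤ Module.finrank k (vert a) := ha.2
      omega
    have h3 := card_annihilator (vert a)
    rw [e] at h3
    rw [← h3]
    let φ : (((Fin N → k) × k) × (Fin N → k)) →+ (Fin N → k) :=
      (AddMonoidHom.fst (Fin N → k) k).comp (AddMonoidHom.fst ((Fin N → k) × k) (Fin N → k))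
    have hφ : Function.Surjective φ := fun l => ⟨((l, 0), 0), rfl⟩
    exact (pr_comp φ hφ (fun l : Fin N → k => ∀ v ∈ vert a, ∑ i, l i * v i = 0)).le
  have h3 : pr (fun z : Matrix (Fin N) (Fin N) k × ((Fin N → k) × k) × (Fin N → k) =>
      B3 z.1 ∧ A3 z.1 z.2) ≤ 1 / (Nat.card k : ℝ) ^ r * pr B3 := by
    refine pr_prod A3 B3 (by positivity) (fun a ha => ?_)
    have e : Module.finrank k (vert a) + 1 = r := by
      have h3 : r - 1 ≤ Module.finrank k (vert a) := ha.1
      have h4 : ¬ r ≤ Module.finrank k (vert a) := ha.2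
      omega
    have h3 := card_pairs a
    rw [e] at h3
    let φ : (((Fin N → k) × k) × (Fin N → k)) →+ ((Fin N → k) × k) :=
      AddMonoidHom.fst ((Fin N → k) × k) (Fin N → k)
    have hφ : Function.Surjective φ := fun l => ⟨(l, 0), rfl⟩
    exact (pr_comp φ hφ (fun z : (Fin N → k) × k => ∃ x : Fin N → k,
      (∀ i, qb a x i = - z.1 i) ∧ z.2 = qf a x)).le.trans h3
  have h4 : pr B2 = pr (fun a : Matrix (Fin N) (Fin N) k => r ≤ w a) - pr B1 :=
    pr_and_not _ _ (fun a ha => (Nat.le_succ r).trans ha)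
  have h5 : pr B3 = pr (fun a : Matrix (Fin N) (Fin N) k => r - 1 ≤ w a) -
      pr (fun a : Matrix (Fin N) (Fin N) k => r ≤ w a) :=
    pr_and_not _ _ (fun a ha => (Nat.sub_le r 1).trans ha)
  have h6 := pr_or (fun z : Matrix (Fin N) (Fin N) k × ((Fin N → k) × k) × (Fin N → k) =>
    B1 z.1 ∧ True) (fun z => (B2 z.1 ∧ A2 z.1 z.2) ∨ (B3 z.1 ∧ A3 z.1 z.2))
  have h7 := pr_or (fun z : Matrix (Fin N) (Fin N) k × ((Fin N → k) × k) × (Fin N → k) =>
    B2 z.1 ∧ A2 z.1 z.2) (fun z => B3 z.1 ∧ A3 z.1 z.2)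
  rw [h4] at h2
  rw [h5] at h3
  have hB1 : pr B1 = pr (fun a : Matrix (Fin N) (Fin N) k =>
    r + 1 ≤ Module.finrank k (vert a)) := rfl
  rw [← hB1]
  have hB3 : pr (fun a : Matrix (Fin N) (Fin N) k => r - 1 ≤ w a) =
    pr (fun a : Matrix (Fin N) (Fin N) k => r - 1 ≤ Module.finrank k (vert a)) := rfl
  rw [← hB3]
  nlinarith [h0, h1, h2, h3, h6, h7]

end Pool.Agent.NT9
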