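import Pool.Agent.NT9.SvPr
import Pool.Agent.NT9.SvMax

set_option autoImplicit false

/-!
# Reduction of the coefficients

`Ω = (Mon n d → ℤ/P)`. An additive map of `ℤ[x_0, ..., x_n]` which kills `P` times everything induces a
homomorphism on `Ω`. Every polynomial of degree at most `d` in the chart `m` comes from a form of degree `d`.
-/

namespace Pool.Agent.NT9

open MvPolynomial Pool.Agent.NH

private theorem SvRed_toF_add {n d : ℕ} (a b : Mon n d → ℤ) :
    toF (fun α => a α + b α) = toF a + toF b := by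
  unfold toF
  rw [← Finset.sum_add_distrib]
  exact Finset.sum_congr rfl fun α _ => map_add _ _ _

private theorem SvRed_toF_mul {n d : ℕ} (P : ℤ) (b : Mon n d → ℤ) :
    toF (fun α => P * b α) = C P * toF b := by
  unfold toF
  rw [Finset.mul_sum]
  exact Finset.sum_congr rfl fun α _ => by rw [C_mul_monomial]

private theorem SvRed_congr {n d P : ℕ} {Y : Type} [AddCommGroup Y]
    (ψ : MvPolynomial (Fin (n + 1)) ℤ →+ Y) (hψ : ∀ F, ψ (C (P : ℤ) * F) = 0)
    (a b : Mon n d → ℤ) (h : ∀ α, ((a α : ℤ) : ZMod P) = ((b α : ℤ) : ZMod P)) :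
    ψ (toF a) = ψ (toF b) := by
  have h1 : ∀ α, ∃ k : ℤ, a α = b α + P * k := by
    intro α
    have h2 := (ZMod.intCast_eq_intCast_iff_dvd_sub _ _ _).1 (h α)
    obtain ⟨k, hk⟩ := h2
    exact ⟨-k, by linarith⟩
  choose k hk using h1
  have h3 : a = fun α => b α + (P : ℤ) * k α := funext hk
  rw [h3, SvRed_toF_add, SvRed_toF_mul, map_add, hψ, add_zero]

theorem exists_red {n d P : ℕ} (hP : 1 ≤ P) {Y : Type} [AddCommGroup Y]
    (ψ : MvPolynomial (Fin (n + 1)) ℤ →+ Y) (hψ : ∀ F, ψ (C (P : ℤ) * F) = 0) :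
    ∃ φ : (Mon n d → ZMod P) →+ Y, (∀ c, φ c = ψ (Fz P c)) ∧
      ∀ F : MvPolynomial (Fin (n + 1)) ℤ, F.IsHomogeneous d → ∃ c, φ c = ψ F := by
  haveI : NeZero P := ⟨by omega⟩
  refine ⟨AddMonoidHom.mk' (fun c => ψ (Fz P c)) fun c c' => ?_, fun c => rfl, fun F hF => ?_⟩
  · rw [← map_add]
    unfold Fz
    rw [← SvRed_toF_add]
    refine SvRed_congr ψ hψ _ _ fun α => ?_
    push_cast
    rw [ZMod.natCast_zmod_val, ZMod.natCast_zmod_val, ZMod.natCast_zmod_val, Pi.add_apply]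
  · obtain ⟨c, hc⟩ := exists_toF hF
    refine ⟨fun α => ((c α : ℤ) : ZMod P), ?_⟩
    rw [← hc]
    show ψ (Fz P _) = ψ (toF c)
    unfold Fz
    refine SvRed_congr ψ hψ _ _ fun α => ?_
    push_cast
    rw [ZMod.natCast_zmod_val]

theorem deh_onto {n d : ℕ} (m : Fin (n + 1)) (f : MvPolynomial {i : Fin (n + 1) // i ≠ m} ℤ)
    (hf : f.totalDegree ≤ d) : ∃ F : MvPolynomial (Fin (n + 1)) ℤ, F.IsHomogeneous d ∧
      deh m F = f := by
  refine ⟨∑ β ∈ f.support, rename Subtype.val (monomial β (coeff β f)) * X m ^ (d - β.degree),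
    ?_, ?_⟩
  · refine IsHomogeneous.sum _ _ _ fun β hβ => ?_
    have h1 : β.degree ≤ d := by
      refine le_trans ?_ hf
      have := le_totalDegree hβ
      rw [Finsupp.degree_apply]
      exact this
    have h2 : (rename (Subtype.val : {i : Fin (n + 1) // i ≠ m} → Fin (n + 1))
        (monomial β (coeff β f))).IsHomogeneous β.degree :=
      (isHomogeneous_monomial _ rfl).rename_isHomogeneous
    have h3 := h2.mul ((isHomogeneous_X ℤ m).pow (d - β.degree))
    rw [one_mul, Nat.add_sub_cancel' h1] at h3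
    exact h3
  · have h4 : ∀ g : MvPolynomial {i : Fin (n + 1) // i ≠ m} ℤ, deh m (rename Subtype.val g) = g := by
      intro g
      have h5 : (deh m).comp (rename Subtype.val) = AlgHom.id ℤ _ := by
        apply MvPolynomial.algHom_ext
        intro i
        rw [AlgHom.comp_apply, rename_X, deh_X, AlgHom.id_apply]
      exact DFunLike.congr_fun h5 g
    rw [map_sum]
    conv_rhs => rw [f.as_sum]
    refine Finset.sum_congr rfl fun β _ => ?_
    rw [map_mul, map_pow, deh_X_self, one_pow, mul_one, h4]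

theorem deh_degree {n d : ℕ} (m : Fin (n + 1)) {F : MvPolynomial (Fin (n + 1)) ℤ}
    (hF : F.IsHomogeneous d) : (deh m F).totalDegree ≤ d := by
  unfold deh
  rw [aeval_def, eval₂_eq]
  refine (totalDegree_finsetSum _ _).trans (Finset.sup_le fun α hα => ?_)
  refine (totalDegree_mul _ _).trans ?_
  have h0 : ((algebraMap ℤ (MvPolynomial {i : Fin (n + 1) // i ≠ m} ℤ)) (coeff α F)).totalDegree
      = 0 := by
    rw [algebraMap_eq, totalDegree_C]
  rw [h0, zero_add]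
  have h1 : ∑ i ∈ α.support, α i = d := by
    have := hF (mem_support_iff.mp hα)
    simpa [Finsupp.weight_apply, Finsupp.sum] using this
  refine (totalDegree_finset_prod _ _).trans ?_
  rw [← h1]
  refine Finset.sum_le_sum fun i _ => ?_
  refine (totalDegree_pow _ _).trans ?_
  have h2 : (if h : i ≠ m then (X ⟨i, h⟩ : MvPolynomial {i : Fin (n + 1) // i ≠ m} ℤ)
      else 1).totalDegree ≤ 1 := by
    split_ifs
    · rw [totalDegree_X]
    · rw [totalDegree_one]
      exact Nat.zero_le _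
  calc α i * _ ≤ α i * 1 := Nat.mul_le_mul_left _ h2
    _ = α i := mul_one _

/-- The reduction modulo an ideal `I` which contains `P`, with `A / I` of order `p ^ a`, `a ≤ d + 1`, is onto
(`chain_images`, `deh_onto`). -/
theorem red_onto {n d P : ℕ} (hP : 1 ≤ P) (m : Fin (n + 1)) {p : ℕ} (hp : p.Prime)
    (I : Ideal (MvPolynomial {i : Fin (n + 1) // i ≠ m} ℤ))
    (hPI : C (P : ℤ) ∈ I) {a : ℕ}
    (hI : Nat.card (MvPolynomial {i : Fin (n + 1) // i ≠ m} ℤ ⧸ I) = p ^ a) (ha : a ≤ d + 1) :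
    ∃ φ : (Mon n d → ZMod P) →+ MvPolynomial {i : Fin (n + 1) // i ≠ m} ℤ ⧸ I,
      Function.Surjective φ ∧ ∀ c, φ c = Ideal.Quotient.mk I (deh m (Fz P c)) := by
  obtain ⟨φ, h1, h2⟩ := exists_red (n := n) (d := d) hP
    (((Ideal.Quotient.mk I).comp (deh m : MvPolynomial (Fin (n + 1)) ℤ →+* _)).toAddMonoidHom)
    (fun F => by
      show Ideal.Quotient.mk I (deh m (C (P : ℤ) * F)) = 0
      rw [Ideal.Quotient.eq_zero_iff_mem, map_mul]
      have h3 : deh m (C (P : ℤ)) = C (P : ℤ) := by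
        rw [← algebraMap_eq, AlgHom.commutes, algebraMap_eq]
      rw [h3]
      exact I.mul_mem_right _ hPI)
  refine ⟨φ, fun y => ?_, h1⟩
  haveI : Finite (MvPolynomial {i : Fin (n + 1) // i ≠ m} ℤ ⧸ I) := by
    apply Nat.finite_of_card_ne_zero
    rw [hI]
    exact pow_ne_zero _ hp.ne_zero
  have h4 := chain_images hp I hI d
  rw [min_eq_left ha, ← hI, ← Set.ncard_univ] at h4
  have h5 := Set.eq_of_subset_of_ncard_le (Set.subset_univ _) h4 Set.finite_univ
  have h6 : y ∈ Ideal.Quotient.mk I ''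
      {f : MvPolynomial {i : Fin (n + 1) // i ≠ m} ℤ | f.totalDegree ≤ d} := by
    rw [h5]
    exact Set.mem_univ _
  obtain ⟨f, hf, rfl⟩ := h6
  obtain ⟨F, hF, rfl⟩ := deh_onto m f hf
  exact h2 F hF

/-- `LocOK F p` depends only on `F` modulo `p ^ 3`: `p ^ 3 ∈ M ^ 3`, and the derivatives of multiples of `p`
are multiples of `p`. -/
theorem locOK_congr {n : ℕ} {p : ℕ} {F G : MvPolynomial (Fin (n + 1)) ℤ}
    (h : C ((p ^ 3 : ℕ) : ℤ) ∣ F - G) (hF : LocOK F p) : LocOK G p := by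
  intro m
  obtain ⟨H, hH⟩ := h
  have h1 : deh m F = deh m G + C ((p ^ 3 : ℕ) : ℤ) * deh m H := by
    have h2 : F = G + C ((p ^ 3 : ℕ) : ℤ) * H := by rw [← hH]; ring
    have h3 : deh m (C ((p ^ 3 : ℕ) : ℤ)) = C ((p ^ 3 : ℕ) : ℤ) := by
      rw [← algebraMap_eq, AlgHom.commutes, algebraMap_eq]
    rw [h2, map_add, map_mul, h3]
  have h4 : (C ((p ^ 3 : ℕ) : ℤ) : MvPolynomial {i : Fin (n + 1) // i ≠ m} ℤ) = C (p : ℤ) ^ 3 := by
    rw [← map_pow]
    push_cast
    rfl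
  obtain ⟨h5, h6⟩ := hF m
  refine ⟨fun Q hQ hpQ hGQ hdQ => ?_, fun M hM hpM hX hGM => ?_⟩
  · have h7 : (C ((p ^ 3 : ℕ) : ℤ) : MvPolynomial {i : Fin (n + 1) // i ≠ m} ℤ) ∈ Q := by
      rw [h4]
      exact Ideal.pow_mem_of_mem _ hpQ 3 (by norm_num)
    refine h5 Q hQ hpQ ?_ fun i => ?_
    · rw [h1]
      exact Q.add_mem hGQ (Q.mul_mem_right _ h7)
    · rw [h1, map_add, Derivation.leibniz, pderiv_C, smul_zero, add_zero, smul_eq_mul]
      exact Q.add_mem (hdQ i) (Q.mul_mem_right _ h7)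
  · have h7 : (C ((p ^ 3 : ℕ) : ℤ) : MvPolynomial {i : Fin (n + 1) // i ≠ m} ℤ) ∈ M ^ 3 := by
      rw [h4]
      exact Ideal.pow_mem_pow hpM 3
    have h8 : (C ((p ^ 3 : ℕ) : ℤ) : MvPolynomial {i : Fin (n + 1) // i ≠ m} ℤ) ∈ M ^ 2 :=
      Ideal.pow_le_pow_right (by norm_num) h7
    have h9 : deh m F ∈ M ^ 2 := by
      rw [h1]
      exact (M ^ 2).add_mem hGM ((M ^ 2).mul_mem_right _ h8)
    obtain ⟨z, η, a, hpar, hta, hsm⟩ := h6 M hM hpM hX h9
    refine ⟨z, η, a, hpar, ?_, hsm⟩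
    have h10 : deh m G - ∑ i, ∑ j, a i j * η i * η j =
        (deh m F - ∑ i, ∑ j, a i j * η i * η j) - C ((p ^ 3 : ℕ) : ℤ) * deh m H := by
      rw [h1]
      ring
    rw [h10]
    exact Ideal.sub_mem _ hta (Ideal.mem_sup_right ((M ^ 3).mul_mem_right _ h7))

end Pool.Agent.NT9
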