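import Pool.Agent.NT9.SvLow
import Pool.Agent.NT9.SvHi

set_option autoImplicit false

/-!
# The sum of the local densities

`loc_bound`: if `LocOK (Fz c) p` fails then there is a chart `m` with `¬ CritR (fp p m (Fz c))`, or `CritR` and a point of degree
`> r` of this chart with `deh m (Fz c) ∈ M ^ 2` (`high_chart`), or a first-chart point of degree `e`, `1 ≤ e ≤ r`, with
`deh m (Fz c) ∈ M ^ 2` and not `TZ` (`low_sum`); `iso_of_crit`, `quot_finite`.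
-/

namespace Pool.Agent.NT9

open MvPolynomial Pool.Agent.NH

/-- `1 / (q ^ 2 (q - 1) (q ^ 2 - 1))` -/
noncomputable def gq (q : ℝ) : ℝ := 1 / (q ^ 2 * (q - 1) * (q ^ 2 - 1))

theorem loc_bound {n d : ℕ} {p : ℕ} (hp : p.Prime) {r : ℕ} (hr : r = d / (1 + (n + 1) + (n + 1) ^ 2))
    {ε : ℝ} (hε : ∀ m : Fin (n + 1),
      pr (fun c : Mon n d → ZMod (p ^ 3) => ¬ CritR (fp p m (Fz (p ^ 3) c))) ≤ ε) :
    pr (fun c : Mon n d → ZMod (p ^ 3) => ¬ LocOK (Fz (p ^ 3) c) p) ≤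
      ∑ e ∈ Finset.Icc 1 r, gq ((p : ℝ) ^ e) +
        (n + 1) * (ε + ((d : ℝ) + 1) ^ (n ^ 2) / (p : ℝ) ^ (r + 1)) := by
  classical
  have hne : NeZero (p ^ 3) := ⟨pow_ne_zero 3 hp.ne_zero⟩
  have hD0 : 0 < 1 + (n + 1) + (n + 1) ^ 2 := by omega
  have hrd : r ≤ d := by
    rw [hr]
    exact Nat.div_le_self _ _
  set L : ℕ → (Mon n d → ZMod (p ^ 3)) → Prop := fun e c => ∃ m : Fin (n + 1),
      ∃ M : Ideal (MvPolynomial {i : Fin (n + 1) // i ≠ m} ℤ), M.IsMaximal ∧ C (p : ℤ) ∈ M ∧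
        (∀ i : {i : Fin (n + 1) // i ≠ m}, i.1 < m → X i ∈ M) ∧
        Nat.card (MvPolynomial {i : Fin (n + 1) // i ≠ m} ℤ ⧸ M) = p ^ e ∧
        deh m (Fz (p ^ 3) c) ∈ M ^ 2 ∧ ¬ TZ (deh m (Fz (p ^ 3) c)) M with hL
  set Cr : Fin (n + 1) → (Mon n d → ZMod (p ^ 3)) → Prop := fun m c =>
    ¬ CritR (fp p m (Fz (p ^ 3) c)) with hCr
  set Hi : Fin (n + 1) → (Mon n d → ZMod (p ^ 3)) → Prop := fun m c =>
    CritR (fp p m (Fz (p ^ 3) c)) ∧
      ∃ M : Ideal (MvPolynomial {i : Fin (n + 1) // i ≠ m} ℤ), M.IsMaximal ∧ C (p : ℤ) ∈ M ∧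
        (∃ e : ℕ, r < e ∧ Nat.card (MvPolynomial {i : Fin (n + 1) // i ≠ m} ℤ ⧸ M) = p ^ e) ∧
        deh m (Fz (p ^ 3) c) ∈ M ^ 2 with hHi
  have hcov : ∀ c : Mon n d → ZMod (p ^ 3), ¬ LocOK (Fz (p ^ 3) c) p →
      (∃ e ∈ Finset.Icc 1 r, L e c) ∨
        ((∃ m ∈ (Finset.univ : Finset (Fin (n + 1))), Cr m c) ∨
          (∃ m ∈ (Finset.univ : Finset (Fin (n + 1))), Hi m c)) := by
    intro c hc
    by_cases hcr : ∃ m : Fin (n + 1), Cr m c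
    · obtain ⟨m, hm⟩ := hcr
      exact Or.inr (Or.inl ⟨m, Finset.mem_univ _, hm⟩)
    push Not at hcr
    have hcr' : ∀ m, CritR (fp p m (Fz (p ^ 3) c)) := fun m => by
      have := hcr m
      rw [hCr] at this
      exact not_not.1 this
    have h1 : ∃ m : Fin (n + 1), ¬ ∀ M : Ideal (MvPolynomial {i : Fin (n + 1) // i ≠ m} ℤ),
        M.IsMaximal → C (p : ℤ) ∈ M →
        (∀ i : {i : Fin (n + 1) // i ≠ m}, i.1 < m → X i ∈ M) →
        deh m (Fz (p ^ 3) c) ∈ M ^ 2 → TZ (deh m (Fz (p ^ 3) c)) M := by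
      by_contra hcon
      push Not at hcon
      exact hc fun m => ⟨fun Q hQ hpQ _ hd => iso_of_crit hp m (hcr' m) Q hQ hpQ hd, hcon m⟩
    obtain ⟨m, hm⟩ := h1
    push Not at hm
    obtain ⟨M, hM, hpM, hX, hd, hTZ⟩ := hm
    obtain ⟨-, e, he1, he⟩ := quot_finite hp M hM hpM
    by_cases her : e ≤ r
    · exact Or.inl ⟨e, Finset.mem_Icc.2 ⟨he1, her⟩, m, M, hM, hpM, hX, he, hd, hTZ⟩
    · exact Or.inr (Or.inr ⟨m, Finset.mem_univ _, hcr' m, M, hM, hpM, ⟨e, by omega, he⟩, hd⟩)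
  refine (pr_mono hcov).trans ((pr_or _ _).trans ?_)
  refine add_le_add ((pr_exists _ _).trans ?_) ((pr_or _ _).trans ?_)
  · refine Finset.sum_le_sum fun e he => ?_
    rw [Finset.mem_Icc] at he
    have hed : e * (1 + (n + 1) + (n + 1) ^ 2) ≤ d := by
      rw [← Nat.le_div_iff_mul_le hD0, ← hr]
      exact he.2
    exact low_sum hp he.1 hed
  · have h2 : pr (fun c => ∃ m ∈ (Finset.univ : Finset (Fin (n + 1))), Cr m c) ≤ (n + 1) * ε := by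
      refine (pr_exists _ _).trans ((Finset.sum_le_sum fun m _ => hε m).trans ?_)
      rw [Finset.sum_const, Finset.card_univ, Fintype.card_fin, nsmul_eq_mul]
      push_cast
      exact le_rfl
    have h3 : pr (fun c => ∃ m ∈ (Finset.univ : Finset (Fin (n + 1))), Hi m c) ≤
        (n + 1) * (((d : ℝ) + 1) ^ (n ^ 2) / (p : ℝ) ^ (r + 1)) := by
      refine (pr_exists _ _).trans ((Finset.sum_le_sum fun m _ => high_chart hrd hp m).trans ?_)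
      rw [Finset.sum_const, Finset.card_univ, Fintype.card_fin, nsmul_eq_mul]
      push_cast
      exact le_rfl
    rw [mul_add]
    exact add_le_add h2 h3

private theorem sumgq_nonneg (q : ℕ) : 0 ≤ gq (q : ℝ) := by
  unfold gq
  rcases Nat.eq_zero_or_pos q with h | h
  · subst h; simp
  · have h1 : (1 : ℝ) ≤ q := by exact_mod_cast h
    have h2 : (0 : ℝ) ≤ (q : ℝ) - 1 := by linarith
    have h3 : (0 : ℝ) ≤ (q : ℝ) ^ 2 - 1 := by nlinarith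
    positivity

private theorem sumgq_le (q : ℕ) (hq : 6 ≤ q) :
    gq (q : ℝ) ≤ (1 / 210) * (1 / ((q : ℝ) - 1) - 1 / (q : ℝ)) := by
  have h1 : (6 : ℝ) ≤ q := by exact_mod_cast hq
  have h2 : (0 : ℝ) < (q : ℝ) - 1 := by linarith
  have h3 : (0 : ℝ) < (q : ℝ) ^ 2 - 1 := by nlinarith
  have h4 : 1 / ((q : ℝ) - 1) - 1 / (q : ℝ) = 1 / ((q : ℝ) * ((q : ℝ) - 1)) := by
    field_simp
    ring
  rw [h4]
  unfold gq
  rw [← one_div_mul_one_div_rev, one_div_mul_one_div_rev]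
  rw [one_div_mul_one_div_rev] 
  refine one_div_le_one_div_of_le (by positivity) ?_
  have h5 : (210 : ℝ) ≤ q * ((q : ℝ) ^ 2 - 1) := by nlinarith
  nlinarith [mul_le_mul_of_nonneg_left h5 (show (0 : ℝ) ≤ (q : ℝ) * ((q : ℝ) - 1) by positivity)]

private theorem sumgq_tail (N : ℕ) (hN : 5 ≤ N) :
    ∑ q ∈ Finset.Icc 2 N, gq (q : ℝ) ≤
      1 / 12 + 1 / 144 + 1 / 720 + 1 / 2400 + (1 / 210) * (1 / 5 - 1 / (N : ℝ)) := by
  induction N, hN using Nat.le_induction with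
  | base =>
    have : Finset.Icc 2 5 = ({2, 3, 4, 5} : Finset ℕ) := by decide
    rw [this]
    simp only [gq]
    rw [Finset.sum_insert (by decide), Finset.sum_insert (by decide), Finset.sum_insert (by decide),
      Finset.sum_singleton]
    norm_num
  | succ N hN ih =>
    rw [Finset.sum_Icc_succ_top (by omega)]
    have := sumgq_le (N + 1) (by omega)
    push_cast at this ⊢
    have h2 : (N : ℝ) + 1 - 1 = N := by ring
    rw [h2] at this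
    linarith

/-- `gq 2 = 1/12`, `gq 3 = 1/144`, `gq 4 = 1/720`, `gq 5 = 1/2400`, and
`gq q <= 1 / (6 * 35 * q (q - 1))` for `q >= 6` (telescoping); `(p, e) ↦ p ^ e` is injective on the primes times the
positive integers. -/
theorem sum_gq (M r : ℕ) : ∑ p ∈ (Finset.range (M + 1)).filter Nat.Prime,
    ∑ e ∈ Finset.Icc 1 r, gq ((p : ℝ) ^ e) ≤ 931 / 10000 := by
  classical
  set S : Finset (ℕ × ℕ) := ((Finset.range (M + 1)).filter Nat.Prime) ×ˢ Finset.Icc 1 r with hS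
  have hmem : ∀ x ∈ S, x.1.Prime ∧ 1 ≤ x.2 := by
    intro x hx
    rw [hS, Finset.mem_product, Finset.mem_filter, Finset.mem_Icc] at hx
    exact ⟨hx.1.2, hx.2.1⟩
  have h1 : ∑ p ∈ (Finset.range (M + 1)).filter Nat.Prime,
      ∑ e ∈ Finset.Icc 1 r, gq ((p : ℝ) ^ e) = ∑ x ∈ S, gq (((x.1 ^ x.2 : ℕ)) : ℝ) := by
    rw [hS, Finset.sum_product]
    push_cast
    rfl
  have hinj : ∀ x ∈ S, ∀ y ∈ S, x.1 ^ x.2 = y.1 ^ y.2 → x = y := by
    rintro ⟨p, e⟩ hx ⟨p', e'⟩ hy hxy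
    obtain ⟨hp, he⟩ := hmem _ hx
    obtain ⟨hp', he'⟩ := hmem _ hy
    dsimp only at hp he hp' he' hxy
    have h2 : p ∣ p' ^ e' := by
      rw [← hxy]
      exact dvd_pow_self p (by omega)
    have h3 : p = p' := (Nat.prime_dvd_prime_iff_eq hp hp').1 (hp.dvd_of_dvd_pow h2)
    subst h3
    have h4 : e = e' := Nat.pow_right_injective hp.two_le hxy
    subst h4
    rfl
  rw [h1, ← Finset.sum_image (f := fun q : ℕ => gq (q : ℝ)) (g := fun x : ℕ × ℕ => x.1 ^ x.2) hinj]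
  set N : ℕ := max 5 ((S.image fun x : ℕ × ℕ => x.1 ^ x.2).sup id) with hN
  have hsub : (S.image fun x : ℕ × ℕ => x.1 ^ x.2) ⊆ Finset.Icc 2 N := by
    intro q hq
    obtain ⟨x, hx, rfl⟩ := Finset.mem_image.1 hq
    obtain ⟨hp, he⟩ := hmem _ hx
    rw [Finset.mem_Icc]
    refine ⟨?_, ?_⟩
    · calc 2 ≤ x.1 := hp.two_le
        _ = x.1 ^ 1 := (pow_one _).symm
        _ ≤ x.1 ^ x.2 := Nat.pow_le_pow_right hp.pos he
    · exact (Finset.le_sup (f := id) hq).trans (le_max_right _ _)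
  refine (Finset.sum_le_sum_of_subset_of_nonneg hsub fun q _ _ => sumgq_nonneg q).trans ?_
  have h5 : 5 ≤ N := le_max_left _ _
  refine (sumgq_tail N h5).trans ?_
  have h6 : (0 : ℝ) ≤ 1 / (N : ℝ) := by positivity
  linarith

private theorem smsum_tail (M : ℕ) : ∑ p ∈ (Finset.range (M + 1)).filter Nat.Prime,
    1 / (p : ℝ) ^ 2 ≤ 1 := by
  have h1 : ∀ N : ℕ, ∑ q ∈ Finset.Icc 2 (N + 1), 1 / (q : ℝ) ^ 2 ≤ 1 - 1 / ((N : ℝ) + 1) := by
    intro N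
    induction N with
    | zero => simp
    | succ N ih =>
      rw [Finset.sum_Icc_succ_top (by omega)]
      push_cast
      have h2 : 1 / ((N : ℝ) + 1 + 1) ^ 2 ≤ 1 / ((N : ℝ) + 1) - 1 / ((N : ℝ) + 1 + 1) := by
        have h3 : (0 : ℝ) < (N : ℝ) + 1 := by positivity
        have h4 : 1 / ((N : ℝ) + 1) - 1 / ((N : ℝ) + 1 + 1) =
            1 / (((N : ℝ) + 1) * ((N : ℝ) + 1 + 1)) := by
          field_simp
          ring
        rw [h4]
        refine one_div_le_one_div_of_le (by positivity) ?_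
        nlinarith
      linarith
  have h2 : ∑ p ∈ (Finset.range (M + 1)).filter Nat.Prime, 1 / (p : ℝ) ^ 2 ≤
      ∑ q ∈ Finset.Icc 2 (M + 1), 1 / (q : ℝ) ^ 2 := by
    refine Finset.sum_le_sum_of_subset_of_nonneg ?_ fun q _ _ => by positivity
    intro q hq
    rw [Finset.mem_filter, Finset.mem_range] at hq
    rw [Finset.mem_Icc]
    exact ⟨hq.2.two_le, hq.1.le⟩
  have h3 : (0 : ℝ) ≤ 1 / ((M : ℝ) + 1) := by positivity
  linarith [h1 M]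

/-- `(n + 1) sum_p p ^ (-E) <= (n + 1) 2 ^ (2 - E) sum_p p ^ (-2)`; the second sum is at most
`(n + 1) (d + 1) ^ (n ^ 2) 2 ^ (1 - r) sum_p p ^ (-2)`, `r = d / (1 + (n + 1) + (n + 1) ^ 2)`. -/
theorem small_sum (n : ℕ) : ∃ E d₁ : ℕ, ∀ d : ℕ, d₁ ≤ d → ∀ M : ℕ,
    ∑ p ∈ (Finset.range (M + 1)).filter Nat.Prime,
      ((n : ℝ) + 1) * (1 / (p : ℝ) ^ E +
        ((d : ℝ) + 1) ^ (n ^ 2) / (p : ℝ) ^ (d / (1 + (n + 1) + (n + 1) ^ 2) + 1)) ≤
      49 / 10000 := by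
  set D : ℕ := 1 + (n + 1) + (n + 1) ^ 2 with hD
  have hD0 : 0 < D := by omega
  have hn : (0 : ℝ) < (n : ℝ) + 1 := by positivity
  -- choice of E
  obtain ⟨E₀, hE₀⟩ : ∃ E₀ : ℕ, ((n : ℝ) + 1) / 2 ^ E₀ ≤ 24 / 10000 := by
    obtain ⟨E₀, hE₀⟩ := pow_unbounded_of_one_lt (((n : ℝ) + 1) / (24 / 10000)) (one_lt_two)
    refine ⟨E₀, ?_⟩
    rw [div_lt_iff₀ (by norm_num)] at hE₀
    rw [div_le_iff₀ (by positivity)]
    linarith
  -- choice of R
  have ht := tendsto_pow_const_div_const_pow_of_one_lt (n ^ 2) (one_lt_two : (1 : ℝ) < 2)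
  set c : ℝ := (25 / 10000) / (((n : ℝ) + 1) * (D : ℝ) ^ (n ^ 2) * 4) with hc
  have hc0 : 0 < c := by positivity
  obtain ⟨R₀, hR₀⟩ := Filter.eventually_atTop.1 (ht.eventually (ge_mem_nhds hc0))
  refine ⟨E₀ + 2, D * (R₀ + 1), fun d hd M => ?_⟩
  obtain ⟨r, hr⟩ : ∃ r : ℕ, r = d / D := ⟨_, rfl⟩
  rw [← hr]
  have hr1 : R₀ + 1 ≤ r := by
    rw [hr, Nat.le_div_iff_mul_le hD0]
    linarith [hd, Nat.mul_comm D (R₀ + 1)]
  have hdr : d + 1 ≤ D * (r + 1) := by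
    have := Nat.lt_mul_div_succ d hD0
    rw [hr]
    exact this
  have hdr' : (d : ℝ) + 1 ≤ D * ((r : ℝ) + 1) := by exact_mod_cast hdr
  have key : ∀ p ∈ (Finset.range (M + 1)).filter Nat.Prime,
      ((n : ℝ) + 1) * (1 / (p : ℝ) ^ (E₀ + 2) + ((d : ℝ) + 1) ^ (n ^ 2) / (p : ℝ) ^ (r + 1)) ≤
      49 / 10000 * (1 / (p : ℝ) ^ 2) := by
    intro p hp
    have hp2 : (2 : ℝ) ≤ p := by exact_mod_cast (Finset.mem_filter.1 hp).2.two_le
    have hp0 : (0 : ℝ) < p := by linarith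
    have h1 : 1 / (p : ℝ) ^ (E₀ + 2) ≤ 1 / 2 ^ E₀ * (1 / (p : ℝ) ^ 2) := by
      rw [pow_add, one_div_mul_one_div]
      refine one_div_le_one_div_of_le (by positivity) ?_
      exact mul_le_mul_of_nonneg_right (pow_le_pow_left₀ (by norm_num) hp2 _) (by positivity)
    have h2 : ((d : ℝ) + 1) ^ (n ^ 2) / (p : ℝ) ^ (r + 1) ≤
        (((d : ℝ) + 1) ^ (n ^ 2) / 2 ^ (r - 1)) * (1 / (p : ℝ) ^ 2) := by
      obtain ⟨k, hk⟩ : ∃ k, r = k + 1 := ⟨r - 1, by omega⟩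
      rw [hk, Nat.add_sub_cancel, div_mul_div_comm, mul_one]
      refine div_le_div_of_nonneg_left (by positivity) (by positivity) ?_
      rw [show k + 1 + 1 = k + 2 by ring, pow_add]
      exact mul_le_mul_of_nonneg_right (pow_le_pow_left₀ (by norm_num) hp2 _) (by positivity)
    have h3 : ((n : ℝ) + 1) * (((d : ℝ) + 1) ^ (n ^ 2) / 2 ^ (r - 1)) ≤ 25 / 10000 := by
      have h4 := hR₀ (r + 1) (by omega)
      have h5 : ((d : ℝ) + 1) ^ (n ^ 2) ≤ (D : ℝ) ^ (n ^ 2) * ((r : ℝ) + 1) ^ (n ^ 2) := by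
        rw [← mul_pow]
        exact pow_le_pow_left₀ (by positivity) hdr' _
      have h6 : (2 : ℝ) ^ (r + 1) = 4 * 2 ^ (r - 1) := by
        obtain ⟨k, hk⟩ : ∃ k, r = k + 1 := ⟨r - 1, by omega⟩
        rw [hk, Nat.add_sub_cancel]
        ring
      push_cast at h4
      rw [h6, div_le_iff₀ (by positivity)] at h4
      rw [mul_div_assoc', div_le_iff₀ (by positivity)]
      calc ((n : ℝ) + 1) * ((d : ℝ) + 1) ^ (n ^ 2)
          ≤ ((n : ℝ) + 1) * ((D : ℝ) ^ (n ^ 2) * ((r : ℝ) + 1) ^ (n ^ 2)) :=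
            mul_le_mul_of_nonneg_left h5 hn.le
        _ ≤ ((n : ℝ) + 1) * ((D : ℝ) ^ (n ^ 2) * (c * (4 * 2 ^ (r - 1)))) := by
            refine mul_le_mul_of_nonneg_left ?_ hn.le
            exact mul_le_mul_of_nonneg_left h4 (by positivity)
        _ = 25 / 10000 * 2 ^ (r - 1) := by
            rw [hc]
            field_simp
    calc ((n : ℝ) + 1) * (1 / (p : ℝ) ^ (E₀ + 2) + ((d : ℝ) + 1) ^ (n ^ 2) / (p : ℝ) ^ (r + 1))
        ≤ ((n : ℝ) + 1) * (1 / 2 ^ E₀ * (1 / (p : ℝ) ^ 2) +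
          (((d : ℝ) + 1) ^ (n ^ 2) / 2 ^ (r - 1)) * (1 / (p : ℝ) ^ 2)) :=
          mul_le_mul_of_nonneg_left (add_le_add h1 h2) hn.le
      _ = (((n : ℝ) + 1) / 2 ^ E₀ + ((n : ℝ) + 1) * (((d : ℝ) + 1) ^ (n ^ 2) / 2 ^ (r - 1))) *
          (1 / (p : ℝ) ^ 2) := by ring
      _ ≤ 49 / 10000 * (1 / (p : ℝ) ^ 2) := by
          refine mul_le_mul_of_nonneg_right ?_ (by positivity)
          linarith
  refine (Finset.sum_le_sum key).trans ?_
  rw [← Finset.mul_sum]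
  have := smsum_tail M
  linarith

/-- The main local result. -/
theorem loc_sum (n : ℕ) : ∃ d₀ : ℕ, ∀ d : ℕ, d₀ ≤ d → ∀ M : ℕ,
    ∑ p ∈ (Finset.range (M + 1)).filter Nat.Prime,
      pr (fun c : Mon n d → ZMod (p ^ 3) => ¬ LocOK (Fz (p ^ 3) c) p) ≤ 98 / 1000 := by
  obtain ⟨E, d₁, h₁⟩ := small_sum n
  obtain ⟨d₂, h₂⟩ := crit_chart n E
  refine ⟨max d₁ d₂, fun d hd M => ?_⟩
  have hd1 : d₁ ≤ d := (le_max_left _ _).trans hd
  have hd2 : d₂ ≤ d := (le_max_right _ _).trans hd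
  have key : ∀ p ∈ (Finset.range (M + 1)).filter Nat.Prime,
      pr (fun c : Mon n d → ZMod (p ^ 3) => ¬ LocOK (Fz (p ^ 3) c) p) ≤
      ∑ e ∈ Finset.Icc 1 (d / (1 + (n + 1) + (n + 1) ^ 2)), gq ((p : ℝ) ^ e) +
        ((n : ℝ) + 1) * (1 / (p : ℝ) ^ E +
          ((d : ℝ) + 1) ^ (n ^ 2) / (p : ℝ) ^ (d / (1 + (n + 1) + (n + 1) ^ 2) + 1)) := by
    intro p hp
    exact loc_bound (Finset.mem_filter.1 hp).2 rfl (h₂ d hd2 p (Finset.mem_filter.1 hp).2)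
  refine (Finset.sum_le_sum key).trans ?_
  rw [Finset.sum_add_distrib]
  have h3 := sum_gq M (d / (1 + (n + 1) + (n + 1) ^ 2))
  have h4 := h₁ d hd1 M
  linarith

end Pool.Agent.NT9
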